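import Pool.Agent.Work.MP_b29d7f_low.Interface2

/-!
# Block BLK: the blocks of small span
-/

namespace Pool.Agent.Work.MP_b29d7f_low

open Finset
open Pool.Agent.Work.MP_b29d7f_nt (IsPOrdering HasSimultaneousOrdering PS vd ld tv)
open Pool.Agent.Work.MP_b29d7f_half (Ord A wv lD)

/-- monotonicity of the logarithm of a difference -/
theorem blk_log_mono {a : ℕ → ℤ} {k₀ : ℕ} {C₀ : ℝ} (hD : Dat a k₀ C₀) {i j i' j' : ℕ}
    (h0 : k₀ ≤ i') (h1 : i' ≤ i) (h2 : i < j) (h3 : j ≤ j') :
    Real.log ((a j - a i : ℤ) : ℝ) ≤ Real.log ((a j' - a i' : ℤ) : ℝ) := by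
  have e1 : a i' ≤ a i := by
    rcases Nat.lt_or_ge i' i with h | h
    · exact (hD.top i' i (by omega) h).le
    · have : i' = i := le_antisymm h1 h
      rw [this]
  have e2 : a j ≤ a j' := by
    rcases Nat.lt_or_ge j j' with h | h
    · exact (hD.top j j' (by omega) h).le
    · have : j = j' := le_antisymm h3 h
      rw [this]
  have e3 : a i < a j := hD.top i j (by omega) h2
  apply Real.log_le_log
  · exact_mod_cast sub_pos.mpr e3
  · have : a j - a i ≤ a j' - a i' := by omega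
    exact_mod_cast this

theorem stmt_BLK : Stmt_BLK := by
  classical
  intro a k₀ C₀ hD N m Q y e hm hmQ he
  have hQ : 1 ≤ Q := hm.trans hmQ
  have h2 : ∀ j ∈ DD a k₀ N Q y, ∀ i : ℕ, j * Q - Q ≤ i → i ≤ j * Q + Q → Gm a m i ≤ y := by
    intro j hj i hi1 hi2
    rw [mem_DD] at hj
    obtain ⟨-, hj1, hj2, hj3⟩ := hj
    unfold Gm
    exact (blk_log_mono hD (i' := j * Q - Q) (j' := j * Q + 2 * Q) (by omega) hi1 (by omega)
      (by omega)).trans hj3
  -- the union of the blocks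
  set U : Finset ℕ := (DD a k₀ N Q y).biUnion fun j => Ico (j * Q) (j * Q + Q) with hU
  have hdisj : ∀ j ∈ DD a k₀ N Q y, ∀ j' ∈ DD a k₀ N Q y, j ≠ j' →
      Disjoint (Ico (j * Q) (j * Q + Q)) (Ico (j' * Q) (j' * Q + Q)) := by
    intro j _ j' _ hjj
    rw [Finset.disjoint_left]
    intro u hu hu'
    rw [mem_Ico] at hu hu'
    have e1 : u / Q = j := by
      apply Nat.div_eq_of_lt_le
      · omega
      · have : (j + 1) * Q = j * Q + Q := by ring
        omega
    have e2 : u / Q = j' := by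
      apply Nat.div_eq_of_lt_le
      · omega
      · have : (j' + 1) * Q = j' * Q + Q := by ring
        omega
    exact hjj (e1.symm.trans e2)
  have hUc : U.card = (DD a k₀ N Q y).card * Q := by
    rw [hU, Finset.card_biUnion hdisj]
    have h : ∀ j ∈ DD a k₀ N Q y, (Ico (j * Q) (j * Q + Q)).card = Q := by
      intro j _
      rw [Nat.card_Ico]
      exact Nat.add_sub_cancel_left _ _
    rw [Finset.sum_congr rfl h, Finset.sum_const, smul_eq_mul]
  refine ⟨?_, h2, ?_, ?_⟩
  · -- (1)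
    have hsub : ((Ico k₀ N).filter fun u => Gm a m u ≤ y - e) ⊆
        U ∪ ((Ico (k₀ + 2 * Q) N).filter fun u =>
          Gm a m u + e < Real.log ((a (u + 2 * Q) - a (u - 2 * Q) : ℤ) : ℝ)) ∪
        (Ico k₀ (k₀ + 4 * Q) ∪ Ico (N - 4 * Q) N) := by
      intro u hu
      rw [Finset.mem_filter, mem_Ico] at hu
      obtain ⟨⟨hu1, hu2⟩, hu3⟩ := hu
      by_cases hA : u < k₀ + 4 * Q
      · exact Finset.mem_union_right _ (Finset.mem_union_left _ (Finset.mem_Ico.mpr ⟨hu1, hA⟩))
      by_cases hB : N - 4 * Q ≤ u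
      · exact Finset.mem_union_right _ (Finset.mem_union_right _ (Finset.mem_Ico.mpr ⟨hB, hu2⟩))
      by_cases hC : Gm a m u + e < Real.log ((a (u + 2 * Q) - a (u - 2 * Q) : ℤ) : ℝ)
      · exact Finset.mem_union_left _ (Finset.mem_union_right _
          (Finset.mem_filter.mpr ⟨Finset.mem_Ico.mpr ⟨by omega, hu2⟩, hC⟩))
      refine Finset.mem_union_left _ (Finset.mem_union_left _ ?_)
      rw [hU, Finset.mem_biUnion]
      have d1 : u / Q * Q ≤ u := Nat.div_mul_le_self u Q
      have d2 : u < u / Q * Q + Q := Nat.lt_div_mul_add hQ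
      have d3 : u / Q ≤ u := Nat.div_le_self u Q
      refine ⟨u / Q, ?_, Finset.mem_Ico.mpr ⟨d1, d2⟩⟩
      rw [mem_DD]
      refine ⟨by omega, by omega, by omega, ?_⟩
      have e1 := blk_log_mono hD (i := u / Q * Q - Q) (j := u / Q * Q + 2 * Q) (i' := u - 2 * Q)
        (j' := u + 2 * Q) (by omega) (by omega) (by omega) (by omega)
      push Not at hC
      linarith
    have hc := Finset.card_le_card hsub
    have hc2 := Finset.card_union_le (U ∪ ((Ico (k₀ + 2 * Q) N).filter fun u =>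
          Gm a m u + e < Real.log ((a (u + 2 * Q) - a (u - 2 * Q) : ℤ) : ℝ)))
        (Ico k₀ (k₀ + 4 * Q) ∪ Ico (N - 4 * Q) N)
    have hc3 := Finset.card_union_le U ((Ico (k₀ + 2 * Q) N).filter fun u =>
          Gm a m u + e < Real.log ((a (u + 2 * Q) - a (u - 2 * Q) : ℤ) : ℝ))
    have hc4 := Finset.card_union_le (Ico k₀ (k₀ + 4 * Q)) (Ico (N - 4 * Q) N)
    rw [Nat.card_Ico, Nat.card_Ico] at hc4
    have hfin : cnt a k₀ N m (y - e) ≤ (DD a k₀ N Q y).card * Q + atyp a k₀ N m Q e +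
        (k₀ + 10 * Q) := by
      unfold cnt atyp
      rw [← hUc]
      omega
    exact_mod_cast hfin
  · -- (3)
    have hsub : U ⊆ (Ico k₀ N).filter fun u => Gm a m u ≤ y := by
      intro u hu
      rw [hU, Finset.mem_biUnion] at hu
      obtain ⟨j, hj, hu⟩ := hu
      rw [mem_Ico] at hu
      have hj' := mem_DD.mp hj
      rw [Finset.mem_filter, mem_Ico]
      exact ⟨⟨by omega, by omega⟩, h2 j hj u (by omega) (by omega)⟩
    have hc := Finset.card_le_card hsub
    have hfin : (DD a k₀ N Q y).card * Q ≤ cnt a k₀ N m y := by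
      unfold cnt
      rw [← hUc]
      exact hc
    exact_mod_cast hfin
  · intro j hj
    have hj' := mem_DD.mp hj
    obtain ⟨-, hj1, hj2, hj3⟩ := hj'
    refine ⟨by omega, by omega, by omega, ?_⟩
    have e1 := blk_log_mono hD (i := j * Q) (j := j * Q + Q) (i' := j * Q - Q)
      (j' := j * Q + 2 * Q) (by omega) (by omega) (by omega) (by omega)
    have e2 : (0 : ℝ) < ((a (j * Q + Q) - a (j * Q) : ℤ) : ℝ) := by
      exact_mod_cast sub_pos.mpr (hD.top (j * Q) (j * Q + Q) (by omega) (by omega))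
    calc ((a (j * Q + Q) - a (j * Q) : ℤ) : ℝ)
        = Real.exp (Real.log ((a (j * Q + Q) - a (j * Q) : ℤ) : ℝ)) := (Real.exp_log e2).symm
      _ ≤ Real.exp y := Real.exp_le_exp.mpr (e1.trans hj3)

end Pool.Agent.Work.MP_b29d7f_low
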