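import Pool.Agent.Work.MP_b29d7f_low.Interface3

/-! # Block COUP: the coupling matrix (helper57) -/

set_option autoImplicit false

namespace Pool.Agent.Work.MP_b29d7f_low

open Finset

namespace COUP

theorem overlap {a b c d : ℝ} (h1 : a ≤ b) (h2 : c ≤ d) :
    max 0 (min b d - max a c) = min b d - min a d - min b c + min a c := by
  rcases le_total a c with hac | hac <;> rcases le_total b d with hbd | hbd <;>
    rcases le_total a d with had | had <;> rcases le_total b c with hbc | hbc <;>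
    simp only [max_eq_right, max_eq_left, min_eq_left, min_eq_right, hac, hbd, had, hbc] <;>
    first
    | (rw [max_eq_right (by linarith)]; linarith)
    | (rw [max_eq_left (by linarith)]; linarith)

variable (u v : ℕ → ℝ)

theorem Ps_succ (i : ℕ) : Ps u (i + 1) = Ps u i + u (i + 1) := by
  unfold Ps
  rw [Finset.sum_Icc_succ_top (by omega)]

theorem Ps_zero : Ps u 0 = 0 := by simp [Ps]

theorem Ps_mono (hu : ∀ i, 0 ≤ u i) : Monotone (Ps u) :=
  monotone_nat_of_le_succ fun i => by rw [Ps_succ]; linarith [hu (i + 1)]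

theorem Ps_nonneg (hu : ∀ i, 0 ≤ u i) (i : ℕ) : 0 ≤ Ps u i :=
  Finset.sum_nonneg fun l _ => hu l

variable {u v}

theorem Cm_eq (hu : ∀ i, 0 ≤ u i) (hv : ∀ i, 0 ≤ v i) (i j : ℕ) :
    Cm (Ps u) (Ps v) i j = min (Ps u i) (Ps v j) - min (Ps u (i - 1)) (Ps v j)
      - min (Ps u i) (Ps v (j - 1)) + min (Ps u (i - 1)) (Ps v (j - 1)) :=
  overlap (Ps_mono u hu (Nat.sub_le i 1)) (Ps_mono v hv (Nat.sub_le j 1))

theorem row (hu : ∀ i, 0 ≤ u i) (hv : ∀ i, 0 ≤ v i) (i m : ℕ) :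
    ∑ j ∈ Icc 1 m, Cm (Ps u) (Ps v) i j =
      min (Ps u i) (Ps v m) - min (Ps u (i - 1)) (Ps v m) := by
  induction m with
  | zero =>
    simp only [Ps_zero]
    rw [min_eq_right (Ps_nonneg u hu _), min_eq_right (Ps_nonneg u hu _)]
    simp
  | succ m ih =>
    rw [Finset.sum_Icc_succ_top (by omega), ih, Cm_eq hu hv]
    simp only [Nat.add_sub_cancel]
    ring

theorem box (hu : ∀ i, 0 ≤ u i) (hv : ∀ i, 0 ≤ v i) (n m : ℕ) :
    ∑ i ∈ Icc 1 n, ∑ j ∈ Icc 1 m, Cm (Ps u) (Ps v) i j = min (Ps u n) (Ps v m) := by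
  induction n with
  | zero =>
    simp only [Ps_zero]
    rw [min_eq_left (Ps_nonneg v hv _)]
    simp
  | succ n ih =>
    rw [Finset.sum_Icc_succ_top (by omega), ih, row hu hv]
    simp only [Nat.add_sub_cancel]
    ring

theorem Cm_symm (i j : ℕ) : Cm (Ps u) (Ps v) i j = Cm (Ps v) (Ps u) j i := by
  unfold Cm
  rw [min_comm, max_comm (Ps u (i - 1))]

/-- Restriction of the double sum to a box. -/
theorem restrict (f : ℕ → ℕ → ℝ) (L n : ℕ) (hn : n ≤ L) :
    ∑ i ∈ Icc 1 L, ∑ j ∈ Icc 1 L, (if i ≤ n ∧ j ≤ n then f i j else 0) =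
      ∑ i ∈ Icc 1 n, ∑ j ∈ Icc 1 n, f i j := by
  have hsub : Icc 1 n ⊆ Icc 1 L := Finset.Icc_subset_Icc_right hn
  rw [← Finset.sum_subset hsub]
  · refine Finset.sum_congr rfl fun i hi => ?_
    rw [← Finset.sum_subset hsub]
    · refine Finset.sum_congr rfl fun j hj => ?_
      rw [if_pos ⟨(mem_Icc.1 hi).2, (mem_Icc.1 hj).2⟩]
    · intro j hj hj'
      rw [if_neg]
      rintro ⟨_, h⟩
      exact hj' (mem_Icc.2 ⟨(mem_Icc.1 hj).1, h⟩)
  · intro i hi hi'
    refine Finset.sum_eq_zero fun j _ => ?_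
    rw [if_neg]
    rintro ⟨h, _⟩
    exact hi' (mem_Icc.2 ⟨(mem_Icc.1 hi).1, h⟩)

end COUP

open COUP in
theorem p_COUP : Stmt_COUP := by
  intro u v L hu hv hL
  have hrow : ∀ i ∈ Icc 1 L, ∑ j ∈ Icc 1 L, Cm (Ps u) (Ps v) i j = u i := by
    intro i hi
    obtain ⟨h1, h2⟩ := mem_Icc.1 hi
    rw [row hu hv]
    have hL' : Ps v L = Ps u L := hL.symm
    rw [hL', min_eq_left (Ps_mono u hu h2), min_eq_left (Ps_mono u hu (by omega))]
    obtain ⟨k, rfl⟩ : ∃ k, i = k + 1 := ⟨i - 1, by omega⟩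
    rw [Nat.add_sub_cancel, Ps_succ]
    ring
  have hcol : ∀ j ∈ Icc 1 L, ∑ i ∈ Icc 1 L, Cm (Ps u) (Ps v) i j = v j := by
    intro j hj
    obtain ⟨h1, h2⟩ := mem_Icc.1 hj
    simp only [Cm_symm (u := u) (v := v)]
    rw [row hv hu]
    have hL' : Ps u L = Ps v L := hL
    rw [hL', min_eq_left (Ps_mono v hv h2), min_eq_left (Ps_mono v hv (by omega))]
    obtain ⟨k, rfl⟩ : ∃ k, j = k + 1 := ⟨j - 1, by omega⟩
    rw [Nat.add_sub_cancel, Ps_succ]
    ring
  have hmax : ∀ k ∈ Icc 1 L,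
      ∑ i ∈ Icc 1 L, ∑ j ∈ Icc 1 L, (if max i j = k then Cm (Ps u) (Ps v) i j else 0) =
        min (Ps u k) (Ps v k) - min (Ps u (k - 1)) (Ps v (k - 1)) := by
    intro k hk
    obtain ⟨h1, h2⟩ := mem_Icc.1 hk
    rw [← box hu hv k k, ← box hu hv (k - 1) (k - 1), ← restrict _ L k h2,
      ← restrict _ L (k - 1) (by omega), ← Finset.sum_sub_distrib]
    refine Finset.sum_congr rfl fun i hi => ?_
    rw [← Finset.sum_sub_distrib]
    refine Finset.sum_congr rfl fun j hj => ?_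
    have hi1 := (mem_Icc.1 hi).1
    have hj1 := (mem_Icc.1 hj).1
    by_cases h : max i j = k
    · rw [if_pos h, if_pos (by omega), if_neg (by omega)]; ring
    · rw [if_neg h]
      by_cases h' : i ≤ k ∧ j ≤ k
      · rw [if_pos h', if_pos (by omega)]; ring
      · rw [if_neg h', if_neg (by omega)]; ring
  refine ⟨fun i j => le_max_left _ _, hrow, hcol, hmax, fun k hk => ?_⟩
  obtain ⟨h1, h2⟩ := mem_Icc.1 hk
  have hsum : ∑ i ∈ Icc 1 L, ∑ j ∈ Icc 1 L,
        (if min i j = k then Cm (Ps u) (Ps v) i j else 0) +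
      ∑ i ∈ Icc 1 L, ∑ j ∈ Icc 1 L, (if max i j = k then Cm (Ps u) (Ps v) i j else 0) =
      ∑ i ∈ Icc 1 L, ∑ j ∈ Icc 1 L, (if i = k then Cm (Ps u) (Ps v) i j else 0) +
      ∑ i ∈ Icc 1 L, ∑ j ∈ Icc 1 L, (if j = k then Cm (Ps u) (Ps v) i j else 0) := by
    rw [← Finset.sum_add_distrib, ← Finset.sum_add_distrib]
    refine Finset.sum_congr rfl fun i _ => ?_
    rw [← Finset.sum_add_distrib, ← Finset.sum_add_distrib]
    refine Finset.sum_congr rfl fun j _ => ?_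
    rcases le_total i j with h | h
    · rw [min_eq_left h, max_eq_right h]
    · rw [min_eq_right h, max_eq_left h]; ring
  have hI : ∑ i ∈ Icc 1 L, ∑ j ∈ Icc 1 L, (if i = k then Cm (Ps u) (Ps v) i j else 0) = u k := by
    rw [Finset.sum_eq_single k]
    · simp only [if_true]; exact hrow k hk
    · intro i _ hi
      exact Finset.sum_eq_zero fun j _ => if_neg hi
    · intro h; exact absurd hk h
  have hJ : ∑ i ∈ Icc 1 L, ∑ j ∈ Icc 1 L, (if j = k then Cm (Ps u) (Ps v) i j else 0) = v k := by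
    rw [← hcol k hk]
    refine Finset.sum_congr rfl fun i _ => ?_
    rw [Finset.sum_ite_eq']
    rw [if_pos hk]
  rw [hI, hJ, hmax k hk] at hsum
  obtain ⟨m, rfl⟩ : ∃ m, k = m + 1 := ⟨k - 1, by omega⟩
  rw [Nat.add_sub_cancel] at hsum ⊢
  have e1 := min_add_max (Ps u (m + 1)) (Ps v (m + 1))
  have e2 := min_add_max (Ps u m) (Ps v m)
  have e3 := Ps_succ u m
  have e4 := Ps_succ v m
  linarith

end Pool.Agent.Work.MP_b29d7f_low
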