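import Pool.Agent.Work.MP_b29d7f_low.Interface3

/-!
# Block DYA (helper7): popular differences
-/

set_option autoImplicit false

namespace Pool.Agent.Work.MP_b29d7f_low

open Finset
open Pool.Agent.Work.MP_b29d7f_nt (IsPOrdering HasSimultaneousOrdering PS vd ld tv)
open Pool.Agent.Work.MP_b29d7f_half (Ord A wv lD)
open Pool.Agent.Work.MP_b29d7f_sep (nv EW EL)

theorem DYA_A_mem {a : ℕ → ℤ} {N i : ℕ} (h : i < N) : a i ∈ A a N := by
  unfold A
  exact mem_image_of_mem a (mem_range.mpr h)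

theorem DYA_A_card (a : ℕ → ℤ) (N : ℕ) : (A a N).card ≤ N := by
  unfold A
  exact card_image_le.trans (by rw [card_range])

theorem stmt_DYA (h : Stmt_PAE) : Stmt_DYA := by
  classical
  intro a k₀ C₀ hd N m H c hN hm hmc hc
  have hinj : Function.Injective a := (h a hd.ord).1
  set F := (Ico k₀ N).filter fun u => a (u + m) - a u ≤ (H : ℤ) with hF
  set F' := F.filter fun u => u + m < N with hF'
  have hF'card : c - m ≤ F'.card := by
    have h1 : (F.filter fun u => ¬ u + m < N).card ≤ m := by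
      have h2 : (F.filter fun u => ¬ u + m < N) ⊆ Ico (N - m) N := by
        intro u hu
        rw [mem_filter, hF, mem_filter, mem_Ico] at hu
        rw [mem_Ico]
        omega
      have h3 := card_le_card h2
      rw [Nat.card_Ico] at h3
      omega
    have h4 := card_filter_add_card_filter_not (s := F) (fun u => u + m < N)
    rw [← hF'] at h4
    omega
  set P := F' ×ˢ Icc 1 m with hP
  have hPcard : (c - m) * m ≤ P.card := by
    rw [hP, card_product, Nat.card_Icc]
    have : m + 1 - 1 = m := by omega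
    rw [this]
    exact Nat.mul_le_mul_right _ hF'card
  have hPmem : ∀ q ∈ P, k₀ ≤ q.1 ∧ q.1 + m < N ∧ a (q.1 + m) - a q.1 ≤ (H : ℤ) ∧ 1 ≤ q.2 ∧
      q.2 ≤ m := by
    intro q hq
    rw [hP, mem_product, hF', mem_filter, hF, mem_filter, mem_Ico, mem_Icc] at hq
    exact ⟨hq.1.1.1.1, hq.1.2, hq.1.1.2, hq.2.1, hq.2.2⟩
  have hmaps : ∀ q ∈ P, a (q.1 + q.2) - a q.1 ∈ Icc 1 (H : ℤ) := by
    intro q hq
    obtain ⟨h1, h2, h3, h4, h5⟩ := hPmem q hq
    rw [mem_Icc]
    have h6 : a q.1 < a (q.1 + q.2) := hd.top q.1 (q.1 + q.2) (by omega) (by omega)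
    have h7 : a (q.1 + q.2) ≤ a (q.1 + m) := by
      rcases Nat.lt_or_ge q.2 m with h8 | h8
      · exact (hd.top (q.1 + q.2) (q.1 + m) (by omega) (by omega)).le
      · have : q.2 = m := by omega
        rw [this]
    constructor
    · omega
    · omega
  have hfib : ∀ δ ∈ Icc 1 (H : ℤ), (P.filter fun q => a (q.1 + q.2) - a q.1 = δ).card ≤
      (Kd a N δ).card := by
    intro δ _
    apply card_le_card_of_injOn (fun q => a q.1)
    · intro q hq
      rw [mem_coe, mem_filter] at hq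
      obtain ⟨h1, h2, h3, h4, h5⟩ := hPmem q hq.1
      rw [mem_coe, mem_Kd]
      refine ⟨DYA_A_mem (by omega), ?_⟩
      have h6 : a q.1 + δ = a (q.1 + q.2) := by rw [← hq.2]; ring
      simp only
      rw [h6]
      exact DYA_A_mem (by omega)
    · intro q hq r hr hqr
      rw [mem_coe, mem_filter] at hq hr
      simp only at hqr
      have h1 : q.1 = r.1 := hinj hqr
      have h2 : a (q.1 + q.2) = a (r.1 + r.2) := by
        have := hq.2
        have := hr.2
        linarith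
      have h3 := hinj h2
      ext
      · exact h1
      · omega
  have hsum : (c - m) * m ≤ ∑ δ ∈ Icc 1 (H : ℤ), (Kd a N δ).card := by
    calc (c - m) * m ≤ P.card := hPcard
      _ = ∑ δ ∈ Icc 1 (H : ℤ), (P.filter fun q => a (q.1 + q.2) - a q.1 = δ).card :=
          card_eq_sum_card_fiberwise hmaps
      _ ≤ ∑ δ ∈ Icc 1 (H : ℤ), (Kd a N δ).card := sum_le_sum hfib
  have hKN : ∀ δ, (Kd a N δ).card ≤ N := by
    intro δ
    have h1 : Kd a N δ ⊆ A a N := by
      intro x hx
      exact (mem_Kd.mp hx).1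
    exact (card_le_card h1).trans (DYA_A_card a N)
  set S := (Icc 1 (H : ℤ)).filter fun δ => 1 ≤ (Kd a N δ).card with hS
  have hsumS : ∑ δ ∈ Icc 1 (H : ℤ), (Kd a N δ).card = ∑ δ ∈ S, (Kd a N δ).card := by
    rw [hS, sum_filter]
    refine sum_congr rfl fun δ _ => ?_
    split_ifs with h1
    · rfl
    · omega
  have hmap2 : ∀ δ ∈ S, Nat.log 2 (Kd a N δ).card ∈ range (Nat.log 2 N + 1) := by
    intro δ _
    rw [mem_range]
    have := Nat.log_mono_right (b := 2) (hKN δ)
    omega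
  have hfw : ∑ j ∈ range (Nat.log 2 N + 1),
      ∑ δ ∈ S.filter (fun δ => Nat.log 2 (Kd a N δ).card = j), (Kd a N δ).card =
      ∑ δ ∈ S, (Kd a N δ).card := sum_fiberwise_of_maps_to hmap2 _
  have hne : (range (Nat.log 2 N + 1)).Nonempty := ⟨0, by simp⟩
  obtain ⟨j, hj, hjj⟩ := exists_le_of_sum_le
    (f := fun _ => (c - m) * m)
    (g := fun j => (∑ δ ∈ S.filter (fun δ => Nat.log 2 (Kd a N δ).card = j), (Kd a N δ).card) *
      (Nat.log 2 N + 1)) hne (by
      have e1 : ∑ _j ∈ range (Nat.log 2 N + 1), (c - m) * m =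
          (c - m) * m * (Nat.log 2 N + 1) := by
        rw [sum_const, card_range, smul_eq_mul, mul_comm]
      rw [e1, ← sum_mul (range (Nat.log 2 N + 1)) (fun j =>
        ∑ δ ∈ S.filter (fun δ => Nat.log 2 (Kd a N δ).card = j), (Kd a N δ).card)
        (Nat.log 2 N + 1), hfw, ← hsumS]
      exact Nat.mul_le_mul_right _ hsum)
  set D := S.filter (fun δ => Nat.log 2 (Kd a N δ).card = j) with hD
  have hpos : 0 < (c - m) * m := Nat.mul_pos (by omega) (by omega)
  have hDne : D.Nonempty := by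
    rw [nonempty_iff_ne_empty]
    intro h0
    rw [h0, sum_empty, Nat.zero_mul] at hjj
    omega
  have hDmem : ∀ δ ∈ D, δ ∈ Icc 1 (H : ℤ) ∧ 2 ^ j ≤ (Kd a N δ).card ∧
      (Kd a N δ).card < 2 * 2 ^ j := by
    intro δ hδ
    rw [hD, mem_filter, hS, mem_filter] at hδ
    obtain ⟨⟨h1, h2⟩, h3⟩ := hδ
    refine ⟨h1, ?_, ?_⟩
    · rw [← h3]
      exact Nat.pow_log_le_self 2 (by omega)
    · rw [← h3, ← pow_succ']
      exact Nat.lt_pow_succ_log_self (by norm_num) _
  refine ⟨2 ^ j, D, Nat.one_le_two_pow, ?_, ?_, hDne, ?_, ?_⟩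
  · obtain ⟨δ, hδ⟩ := hDne
    exact (hDmem δ hδ).2.1.trans (hKN δ)
  · intro δ hδ
    exact (hDmem δ hδ).1
  · intro δ hδ
    exact (hDmem δ hδ).2
  · refine hjj.trans (Nat.mul_le_mul_right _ ?_)
    calc ∑ δ ∈ D, (Kd a N δ).card ≤ ∑ _δ ∈ D, 2 * 2 ^ j :=
          sum_le_sum fun δ hδ => (hDmem δ hδ).2.2.le
      _ = D.card * (2 * 2 ^ j) := by rw [sum_const, smul_eq_mul]

end Pool.Agent.Work.MP_b29d7f_low
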