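import Pool.Agent.Work.MP_b29d7f_low.Interface3

/-!
# Block EQM: existence of the equilibrium measure (helper96)
-/

namespace Pool.Agent.Work.MP_b29d7f_low

open Finset
open Pool.Agent.Work.MP_b29d7f_nt (IsPOrdering HasSimultaneousOrdering PS vd ld tv)
open Pool.Agent.Work.MP_b29d7f_half (Ord A wv lD)
open Pool.Agent.Work.MP_b29d7f_sep (nv EW EL)

/-- number of the levels `s ≤ j < s + r` with `p ^ j ∣ x` -/
def EQM_k (p s r : ℕ) (x : ℤ) : ℕ := ((Ico s (s + r)).filter fun j => (p : ℤ) ^ j ∣ x).card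

theorem EQM_k_zero (p s : ℕ) (x : ℤ) : EQM_k p s 0 x = 0 := by
  simp [EQM_k]

theorem EQM_k_succ_of_dvd (p s r : ℕ) {x : ℤ} (h : (p : ℤ) ^ s ∣ x) :
    EQM_k p s (r + 1) x = 1 + EQM_k p (s + 1) r x := by
  unfold EQM_k
  have e : Ico s (s + (r + 1)) = insert s (Ico (s + 1) (s + 1 + r)) := by
    ext j
    simp only [mem_Ico, mem_insert]
    omega
  rw [e, Finset.filter_insert, if_pos h, Finset.card_insert_of_notMem]
  · omega
  · simp

theorem EQM_k_of_not_dvd (p s r : ℕ) {x : ℤ} (h : ¬ (p : ℤ) ^ s ∣ x) : EQM_k p s r x = 0 := by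
  unfold EQM_k
  rw [Finset.card_eq_zero, Finset.filter_eq_empty_iff]
  intro j hj hd
  exact h ((pow_dvd_pow _ (mem_Ico.1 hj).1).trans hd)

theorem EQM_aux (p : ℕ) : ∀ (r s : ℕ) (X : Finset ℤ), X.Nonempty → ∃ (μ : ℤ → ℝ) (θ : ℝ),
    (∀ x, 0 ≤ μ x) ∧ (∀ x, x ∉ X → μ x = 0) ∧ ∑ x ∈ X, μ x = 1 ∧ 0 ≤ θ ∧ (1 ≤ r → 0 < θ) ∧
      ∀ x ∈ X, ∑ y ∈ X, (EQM_k p s r (x - y) : ℝ) * μ y = θ := by
  classical
  intro r
  induction r with
  | zero =>
    intro s X hX
    have hc : (0 : ℝ) < X.card := by exact_mod_cast hX.card_pos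
    refine ⟨fun x => if x ∈ X then 1 / (X.card : ℝ) else 0, 0, ?_, ?_, ?_, le_rfl, ?_, ?_⟩
    · intro x
      show 0 ≤ (if x ∈ X then 1 / (X.card : ℝ) else 0)
      split_ifs
      · positivity
      · exact le_rfl
    · intro x hx
      simp [hx]
    · rw [Finset.sum_congr rfl (fun x hx => if_pos hx), Finset.sum_const, nsmul_eq_mul]
      field_simp
    · intro h
      omega
    · intro x _
      refine Finset.sum_eq_zero fun y _ => ?_
      rw [EQM_k_zero]
      simp
  | succ r ih =>
    intro s X hX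
    choose! M t hM0 hMs hM1 ht0 _ hMp using ih (s + 1)
    set cl : ℤ → Finset ℤ := fun x => X.filter (fun y => (p : ℤ) ^ s ∣ x - y) with hcl
    have hmem : ∀ x y, y ∈ cl x ↔ y ∈ X ∧ (p : ℤ) ^ s ∣ x - y := by
      intro x y
      simp [hcl]
    have hself : ∀ x ∈ X, x ∈ cl x := fun x hx => (hmem x x).2 ⟨hx, by simp⟩
    have hne : ∀ x ∈ X, (cl x).Nonempty := fun x hx => ⟨x, hself x hx⟩
    have hcleq : ∀ x y, (p : ℤ) ^ s ∣ x - y → cl x = cl y := by
      intro x y hxy
      ext z
      rw [hmem, hmem]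
      refine and_congr_right fun _ => ?_
      constructor
      · intro h
        have := dvd_sub h hxy
        have e : x - z - (x - y) = y - z := by ring
        rwa [e] at this
      · intro h
        have := dvd_add h hxy
        have e : y - z + (x - y) = x - z := by ring
        rwa [e] at this
    have ht1 : ∀ x ∈ X, (0 : ℝ) < 1 + t (cl x) := fun x hx => by
      have := ht0 (cl x) (hne x hx)
      linarith
    set Z : ℝ := ∑ C ∈ X.image cl, 1 / (1 + t C) with hZ
    have hZ0 : 0 < Z := by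
      refine Finset.sum_pos (fun C hC => ?_) (hX.image cl)
      obtain ⟨x, hx, rfl⟩ := Finset.mem_image.1 hC
      exact one_div_pos.2 (ht1 x hx)
    set μ : ℤ → ℝ := fun y => if y ∈ X then 1 / Z * (1 / (1 + t (cl y))) * M (cl y) y else 0 with hμ
    have hμX : ∀ y ∈ X, μ y = 1 / Z * (1 / (1 + t (cl y))) * M (cl y) y := fun y hy => by
      simp [hμ, hy]
    refine ⟨μ, 1 / Z, ?_, ?_, ?_, (one_div_pos.2 hZ0).le, fun _ => one_div_pos.2 hZ0, ?_⟩
    · intro y
      by_cases hy : y ∈ X
      · rw [hμX y hy]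
        have h1 := ht1 y hy
        have h2 := hM0 (cl y) (hne y hy) y
        positivity
      · simp [hμ, hy]
    · intro y hy
      simp [hμ, hy]
    · rw [← Finset.sum_fiberwise_of_maps_to (g := cl) (t := X.image cl)
        (fun x hx => Finset.mem_image_of_mem cl hx)]
      have h1 : ∀ C ∈ X.image cl, ∑ y ∈ X.filter (fun y => cl y = C), μ y =
          1 / Z * (1 / (1 + t C)) := by
        intro C hC
        obtain ⟨x, hx, rfl⟩ := Finset.mem_image.1 hC
        have e : X.filter (fun y => cl y = cl x) = cl x := by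
          ext y
          rw [Finset.mem_filter, hmem]
          refine and_congr_right fun hy => ?_
          constructor
          · intro h
            have h2 := hself y hy
            rw [h] at h2
            exact ((hmem x y).1 h2).2
          · intro h
            exact (hcleq x y h).symm
        rw [e]
        have h2 : ∀ y ∈ cl x, μ y = 1 / Z * (1 / (1 + t (cl x))) * M (cl x) y := by
          intro y hy
          have hy' := (hmem x y).1 hy
          rw [hμX y hy'.1, ← hcleq x y hy'.2]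
        rw [Finset.sum_congr rfl h2, ← Finset.mul_sum, hM1 (cl x) (hne x hx), mul_one]
      rw [Finset.sum_congr rfl h1, ← Finset.mul_sum, ← hZ]
      field_simp
    · intro x hx
      have hsub : cl x ⊆ X := Finset.filter_subset _ _
      rw [← Finset.sum_subset hsub (f := fun y => (EQM_k p s (r + 1) (x - y) : ℝ) * μ y)]
      · have h2 : ∀ y ∈ cl x, (EQM_k p s (r + 1) (x - y) : ℝ) * μ y =
            1 / Z * (1 / (1 + t (cl x))) *
              (M (cl x) y + (EQM_k p (s + 1) r (x - y) : ℝ) * M (cl x) y) := by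
          intro y hy
          have hy' := (hmem x y).1 hy
          rw [hμX y hy'.1, ← hcleq x y hy'.2, EQM_k_succ_of_dvd p s r hy'.2]
          push_cast
          ring
        rw [Finset.sum_congr rfl h2, ← Finset.mul_sum, Finset.sum_add_distrib,
          hM1 (cl x) (hne x hx), hMp (cl x) (hne x hx) x (hself x hx)]
        have h3 := ht1 x hx
        field_simp
      · intro y hy hny
        have h3 : ¬ (p : ℤ) ^ s ∣ x - y := fun h => hny ((hmem x y).2 ⟨hy, h⟩)
        rw [EQM_k_of_not_dvd p s (r + 1) h3]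
        simp

theorem stmt_EQM : Stmt_EQM := by
  intro X p L hX hL
  obtain ⟨μ, θ, h1, h2, h3, _, h5, h6⟩ := EQM_aux p L 1 X hX
  refine ⟨μ, θ, h1, h2, h3, h5 hL, fun x hx => ?_⟩
  rw [← h6 x hx]
  refine Finset.sum_congr rfl fun y _ => ?_
  congr 2
  unfold tv EQM_k
  congr 1
  ext j
  simp only [Finset.mem_filter, Finset.mem_Icc, Finset.mem_Ico]
  refine and_congr_left fun _ => ?_
  omega

end Pool.Agent.Work.MP_b29d7f_low
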