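import Pool.Agent.Work.MP_b29d7f_low.Interface3

set_option autoImplicit false

namespace Pool.Agent.Work.MP_b29d7f_low

open Finset
open scoped ComplexConjugate

/-- the standard character -/
noncomputable def four_e (n : ℕ) [NeZero n] (x : ZMod n) : ℂ := ZMod.stdAddChar x

theorem four_e_add (n : ℕ) [NeZero n] (x y : ZMod n) : four_e n (x + y) = four_e n x * four_e n y := by
  unfold four_e
  exact AddChar.map_add_eq_mul _ _ _

theorem four_e_zero (n : ℕ) [NeZero n] : four_e n 0 = 1 := by
  unfold four_e
  exact AddChar.map_zero_eq_one _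

theorem four_e_norm (n : ℕ) [NeZero n] (x : ZMod n) : ‖four_e n x‖ = 1 := by
  unfold four_e
  exact AddChar.norm_apply _ _

theorem four_e_neg (n : ℕ) [NeZero n] (x : ZMod n) : four_e n (-x) = conj (four_e n x) := by
  unfold four_e
  exact AddChar.map_neg_eq_conj _ _

theorem four_e_sum (n : ℕ) [NeZero n] (t : ZMod n) :
    ∑ a : ZMod n, four_e n (a * t) = if t = 0 then (n : ℂ) else 0 := by
  unfold four_e
  rw [AddChar.sum_mulShift t (ZMod.isPrimitive_stdAddChar n)]
  simp [ZMod.card]

/-- the Fourier transform -/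
noncomputable def four_F (n : ℕ) [NeZero n] (f : ZMod n → ℝ) (a : ZMod n) : ℂ :=
  ∑ x, (f x : ℂ) * four_e n (a * x)

theorem four_parseval (n : ℕ) [NeZero n] (f : ZMod n → ℝ) :
    ∑ a, ‖four_F n f a‖ ^ 2 = n * ∑ x, f x ^ 2 := by
  have h : ((∑ a, ‖four_F n f a‖ ^ 2 : ℝ) : ℂ) = ((n * ∑ x, f x ^ 2 : ℝ) : ℂ) := by
    push_cast
    have h1 : ∀ a, ((‖four_F n f a‖ : ℂ)) ^ 2 =
        ∑ x, ∑ y, (f x : ℂ) * (f y : ℂ) * four_e n (a * (x - y)) := by
      intro a
      rw [← Complex.mul_conj']
      unfold four_F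
      rw [map_sum, Finset.sum_mul_sum]
      apply Finset.sum_congr rfl
      intro x _
      apply Finset.sum_congr rfl
      intro y _
      rw [map_mul, Complex.conj_ofReal, ← four_e_neg]
      have h2 : a * (x - y) = a * x + -(a * y) := by ring
      rw [h2, four_e_add]
      ring
    rw [Finset.sum_congr rfl (fun a _ => h1 a)]
    rw [Finset.sum_comm]
    rw [Finset.mul_sum]
    apply Finset.sum_congr rfl
    intro x _
    rw [Finset.sum_comm]
    have h3 : ∀ y, ∑ a, (f x : ℂ) * (f y : ℂ) * four_e n (a * (x - y)) =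
        if y = x then (n : ℂ) * (f x : ℂ) ^ 2 else 0 := by
      intro y
      rw [← Finset.mul_sum, four_e_sum]
      by_cases hxy : y = x
      · subst hxy
        simp
        ring
      · have : ¬ (x - y = 0) := fun h => hxy (sub_eq_zero.1 h).symm
        rw [if_neg this, if_neg hxy]
        ring
    rw [Finset.sum_congr rfl (fun y _ => h3 y)]
    simp
  exact_mod_cast h

theorem four_shift (n : ℕ) [NeZero n] (f : ZMod n → ℝ) (δ a : ZMod n) :
    four_F n (fun x => f (x + δ) - f x) a = (four_e n (-(a * δ)) - 1) * four_F n f a := by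
  have h1 : ∑ x, (f (x + δ) : ℂ) * four_e n (a * x) =
      four_e n (-(a * δ)) * ∑ x, (f x : ℂ) * four_e n (a * x) := by
    rw [Finset.mul_sum]
    refine Fintype.sum_equiv (Equiv.addRight δ) _ _ ?_
    intro x
    simp only [Equiv.coe_addRight]
    have h2 : a * (x + δ) = a * x + a * δ := by ring
    have h3 : four_e n (-(a * δ)) * four_e n (a * δ) = 1 := by
      rw [← four_e_add]
      simp [four_e_zero]
    rw [h2, four_e_add]
    calc (f (x + δ) : ℂ) * four_e n (a * x)
        = (f (x + δ) : ℂ) * four_e n (a * x) * (four_e n (-(a * δ)) * four_e n (a * δ)) := by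
          rw [h3, mul_one]
      _ = _ := by ring
  unfold four_F
  rw [sub_mul, one_mul, ← h1, ← Finset.sum_sub_distrib]
  apply Finset.sum_congr rfl
  intro x _
  push_cast
  ring

theorem four_norm_le (n : ℕ) [NeZero n] (f : ZMod n → ℝ) (hf : ∀ x, 0 ≤ f x) (a : ZMod n) :
    ‖four_F n f a‖ ≤ ∑ x, f x := by
  unfold four_F
  refine (norm_sum_le _ _).trans ?_
  apply Finset.sum_le_sum
  intro x _
  rw [norm_mul, four_e_norm, mul_one, Complex.norm_real, Real.norm_eq_abs, abs_of_nonneg (hf x)]

theorem four_re (n : ℕ) [NeZero n] (f : ZMod n → ℝ) (a : ZMod n) :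
    (four_F n f a).re = ∑ x, f x * (four_e n (a * x)).re := by
  unfold four_F
  rw [Complex.re_sum]
  apply Finset.sum_congr rfl
  intro x _
  rw [Complex.re_ofReal_mul]

theorem four_unit (z w : ℂ) (hz : ‖z‖ = 1) (hw : ‖w‖ = 1) :
    1 - (z * w).re ≤ 2 * (1 - z.re) + 2 * (1 - w.re) := by
  have hz2 : z.re ^ 2 + z.im ^ 2 = 1 := by
    have := Complex.sq_norm z
    rw [hz, Complex.normSq_apply] at this
    nlinarith
  have hw2 : w.re ^ 2 + w.im ^ 2 = 1 := by
    have := Complex.sq_norm w
    rw [hw, Complex.normSq_apply] at this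
    nlinarith
  rw [Complex.mul_re]
  nlinarith [sq_nonneg (z.re - 1 - (1 - w.re)), sq_nonneg (z.im + w.im), sq_nonneg (z.im - w.im),
    sq_nonneg (z.re - w.re), sq_nonneg (z.re + w.re - 2)]

theorem four_sq (z : ℂ) (hz : ‖z‖ = 1) : ‖z - 1‖ ^ 2 = 2 * (1 - z.re) := by
  have hz2 : z.re ^ 2 + z.im ^ 2 = 1 := by
    have := Complex.sq_norm z
    rw [hz, Complex.normSq_apply] at this
    nlinarith
  rw [Complex.sq_norm, Complex.normSq_apply]
  simp only [Complex.sub_re, Complex.one_re, Complex.sub_im, Complex.one_im]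
  nlinarith

theorem p_FOUR : Stmt_FOUR := by
  intro n _ μ π hμ hπ hμ1 hπ1
  refine ⟨fun a => (four_F n π a).re, fun a => ‖four_F n μ a‖ ^ 2, fun a => ‖four_F n π a‖ ^ 2,
    ?_, ?_, ?_, ?_, ?_, ?_, ?_, ?_, ?_, ?_, ?_⟩
  · intro a
    have h1 := four_norm_le n π hπ a
    have h2 := Complex.re_le_norm (four_F n π a)
    simp only
    linarith
  · simp only
    rw [four_re]
    simp [four_e_zero, hπ1]
  · intro a
    simp only
    rw [four_re, four_re]
    apply Finset.sum_congr rfl
    intro x _
    rw [neg_mul, four_e_neg, Complex.conj_re]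
  · intro a
    constructor
    · positivity
    · have h1 := four_norm_le n μ hμ a
      rw [hμ1] at h1
      exact pow_le_one₀ (norm_nonneg _) h1
  · simp only
    have : four_F n μ 0 = 1 := by
      unfold four_F
      simp only [zero_mul, four_e_zero, mul_one]
      rw [← Complex.ofReal_sum, hμ1]
      simp
    rw [this]
    simp
  · intro a
    simp only
    have h1 := Complex.abs_re_le_norm (four_F n π a)
    rw [← sq_abs]
    gcongr
  · intro a b
    simp only
    rw [four_re, four_re, four_re]
    have h1 : (1 : ℝ) - ∑ x, π x * (four_e n ((a + b) * x)).re =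
        ∑ x, π x * (1 - (four_e n ((a + b) * x)).re) := by
      have e : ∑ x, π x * (1 - (four_e n ((a + b) * x)).re) =
          ∑ x, (π x - π x * (four_e n ((a + b) * x)).re) := by
        apply Finset.sum_congr rfl
        intro x _
        ring
      rw [e, Finset.sum_sub_distrib, hπ1]
    have h2 : 2 * (1 - ∑ x, π x * (four_e n (a * x)).re) + 2 * (1 - ∑ x, π x * (four_e n (b * x)).re) =
        ∑ x, π x * (2 * (1 - (four_e n (a * x)).re) + 2 * (1 - (four_e n (b * x)).re)) := by
      have e : ∑ x, π x * (2 * (1 - (four_e n (a * x)).re) + 2 * (1 - (four_e n (b * x)).re)) =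
          ∑ x, (4 * π x - 2 * (π x * (four_e n (a * x)).re) - 2 * (π x * (four_e n (b * x)).re)) := by
        apply Finset.sum_congr rfl
        intro x _
        ring
      rw [e, Finset.sum_sub_distrib, Finset.sum_sub_distrib, ← Finset.mul_sum, ← Finset.mul_sum,
        ← Finset.mul_sum, hπ1]
      ring
    rw [h1, h2]
    apply Finset.sum_le_sum
    intro x _
    apply mul_le_mul_of_nonneg_left _ (hπ x)
    rw [add_mul, four_e_add]
    exact four_unit _ _ (four_e_norm _ _) (four_e_norm _ _)
  · exact four_parseval n μ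
  · exact four_parseval n π
  · simp only
    have h1 : ∀ a, ‖four_F n μ a‖ ^ 2 * (2 * (1 - (four_F n π a).re)) =
        ∑ δ, π δ * ‖four_F n (fun x => μ (x + δ) - μ x) a‖ ^ 2 := by
      intro a
      have h2 : 2 * (1 - (four_F n π a).re) = ∑ δ, π δ * (2 * (1 - (four_e n (-(a * δ))).re)) := by
        rw [four_re]
        have e : ∑ δ, π δ * (2 * (1 - (four_e n (-(a * δ))).re)) =
            ∑ δ, (2 * π δ - 2 * (π δ * (four_e n (a * δ)).re)) := by
          apply Finset.sum_congr rfl
          intro x _
          rw [four_e_neg, Complex.conj_re]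
          ring
        rw [e, Finset.sum_sub_distrib, ← Finset.mul_sum, ← Finset.mul_sum, hπ1]
        ring
      rw [h2, Finset.mul_sum]
      apply Finset.sum_congr rfl
      intro δ _
      rw [four_shift, norm_mul, mul_pow, four_sq _ (four_e_norm _ _)]
      ring
    rw [Finset.sum_congr rfl (fun a _ => h1 a), Finset.sum_comm, Finset.mul_sum]
    apply Finset.sum_congr rfl
    intro δ _
    rw [← Finset.mul_sum, four_parseval]
    ring
  · intro r
    simp only
    have h1 : ∀ a, (four_F n π (a * r)).re = ∑ x, π x * (four_e n (a * (x * r))).re := by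
      intro a
      rw [four_re]
      apply Finset.sum_congr rfl
      intro x _
      have : a * r * x = a * (x * r) := by ring
      rw [this]
    rw [Finset.sum_congr rfl (fun a _ => h1 a), Finset.sum_comm, Finset.mul_sum,
      Finset.sum_filter]
    apply Finset.sum_congr rfl
    intro x _
    rw [← Finset.mul_sum, ← Complex.re_sum, four_e_sum]
    split_ifs with h
    · simp
      ring
    · simp

end Pool.Agent.Work.MP_b29d7f_low
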