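import Pool.Agent.Work.MP_b29d7f_low.Interface1

/-!
# FREX: there are arbitrarily large frames (helper78)
-/

namespace Pool.Agent.Work.MP_b29d7f_low

open Finset Filter
open Pool.Agent.Work.MP_b29d7f_nt (IsPOrdering HasSimultaneousOrdering PS vd ld tv)
open Pool.Agent.Work.MP_b29d7f_half (Ord A wv lD)
open Pool.Agent.Work.MP_b29d7f_sep (nv EW EL)

/-- `log l` is small against `log N` -/
private theorem frex_logel (C e : ℝ) (hC : 0 ≤ C) (he : 0 < e) : ∃ N₀ : ℕ, ∀ N : ℕ, N₀ ≤ N →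
    1 ≤ el N ∧ C * Real.log (el N) + 1 ≤ e * Real.log N := by
  have hlog : Tendsto (fun N : ℕ => Real.log (N : ℝ)) atTop atTop :=
    Real.tendsto_log_atTop.comp tendsto_natCast_atTop_atTop
  have hel : Tendsto (fun N : ℕ => ((el N : ℕ) : ℝ)) atTop atTop := by
    refine tendsto_atTop_mono ?_ hlog
    intro N
    exact Nat.le_ceil _
  have h1 : ∀ᶠ x : ℝ in atTop, ‖Real.log x‖ ≤ e / (4 * (C + 1)) * ‖x‖ := by
    have := Real.isLittleO_log_id_atTop
    exact this.bound (by positivity)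
  have h2 := hel.eventually h1
  have h3 : ∀ᶠ N : ℕ in atTop, 4 / e + 1 ≤ Real.log (N : ℝ) := hlog.eventually_ge_atTop _
  obtain ⟨N₀, hN₀⟩ := (h2.and h3).exists_forall_of_atTop
  refine ⟨N₀, fun N hN => ?_⟩
  obtain ⟨h4, h5⟩ := hN₀ N hN
  have hpos : 0 < 4 / e := by positivity
  have hL1 : 1 ≤ Real.log (N : ℝ) := by linarith
  have hel1 : 1 ≤ el N := by
    have : 0 < el N := by
      unfold el
      exact Nat.ceil_pos.2 (by linarith)
    exact this
  refine ⟨hel1, ?_⟩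
  have hel2 : ((el N : ℕ) : ℝ) ≤ Real.log N + 1 := by
    unfold el
    exact (Nat.ceil_lt_add_one (by linarith)).le
  have hel3 : (1 : ℝ) ≤ ((el N : ℕ) : ℝ) := by exact_mod_cast hel1
  rw [Real.norm_of_nonneg (Real.log_nonneg hel3), Real.norm_of_nonneg (by linarith)] at h4
  have h6 : C * Real.log (el N) ≤ (C + 1) * (e / (4 * (C + 1)) * (Real.log N + 1)) := by
    have h7 : Real.log (el N) ≤ e / (4 * (C + 1)) * (Real.log N + 1) :=
      h4.trans (mul_le_mul_of_nonneg_left hel2 (by positivity))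
    have h8 : 0 ≤ Real.log (el N) := Real.log_nonneg hel3
    calc C * Real.log (el N) ≤ (C + 1) * Real.log (el N) := by nlinarith
      _ ≤ (C + 1) * (e / (4 * (C + 1)) * (Real.log N + 1)) :=
        mul_le_mul_of_nonneg_left h7 (by linarith)
  have h9 : (C + 1) * (e / (4 * (C + 1)) * (Real.log N + 1)) = e / 4 * (Real.log N + 1) := by
    field_simp
  rw [h9] at h6
  have h10 : 1 ≤ e / 4 * Real.log N := by
    have : e / 4 * (4 / e + 1) ≤ e / 4 * Real.log N := mul_le_mul_of_nonneg_left h5 (by positivity)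
    have h11 : e / 4 * (4 / e + 1) = 1 + e / 4 := by field_simp
    linarith
  have h12 : 0 ≤ e * (Real.log (N : ℝ) - 1) := mul_nonneg he.le (by linarith)
  nlinarith

theorem stmt_FREX (hLREX : Stmt_LREX) (hRREX : Stmt_RREX) (hSEL : Stmt_SEL) (_hGGB : Stmt_GGB) :
    Stmt_FREX := by
  intro a k₀ C₀ κ b ε β₂ hD hb hε hβ hβ4 hSlo hShi K e₃ e₇ e₈ hK he₃ he₇ he₈
  obtain ⟨J, N₁, hS⟩ := hSEL a k₀ C₀ hD K e₃ e₇ e₈ hK he₃ he₇ he₈
  refine ⟨J, fun N₀ => ?_⟩
  obtain ⟨v₀, hR⟩ := hRREX a k₀ C₀ b ε hD hb hε hSlo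
  have hC₀ : 1 ≤ C₀ := hD.one_le
  have hC₀p : 0 < C₀ := by linarith
  have hβ₁ : 0 < ε * β₂ / (4 * C₀) := by positivity
  obtain ⟨N₂, hE⟩ := frex_logel ((J : ℝ) + 30) (ε * β₂ / (4 * C₀)) (by positivity) hβ₁
  have hlog : Tendsto (fun N : ℕ => Real.log (N : ℝ)) atTop atTop :=
    Real.tendsto_log_atTop.comp tendsto_natCast_atTop_atTop
  have hev : ∀ᶠ N : ℕ in atTop, v₀ / (ε / 4 * β₂) ≤ Real.log (N : ℝ) := hlog.eventually_ge_atTop _
  obtain ⟨N₃, hN₃⟩ := hev.exists_forall_of_atTop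
  obtain ⟨n, hn, hnrec⟩ := hLREX a κ (ε / 2) (by positivity) hShi
    (2 * max (max N₀ N₁) (max (max N₂ N₃) 3))
  have hN : max (max N₀ N₁) (max (max N₂ N₃) 3) ≤ n / 2 := by omega
  have hN0 : N₀ ≤ n / 2 := le_trans (by simp) hN
  have hN1 : N₁ ≤ n / 2 := le_trans (by simp) hN
  have hN2 : N₂ ≤ n / 2 := le_trans (by simp) hN
  have hN3 : N₃ ≤ n / 2 := le_trans (by simp) hN
  have hN4 : 3 ≤ n / 2 := le_trans (by simp) hN
  generalize hNdef : n / 2 = N at hN hN0 hN1 hN2 hN3 hN4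
  obtain ⟨hel1, hEl⟩ := hE N hN2
  have hLN : 0 < Real.log (N : ℝ) := Real.log_pos (by exact_mod_cast (by omega : 1 < N))
  have hv := hN₃ N hN3
  rw [div_le_iff₀ (by positivity)] at hv
  obtain ⟨R, hRrec, hR1, hR2⟩ := hR (ε / 4 * β₂ * Real.log N) (by linarith)
  have hRpos : (0 : ℝ) < R := by exact_mod_cast hRrec.1
  have hR1' : ε * β₂ / (4 * C₀) * Real.log N - 1 ≤ Real.log R := by
    have : ε * β₂ / (4 * C₀) * Real.log N = ε / 4 * β₂ * Real.log N / C₀ := by
      field_simp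
    linarith
  have hR2' : Real.log R ≤ β₂ / 2 * Real.log N := by
    have : 2 * (ε / 4 * β₂ * Real.log N) / ε = β₂ / 2 * Real.log N := by
      field_simp
      norm_num
    linarith
  have helpos : (0 : ℝ) < (el N : ℕ) := by exact_mod_cast hel1
  have hc1 : el N ^ (J + 30) ≤ R := by
    have h1 : Real.log ((el N ^ (J + 30) : ℕ) : ℝ) ≤ Real.log R := by
      push_cast
      rw [Real.log_pow]
      push_cast
      linarith
    have h2 : ((el N ^ (J + 30) : ℕ) : ℝ) ≤ R := by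
      refine (Real.log_le_log_iff ?_ hRpos).1 h1
      push_cast
      positivity
    exact_mod_cast h2
  have hc2 : R ^ 2 ≤ N := by
    have hNpos : (0 : ℝ) < N := by
      have : 0 < N := by omega
      exact_mod_cast this
    have h1 : Real.log ((R ^ 2 : ℕ) : ℝ) ≤ Real.log N := by
      push_cast
      rw [Real.log_pow]
      push_cast
      nlinarith
    have h2 : ((R ^ 2 : ℕ) : ℝ) ≤ N := by
      refine (Real.log_le_log_iff ?_ hNpos).1 h1
      push_cast
      positivity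
    exact_mod_cast h2
  obtain ⟨m, hm1, hm2, hm3, hm4⟩ := hS N R hN1 hc1 hc2
  refine ⟨n, N, R, m, hN0, ?_⟩
  refine ⟨hnrec, by omega, by omega, hRrec, hR1', ?_, hm1, hm2, ?_, hm3, hm4⟩
  · nlinarith
  · have h1 : el N ^ J * el N ^ 30 ≤ el N ^ J * m := by
      calc el N ^ J * el N ^ 30 = el N ^ (J + 30) := (pow_add _ _ _).symm
        _ ≤ R := hc1
        _ ≤ m * el N ^ J := hm2
        _ = el N ^ J * m := mul_comm _ _
    exact Nat.le_of_mul_le_mul_left h1 (pow_pos hel1 J)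

end Pool.Agent.Work.MP_b29d7f_low
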