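import Pool.Agent.Work.MP_b29d7f_low.Interface1

/-!
# Block FROST: the number of elements in an interval
-/

namespace Pool.Agent.Work.MP_b29d7f_low

open Finset
open Pool.Agent.Work.MP_b29d7f_nt (IsPOrdering HasSimultaneousOrdering PS vd ld tv)
open Pool.Agent.Work.MP_b29d7f_half (Ord A wv lD)
open Pool.Agent.Work.MP_b29d7f_sep (nv EW EL)

theorem FROST_sum (j0 M : ℕ) (h : j0 ≤ M) :
    (2 : ℝ) * ∑ j ∈ Ico j0 M, (j : ℝ) = M * (M - 1) - j0 * (j0 - 1) := by
  induction M, h using Nat.le_induction with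
  | base => simp
  | succ n hn ih =>
    rw [Finset.sum_Ico_succ_top (by omega), mul_add, ih]
    push_cast
    ring

theorem stmt_FROST (hGL : Stmt_GLOW) (hCL : Stmt_CLU) (hGG : Stmt_GGB) : Stmt_FROST := by
  classical
  intro a k₀ C₀ κ b β₁ β₂ e₃ e₇ e₈ K J hD hb hβ₁ hβ₂ hK
  obtain ⟨C₁, N₁, hC₁, H⟩ := hGL a k₀ C₀ κ b β₁ β₂ e₃ e₇ e₈ K J hD (by linarith) hβ₁ hβ₂ hK
  obtain ⟨g1, g2, g3, -⟩ := hGG a k₀ C₀ hD
  have hC₀ := hD.one_le
  refine ⟨C₁ + 8 * C₀ + 4, max N₁ 21, by linarith, ?_⟩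
  intro n N R m hN hF X Z hXr hXc hZ hgZ hdiam
  have hN₁ : N₁ ≤ N := (le_max_left _ _).trans hN
  have hN21 : 21 ≤ N := (le_max_right _ _).trans hN
  -- the length
  have hNr : (21 : ℝ) ≤ (N : ℝ) := by exact_mod_cast hN21
  have hlog3 : (3 : ℝ) ≤ Real.log N := by
    have h1 : Real.exp 3 ≤ 21 := by
      have h2 := Real.exp_one_lt_d9
      have h3 : Real.exp 3 = Real.exp 1 ^ 3 := by
        rw [← Real.exp_nat_mul]; norm_num
      rw [h3]
      calc Real.exp 1 ^ 3 ≤ (2.7182818286 : ℝ) ^ 3 := by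
            apply pow_le_pow_left₀ (Real.exp_pos _).le h2.le
        _ ≤ 21 := by norm_num
    calc (3 : ℝ) = Real.log (Real.exp 3) := (Real.log_exp 3).symm
      _ ≤ Real.log N := Real.log_le_log (Real.exp_pos _) (h1.trans hNr)
  set l : ℕ := el N with hl
  have hlge : Real.log N ≤ (l : ℝ) := by rw [hl]; exact Nat.le_ceil _
  have hl3 : (3 : ℝ) ≤ (l : ℝ) := hlog3.trans hlge
  have hl1 : (1 : ℝ) ≤ (l : ℝ) := by linarith
  have hlpos : (0 : ℝ) < l := by linarith
  have hloglpos : 1 ≤ Real.log l := by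
    calc (1 : ℝ) = Real.log (Real.exp 1) := (Real.log_exp 1).symm
      _ ≤ Real.log l := Real.log_le_log (Real.exp_pos _) (by
          have := Real.exp_one_lt_d9; linarith)
  have hlN : 3 ≤ l := by exact_mod_cast hl3
  have hm1 : 1 ≤ m := by
    have h1 := hF.m_big
    have h2 : 1 ≤ el N ^ 30 := Nat.one_le_pow _ _ (by omega)
    omega
  set P := P1 K m N with hP
  have hP1 : 1 ≤ P := by
    rw [hP]; unfold P1
    exact Nat.mul_pos (Nat.mul_pos hK hm1) (pow_pos (by omega) 3)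
  have hPr : (1 : ℝ) ≤ (P : ℝ) := by exact_mod_cast hP1
  set M := X.card with hM
  have hE1 : (1 : ℝ) ≤ Real.exp ((Real.log Z - gg a P) / b) := by
    rw [← Real.exp_zero]
    apply Real.exp_le_exp.mpr
    apply div_nonneg <;> linarith
  have hrpow : (l : ℝ) ^ (3 : ℝ) ≤ (l : ℝ) ^ (C₁ + 8 * C₀ + 4) :=
    Real.rpow_le_rpow_of_exponent_le hl1 (by linarith)
  by_cases hcase : M ≤ l ^ 3 * P
  · have h1 : (M : ℝ) ≤ (l : ℝ) ^ (3 : ℝ) * P := by
      have : (M : ℝ) ≤ ((l ^ 3 * P : ℕ) : ℝ) := by exact_mod_cast hcase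
      push_cast at this
      rw [show (3 : ℝ) = ((3 : ℕ) : ℝ) by norm_num, Real.rpow_natCast]
      exact this
    calc (M : ℝ) ≤ (l : ℝ) ^ (3 : ℝ) * P * 1 := by linarith
      _ ≤ (l : ℝ) ^ (C₁ + 8 * C₀ + 4) * P * Real.exp ((Real.log Z - gg a P) / b) := by
        gcongr
  push Not at hcase
  -- the main case
  have hl3P : l ^ 3 * P < M := hcase
  have hMl : l ≤ M := by
    have h1 : l ≤ l ^ 3 * P := by
      calc l = l * 1 := by ring
        _ ≤ l ^ 3 * P := by
          apply Nat.mul_le_mul _ hP1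
          exact Nat.le_self_pow (by norm_num) l
    omega
  set j0 := M / l + 1 with hj0
  have hj0pos : 1 ≤ j0 := Nat.le_add_left _ _
  have hj0l : M < j0 * l := by
    rw [hj0]
    exact Nat.lt_mul_of_div_lt (by omega) (by omega)
  have hj0le : j0 * l ≤ 2 * M := by
    have h1 : M / l * l ≤ M := Nat.div_mul_le_self M l
    calc j0 * l = M / l * l + l := by rw [hj0]; ring
      _ ≤ 2 * M := by omega
  have hj0M : j0 < M := by
    have h1 : j0 * 3 ≤ j0 * l := Nat.mul_le_mul_left _ hlN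
    omega
  have hMr : (0 : ℝ) < (M : ℝ) := by
    have : 0 < M := by omega
    exact_mod_cast this
  -- lower bound for g
  set Y : ℝ := gg a P + b * (Real.log M - Real.log P) - (b + C₁) * Real.log l with hY
  have hlow : ∀ j : ℕ, j0 ≤ j → Y ≤ gg a j := by
    intro j hj
    have hjl : M < j * l := lt_of_lt_of_le hj0l (Nat.mul_le_mul_right _ hj)
    have hj1 : el N * P ≤ j := by
      rw [← hl]
      by_contra hcon
      push Not at hcon
      have h1 : j * l ≤ l * P * l := Nat.mul_le_mul_right _ hcon.le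
      have h2 : l * P * l ≤ l ^ 3 * P := by
        calc l * P * l = l ^ 2 * P := by ring
          _ ≤ l ^ 3 * P := Nat.mul_le_mul_right _ (Nat.pow_le_pow_right (by omega) (by norm_num))
      omega
    have h1 := H n N R m hN₁ hF j hj1
    have h2 : Real.log M ≤ Real.log j + Real.log l := by
      have hjpos : (0 : ℝ) < j := by
        have : 0 < j := by omega
        exact_mod_cast this
      rw [← Real.log_mul hjpos.ne' hlpos.ne']
      apply Real.log_le_log hMr
      exact_mod_cast hjl.le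
    have h3 : b * (Real.log M - Real.log P) ≤
        b * (Real.log j - Real.log P) + b * Real.log l := by
      have : Real.log M - Real.log P ≤ (Real.log j - Real.log P) + Real.log l := by linarith
      nlinarith
    have h4 : gg a P + b * (Real.log j - Real.log P) - C₁ * Real.log l ≤ gg a j := h1
    rw [hY]
    linarith
  -- the main inequality
  have hZ0 : 0 ≤ Real.log Z := Real.log_nonneg hZ
  have hkey : Y - 6 * C₀ ≤ Real.log Z := by
    by_cases hY0 : Y ≤ 0
    · linarith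
    push Not at hY0
    have hYup : Y ≤ 2 * C₀ * l := by
      have h1 := hlow (M - 1) (by omega)
      have h2 := g1 (M - 1) (by omega)
      have h3 : Real.log ((M - 1 : ℕ) : ℝ) ≤ 2 * Real.log N := by
        have h4 : ((M - 1 : ℕ) : ℝ) ≤ (N : ℝ) ^ 2 := by
          have h5 : M - 1 ≤ N ^ 2 := by
            have h6 : 2 * N ≤ N ^ 2 := by nlinarith
            omega
          exact_mod_cast h5
        have h5 : (0 : ℝ) < ((M - 1 : ℕ) : ℝ) := by
          have : 0 < M - 1 := by omega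
          exact_mod_cast this
        calc Real.log ((M - 1 : ℕ) : ℝ) ≤ Real.log ((N : ℝ) ^ 2) := Real.log_le_log h5 h4
          _ = 2 * Real.log N := by rw [Real.log_pow]; norm_num
      have h4 : C₀ * Real.log ((M - 1 : ℕ) : ℝ) ≤ C₀ * (2 * l) := by
        apply mul_le_mul_of_nonneg_left _ (by linarith)
        linarith
      linarith
    have h1 := hCL a hD.ord X Z hXr hZ hdiam
    rw [← hM] at h1
    have h2 : Y * (M * (M - 1) - j0 * (j0 - 1)) ≤ 2 * Es a M := by
      have e1 : Es a M = ∑ j ∈ range j0, lD a j + ∑ j ∈ Ico j0 M, lD a j := by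
        unfold Es
        rw [Finset.sum_range_add_sum_Ico _ hj0M.le]
      have e2 : (0 : ℝ) ≤ ∑ j ∈ range j0, lD a j := by
        apply Finset.sum_nonneg
        intro j _
        rw [← g3 j]
        exact mul_nonneg (Nat.cast_nonneg _) (g2 j)
      have e3 : ∑ j ∈ Ico j0 M, (j : ℝ) * Y ≤ ∑ j ∈ Ico j0 M, lD a j := by
        apply Finset.sum_le_sum
        intro j hj
        rw [← g3 j]
        apply mul_le_mul_of_nonneg_left _ (Nat.cast_nonneg _)
        exact hlow j (mem_Ico.mp hj).1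
      rw [← Finset.sum_mul] at e3
      have e4 := FROST_sum j0 M hj0M.le
      calc Y * (M * (M - 1) - j0 * (j0 - 1)) = 2 * ((∑ j ∈ Ico j0 M, (j : ℝ)) * Y) := by
            rw [← e4]; ring
        _ ≤ 2 * Es a M := by linarith
    have hM2 : (2 : ℝ) ≤ (M : ℝ) := by
      have : 2 ≤ M := by omega
      exact_mod_cast this
    have h3 : (j0 : ℝ) * l ≤ 2 * M := by exact_mod_cast hj0le
    have h4 : (j0 : ℝ) ^ 2 * (l : ℝ) ^ 2 ≤ 4 * (M : ℝ) ^ 2 := by
      have : ((j0 : ℝ) * l) ^ 2 ≤ (2 * M) ^ 2 := by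
        apply pow_le_pow_left₀ (by positivity) h3
      nlinarith
    have h5 : Y * ((j0 : ℝ) * (j0 - 1)) ≤ 6 * C₀ * (M * (M - 1)) := by
      have hj0r : (0 : ℝ) ≤ (j0 : ℝ) := Nat.cast_nonneg _
      have h6 : Y * ((j0 : ℝ) * (j0 - 1)) ≤ 2 * C₀ * l * (j0 : ℝ) ^ 2 := by
        calc Y * ((j0 : ℝ) * (j0 - 1)) ≤ Y * (j0 : ℝ) ^ 2 := by
              apply mul_le_mul_of_nonneg_left _ hY0.le
              nlinarith
          _ ≤ 2 * C₀ * l * (j0 : ℝ) ^ 2 := by
              apply mul_le_mul_of_nonneg_right hYup (by positivity)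
      have h7 : (l : ℝ) * (j0 : ℝ) ^ 2 * 3 ≤ 4 * (M : ℝ) ^ 2 := by
        calc (l : ℝ) * (j0 : ℝ) ^ 2 * 3 ≤ (l : ℝ) * (j0 : ℝ) ^ 2 * l := by
              apply mul_le_mul_of_nonneg_left hl3 (by positivity)
          _ = (j0 : ℝ) ^ 2 * (l : ℝ) ^ 2 := by ring
          _ ≤ 4 * (M : ℝ) ^ 2 := h4
      have h8 : (M : ℝ) ^ 2 ≤ 2 * (M * (M - 1)) := by nlinarith
      have h9 : (l : ℝ) * (j0 : ℝ) ^ 2 ≤ 3 * (M * (M - 1)) := by nlinarith
      calc Y * ((j0 : ℝ) * (j0 - 1)) ≤ 2 * C₀ * l * (j0 : ℝ) ^ 2 := h6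
        _ = 2 * C₀ * ((l : ℝ) * (j0 : ℝ) ^ 2) := by ring
        _ ≤ 2 * C₀ * (3 * (M * (M - 1))) := by
            apply mul_le_mul_of_nonneg_left h9 (by linarith)
        _ = 6 * C₀ * (M * (M - 1)) := by ring
    have h6 : (0 : ℝ) < (M : ℝ) * (M - 1) := by
      apply mul_pos <;> linarith
    have h7 : (Y - 6 * C₀) * (M * (M - 1)) ≤ Real.log Z * (M * (M - 1)) := by
      linarith
    exact le_of_mul_le_mul_right h7 h6
  -- conclusion
  have hb0 : 0 < b := by linarith
  have h1 : Real.log M ≤ Real.log P + (Real.log Z - gg a P) / b +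
      (C₁ + 8 * C₀ + 4) * Real.log l := by
    have h2 : b * (Real.log M - Real.log P) ≤
        (Real.log Z - gg a P) + ((b + C₁) * Real.log l + 6 * C₀) := by
      rw [hY] at hkey
      linarith
    have h3 : Real.log M - Real.log P ≤
        (Real.log Z - gg a P) / b + ((b + C₁) * Real.log l + 6 * C₀) / b := by
      rw [← add_div, le_div_iff₀ hb0]
      linarith
    have h4 : ((b + C₁) * Real.log l + 6 * C₀) / b ≤ (C₁ + 8 * C₀ + 4) * Real.log l := by
      rw [div_le_iff₀ hb0]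
      have h5 : 6 * C₀ ≤ 6 * C₀ * Real.log l * b := by
        have : 1 ≤ Real.log l * b := by nlinarith
        nlinarith
      have h6 : C₁ * Real.log l ≤ C₁ * Real.log l * b := by
        have : 0 ≤ C₁ * Real.log l := mul_nonneg hC₁ (by linarith)
        nlinarith
      have h7 : 0 ≤ (2 * C₀ + 3) * Real.log l * b := by positivity
      nlinarith
    linarith
  have hE : (M : ℝ) = Real.exp (Real.log M) := (Real.exp_log hMr).symm
  rw [hE]
  calc Real.exp (Real.log M) ≤ Real.exp (Real.log P + (Real.log Z - gg a P) / b +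
        (C₁ + 8 * C₀ + 4) * Real.log l) := Real.exp_le_exp.mpr h1
    _ = (l : ℝ) ^ (C₁ + 8 * C₀ + 4) * P * Real.exp ((Real.log Z - gg a P) / b) := by
      rw [Real.exp_add, Real.exp_add, Real.exp_log (by linarith), Real.rpow_def_of_pos hlpos,
        mul_comm (C₁ + 8 * C₀ + 4) (Real.log l)]
      ring

end Pool.Agent.Work.MP_b29d7f_low
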