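import Pool.Agent.Work.MP_b29d7f_low.Interface3

/-!
# Block GIJ: cancellation of the conditional probabilities
-/

namespace Pool.Agent.Work.MP_b29d7f_low

open Finset
open Pool.Agent.Work.MP_b29d7f_half (Ord A wv lD)
open Pool.Agent.Work.MP_b29d7f_sep (nv EW EL)

theorem GIJ_A (K X : Finset ℤ) (μ : ℤ → ℝ) (r : ℕ) (h : ℤ → ℝ) (φ : ℤ → ℤ) (hμ : ∀ x, 0 ≤ μ x)
    (hh : ∀ x, 0 ≤ h x) (hc : ∀ x x' : ℤ, (r : ℤ) ∣ x - x' → h x = h x') :
    ∑ x ∈ K, h x * (∑ z ∈ X.filter (fun z => (r : ℤ) ∣ φ z - x), μ z) /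
      ((K.filter fun y => (r : ℤ) ∣ y - x).card : ℝ) ≤ ∑ z ∈ X, μ z * h (φ z) := by
  have h1 : ∑ x ∈ K, h x * (∑ z ∈ X.filter (fun z => (r : ℤ) ∣ φ z - x), μ z) /
      ((K.filter fun y => (r : ℤ) ∣ y - x).card : ℝ) =
      ∑ x ∈ K, ∑ z ∈ X, if (r : ℤ) ∣ φ z - x then
        μ z * h (φ z) / ((K.filter fun y => (r : ℤ) ∣ y - φ z).card : ℝ) else 0 := by
    apply sum_congr rfl
    intro x _
    rw [← sum_filter, mul_sum, sum_div]
    apply sum_congr rfl
    intro z hz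
    have hz' := (mem_filter.1 hz).2
    have e1 : h x = h (φ z) := (hc _ _ hz').symm
    have e2 : (K.filter fun y => (r : ℤ) ∣ y - x) = (K.filter fun y => (r : ℤ) ∣ y - φ z) := by
      apply filter_congr
      intro y _
      constructor
      · intro hy
        have := dvd_sub hy hz'
        rwa [sub_sub_sub_cancel_right] at this
      · intro hy
        have := dvd_add hy hz'
        rwa [sub_add_sub_cancel] at this
    rw [e1, e2]
    ring
  rw [h1, sum_comm]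
  apply sum_le_sum
  intro z _
  rw [← sum_filter, sum_const, nsmul_eq_mul]
  have e3 : (K.filter fun x => (r : ℤ) ∣ φ z - x) = (K.filter fun y => (r : ℤ) ∣ y - φ z) := by
    apply filter_congr
    intro y _
    exact dvd_sub_comm
  rw [e3]
  rcases Nat.eq_zero_or_pos (K.filter fun y => (r : ℤ) ∣ y - φ z).card with h0 | h0
  · rw [h0]
    simp only [Nat.cast_zero, zero_mul]
    exact mul_nonneg (hμ z) (hh _)
  · have h2 : (0 : ℝ) < ((K.filter fun y => (r : ℤ) ∣ y - φ z).card : ℝ) := by exact_mod_cast h0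
    rw [mul_div_cancel₀ _ h2.ne']

theorem GIJ_Ms (X : Finset ℤ) (μ : ℤ → ℝ) (q : ℕ) (x : ℤ) :
    Ms X μ q x = ∑ y ∈ X.filter (fun y => (q : ℤ) ∣ y - x), μ y := by
  unfold Ms
  congr

theorem GIJ_Pr (K : Finset ℤ) (q : ℕ) (x : ℤ) :
    Pr K q x = ((K.filter fun y => (q : ℤ) ∣ y - x).card : ℝ) / K.card := by
  unfold Pr
  congr

theorem GIJ_Ms_nonneg (X : Finset ℤ) (μ : ℤ → ℝ) (hμ : ∀ x, 0 ≤ μ x) (q : ℕ) (x : ℤ) :
    0 ≤ Ms X μ q x := by
  rw [GIJ_Ms]
  exact sum_nonneg fun y _ => hμ y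

theorem GIJ_Ms_congr (X : Finset ℤ) (μ : ℤ → ℝ) (q : ℕ) (x x' : ℤ) (h : (q : ℤ) ∣ x - x') :
    Ms X μ q x = Ms X μ q x' := by
  rw [GIJ_Ms, GIJ_Ms]
  apply sum_congr _ (fun _ _ => rfl)
  apply filter_congr
  intro y _
  constructor
  · intro hy
    have := dvd_add hy h
    rwa [sub_add_sub_cancel] at this
  · intro hy
    have := dvd_sub hy h
    rwa [sub_sub_sub_cancel_right] at this

theorem stmt_GIJ : Stmt_GIJ := by
  intro X D K μ q r f hq hqr hr hμ hf hfc hD hK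
  have hqr' : (q : ℤ) ∣ (r : ℤ) := Int.natCast_dvd_natCast.2 hqr
  have hD0 : (0 : ℝ) < D.card := by exact_mod_cast card_pos.2 hD
  -- first step
  have h1 : ∀ δ ∈ D, (∑ x ∈ K δ, f x (x + δ) * (Ms X μ r x * Ms X μ q (x + δ)) /
      (Pr (K δ) r x * Pr D q δ)) / (K δ).card ≤
      ∑ z ∈ X, μ z * (f z (z + δ) * Ms X μ q (z + δ) / Pr D q δ) := by
    intro δ hδ
    have hK0 : (0 : ℝ) < (K δ).card := by exact_mod_cast card_pos.2 (hK δ hδ).1
    have hP : 0 ≤ Pr D q δ := by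
      rw [GIJ_Pr]
      positivity
    have h2 := GIJ_A (K δ) X μ r (fun z => f z (z + δ) * Ms X μ q (z + δ) / Pr D q δ) id hμ
      (fun z => div_nonneg (mul_nonneg (hf _ _) (GIJ_Ms_nonneg X μ hμ _ _)) hP)
      (fun x x' hx => by
        have e1 : (q : ℤ) ∣ (x + δ) - (x' + δ) := by
          rw [add_sub_add_right_eq_sub]
          exact dvd_trans hqr' hx
        rw [hfc x x' _ _ hx e1, GIJ_Ms_congr X μ q _ _ e1])
    refine le_trans (le_of_eq ?_) h2
    rw [sum_div]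
    apply sum_congr rfl
    intro x _
    rw [GIJ_Ms X μ r x, GIJ_Pr (K δ) r x]
    simp only [id]
    set N₀ : ℝ := (((K δ).filter fun y => (r : ℤ) ∣ y - x).card : ℝ) with hN
    set S₀ := ∑ y ∈ X.filter (fun y => (r : ℤ) ∣ y - x), μ y
    rcases eq_or_ne N₀ 0 with h0 | h0
    · rw [h0]
      simp
    · rcases eq_or_ne (Pr D q δ) 0 with h3 | h3
      · rw [h3]
        simp
      · field_simp
  have h2 : (∑ δ ∈ D, (∑ x ∈ K δ, f x (x + δ) * (Ms X μ r x * Ms X μ q (x + δ)) /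
      (Pr (K δ) r x * Pr D q δ)) / (K δ).card) / D.card ≤
      (∑ δ ∈ D, ∑ z ∈ X, μ z * (f z (z + δ) * Ms X μ q (z + δ) / Pr D q δ)) / D.card :=
    div_le_div_of_nonneg_right (sum_le_sum h1) hD0.le
  refine le_trans h2 ?_
  rw [sum_comm, sum_div]
  apply sum_le_sum
  intro z _
  have h3 := GIJ_A D X μ q (fun δ => f z (z + δ)) (fun y => y - z) hμ (fun δ => hf _ _)
    (fun x x' hx => hfc z z _ _ (by simp) (by rwa [add_sub_add_left_eq_sub]))
  have h4 : (∑ δ ∈ D, μ z * (f z (z + δ) * Ms X μ q (z + δ) / Pr D q δ)) / D.card =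
      μ z * ∑ δ ∈ D, f z (z + δ) * (∑ y ∈ X.filter (fun y => (q : ℤ) ∣ (y - z) - δ), μ y) /
        ((D.filter fun y => (q : ℤ) ∣ y - δ).card : ℝ) := by
    rw [← mul_sum, mul_div_assoc, sum_div]
    congr 1
    apply sum_congr rfl
    intro δ _
    rw [GIJ_Ms X μ q (z + δ), GIJ_Pr D q δ]
    have e2 : (X.filter fun y => (q : ℤ) ∣ y - (z + δ)) =
        (X.filter fun y => (q : ℤ) ∣ (y - z) - δ) := by
      apply filter_congr
      intro y _
      rw [sub_sub]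
    rw [e2]
    set N₀ : ℝ := ((D.filter fun y => (q : ℤ) ∣ y - δ).card : ℝ) with hN
    rcases eq_or_ne N₀ 0 with h0 | h0
    · rw [h0]
      simp
    · field_simp
  rw [h4]
  have h5 := mul_le_mul_of_nonneg_left h3 (hμ z)
  refine le_trans h5 (le_of_eq ?_)
  rw [mul_sum]
  apply sum_congr rfl
  intro y _
  simp only [add_sub_cancel]
  ring

end Pool.Agent.Work.MP_b29d7f_low
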