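import Pool.Agent.Work.MP_b29d7f_low.Interface2

/-!
# GR1: the growth over a block, exactly
-/

namespace Pool.Agent.Work.MP_b29d7f_low

open Finset
open Pool.Agent.Work.MP_b29d7f_nt (IsPOrdering HasSimultaneousOrdering PS vd ld tv)
open Pool.Agent.Work.MP_b29d7f_half (Ord A wv lD)
open Pool.Agent.Work.MP_b29d7f_sep (nv EW EL)

theorem stmt_GR1 : Stmt_GR1 := by
  intro a k₀ C₀ hD u v hu huv
  have h1 : ∀ k, k₀ ≤ k → lD a k = ∑ i ∈ range k, Real.log ((a k - a i : ℤ) : ℝ) := by
    intro k hk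
    unfold lD
    apply Finset.sum_congr rfl
    intro i hi
    rw [mem_range] at hi
    have h2 := hD.top i k hk hi
    unfold ld
    rw [abs_of_pos]
    have h3 : (0 : ℤ) < a k - a i := by omega
    exact_mod_cast h3
  rw [h1 v (by omega), h1 u hu, Finset.sum_sub_distrib,
    ← Finset.sum_range_add_sum_Ico (fun i => Real.log ((a v - a i : ℤ) : ℝ)) huv.le]
  ring

end Pool.Agent.Work.MP_b29d7f_low
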