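import Pool.Agent.Work.MP_b29d7f_low.Interface2

/-!
# GR2: the contribution of one index to the near blocks telescopes
-/

namespace Pool.Agent.Work.MP_b29d7f_low

open Finset
open Pool.Agent.Work.MP_b29d7f_nt (IsPOrdering HasSimultaneousOrdering PS vd ld tv)
open Pool.Agent.Work.MP_b29d7f_half (Ord A wv lD)
open Pool.Agent.Work.MP_b29d7f_sep (nv EW EL)

theorem GR2_tel (f : ℕ → ℝ) (E : Finset ℕ) (j₀ j₁ : ℕ) (h01 : j₀ ≤ j₁)
    (hE : ∀ j ∈ E, j₀ ≤ j ∧ j ≤ j₁) (hf : ∀ j, j₀ ≤ j → f j ≤ f (j + 1)) :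
    ∑ j ∈ E, (f (j + 1) - f j) ≤ f (j₁ + 1) - f j₀ := by
  have h1 : ∑ j ∈ E, (f (j + 1) - f j) ≤ ∑ j ∈ Ico j₀ (j₁ + 1), (f (j + 1) - f j) := by
    apply Finset.sum_le_sum_of_subset_of_nonneg
    · intro j hj
      have := hE j hj
      rw [mem_Ico]
      omega
    · intro j hj _
      rw [mem_Ico] at hj
      have := hf j hj.1
      linarith
  refine h1.trans (le_of_eq ?_)
  rw [Finset.sum_Ico_eq_sum_range]
  have h2 := Finset.sum_range_sub (fun k => f (j₀ + k)) (j₁ + 1 - j₀)
  simp only [← add_assoc, add_zero] at h2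
  rw [h2]
  congr 2
  omega

theorem stmt_GR2 : Stmt_GR2 := by
  classical
  intro a k₀ C₀ hD Q i D Z S hQ hZ hS hj
  set f : ℕ → ℝ := fun j => if i < j * Q then Real.log ((a (j * Q) - a i : ℤ) : ℝ) else 0 with hf
  have hfpos : ∀ j, i < j * Q → f j = Real.log ((a (j * Q) - a i : ℤ) : ℝ) := by
    intro j hij
    rw [hf]
    simp only [if_pos hij]
  have hfneg : ∀ j, ¬ i < j * Q → f j = 0 := by
    intro j hij
    rw [hf]
    simp only [if_neg hij]
  have h1le : ∀ k, k₀ ≤ k → i < k → (1 : ℝ) ≤ ((a k - a i : ℤ) : ℝ) := by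
    intro k hk hik
    have h1 := hD.top i k hk hik
    have h2 : (1 : ℤ) ≤ a k - a i := by omega
    exact_mod_cast h2
  have hmonoa : ∀ k l, k₀ ≤ k → k ≤ l → a k ≤ a l := by
    intro k l hk hkl
    rcases Nat.lt_or_ge k l with h | h
    · exact (hD.top k l (by omega) h).le
    · have : k = l := by omega
      rw [this]
  have hfmono : ∀ j, k₀ ≤ j * Q → f j ≤ f (j + 1) := by
    intro j hjk
    have e1 : (j + 1) * Q = j * Q + Q := by ring
    by_cases hi : i < j * Q
    · rw [hfpos j hi, hfpos (j + 1) (by omega)]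
      apply Real.log_le_log
      · have := h1le (j * Q) hjk hi
        linarith
      · have h1 := hmonoa (j * Q) ((j + 1) * Q) hjk (by omega)
        have h2 : a (j * Q) - a i ≤ a ((j + 1) * Q) - a i := by omega
        exact_mod_cast h2
    · rw [hfneg j hi]
      by_cases hi2 : i < (j + 1) * Q
      · rw [hfpos (j + 1) hi2]
        apply Real.log_nonneg
        exact h1le _ (by omega) hi2
      · rw [hfneg (j + 1) hi2]
  set E1 := D.filter (fun j => i < j * Q ∧ ((a (j * Q) - a i : ℤ) : ℝ) ≤ Z) with hE1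
  set E2 := D.filter (fun j => j * Q ≤ i ∧ i < j * Q + Q) with hE2
  have hdisj : Disjoint E1 E2 := by
    rw [Finset.disjoint_left]
    intro j h1 h2
    rw [hE1, Finset.mem_filter] at h1
    rw [hE2, Finset.mem_filter] at h2
    omega
  have s1 : ∑ j ∈ E1, (Real.log ((a (j * Q + Q) - a i : ℤ) : ℝ) -
      Real.log ((a (j * Q) - a i : ℤ) : ℝ)) = ∑ j ∈ E1, (f (j + 1) - f j) := by
    apply Finset.sum_congr rfl
    intro j h1
    rw [hE1, Finset.mem_filter] at h1
    have e1 : (j + 1) * Q = j * Q + Q := by ring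
    rw [hfpos j h1.2.1, hfpos (j + 1) (by omega), e1]
  have s2 : ∑ j ∈ E2, Real.log ((a (j * Q + Q) - a i : ℤ) : ℝ) =
      ∑ j ∈ E2, (f (j + 1) - f j) := by
    apply Finset.sum_congr rfl
    intro j h1
    rw [hE2, Finset.mem_filter] at h1
    have e1 : (j + 1) * Q = j * Q + Q := by ring
    rw [hfneg j (by omega), hfpos (j + 1) (by omega), e1, sub_zero]
  rw [s1, s2, ← Finset.sum_union hdisj]
  rcases (E1 ∪ E2).eq_empty_or_nonempty with hemp | hne
  · rw [hemp, Finset.sum_empty]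
    apply Real.log_nonneg
    linarith
  · obtain ⟨j₁, hj₁, hmax⟩ := Finset.exists_max_image (E1 ∪ E2) id hne
    obtain ⟨j₀, hj₀, hmin⟩ := Finset.exists_min_image (E1 ∪ E2) id hne
    have hD0 : ∀ j ∈ E1 ∪ E2, j ∈ D := by
      intro j h
      rw [Finset.mem_union] at h
      rcases h with h | h
      · exact (Finset.mem_filter.1 h).1
      · exact (Finset.mem_filter.1 h).1
    have hk0 := (hj j₀ (hD0 j₀ hj₀)).1
    have e1 := GR2_tel f (E1 ∪ E2) j₀ j₁ (hmax j₀ hj₀)
      (fun j h => ⟨hmin j h, hmax j h⟩) (fun j h => hfmono j (hk0.trans (Nat.mul_le_mul_right Q h)))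
    have hf0 : 0 ≤ f j₀ := by
      by_cases hi : i < j₀ * Q
      · rw [hfpos j₀ hi]
        exact Real.log_nonneg (h1le _ hk0 hi)
      · rw [hfneg j₀ hi]
    have hk1 := hj j₁ (hD0 j₁ hj₁)
    have e2 : (j₁ + 1) * Q = j₁ * Q + Q := by ring
    have hi1 : i < (j₁ + 1) * Q := by
      rw [Finset.mem_union] at hj₁
      rcases hj₁ with h | h
      · have := (Finset.mem_filter.1 h).2.1
        omega
      · have := (Finset.mem_filter.1 h).2.2
        omega
    have e3 : f (j₁ + 1) ≤ Real.log (Z + S) := by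
      rw [hfpos (j₁ + 1) hi1]
      apply Real.log_le_log
      · have := h1le ((j₁ + 1) * Q) (by omega) hi1
        linarith
      · rw [e2]
        have h5 := hk1.2
        rw [Finset.mem_union] at hj₁
        rcases hj₁ with h | h
        · have h6 := (Finset.mem_filter.1 h).2.2
          push_cast at h5 h6 ⊢
          linarith
        · have h6 := (Finset.mem_filter.1 h).2.1
          have h7 := hmonoa (j₁ * Q) i hk1.1 h6
          have h8 : (a (j₁ * Q) : ℝ) ≤ a i := by exact_mod_cast h7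
          push_cast at h5 ⊢
          linarith
    linarith

end Pool.Agent.Work.MP_b29d7f_low
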