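import Pool.Agent.Work.MP_b29d7f_low.Interface2

/-!
# Block GR3: the non dense indices seen from `u`
-/

namespace Pool.Agent.Work.MP_b29d7f_low

open Finset
open Pool.Agent.Work.MP_b29d7f_half (Ord A wv lD)
open Pool.Agent.Work.MP_b29d7f_sep (nv EW EL)

theorem GR3_mono {a : ℕ → ℤ} {k₀ : ℕ} {C₀ : ℝ} (hD : Dat a k₀ C₀) {i j : ℕ} (hi : k₀ ≤ i)
    (hij : i ≤ j) : a i ≤ a j := by
  rcases Nat.eq_or_lt_of_le hij with h | h
  · rw [h]
  · exact (hD.top i j (by omega) h).le

theorem GR3_class {a : ℕ → ℤ} {k₀ : ℕ} {C₀ : ℝ} (hD : Dat a k₀ C₀) (m u : ℕ) (y₂ : ℝ)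
    (hm : 1 ≤ m) (T : Finset ℕ) :
    (∀ x ∈ T, k₀ ≤ x ∧ x + m < u ∧ y₂ < Gm a m x) → (∀ x ∈ T, ∀ x' ∈ T, x % m = x' % m) →
    (∀ i : ℕ, k₀ ≤ i → i < u → (∀ x ∈ T, i ≤ x) →
      (T.card : ℝ) * Real.exp y₂ ≤ ((a u - a i : ℤ) : ℝ)) ∧
    ∑ x ∈ T, 1 / ((a u - a x : ℤ) : ℝ) ≤
      Real.exp (-y₂) * ∑ s ∈ range T.card, 1 / ((s : ℝ) + 1) := by
  induction T using Finset.induction_on_min with
  | empty =>
    intro _ _
    refine ⟨?_, by simp⟩
    intro i hi hiu _
    have := hD.top i u (by omega) hiu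
    simp only [card_empty, Nat.cast_zero, zero_mul]
    exact_mod_cast (by linarith : 0 ≤ a u - a i)
  | insert i₀ T hlt ih =>
    intro hT hmod
    have hni : i₀ ∉ T := fun h => lt_irrefl _ (hlt i₀ h)
    obtain ⟨h1, h2⟩ := ih (fun x hx => hT x (mem_insert_of_mem hx))
      (fun x hx x' hx' => hmod x (mem_insert_of_mem hx) x' (mem_insert_of_mem hx'))
    obtain ⟨hk, hu, hG⟩ := hT i₀ (mem_insert_self _ _)
    have h3 := h1 (i₀ + m) (by omega) hu (by
      intro x hx
      have h4 := hlt x hx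
      have h5 := hmod x (mem_insert_of_mem hx) i₀ (mem_insert_self _ _)
      have h6 : i₀ ≡ x [MOD m] := h5.symm
      have h7 := (Nat.modEq_iff_dvd' h4.le).1 h6
      have h8 := Nat.le_of_dvd (by omega) h7
      omega)
    have h4 : Real.exp y₂ < ((a (i₀ + m) - a i₀ : ℤ) : ℝ) := by
      have hpos : (0 : ℝ) < ((a (i₀ + m) - a i₀ : ℤ) : ℝ) := by
        have := hD.top i₀ (i₀ + m) (by omega) (by omega)
        exact_mod_cast (by linarith : 0 < a (i₀ + m) - a i₀)
      unfold Gm at hG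
      rwa [Real.lt_log_iff_exp_lt hpos] at hG
    have h5 : ((T.card : ℝ) + 1) * Real.exp y₂ ≤ ((a u - a i₀ : ℤ) : ℝ) := by
      push_cast at h3 h4 ⊢
      linarith
    have hcard : (insert i₀ T).card = T.card + 1 := card_insert_of_notMem hni
    constructor
    · intro i hi hiu hix
      have h6 := hix i₀ (mem_insert_self _ _)
      have h7 := GR3_mono hD hi h6
      have h8 : ((a i : ℤ) : ℝ) ≤ a i₀ := by exact_mod_cast h7
      rw [hcard]
      push_cast at h5 ⊢
      linarith
    · rw [hcard, sum_insert hni, sum_range_succ, mul_add]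
      have h6 : 1 / ((a u - a i₀ : ℤ) : ℝ) ≤ Real.exp (-y₂) * (1 / ((T.card : ℝ) + 1)) := by
        have h7 : (0 : ℝ) < ((T.card : ℝ) + 1) * Real.exp y₂ := by positivity
        have h8 := one_div_le_one_div_of_le h7 h5
        refine le_trans h8 (le_of_eq ?_)
        rw [Real.exp_neg, one_div, mul_inv, one_div, mul_comm]
      linarith

theorem stmt_GR3 : Stmt_GR3 := by
  intro a k₀ C₀ hD N m u y₂ hm hN hku huN hdense
  set S := (Ico k₀ u).filter (fun i => y₂ < Gm a m i) with hS
  have hmS : ∀ x ∈ S, k₀ ≤ x ∧ x + m < u ∧ y₂ < Gm a m x := by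
    intro x hx
    obtain ⟨h1, h2⟩ := mem_filter.1 hx
    have h3 := mem_Ico.1 h1
    refine ⟨h3.1, ?_, h2⟩
    by_contra hcon
    have := hdense x (by omega) h3.2
    linarith
  have hfib := Finset.sum_fiberwise_of_maps_to (s := S) (t := range m) (g := fun x => x % m)
    (fun x _ => mem_range.2 (Nat.mod_lt x (by omega))) (fun x => 1 / ((a u - a x : ℤ) : ℝ))
  rw [← hfib]
  have hE : (0 : ℝ) < Real.exp (-y₂) := Real.exp_pos _
  have hlogN : 0 ≤ Real.log N := Real.log_nonneg (by exact_mod_cast hN)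
  have h1 : ∀ r ∈ range m, ∑ x ∈ S.filter (fun x => x % m = r), 1 / ((a u - a x : ℤ) : ℝ) ≤
      Real.exp (-y₂) * (1 + Real.log N) := by
    intro r _
    set T := S.filter (fun x => x % m = r) with hT
    have h2 := (GR3_class hD m u y₂ hm T (fun x hx => hmS x (mem_filter.1 hx).1)
      (fun x hx x' hx' => by rw [(mem_filter.1 hx).2, (mem_filter.1 hx').2])).2
    refine le_trans h2 (mul_le_mul_of_nonneg_left ?_ hE.le)
    have hcard : T.card ≤ N := by
      have h3 : T ⊆ range u := by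
        intro x hx
        have := hmS x (mem_filter.1 hx).1
        exact mem_range.2 (by omega)
      have h4 := card_le_card h3
      rw [card_range] at h4
      omega
    have h5 : ∑ s ∈ range T.card, 1 / ((s : ℝ) + 1) = ((harmonic T.card : ℚ) : ℝ) := by
      unfold harmonic
      push_cast
      simp only [one_div]
    rcases Nat.eq_zero_or_pos T.card with h0 | h0
    · rw [h0]
      simp only [range_zero, sum_empty]
      linarith
    · rw [h5]
      have h6 := harmonic_le_one_add_log T.card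
      have h7 : Real.log T.card ≤ Real.log N :=
        Real.log_le_log (by exact_mod_cast h0) (by exact_mod_cast hcard)
      linarith
  refine le_trans (sum_le_sum h1) (le_of_eq ?_)
  rw [sum_const, card_range, nsmul_eq_mul]
  ring

end Pool.Agent.Work.MP_b29d7f_low
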