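import Pool.Agent.Work.MP_b29d7f_low.Interface2

/-!
# Block GRO: the growth over the blocks of small span (helper10)
-/

namespace Pool.Agent.Work.MP_b29d7f_low

open Finset
open Pool.Agent.Work.MP_b29d7f_half (Ord A wv lD)

theorem GRO_log {x d : ℝ} (hx : 0 < x) (hd : 0 ≤ d) : Real.log (x + d) - Real.log x ≤ d / x := by
  have hxd : 0 < x + d := by linarith
  rw [← Real.log_div hxd.ne' hx.ne']
  have h := Real.log_le_sub_one_of_pos (div_pos hxd hx)
  refine h.trans (le_of_eq ?_)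
  field_simp
  ring

theorem stmt_GRO (h1 : Stmt_GR1) (h2 : Stmt_GR2) (h3 : Stmt_GR3) (h4 : Stmt_GR4)
    (h5 : Stmt_BLK) : Stmt_GRO := by
  intro a k₀ C₀ κ b β₁ β₂ e₃ e₇ e₈ K J hD hb hβ₁ hβ₂ hK
  obtain ⟨C, N₀, hC, hG4⟩ := h4 a k₀ C₀ κ b β₁ β₂ e₃ e₇ e₈ K J hD hb hβ₁ hβ₂ hK
  refine ⟨C, max N₀ 3, hC, ?_⟩
  intro n N R m hN hF y y₂ z hy hyy hyz hgz
  have hN0 : N₀ ≤ N := (le_max_left _ _).trans hN
  have hN3 : 3 ≤ N := (le_max_right _ _).trans hN
  have hN1 : 1 ≤ N := by omega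
  have hz0 : 0 ≤ z := hy.trans hyz
  have hel : 1 ≤ el N := by
    unfold el
    apply Nat.ceil_pos.mpr
    apply Real.log_pos
    have : (3 : ℝ) ≤ N := by exact_mod_cast hN3
    linarith
  have hm1 : 1 ≤ m := (Nat.one_le_pow _ _ hel).trans hF.m_big
  have hmQ : m ≤ Qb K m N := by
    unfold Qb
    calc m = 1 * m * 1 := by ring
      _ ≤ K * m * el N ^ 4 := Nat.mul_le_mul (Nat.mul_le_mul_right m hK) (Nat.one_le_pow _ _ hel)
  obtain ⟨-, hB2, -, hB4⟩ := h5 a k₀ C₀ hD N m (Qb K m N) y 0 hm1 hmQ le_rfl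
  have hG4' := hG4 n N R m hN0 hF
  obtain ⟨Q, hQ⟩ : ∃ Q, Q = Qb K m N := ⟨_, rfl⟩
  rw [← hQ] at hmQ hB2 hB4 ⊢
  obtain ⟨D, hDD⟩ : ∃ D, D = DD a k₀ N Q y := ⟨_, rfl⟩
  rw [← hDD] at hB2 hB4 ⊢
  have hQ1 : 1 ≤ Q := hm1.trans hmQ
  -- positivity
  have hlt : ∀ i u : ℕ, k₀ ≤ u → i < u → (0 : ℝ) < ((a u - a i : ℤ) : ℝ) := by
    intro i u hu hi
    have := hD.top i u hu hi
    have h' : 0 < a u - a i := by linarith
    exact_mod_cast h'
  -- the dense indices
  obtain ⟨De, hDe⟩ : ∃ De : Finset ℕ, De = (range N).filter (fun i => i < k₀ ∨ Gm a m i ≤ y₂) :=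
    ⟨_, rfl⟩
  have hcard : (De.card : ℝ) ≤ cnt a k₀ N m y₂ + k₀ := by
    have hsub : De ⊆ range k₀ ∪ (Ico k₀ N).filter (fun u => Gm a m u ≤ y₂) := by
      intro i hi
      rw [hDe, mem_filter, mem_range] at hi
      rw [mem_union, mem_range, mem_filter, mem_Ico]
      by_cases hik : i < k₀
      · exact Or.inl hik
      · exact Or.inr ⟨⟨not_lt.mp hik, hi.1⟩, hi.2.resolve_left hik⟩
    have hc1 := (card_le_card hsub).trans (card_union_le _ _)
    rw [card_range] at hc1
    have hc2 : ((Ico k₀ N).filter (fun u => Gm a m u ≤ y₂)).card = cnt a k₀ N m y₂ := by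
      unfold cnt
      congr 1
    rw [hc2] at hc1
    have : (De.card : ℝ) ≤ ((k₀ + cnt a k₀ N m y₂ : ℕ) : ℝ) := by exact_mod_cast hc1
    push_cast at this
    linarith
  -- one block
  have hone : ∀ j ∈ D, lD a (j * Q + Q) - lD a (j * Q) ≤
      (∑ i ∈ De, if (i < j * Q ∧ ((a (j * Q) - a i : ℤ) : ℝ) ≤ Real.exp z) then
        (Real.log ((a (j * Q + Q) - a i : ℤ) : ℝ) - Real.log ((a (j * Q) - a i : ℤ) : ℝ)) else 0) +
      (∑ i ∈ De, if (j * Q ≤ i ∧ i < j * Q + Q) then
        Real.log ((a (j * Q + Q) - a i : ℤ) : ℝ) else 0) +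
      (Real.exp y * m * (1 + Real.log N) * Real.exp (-y₂) +
        Real.exp y * ((el N : ℝ) ^ C * P1 K m N *
          Real.exp ((z - gg a (P1 K m N)) / b - z))) := by
    intro j hj
    obtain ⟨hk0, hjN, hkQ, hspan⟩ := hB4 j hj
    have hu : j * Q < j * Q + Q := by omega
    have hkv : k₀ ≤ j * Q + Q := by omega
    rw [h1 a k₀ C₀ hD (j * Q) (j * Q + Q) hk0 hu]
    have hd0 : (0 : ℝ) ≤ ((a (j * Q + Q) - a (j * Q) : ℤ) : ℝ) := (hlt _ _ hkv hu).le
    -- the terms
    have hT : ∀ i : ℕ, i < j * Q →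
        Real.log ((a (j * Q + Q) - a i : ℤ) : ℝ) - Real.log ((a (j * Q) - a i : ℤ) : ℝ) ≤
          Real.exp y * (1 / ((a (j * Q) - a i : ℤ) : ℝ)) := by
      intro i hi
      have hx := hlt i (j * Q) hk0 hi
      have e : ((a (j * Q + Q) - a i : ℤ) : ℝ) =
          ((a (j * Q) - a i : ℤ) : ℝ) + ((a (j * Q + Q) - a (j * Q) : ℤ) : ℝ) := by
        push_cast; ring
      rw [e]
      refine (GRO_log hx hd0).trans ?_
      rw [mul_one_div]
      exact div_le_div_of_nonneg_right hspan hx.le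
    have hT0 : ∀ i : ℕ, i < j * Q →
        0 ≤ Real.exp y * (1 / ((a (j * Q) - a i : ℤ) : ℝ)) := by
      intro i hi
      have hx := hlt i (j * Q) hk0 hi
      positivity
    -- three classes
    have hsplit : ∑ i ∈ range (j * Q),
        (Real.log ((a (j * Q + Q) - a i : ℤ) : ℝ) - Real.log ((a (j * Q) - a i : ℤ) : ℝ)) ≤
        (∑ i ∈ De, if (i < j * Q ∧ ((a (j * Q) - a i : ℤ) : ℝ) ≤ Real.exp z) then
          (Real.log ((a (j * Q + Q) - a i : ℤ) : ℝ) -
            Real.log ((a (j * Q) - a i : ℤ) : ℝ)) else 0) +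
        (∑ i ∈ (Ico k₀ (j * Q)).filter (fun i => y₂ < Gm a m i),
          Real.exp y * (1 / ((a (j * Q) - a i : ℤ) : ℝ))) +
        ∑ i ∈ (range (j * Q)).filter (fun i => Real.exp z < ((a (j * Q) - a i : ℤ) : ℝ)),
          Real.exp y * (1 / ((a (j * Q) - a i : ℤ) : ℝ)) := by
      have s1 : (∑ i ∈ De, if (i < j * Q ∧ ((a (j * Q) - a i : ℤ) : ℝ) ≤ Real.exp z) then
          (Real.log ((a (j * Q + Q) - a i : ℤ) : ℝ) -
            Real.log ((a (j * Q) - a i : ℤ) : ℝ)) else 0) =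
          ∑ i ∈ range (j * Q), if (i ∈ De ∧ ((a (j * Q) - a i : ℤ) : ℝ) ≤ Real.exp z) then
          (Real.log ((a (j * Q + Q) - a i : ℤ) : ℝ) -
            Real.log ((a (j * Q) - a i : ℤ) : ℝ)) else 0 := by
        rw [← sum_filter, ← sum_filter]
        apply sum_congr _ fun _ _ => rfl
        ext i
        simp only [mem_filter, mem_range]
        tauto
      have s2 : (∑ i ∈ (Ico k₀ (j * Q)).filter (fun i => y₂ < Gm a m i),
          Real.exp y * (1 / ((a (j * Q) - a i : ℤ) : ℝ))) =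
          ∑ i ∈ range (j * Q), if (k₀ ≤ i ∧ y₂ < Gm a m i) then
            Real.exp y * (1 / ((a (j * Q) - a i : ℤ) : ℝ)) else 0 := by
        rw [← sum_filter]
        apply sum_congr _ fun _ _ => rfl
        ext i
        simp only [mem_filter, mem_range, mem_Ico]
        tauto
      have s3 : (∑ i ∈ (range (j * Q)).filter
            (fun i => Real.exp z < ((a (j * Q) - a i : ℤ) : ℝ)),
          Real.exp y * (1 / ((a (j * Q) - a i : ℤ) : ℝ))) =
          ∑ i ∈ range (j * Q), if (Real.exp z < ((a (j * Q) - a i : ℤ) : ℝ)) then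
            Real.exp y * (1 / ((a (j * Q) - a i : ℤ) : ℝ)) else 0 := by
        rw [← sum_filter]
      rw [s1, s2, s3, ← sum_add_distrib, ← sum_add_distrib]
      refine sum_le_sum fun i hi => ?_
      rw [mem_range] at hi
      have hTi := hT i hi
      have hTi0 := hT0 i hi
      by_cases hfar : Real.exp z < ((a (j * Q) - a i : ℤ) : ℝ)
      · have hn : ¬ (i ∈ De ∧ ((a (j * Q) - a i : ℤ) : ℝ) ≤ Real.exp z) := by
          rintro ⟨-, h⟩; linarith
        rw [if_neg hn, if_pos hfar]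
        have : 0 ≤ (if (k₀ ≤ i ∧ y₂ < Gm a m i) then
            Real.exp y * (1 / ((a (j * Q) - a i : ℤ) : ℝ)) else 0) := by
          split_ifs
          · exact hTi0
          · exact le_rfl
        linarith
      · rw [if_neg hfar]
        by_cases hde : i ∈ De
        · rw [if_pos ⟨hde, not_lt.mp hfar⟩]
          have : 0 ≤ (if (k₀ ≤ i ∧ y₂ < Gm a m i) then
              Real.exp y * (1 / ((a (j * Q) - a i : ℤ) : ℝ)) else 0) := by
            split_ifs
            · exact hTi0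
            · exact le_rfl
          linarith
        · rw [if_neg (fun h => hde h.1)]
          have hnd : k₀ ≤ i ∧ y₂ < Gm a m i := by
            rw [hDe, mem_filter, mem_range, not_and, not_or] at hde
            have := hde (by omega)
            exact ⟨not_lt.mp this.1, not_le.mp this.2⟩
          rw [if_pos hnd]
          linarith
    have hin : ∑ i ∈ Ico (j * Q) (j * Q + Q), Real.log ((a (j * Q + Q) - a i : ℤ) : ℝ) =
        ∑ i ∈ De, if (j * Q ≤ i ∧ i < j * Q + Q) then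
          Real.log ((a (j * Q + Q) - a i : ℤ) : ℝ) else 0 := by
      rw [← sum_filter]
      apply sum_congr _ fun _ _ => rfl
      ext i
      rw [mem_filter, mem_Ico, hDe, mem_filter, mem_range]
      constructor
      · rintro ⟨hi1, hi2⟩
        refine ⟨⟨by omega, Or.inr ?_⟩, hi1, hi2⟩
        exact (hB2 j hj i (by omega) (by omega)).trans hyy
      · rintro ⟨-, h⟩; exact h
    -- GR3
    have hg3 := h3 a k₀ C₀ hD N m (j * Q) y₂ hm1 hN1 (by omega) (by omega)
      (fun i hi1 hi2 => (hB2 j hj i (by omega) (by omega)).trans hyy)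
    have hg4 := hG4' (j * Q) z hk0 (by omega) hgz hz0
    rw [← mul_sum, ← mul_sum] at hsplit
    have hey : 0 < Real.exp y := Real.exp_pos y
    have e3 := mul_le_mul_of_nonneg_left hg3 hey.le
    have e4 := mul_le_mul_of_nonneg_left hg4 hey.le
    rw [hin]
    have e5 : Real.exp y * (m * (1 + Real.log N) * Real.exp (-y₂)) =
        Real.exp y * m * (1 + Real.log N) * Real.exp (-y₂) := by ring
    linarith
  -- the sum over the blocks
  have hRs : Rs a Q D ≤ ∑ j ∈ D,
      ((∑ i ∈ De, if (i < j * Q ∧ ((a (j * Q) - a i : ℤ) : ℝ) ≤ Real.exp z) then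
        (Real.log ((a (j * Q + Q) - a i : ℤ) : ℝ) - Real.log ((a (j * Q) - a i : ℤ) : ℝ)) else 0) +
      (∑ i ∈ De, if (j * Q ≤ i ∧ i < j * Q + Q) then
        Real.log ((a (j * Q + Q) - a i : ℤ) : ℝ) else 0) +
      (Real.exp y * m * (1 + Real.log N) * Real.exp (-y₂) +
        Real.exp y * ((el N : ℝ) ^ C * P1 K m N *
          Real.exp ((z - gg a (P1 K m N)) / b - z)))) := by
    unfold Rs
    exact sum_le_sum hone
  rw [sum_add_distrib, sum_add_distrib, sum_comm, sum_comm (s := D) (t := De)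
    (f := fun j i => if (j * Q ≤ i ∧ i < j * Q + Q) then
        Real.log ((a (j * Q + Q) - a i : ℤ) : ℝ) else 0), ← sum_add_distrib, sum_const,
    nsmul_eq_mul] at hRs
  have hdense : ∑ i ∈ De, ((∑ j ∈ D, if (i < j * Q ∧ ((a (j * Q) - a i : ℤ) : ℝ) ≤ Real.exp z) then
        (Real.log ((a (j * Q + Q) - a i : ℤ) : ℝ) - Real.log ((a (j * Q) - a i : ℤ) : ℝ)) else 0) +
      ∑ j ∈ D, if (j * Q ≤ i ∧ i < j * Q + Q) then
        Real.log ((a (j * Q + Q) - a i : ℤ) : ℝ) else 0) ≤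
      ((cnt a k₀ N m y₂ : ℝ) + k₀) * (z + 1) := by
    have hlog : Real.log (Real.exp z + Real.exp y) ≤ z + 1 := by
      have h2e : Real.exp z + Real.exp y ≤ Real.exp (z + 1) := by
        have hyz' : Real.exp y ≤ Real.exp z := Real.exp_le_exp.mpr hyz
        have h21 : (2 : ℝ) ≤ Real.exp 1 := by
          have := Real.add_one_le_exp (1 : ℝ); linarith
        rw [Real.exp_add]
        nlinarith [Real.exp_pos z]
      calc Real.log (Real.exp z + Real.exp y) ≤ Real.log (Real.exp (z + 1)) :=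
            Real.log_le_log (by positivity) h2e
        _ = z + 1 := Real.log_exp _
    calc _ ≤ ∑ _i ∈ De, (z + 1) := by
          refine sum_le_sum fun i _ => ?_
          have := h2 a k₀ C₀ hD Q i D (Real.exp z) (Real.exp y) hQ1 (Real.one_le_exp hz0)
            (Real.one_le_exp hy) (fun j hj => ⟨(hB4 j hj).1, (hB4 j hj).2.2.2⟩)
          rw [sum_filter, sum_filter] at this
          exact this.trans hlog
      _ = (De.card : ℝ) * (z + 1) := by rw [sum_const, nsmul_eq_mul]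
      _ ≤ _ := mul_le_mul_of_nonneg_right hcard (by linarith)
  linarith

end Pool.Agent.Work.MP_b29d7f_low
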