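import Pool.Agent.Work.MP_b29d7f_low.Interface3

/-!
# Block LL1: one level of Proposition LL
-/

namespace Pool.Agent.Work.MP_b29d7f_low

open Finset

theorem stmt_LL1 (hS : Stmt_SUMS) (hF : Stmt_FOUR) : Stmt_LL1 := by
  intro C₁ hC₁
  obtain ⟨S, hSpow⟩ : ∃ S : ℕ, 8 * C₁ ≤ (3 / 2 : ℝ) ^ S := by
    obtain ⟨S, h⟩ := pow_unbounded_of_one_lt (8 * C₁) (by norm_num : (1 : ℝ) < 3 / 2)
    exact ⟨S, h.le⟩
  obtain ⟨t, ht0, htS⟩ : ∃ t : ℝ, 0 < t ∧ 4 ^ S * t = 1 / 2 :=
    ⟨1 / (2 * 4 ^ S), by positivity, by field_simp⟩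
  refine ⟨t, ht0, ?_⟩
  intro p i _ hp hi μ π hμ hπ hμ1 hπ1 hκ hd hy
  classical
  obtain ⟨c, M, R, hc1, hc0, hcneg, hM, hM0, hR, htri, hsM, hsR, hsd, hort⟩ :=
    hF (p ^ i) μ π hμ hπ hμ1 hπ1
  have hp0 : 0 < p := hp.pos
  have hn0 : (0 : ℝ) < ((p ^ i : ℕ) : ℝ) := by
    have : 0 < p ^ i := pow_pos hp0 i
    exact_mod_cast this
  have hnp : ((p ^ i : ℕ) : ℝ) * (1 / (p : ℝ) ^ i) = 1 := by
    push_cast
    have : (p : ℝ) ^ i ≠ 0 := by positivity
    field_simp
  generalize hnn : ((p ^ i : ℕ) : ℝ) = n at *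
  generalize hkk : ∑ x, (μ x) ^ 2 - 1 / (p : ℝ) ^ i = κ at *
  have hnk : n * ∑ x, (μ x) ^ 2 = n * κ + 1 := by
    rw [← hkk, mul_sub, hnp]
    ring
  set B : ℕ → Finset (ZMod (p ^ i)) := fun s => univ.filter fun a => 1 - 4 ^ s * t ≤ c a with hBdef
  have hB : ∀ s a, a ∈ B s ↔ 1 - 4 ^ s * t ≤ c a := by
    intro s a
    simp [hBdef]
  have h0B : ∀ s, (0 : ZMod (p ^ i)) ∈ B s := by
    intro s
    rw [hB, hc0]
    have : 0 ≤ 4 ^ s * t := by positivity
    linarith
  have hmono : ∀ s s', s ≤ s' → B s ⊆ B s' := by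
    intro s s' hss a ha
    rw [hB] at ha ⊢
    have h1 : (4 : ℝ) ^ s ≤ 4 ^ s' := pow_le_pow_right₀ (by norm_num) hss
    have h2 : 4 ^ s * t ≤ 4 ^ s' * t := mul_le_mul_of_nonneg_right h1 ht0.le
    linarith
  -- many elements in `B 0`
  have hcard0 : n * κ / 2 ≤ (((B 0).erase 0).card : ℝ) := by
    have e1 : ∑ a ∈ (univ : Finset (ZMod (p ^ i))).erase 0, M a = n * κ := by
      have h1 := Finset.add_sum_erase univ M (mem_univ (0 : ZMod (p ^ i)))
      rw [hM0, hsM, hnk] at h1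
      linarith
    have e2 : ∑ a ∈ (univ : Finset (ZMod (p ^ i))).erase 0, M a ≤
        ∑ a ∈ (univ : Finset (ZMod (p ^ i))).erase 0,
          ((if a ∈ (B 0).erase 0 then (1 : ℝ) else 0) + M a * (2 * (1 - c a)) / (2 * t)) := by
      refine Finset.sum_le_sum fun a ha => ?_
      have h3 : 0 ≤ M a * (2 * (1 - c a)) / (2 * t) := by
        have := (hM a).1
        have := hc1 a
        have : 0 ≤ 1 - c a := by linarith
        positivity
      by_cases hab : a ∈ (B 0).erase 0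
      · rw [if_pos hab]
        have := (hM a).2
        linarith
      · rw [if_neg hab, zero_add]
        have h4 : a ∉ B 0 := fun h => hab (Finset.mem_erase.2 ⟨Finset.ne_of_mem_erase ha, h⟩)
        rw [hB, not_le, pow_zero, one_mul] at h4
        rw [le_div_iff₀ (by positivity)]
        refine mul_le_mul_of_nonneg_left (by linarith) (hM a).1
    have e3 : ∑ a ∈ (univ : Finset (ZMod (p ^ i))).erase 0,
        ((if a ∈ (B 0).erase 0 then (1 : ℝ) else 0) + M a * (2 * (1 - c a)) / (2 * t)) ≤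
        ((B 0).erase 0).card + n * κ / 2 := by
      rw [Finset.sum_add_distrib]
      refine add_le_add ?_ ?_
      · rw [← Finset.sum_filter, Finset.sum_const, nsmul_eq_mul, mul_one]
        have : ((univ : Finset (ZMod (p ^ i))).erase 0).filter (fun a => a ∈ (B 0).erase 0) ⊆
            (B 0).erase 0 := fun a ha => (Finset.mem_filter.1 ha).2
        exact_mod_cast Finset.card_le_card this
      · rw [← Finset.sum_div]
        rw [div_le_iff₀ (by positivity)]
        have h5 : ∑ a ∈ (univ : Finset (ZMod (p ^ i))).erase 0, M a * (2 * (1 - c a)) ≤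
            ∑ a, M a * (2 * (1 - c a)) := by
          refine Finset.sum_le_sum_of_subset_of_nonneg (Finset.erase_subset _ _) ?_
          intro a _ _
          have := (hM a).1
          have := hc1 a
          have : 0 ≤ 1 - c a := by linarith
          positivity
        rw [hsd] at h5
        have h6 := mul_le_mul_of_nonneg_left hd hn0.le
        calc _ ≤ _ := h5
          _ ≤ _ := h6
          _ = _ := by ring
    linarith
  have hnk0 : 0 < n * κ := mul_pos hn0 hκ
  have hne0 : ∃ x ∈ B 0, x ≠ 0 := by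
    have h1 : 0 < ((B 0).erase 0).card := by
      have : (0 : ℝ) < (((B 0).erase 0).card : ℝ) := by linarith
      exact_mod_cast this
    obtain ⟨x, hx⟩ := Finset.card_pos.1 h1
    exact ⟨x, Finset.mem_of_mem_erase hx, Finset.ne_of_mem_erase hx⟩
  have hcard0' : n * κ / 2 + 1 ≤ ((B 0).card : ℝ) := by
    have h1 : ((B 0).erase 0).card + 1 = (B 0).card := Finset.card_erase_add_one (h0B 0)
    have h2 : (((B 0).erase 0).card : ℝ) + 1 = ((B 0).card : ℝ) := by exact_mod_cast h1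
    linarith
  -- few elements in `B S`
  have hcardS : ((B S).card : ℝ) ≤ 4 * (n * (C₁ * κ)) := by
    have h1 : ((B S).card : ℝ) * (1 / 4) ≤ ∑ a ∈ B S, (c a) ^ 2 := by
      rw [← nsmul_eq_mul]
      refine Finset.card_nsmul_le_sum _ _ _ ?_
      intro a ha
      rw [hB, htS] at ha
      nlinarith
    have h2 : ∑ a ∈ B S, (c a) ^ 2 ≤ ∑ a, (c a) ^ 2 :=
      Finset.sum_le_sum_of_subset_of_nonneg (Finset.subset_univ _) fun a _ _ => sq_nonneg _
    have h3 : ∑ a, (c a) ^ 2 ≤ ∑ a, R a := Finset.sum_le_sum fun a _ => hR a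
    have h4 := mul_le_mul_of_nonneg_left hy hn0.le
    rw [← hsR] at h4
    linarith
  -- the chain
  have hstep : ∀ s, (3 : ℝ) / 2 * (B s).card ≤ (B (s + 1)).card ∨
      ∀ b : ZMod (p ^ i), b * (p : ZMod (p ^ i)) ^ (i - 1) ∈ B (s + 1) := by
    intro s
    refine hS p i hp hi (B s) (B (s + 1)) (h0B s) ?_ ?_ ?_
    · intro x hx
      rw [hB] at hx ⊢
      rw [hcneg]
      exact hx
    · obtain ⟨x, hx, hx0⟩ := hne0
      exact ⟨x, hmono 0 s (Nat.zero_le _) hx, hx0⟩
    · intro x hx y hy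
      rw [hB] at hx hy ⊢
      have h1 := htri x y
      have h2 : (4 : ℝ) ^ (s + 1) * t = 4 * (4 ^ s * t) := by ring
      rw [h2]
      linarith
  have hall : ∀ b : ZMod (p ^ i), b * (p : ZMod (p ^ i)) ^ (i - 1) ∈ B S := by
    by_contra hcon
    have hgrow : ∀ s, s ≤ S → (3 / 2 : ℝ) ^ s * (B 0).card ≤ (B s).card := by
      intro s
      induction s with
      | zero => intro _; simp
      | succ s ih =>
        intro hs
        have h1 := ih (by omega)
        rcases hstep s with h2 | h2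
        · calc (3 / 2 : ℝ) ^ (s + 1) * (B 0).card = 3 / 2 * ((3 / 2 : ℝ) ^ s * (B 0).card) := by
                ring
            _ ≤ 3 / 2 * (B s).card := by linarith
            _ ≤ _ := h2
        · exact absurd (fun b => hmono (s + 1) S hs (h2 b)) hcon
    have h1 := hgrow S (le_refl S)
    have h2 : 8 * C₁ * (n * κ / 2 + 1) ≤ (3 / 2 : ℝ) ^ S * (B 0).card := by
      refine mul_le_mul hSpow hcard0' (by positivity) (by positivity)
    have h3 : 0 < 8 * C₁ := by positivity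
    have h4 : 8 * C₁ * (n * κ / 2 + 1) = 4 * (n * (C₁ * κ)) + 8 * C₁ := by ring
    linarith
  -- conclusion
  have h1 := hort ((p : ZMod (p ^ i)) ^ (i - 1))
  have h2 : n * (1 / 2) ≤ ∑ a, c (a * (p : ZMod (p ^ i)) ^ (i - 1)) := by
    have h3 : ∑ _a : ZMod (p ^ i), (1 / 2 : ℝ) ≤ ∑ a, c (a * (p : ZMod (p ^ i)) ^ (i - 1)) := by
      refine Finset.sum_le_sum fun a _ => ?_
      have h4 := hall a
      rw [hB, htS] at h4
      linarith
    rw [Finset.sum_const, Finset.card_univ, ZMod.card, nsmul_eq_mul, hnn] at h3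
    exact h3
  rw [h1] at h2
  exact le_of_mul_le_mul_left h2 hn0

end Pool.Agent.Work.MP_b29d7f_low
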