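import Pool.Agent.Work.MP_b29d7f_low.Interface2

/-!
# Block LOCA (helper86): the growth of the small primes over a set of blocks
-/

namespace Pool.Agent.Work.MP_b29d7f_low

open Finset
open Pool.Agent.Work.MP_b29d7f_half (Ord lD)
open Pool.Agent.Work.MP_b29d7f_sep (nv)

theorem LOCA_mul (h3 : Stmt_SUPER) {a : ℕ → ℤ} (ha : Ord (Set.range a) a) {p : ℕ}
    (hp : p.Prime) (l k : ℕ) : l * nv p a k ≤ nv p a (l * k) := by
  induction l with
  | zero => simp
  | succ l ih =>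
    have := h3 a ha p hp (l * k) k
    rw [Nat.add_mul, one_mul, Nat.add_mul, one_mul]
    omega

/-- the growth over the blocks of `D` and over the other blocks, for one prime -/
theorem LOCA_one (h3 : Stmt_SUPER) (h5 : Stmt_PAD) {a : ℕ → ℤ} (ha : Ord (Set.range a) a)
    {p : ℕ} (hp : p.Prime) (N Q : ℕ) (hQ : 1 ≤ Q) (D : Finset ℕ)
    (hD : ∀ j ∈ D, j * Q + Q ≤ N) :
    ∑ j ∈ D, ((nv p a (j * Q + Q) : ℝ) - nv p a (j * Q)) +
      (((N / Q : ℕ) : ℝ) - D.card) * (nv p a Q : ℝ) ≤ nv p a N := by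
  classical
  obtain ⟨hmono, h0, -⟩ := h5 a ha p hp
  have hsub : D ⊆ range (N / Q) := by
    intro j hj
    rw [mem_range]
    have h1 := hD j hj
    have h2 : j + 1 ≤ N / Q := by
      rw [Nat.le_div_iff_mul_le (by omega), Nat.add_mul, one_mul]
      exact h1
    omega
  have htel : ∑ j ∈ range (N / Q), ((nv p a (j * Q + Q) : ℝ) - nv p a (j * Q)) =
      nv p a (N / Q * Q) := by
    have e1 := Finset.sum_range_sub (fun j => (nv p a (j * Q) : ℝ)) (N / Q)
    simp only [zero_mul, h0, Nat.cast_zero, sub_zero] at e1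
    rw [← e1]
    apply sum_congr rfl
    intro j _
    rw [Nat.add_mul, one_mul]
  have hle : (nv p a (N / Q * Q) : ℝ) ≤ nv p a N := by
    exact_mod_cast hmono (Nat.div_mul_le_self N Q)
  have hsplit := Finset.sum_sdiff hsub (f := fun j => (nv p a (j * Q + Q) : ℝ) - nv p a (j * Q))
  have hrest : ((range (N / Q) \ D).card : ℝ) * (nv p a Q : ℝ) ≤
      ∑ j ∈ range (N / Q) \ D, ((nv p a (j * Q + Q) : ℝ) - nv p a (j * Q)) := by
    rw [← nsmul_eq_mul, ← Finset.sum_const]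
    apply Finset.sum_le_sum
    intro j _
    have e2 : (nv p a (j * Q) : ℝ) + nv p a Q ≤ nv p a (j * Q + Q) := by
      exact_mod_cast h3 a ha p hp (j * Q) Q
    linarith
  have hcard : ((range (N / Q) \ D).card : ℝ) = ((N / Q : ℕ) : ℝ) - D.card := by
    have e3 := Finset.card_sdiff_add_card_eq_card hsub
    rw [card_range] at e3
    have e4 : ((range (N / Q) \ D).card : ℝ) + D.card = ((N / Q : ℕ) : ℝ) := by
      exact_mod_cast e3
    linarith
  rw [hcard] at hrest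
  linarith

theorem stmt_LOCA (h1 : Stmt_TRANS) (h2 : Stmt_CPA) (h3 : Stmt_SUPER) (h4 : Stmt_GGB)
    (h5 : Stmt_PAD) : Stmt_LOCA := by
  intro a k₀ C₀ κ b β₁ β₂ e₃ e₇ e₈ K J hd hκ hβ₁ hβ₂ hK
  classical
  obtain ⟨CT, NT, hCT, hT⟩ := h1 a k₀ C₀ κ hd hκ
  obtain ⟨hg1, hg0, hgT, -⟩ := h4 a k₀ C₀ hd
  have hC₀ : 0 ≤ C₀ := zero_le_one.trans hd.one_le
  have hlog2 : 0 < Real.log 2 := Real.log_pos one_lt_two
  refine ⟨CT + 2 * C₀ ^ 2 / Real.log 2 + C₀ * K, max NT ⌈Real.exp (2 * K + 2)⌉₊, by positivity,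
    ?_⟩
  intro n N R m hN hF D hD
  have hNT : NT ≤ N := (le_max_left _ _).trans hN
  have hNe : Real.exp (2 * K + 2) ≤ N :=
    (Nat.le_ceil _).trans (by exact_mod_cast (le_max_right _ _).trans hN)
  have hN0 : (0 : ℝ) < N := (Real.exp_pos _).trans_le hNe
  have hLl : Real.log N ≤ el N := Nat.le_ceil _
  have hLK : 2 * (K : ℝ) + 2 ≤ Real.log N := by
    rw [Real.le_log_iff_exp_le hN0]
    exact hNe
  have hK1 : (1 : ℝ) ≤ K := by exact_mod_cast hK
  have hL0 : 0 ≤ Real.log N := by linarith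
  have hl2K : 2 * K + 2 ≤ el N := by
    have : (2 * (K : ℝ) + 2) ≤ el N := hLK.trans hLl
    exact_mod_cast this
  set l : ℕ := el N with hl
  have hl1 : 1 ≤ l := by omega
  have hlr1 : (1 : ℝ) ≤ l := by exact_mod_cast hl1
  -- sizes
  have hm_big : l ^ 30 ≤ m := hF.m_big
  have hm_hi : m * l ^ 20 ≤ R := hF.m_hi
  have hl30 : l ≤ l ^ 30 := Nat.le_self_pow (by norm_num) l
  have hml : l ≤ m := hl30.trans hm_big
  have hm1 : 1 ≤ m := by omega
  have hR1 : 1 ≤ R := by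
    have : 1 ≤ m * l ^ 20 := Nat.mul_pos hm1 (pow_pos hl1 20)
    omega
  have hRN : R ^ 2 ≤ N := by
    have e1 : Real.log ((R : ℝ) ^ 2) ≤ Real.log N := by
      rw [Real.log_pow]
      have e2 : Real.log R ≤ β₂ * Real.log N := hF.R_hi
      have e3 : β₂ * Real.log N ≤ 1 / 4 * Real.log N := mul_le_mul_of_nonneg_right hβ₂ hL0
      push_cast
      linarith
    have e4 : (0 : ℝ) < (R : ℝ) ^ 2 := by
      have : (1 : ℝ) ≤ R := by exact_mod_cast hR1
      positivity
    have e5 := (Real.log_le_log_iff e4 hN0).1 e1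
    exact_mod_cast e5
  set P' : ℕ := P1 K m N with hP'
  set Q : ℕ := Qb K m N with hQdef
  have hP'e : P' = K * m * l ^ 3 := rfl
  have hQe : Q = l * P' := by
    rw [hP'e, hQdef]
    unfold Qb
    ring
  have hPP' : K * m ≤ P' := by
    rw [hP'e]
    exact Nat.le_mul_of_pos_right _ (pow_pos hl1 3)
  have hKm2 : 2 ≤ K * m := by
    have : 1 * m ≤ K * m := Nat.mul_le_mul_right m hK
    omega
  have hP'1 : 1 ≤ P' := by omega
  have hQ1 : 1 ≤ Q := by
    rw [hQe]
    exact Nat.mul_pos hl1 hP'1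
  have hKmR : K * m * l ^ 5 ≤ K * R := by
    calc K * m * l ^ 5 ≤ K * m * l ^ 20 :=
          Nat.mul_le_mul_left _ (Nat.pow_le_pow_right hl1 (by norm_num))
      _ = K * (m * l ^ 20) := by ring
      _ ≤ K * R := Nat.mul_le_mul_left _ hm_hi
  have hlR : l ≤ R := by
    calc l ≤ m := hml
      _ ≤ m * l ^ 20 := Nat.le_mul_of_pos_right _ (pow_pos hl1 20)
      _ ≤ R := hm_hi
  have h2P' : 2 * P' ≤ N := by
    calc 2 * P' = 2 * (K * m * l ^ 3) := by rw [hP'e]
      _ ≤ 2 * (K * m * l ^ 5) := by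
          apply Nat.mul_le_mul_left
          exact Nat.mul_le_mul_left _ (Nat.pow_le_pow_right hl1 (by norm_num))
      _ ≤ 2 * (K * R) := Nat.mul_le_mul_left _ hKmR
      _ = (2 * K) * R := by ring
      _ ≤ R * R := Nat.mul_le_mul_right _ (by omega)
      _ = R ^ 2 := by ring
      _ ≤ N := hRN
  have hRN' : R ≤ N := by
    have : R ≤ R ^ 2 := Nat.le_self_pow (by norm_num) R
    omega
  -- the primes
  have hprime : ∀ p ∈ PA a N (K * m), p.Prime := by
    intro p hp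
    exact Nat.prime_of_mem_primeFactors (mem_PA.1 hp).1
  have hlogp : ∀ p ∈ PA a N (K * m), 0 ≤ Real.log p := fun p _ => Real.log_natCast_nonneg p
  -- `W(P')`
  set W : ℝ := ∑ p ∈ PA a N (K * m), Real.log p * nv p a P' with hW
  have hW0 : 0 ≤ W := Finset.sum_nonneg fun p hp => mul_nonneg (hlogp p hp) (Nat.cast_nonneg _)
  have hWT : W ≤ P' * gg a P' := by
    have e1 := (h2 a hd.ord N P' (by omega)).2.2
    rw [hgT P', ← e1]
    apply Finset.sum_le_sum_of_subset_of_nonneg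
    · intro p hp
      obtain ⟨e2, e3⟩ := mem_PA.1 hp
      refine mem_PA.2 ⟨e2, ?_⟩
      exact e3.trans ((h5 a hd.ord p (hprime p hp)).1 hPP')
    · intro p _ _
      exact mul_nonneg (Real.log_natCast_nonneg p) (Nat.cast_nonneg _)
  -- the number of primes
  have hcardPA : ((PA a N (K * m)).card : ℝ) * Real.log 2 ≤ (K * m : ℕ) * (C₀ * Real.log N) := by
    have e1 := (h2 a hd.ord N (K * m) (by omega)).1
    have e2 : gg a (K * m) ≤ C₀ * Real.log N := by
      refine (hg1 (K * m) hKm2).trans ?_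
      apply mul_le_mul_of_nonneg_left _ hC₀
      apply Real.log_le_log
      · exact_mod_cast (by omega : 0 < K * m)
      · exact_mod_cast (by omega : K * m ≤ N)
    rw [← hgT] at e1
    exact e1.trans (mul_le_mul_of_nonneg_left e2 (Nat.cast_nonneg _))
  -- TRANS
  have hTr := hT n N hNT hF.n_lo hF.n_hi hF.lrec (PA a N (K * m)) P' hprime hP'1 h2P'
  rw [← hW] at hTr
  -- the blocks
  have hblocks : ∑ p ∈ PA a N (K * m), Real.log p * ∑ j ∈ D,
      ((nv p a (j * Q + Q) : ℝ) - nv p a (j * Q)) + (((N / Q : ℕ) : ℝ) - D.card) * (l * W) ≤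
      ∑ p ∈ PA a N (K * m), Real.log p * nv p a N := by
    rw [hW, Finset.mul_sum, Finset.mul_sum, ← Finset.sum_add_distrib]
    apply Finset.sum_le_sum
    intro p hp
    have e1 := LOCA_one h3 h5 hd.ord (hprime p hp) N Q hQ1 D hD
    have e2 : (l : ℝ) * nv p a P' ≤ nv p a Q := by
      rw [hQe]
      exact_mod_cast LOCA_mul h3 hd.ord (hprime p hp) l P'
    have e3 : (0 : ℝ) ≤ ((N / Q : ℕ) : ℝ) - D.card := by
      have hsub : D ⊆ range (N / Q) := by
        intro j hj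
        rw [mem_range]
        have e4 := hD j hj
        have e5 : j + 1 ≤ N / Q := by
          rw [Nat.le_div_iff_mul_le (by omega), Nat.add_mul, one_mul]
          exact e4
        omega
      have e6 := Finset.card_le_card hsub
      rw [card_range] at e6
      have e7 : ((D.card : ℕ) : ℝ) ≤ ((N / Q : ℕ) : ℝ) := by exact_mod_cast e6
      linarith
    have e8 := mul_le_mul_of_nonneg_left e2 e3
    have e9 : ∑ j ∈ D, ((nv p a (j * Q + Q) : ℝ) - nv p a (j * Q)) +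
        (((N / Q : ℕ) : ℝ) - D.card) * (l * nv p a P') ≤ nv p a N := by linarith
    have e10 := mul_le_mul_of_nonneg_left e9 (hlogp p hp)
    calc Real.log p * ∑ j ∈ D, ((nv p a (j * Q + Q) : ℝ) - nv p a (j * Q)) +
          (((N / Q : ℕ) : ℝ) - D.card) * (l * (Real.log p * nv p a P'))
        = Real.log p * (∑ j ∈ D, ((nv p a (j * Q + Q) : ℝ) - nv p a (j * Q)) +
          (((N / Q : ℕ) : ℝ) - D.card) * (l * nv p a P')) := by ring
      _ ≤ _ := e10
  -- real numbers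
  have hP'0 : (0 : ℝ) < P' := by exact_mod_cast hP'1
  have hQr : (Q : ℝ) = l * P' := by
    rw [hQe]
    push_cast
    ring
  have hQ0 : (0 : ℝ) < Q := by exact_mod_cast hQ1
  have hM : (N : ℝ) / P' ≤ l * (((N / Q : ℕ) : ℝ) + 1) := by
    rw [div_le_iff₀ hP'0]
    have e1 : N < N / Q * Q + Q := Nat.lt_div_mul_add hQ1
    have e2 : (N : ℝ) ≤ ((N / Q : ℕ) : ℝ) * Q + Q := by exact_mod_cast e1.le
    calc (N : ℝ) ≤ ((N / Q : ℕ) : ℝ) * Q + Q := e2
      _ = l * (((N / Q : ℕ) : ℝ) + 1) * P' := by rw [hQr]; ring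
  have hg : gg a P' ≤ C₀ * l := by
    refine (hg1 P' (by omega)).trans ?_
    apply mul_le_mul_of_nonneg_left _ hC₀
    refine le_trans ?_ hLl
    apply Real.log_le_log hP'0
    exact_mod_cast (by omega : P' ≤ N)
  have hQg : (Q : ℝ) * gg a P' ≤ C₀ * K * N := by
    calc (Q : ℝ) * gg a P' ≤ Q * (C₀ * l) := mul_le_mul_of_nonneg_left hg hQ0.le
      _ = C₀ * ((K * m * l ^ 5 : ℕ) : ℝ) := by
          rw [hQr, hP'e]
          push_cast
          ring
      _ ≤ C₀ * ((K * R : ℕ) : ℝ) := by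
          apply mul_le_mul_of_nonneg_left _ hC₀
          exact_mod_cast hKmR
      _ ≤ C₀ * ((K * N : ℕ) : ℝ) := by
          apply mul_le_mul_of_nonneg_left _ hC₀
          exact_mod_cast Nat.mul_le_mul_left K hRN'
      _ = C₀ * K * N := by
          push_cast
          ring
  have hPA2 : (N : ℝ) / P' * (((PA a N (K * m)).card : ℝ) * (2 * C₀ * Real.log N)) ≤
      2 * C₀ ^ 2 / Real.log 2 * N := by
    have e1 : ((PA a N (K * m)).card : ℝ) ≤ (K * m : ℕ) * (C₀ * Real.log N) / Real.log 2 := by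
      rw [le_div_iff₀ hlog2]
      exact hcardPA
    have e2 : Real.log N * Real.log N ≤ (l : ℝ) ^ 3 := by
      calc Real.log N * Real.log N ≤ (l : ℝ) * l := mul_le_mul hLl hLl hL0 (by positivity)
        _ = (l : ℝ) ^ 2 := by ring
        _ ≤ (l : ℝ) ^ 3 := pow_le_pow_right₀ hlr1 (by norm_num)
    have hKm0 : (0 : ℝ) < ((K * m : ℕ) : ℝ) := by exact_mod_cast (by omega : 0 < K * m)
    have hl3 : (0 : ℝ) < (l : ℝ) ^ 3 := by positivity
    have hP'r : (P' : ℝ) = ((K * m : ℕ) : ℝ) * (l : ℝ) ^ 3 := by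
      rw [hP'e]
      push_cast
      ring
    calc (N : ℝ) / P' * (((PA a N (K * m)).card : ℝ) * (2 * C₀ * Real.log N))
        ≤ (N : ℝ) / P' * (((K * m : ℕ) * (C₀ * Real.log N) / Real.log 2) *
            (2 * C₀ * Real.log N)) := by gcongr
      _ = 2 * C₀ ^ 2 / Real.log 2 * N * (Real.log N * Real.log N / (l : ℝ) ^ 3) := by
          rw [hP'r]
          field_simp
      _ ≤ 2 * C₀ ^ 2 / Real.log 2 * N * 1 := by
          apply mul_le_mul_of_nonneg_left _ (by positivity)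
          rw [div_le_one hl3]
          exact e2
      _ = 2 * C₀ ^ 2 / Real.log 2 * N := mul_one _
  have hlW : (l : ℝ) * W ≤ Q * gg a P' := by
    calc (l : ℝ) * W ≤ l * (P' * gg a P') := mul_le_mul_of_nonneg_left hWT (Nat.cast_nonneg _)
      _ = Q * gg a P' := by rw [hQr]; ring
  have hMW : (N : ℝ) / P' * W ≤ (((N / Q : ℕ) : ℝ) + 1) * (l * W) := by
    calc (N : ℝ) / P' * W ≤ (l * (((N / Q : ℕ) : ℝ) + 1)) * W :=
          mul_le_mul_of_nonneg_right hM hW0
      _ = (((N / Q : ℕ) : ℝ) + 1) * (l * W) := by ring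
  have hDW : ((D.card : ℝ) + 1) * (l * W) ≤ ((D.card : ℝ) + 1) * (Q * gg a P') :=
    mul_le_mul_of_nonneg_left hlW (by positivity)
  have hexp : (N : ℝ) / P' * (W + ((PA a N (K * m)).card : ℝ) * (2 * C₀ * Real.log N)) =
      (N : ℝ) / P' * W + (N : ℝ) / P' * (((PA a N (K * m)).card : ℝ) * (2 * C₀ * Real.log N)) :=
    mul_add _ _ _
  rw [hexp] at hTr
  have hfin1 : ∑ p ∈ PA a N (K * m), Real.log p * ∑ j ∈ D,
      ((nv p a (j * Q + Q) : ℝ) - nv p a (j * Q)) ≤
      ((D.card : ℝ) + 1) * (l * W) + 2 * C₀ ^ 2 / Real.log 2 * N + CT * N := by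
    have e1 : (((N / Q : ℕ) : ℝ) + 1) * (l * W) - (((N / Q : ℕ) : ℝ) - D.card) * (l * W) =
        ((D.card : ℝ) + 1) * (l * W) := by ring
    linarith
  have hfin2 : ((D.card : ℝ) + 1) * (Q * gg a P') =
      (D.card : ℝ) * Q * gg a P' + Q * gg a P' := by ring
  have hfin3 : (CT + 2 * C₀ ^ 2 / Real.log 2 + C₀ * K) * (N : ℝ) =
      CT * N + 2 * C₀ ^ 2 / Real.log 2 * N + C₀ * K * N := by ring
  rw [hfin3]
  linarith

end Pool.Agent.Work.MP_b29d7f_low
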