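import Pool.Agent.Work.MP_b29d7f_low.Interface1

/-!
# LRC: the potential at an element, below a left record
-/

namespace Pool.Agent.Work.MP_b29d7f_low

open Finset
open Pool.Agent.Work.MP_b29d7f_nt (IsPOrdering HasSimultaneousOrdering PS vd ld tv)
open Pool.Agent.Work.MP_b29d7f_half (Ord A wv lD)
open Pool.Agent.Work.MP_b29d7f_sep (nv EW EL)

theorem LRC_fact (k : ℕ) :
    (k : ℝ) * Real.log k - k ≤ ∑ j ∈ range k, Real.log ((j : ℝ) + 1) := by
  induction k with
  | zero => simp
  | succ k ih =>
    rw [Finset.sum_range_succ]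
    push_cast
    have h1 : (k : ℝ) * Real.log ((k : ℝ) + 1) - 1 ≤ k * Real.log k := by
      rcases Nat.eq_zero_or_pos k with hk | hk
      · subst hk
        simp
      · have hkR : (0 : ℝ) < k := by exact_mod_cast hk
        have h2 : Real.log (((k : ℝ) + 1) / k) ≤ ((k : ℝ) + 1) / k - 1 :=
          Real.log_le_sub_one_of_pos (by positivity)
        rw [Real.log_div (by positivity) (by positivity)] at h2
        have h3 : ((k : ℝ) + 1) / k - 1 = 1 / k := by
          field_simp
          ring
        rw [h3] at h2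
        have h4 : (k : ℝ) * (Real.log ((k : ℝ) + 1) - Real.log k) ≤ k * (1 / k) :=
          mul_le_mul_of_nonneg_left h2 hkR.le
        rw [mul_one_div_cancel hkR.ne'] at h4
        linarith
    linarith

theorem LRC_core {a : ℕ → ℤ} {κ C : ℝ} {n : ℕ} (hclu : Stmt_CLU) (ha : Ord (Set.range a) a)
    (hb : ∀ k : ℕ, 1 ≤ k → k ≤ n →
      (k : ℝ) ^ 2 * (gg a n - κ * (Real.log n - Real.log k) - C) ≤ 2 * Es a k) (z : ℤ)
    (hz : z ∈ Set.range a) (r : ℕ) : ∀ X : Finset ℤ, X.card = r → (X : Set ℤ) ⊆ Set.range a →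
      z ∉ X → r + 1 ≤ n →
      (r : ℝ) * (gg a n - κ * Real.log n - C - Real.log 2) +
        κ * ∑ j ∈ range r, Real.log ((j : ℝ) + 2) ≤ ∑ x ∈ X, ld z x := by
  classical
  induction r with
  | zero =>
    intro X hX _ _ _
    rw [Finset.card_eq_zero] at hX
    subst hX
    simp
  | succ r ih =>
    intro X hX hXa hzX hr
    have hne : X.Nonempty := by
      rw [← Finset.card_pos]
      omega
    obtain ⟨x₀, hx₀, hmax⟩ := Finset.exists_max_image X (fun x => |z - x|) hne
    have hzx : z - x₀ ≠ 0 := by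
      intro h
      have : z = x₀ := by omega
      exact hzX (this ▸ hx₀)
    have hd1 : (1 : ℝ) ≤ |((z - x₀ : ℤ) : ℝ)| := by
      exact_mod_cast Int.one_le_abs hzx
    -- the cluster
    have hcard : (insert z X).card = r + 2 := by
      rw [Finset.card_insert_of_notMem hzX, hX]
    have e1 := hclu a ha (insert z X) (2 * |((z - x₀ : ℤ) : ℝ)|)
      (by
        intro y hy
        rw [Finset.mem_coe, Finset.mem_insert] at hy
        rcases hy with rfl | hy
        · exact hz
        · exact hXa hy)
      (by linarith)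
      (by
        have h1 : ∀ y ∈ insert z X, |z - y| ≤ |z - x₀| := by
          intro y hy
          rw [Finset.mem_insert] at hy
          rcases hy with rfl | hy
          · simp
          · exact hmax y hy
        intro x hx y hy
        have h2 := h1 x hx
        have h3 := h1 y hy
        have h4 : |x - y| ≤ 2 * |z - x₀| := by
          have h5 : x - y = (z - y) - (z - x) := by ring
          rw [h5]
          have := abs_sub (z - y) (z - x)
          linarith
        have h6 : ((|x - y| : ℤ) : ℝ) ≤ ((2 * |z - x₀| : ℤ) : ℝ) := by exact_mod_cast h4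
        push_cast at h6 ⊢
        exact h6)
    rw [hcard] at e1
    have e2 := hb (r + 2) (by omega) (by omega)
    push_cast at e1 e2
    have hl : Real.log (2 * |((z - x₀ : ℤ) : ℝ)|) = Real.log 2 + ld z x₀ := by
      unfold ld
      rw [Real.log_mul (by norm_num) (by linarith)]
    push_cast at hl
    rw [hl] at e1
    have hnn : 0 ≤ Real.log 2 + ld z x₀ := by
      have h1 : 0 ≤ Real.log 2 := Real.log_nonneg (by norm_num)
      have h2 : 0 ≤ ld z x₀ := Real.log_nonneg hd1
      linarith
    have e3 : ((r : ℝ) + 2) ^ 2 * (gg a n - κ * (Real.log n - Real.log ((r : ℝ) + 2)) - C) ≤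
        ((r : ℝ) + 2) ^ 2 * (Real.log 2 + ld z x₀) := by
      refine (e2.trans e1).trans ?_
      apply mul_le_mul_of_nonneg_right _ hnn
      have hr0 : (0 : ℝ) ≤ r := Nat.cast_nonneg r
      nlinarith
    have e4 := le_of_mul_le_mul_left e3 (by positivity)
    -- induction
    have e5 := ih (X.erase x₀) (by rw [Finset.card_erase_of_mem hx₀, hX]; omega)
      (by
        intro y hy
        rw [Finset.mem_coe] at hy
        exact hXa (Finset.mem_of_mem_erase hy))
      (fun h => hzX (Finset.mem_of_mem_erase h)) (by omega)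
    rw [← Finset.sum_erase_add _ _ hx₀, Finset.sum_range_succ]
    push_cast
    linarith

theorem stmt_LRC (h1 : Stmt_CLU) (h2 : Stmt_LRA) (h3 : Stmt_PAE) (h4 : Stmt_GGB) :
    Stmt_LRC := by
  classical
  intro a k₀ C₀ κ hD hκ
  obtain ⟨C₁, hC₁, hA⟩ := h2 a k₀ C₀ κ hD hκ
  obtain ⟨hinj, -⟩ := h3 a hD.ord
  obtain ⟨-, hg0, -, -, -, -, -⟩ := h4 a k₀ C₀ hD
  have hlog2 : 0 ≤ Real.log 2 := Real.log_nonneg (by norm_num)
  refine ⟨C₁ + Real.log 2 + κ + gg a 1, by have := hg0 1; positivity, ?_⟩
  intro n hrec i k hk hkn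
  obtain ⟨r, rfl⟩ : ∃ r, k = r + 1 := ⟨k - 1, by omega⟩
  set Y : Finset ℕ := (range (r + 1)).erase (min i r) with hY
  have hYc : Y.card = r := by
    rw [hY, Finset.card_erase_of_mem (mem_range.2 (by omega)), Finset.card_range]
    omega
  have hiY : ∀ l ∈ Y, l ≠ i := by
    intro l hl
    rw [hY, Finset.mem_erase, mem_range] at hl
    omega
  have e1 := LRC_core h1 hD.ord (fun k hk1 hk2 => (hA n hrec k hk1 hk2).2.1) (a i) ⟨i, rfl⟩ r
    (Y.image a) (by rw [Finset.card_image_of_injective _ hinj, hYc])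
    (by
      intro y hy
      rw [Finset.mem_coe, Finset.mem_image] at hy
      obtain ⟨l, -, rfl⟩ := hy
      exact ⟨l, rfl⟩)
    (by
      intro h
      rw [Finset.mem_image] at h
      obtain ⟨l, hl, hl2⟩ := h
      exact hiY l hl (hinj hl2)) hkn
  rw [Finset.sum_image (fun x _ y _ h => hinj h)] at e1
  have e2 : ∑ l ∈ Y, ld (a i) (a l) ≤ ∑ l ∈ (range (r + 1)).erase i, ld (a i) (a l) := by
    apply Finset.sum_le_sum_of_subset_of_nonneg
    · intro l hl
      rw [Finset.mem_erase]
      refine ⟨hiY l hl, ?_⟩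
      rw [hY] at hl
      exact Finset.mem_of_mem_erase hl
    · intro l hl _
      rw [Finset.mem_erase] at hl
      unfold ld
      apply Real.log_nonneg
      have h6 : a i - a l ≠ 0 := by
        intro h
        exact hl.1 (hinj (by omega))
      exact_mod_cast Int.one_le_abs h6
  have e3 := LRC_fact (r + 1)
  rw [Finset.sum_range_succ'] at e3
  push_cast at e3
  simp only [zero_add, Real.log_one, add_zero] at e3
  have e4 : ∑ j ∈ range r, Real.log ((j : ℝ) + 1 + 1) = ∑ j ∈ range r, Real.log ((j : ℝ) + 2) := by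
    apply Finset.sum_congr rfl
    intro j _
    congr 1
    ring
  rw [e4] at e3
  have e5 := mul_le_mul_of_nonneg_left e3 hκ
  have e6 := (hA n hrec 1 le_rfl (by omega)).2.2
  simp only [Nat.cast_one, Real.log_one, sub_zero, mul_zero, add_zero] at e6
  have hg1 := hg0 1
  have hr0 : (0 : ℝ) ≤ r := Nat.cast_nonneg r
  have e7 : (0 : ℝ) ≤ r * gg a 1 := by positivity
  push_cast
  nlinarith

end Pool.Agent.Work.MP_b29d7f_low
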