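import Pool.Agent.Work.MP_b29d7f_low.Interface1

/-!
# Block LRD (helper16)
-/

namespace Pool.Agent.Work.MP_b29d7f_low

open Finset
open Pool.Agent.Work.MP_b29d7f_nt (vd ld vd_comm)
open Pool.Agent.Work.MP_b29d7f_half (lD)
open Pool.Agent.Work.MP_b29d7f_sep (nv)

theorem stmt_LRD (hPAD : Stmt_PAD) (hPRF : Stmt_PRF) (hLRA : Stmt_LRA) (hLRC : Stmt_LRC) :
    Stmt_LRD := by
  intro a k₀ C₀ κ hD hκ
  obtain ⟨C1, hC1, hA⟩ := hLRA a k₀ C₀ κ hD hκ
  obtain ⟨C2, hC2, hB⟩ := hLRC a k₀ C₀ κ hD hκ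
  refine ⟨κ + C2, by linarith, fun n hn i k hik hkn => ?_⟩
  have hfirst : ∀ p : ℕ, p.Prime → ∑ l ∈ (range k).erase i, vl p a i l ≤ nv p a k := by
    intro p hp
    exact (hPAD a hD.ord p hp).2.2.2.2 i k hik
  refine ⟨hfirst, fun Q hQ => ?_⟩
  obtain ⟨hprime, hlog, hlD, -, hin⟩ := hPRF a hD.ord k
  have hln : ∀ p : ℕ, 0 ≤ Real.log p := fun p => Real.log_natCast_nonneg p
  -- all terms are nonnegative
  have hterm : ∀ p : ℕ, p.Prime → 0 ≤ Real.log p *
      ((nv p a k : ℝ) - ∑ l ∈ (range k).erase i, (vl p a i l : ℝ)) := by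
    intro p hp
    refine mul_nonneg (hln p) ?_
    have : ∑ l ∈ (range k).erase i, (vl p a i l : ℝ) ≤ nv p a k := by exact_mod_cast hfirst p hp
    linarith
  -- from Q to PR
  have h1 : ∑ p ∈ Q, Real.log p * ((nv p a k : ℝ) - ∑ l ∈ (range k).erase i, (vl p a i l : ℝ)) ≤
      ∑ p ∈ PR a k, Real.log p *
        ((nv p a k : ℝ) - ∑ l ∈ (range k).erase i, (vl p a i l : ℝ)) := by
    have h2 : ∑ p ∈ Q, Real.log p * ((nv p a k : ℝ) - ∑ l ∈ (range k).erase i, (vl p a i l : ℝ)) ≤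
        ∑ p ∈ Q ∪ PR a k, Real.log p *
          ((nv p a k : ℝ) - ∑ l ∈ (range k).erase i, (vl p a i l : ℝ)) := by
      refine sum_le_sum_of_subset_of_nonneg subset_union_left fun p hp _ => ?_
      rcases mem_union.1 hp with h | h
      · exact hterm p (hQ p h)
      · exact hterm p (hprime p h)
    refine h2.trans (le_of_eq ?_)
    symm
    refine sum_subset subset_union_right fun p hp hp' => ?_
    have hpp : p.Prime := by
      rcases mem_union.1 hp with h | h
      · exact hQ p h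
      · exact absurd h hp'
    have h3 : nv p a k = 0 := by
      by_contra h3
      exact hp' (hin k p le_rfl hpp (Nat.one_le_iff_ne_zero.2 h3))
    have h4 := hfirst p hpp
    rw [h3] at h4
    have h5 : ∑ l ∈ (range k).erase i, (vl p a i l : ℝ) = 0 := by
      exact_mod_cast (Nat.le_zero.1 h4)
    rw [h3, h5]
    simp
  -- the sum over PR
  have h2 : ∑ p ∈ PR a k, Real.log p *
      ((nv p a k : ℝ) - ∑ l ∈ (range k).erase i, (vl p a i l : ℝ)) =
        lD a k - ∑ l ∈ (range k).erase i, ld (a i) (a l) := by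
    have h3 : ∀ l ∈ (range k).erase i, ld (a i) (a l) =
        ∑ p ∈ PR a k, Real.log p * vl p a i l := by
      intro l hl
      rw [mem_erase, mem_range] at hl
      exact hlog i l (fun h => hl.1 h.symm) hik.le hl.2.le
    rw [hlD k le_rfl, sum_congr rfl h3, sum_comm, ← sum_sub_distrib]
    refine sum_congr rfl fun p _ => ?_
    rw [← mul_sum]
    ring
  have hk1 : 1 ≤ k := by omega
  have hk0 : (0 : ℝ) < k := by exact_mod_cast hk1
  have h3 := (hA n hn k hk1 hkn).1
  have h4 := hB n hn i k hk1 hkn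
  have h5 : lD a k = k * gg a k := by
    unfold gg
    field_simp
  have h6 : (k : ℝ) * gg a k ≤ k * (gg a n + κ) := mul_le_mul_of_nonneg_left h3 hk0.le
  rw [h2] at h1
  have h7 : (k : ℝ) * (κ * (Real.log n - Real.log k) + (κ + C2)) =
      k * (gg a n + κ) - k * (gg a n - κ * (Real.log n - Real.log k) - C2) := by ring
  rw [h7]
  linarith

end Pool.Agent.Work.MP_b29d7f_low
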