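import Pool.Agent.Work.MP_b29d7f_low.Interface1

/-!
# LRE: the diameter of `A_N` at a left record
-/

namespace Pool.Agent.Work.MP_b29d7f_low

open Finset
open Pool.Agent.Work.MP_b29d7f_nt (IsPOrdering HasSimultaneousOrdering PS vd ld tv)
open Pool.Agent.Work.MP_b29d7f_half (Ord A wv lD)
open Pool.Agent.Work.MP_b29d7f_sep (nv EW EL)

theorem LRE_ld_mono {x y z w : ℤ} (h1 : x ≠ y) (h2 : |x - y| ≤ |z - w|) : ld x y ≤ ld z w := by
  unfold ld
  have h3 : (0 : ℝ) < |((x - y : ℤ) : ℝ)| := by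
    rw [abs_pos]
    exact_mod_cast sub_ne_zero.2 h1
  apply Real.log_le_log h3
  exact_mod_cast h2

theorem stmt_LRE (h1 : Stmt_TSU) (h2 : Stmt_LRA) (h3 : Stmt_LRC) (h4 : Stmt_PAE)
    (h5 : Stmt_GGB) : Stmt_LRE := by
  intro a k₀ C₀ κ hD hκ
  obtain ⟨C₁, hC₁, hA⟩ := h2 a k₀ C₀ κ hD hκ
  obtain ⟨C₂, hC₂, hB⟩ := h3 a k₀ C₀ κ hD hκ
  obtain ⟨-, -, -, hT, -⟩ := h1 a hD.ord
  obtain ⟨hinj, -⟩ := h4 a hD.ord
  obtain ⟨-, hg0, hgk, -, -, -, -⟩ := h5 a k₀ C₀ hD
  obtain ⟨i₀, hi₀, hmin⟩ := Finset.exists_min_image (range (k₀ + 1)) a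
    ⟨0, mem_range.2 (by omega)⟩
  have hi₀k : i₀ ≤ k₀ := by
    have := mem_range.1 hi₀
    omega
  have hlow : ∀ i : ℕ, a i₀ ≤ a i := by
    intro i
    rcases Nat.lt_or_ge k₀ i with hi | hi
    · exact (hmin k₀ (mem_range.2 (by omega))).trans (hD.top k₀ i hi.le hi).le
    · exact hmin i (mem_range.2 (by omega))
  refine ⟨4 * κ + C₂, k₀ + 1, by positivity, ?_⟩
  intro n N hN hn1 hn2 hrec i j hi hj
  have hN1 : 1 ≤ N := by omega
  have hNR : (1 : ℝ) ≤ N := by exact_mod_cast hN1
  have hup : ∀ i : ℕ, i ≤ N → a i ≤ a N := by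
    intro i hi
    rcases Nat.lt_or_ge i N with h | h
    · exact (hD.top i N (by omega) h).le
    · have : i = N := by omega
      rw [this]
  have hup2 : ∀ l : ℕ, N ≤ l → a N ≤ a l := by
    intro l hl
    rcases Nat.lt_or_ge N l with h | h
    · exact (hD.top N l (by omega) h).le
    · have : l = N := by omega
      rw [this]
  have hne : a i₀ ≠ a N := by
    intro h
    have := hinj h
    omega
  -- the sum over the first `2 N + 1` indices
  have e1 := hT i₀ (2 * N) (by omega)
  have e2 : ∑ l ∈ (range N).erase i₀, ld (a i₀) (a l) + ∑ l ∈ Ico N (2 * N), ld (a i₀) (a l) ≤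
      ∑ l ∈ (range (2 * N + 1)).erase i₀, ld (a i₀) (a l) := by
    rw [← Finset.sum_union]
    · apply Finset.sum_le_sum_of_subset_of_nonneg
      · intro l hl
        rw [Finset.mem_union, Finset.mem_erase, mem_range, mem_Ico] at hl
        rw [Finset.mem_erase, mem_range]
        omega
      · intro l hl _
        rw [Finset.mem_erase, mem_range] at hl
        unfold ld
        apply Real.log_nonneg
        have h6 : a i₀ - a l ≠ 0 := by
          intro h
          exact hl.1 (hinj (by omega))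
        exact_mod_cast Int.one_le_abs h6
    · rw [Finset.disjoint_left]
      intro l hl hl2
      rw [Finset.mem_erase, mem_range] at hl
      rw [mem_Ico] at hl2
      omega
  have e3 : (N : ℝ) * ld (a i₀) (a N) ≤ ∑ l ∈ Ico N (2 * N), ld (a i₀) (a l) := by
    have e4 : ∑ l ∈ Ico N (2 * N), ld (a i₀) (a N) = (N : ℝ) * ld (a i₀) (a N) := by
      rw [Finset.sum_const, Nat.card_Ico, nsmul_eq_mul]
      congr 2
      omega
    rw [← e4]
    apply Finset.sum_le_sum
    intro l hl
    rw [mem_Ico] at hl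
    apply LRE_ld_mono hne
    rw [abs_sub_comm, abs_sub_comm (a i₀) (a l), abs_of_nonneg (sub_nonneg.2 (hlow N)),
      abs_of_nonneg (sub_nonneg.2 (hlow l))]
    have := hup2 l hl.1
    omega
  have e5 := hB n hrec i₀ N hN1 (by omega)
  have e6 := (hA n hrec (2 * N) (by omega) hn1).1
  have e7 := hgk (2 * N)
  have hlog : Real.log n - Real.log N ≤ 2 := by
    have h7 : (n : ℝ) ≤ 3 * N := by
      have : n ≤ 3 * N := by omega
      exact_mod_cast this
    have h8 : Real.log n ≤ Real.log (3 * N) := by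
      apply Real.log_le_log _ h7
      have : 1 ≤ n := by omega
      exact_mod_cast this
    rw [Real.log_mul (by norm_num) (by positivity)] at h8
    have h9 : Real.log 3 ≤ 2 := by
      have := Real.log_le_sub_one_of_pos (show (0 : ℝ) < 3 by norm_num)
      linarith
    linarith
  have e8 : (N : ℝ) * ld (a i₀) (a N) ≤ N * (gg a n + (4 * κ + C₂)) := by
    have h10 : κ * (Real.log n - Real.log N) ≤ κ * 2 := mul_le_mul_of_nonneg_left hlog hκ
    have h11 : lD a (2 * N) ≤ 2 * N * (gg a n + κ) := by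
      rw [← e7]
      push_cast
      apply mul_le_mul_of_nonneg_left e6
      positivity
    have h12 : (N : ℝ) * (gg a n - κ * 2 - C₂) ≤
        N * (gg a n - κ * (Real.log n - Real.log N) - C₂) := by
      apply mul_le_mul_of_nonneg_left _ (by positivity)
      linarith
    have h13 : (N : ℝ) * ld (a i₀) (a N) ≤ 2 * N * (gg a n + κ) - N * (gg a n - κ * 2 - C₂) := by
      linarith
    calc (N : ℝ) * ld (a i₀) (a N) ≤ 2 * N * (gg a n + κ) - N * (gg a n - κ * 2 - C₂) := h13
      _ = N * (gg a n + (4 * κ + C₂)) := by ring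
  have e9 : ld (a i₀) (a N) ≤ gg a n + (4 * κ + C₂) := le_of_mul_le_mul_left e8 (by linarith)
  rcases eq_or_ne (a i) (a j) with hij | hij
  · unfold ld
    rw [hij]
    simp
    have := hg0 n
    positivity
  · refine (LRE_ld_mono hij ?_).trans e9
    rw [abs_sub_comm (a i₀) (a N), abs_of_nonneg (sub_nonneg.2 (hlow N)), abs_le]
    have b1 := hlow i
    have b2 := hlow j
    have b3 := hup i hi
    have b4 := hup j hj
    constructor <;> linarith

end Pool.Agent.Work.MP_b29d7f_low
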