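import Pool.Agent.Work.MP_b29d7f_low.Interface1

/-!
# Block LREX: arbitrarily large left records
-/

namespace Pool.Agent.Work.MP_b29d7f_low

open Finset

theorem stmt_LREX : Stmt_LREX := by
  intro a κ ε hε hS n₀
  have hf : ∃ f : ℕ → ℝ, f = fun k : ℕ => gg a k - κ * Real.log k := ⟨_, rfl⟩
  obtain ⟨f, hfdef⟩ := hf
  have hfv : ∀ k : ℕ, f k = gg a k - κ * Real.log k := fun k => by rw [hfdef]
  have hc : ∃ c : ℝ, ∀ j : ℕ, j ≤ n₀ → c ≤ f j := by
    refine ⟨-∑ j ∈ range (n₀ + 1), |f j|, fun j hj => ?_⟩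
    have h1 : |f j| ≤ ∑ i ∈ range (n₀ + 1), |f i| :=
      Finset.single_le_sum (f := fun i => |f i|) (fun i _ => abs_nonneg _)
        (mem_range.mpr (by omega))
    have h2 := neg_abs_le (f j)
    linarith
  obtain ⟨c, hc⟩ := hc
  have hlog : ∃ k₁ : ℕ, ∀ k : ℕ, k₁ ≤ k → -c < ε * Real.log k := by
    have ht : Filter.Tendsto (fun k : ℕ => Real.log (k : ℝ)) Filter.atTop Filter.atTop :=
      Real.tendsto_log_atTop.comp tendsto_natCast_atTop_atTop
    obtain ⟨k₁, hk₁⟩ := Filter.eventually_atTop.mp (ht.eventually_gt_atTop (-c / ε))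
    refine ⟨k₁, fun k hk => ?_⟩
    have := hk₁ k hk
    rw [div_lt_iff₀ hε] at this
    linarith
  obtain ⟨k₁, hk₁⟩ := hlog
  obtain ⟨K, hK, hKg⟩ := hS (max k₁ 1)
  have hK1 : 1 ≤ K := le_trans (le_max_right _ _) hK
  have hKk : k₁ ≤ K := le_trans (le_max_left _ _) hK
  have hfK : f K < c := by
    rw [hfv]
    have := hk₁ K hKk
    nlinarith
  obtain ⟨n, hn, hmin⟩ := Finset.exists_min_image (Icc 1 K) f ⟨K, mem_Icc.mpr ⟨hK1, le_rfl⟩⟩
  rw [mem_Icc] at hn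
  have hnK : f n ≤ f K := hmin K (mem_Icc.mpr ⟨hK1, le_rfl⟩)
  refine ⟨n, ?_, hn.1, fun k hk1 hkn => ?_⟩
  · by_contra hlt
    push Not at hlt
    have := hc n hlt.le
    linarith
  · have := hmin k (mem_Icc.mpr ⟨hk1, hkn.trans hn.2⟩)
    rw [hfv, hfv] at this
    linarith

end Pool.Agent.Work.MP_b29d7f_low
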