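import Pool.Agent.Work.MP_b29d7f_low.Interface2

/-! # Block LWL (helper4): lower bound for the logarithmic energy of the windows -/

namespace Pool.Agent.Work.MP_b29d7f_low

open Finset
open Pool.Agent.Work.MP_b29d7f_nt (IsPOrdering HasSimultaneousOrdering PS vd ld tv)
open Pool.Agent.Work.MP_b29d7f_half (Ord A wv lD)
open Pool.Agent.Work.MP_b29d7f_sep (nv EW EL)

/-- Terms after `k₀` increase. -/
theorem LWL_le {a : ℕ → ℤ} {k₀ : ℕ} {C₀ : ℝ} (h : Dat a k₀ C₀) {i j : ℕ} (hi : k₀ ≤ i)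
    (hij : i ≤ j) : a i ≤ a j := by
  rcases Nat.eq_or_lt_of_le hij with h1 | h1
  · rw [h1]
  · exact (h.top i j (by omega) h1).le

/-- The logarithm of a long difference. -/
theorem LWL_ld {a : ℕ → ℤ} {k₀ : ℕ} {C₀ : ℝ} (h : Dat a k₀ C₀) {i j m : ℕ} (hm : 1 ≤ m)
    (hi : k₀ ≤ i) (hij : i + m ≤ j) : Gm a m i ≤ ld (a j) (a i) := by
  have h1 : a i < a (i + m) := h.top i (i + m) (by omega) (by omega)
  have h2 : a (i + m) ≤ a j := LWL_le h (by omega) hij
  unfold Gm ld
  have h3 : (0 : ℝ) < ((a (i + m) - a i : ℤ) : ℝ) := by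
    exact_mod_cast sub_pos.2 h1
  have h4 : ((a (i + m) - a i : ℤ) : ℝ) ≤ ((a j - a i : ℤ) : ℝ) := by
    have : a (i + m) - a i ≤ a j - a i := by omega
    exact_mod_cast this
  rw [abs_of_pos (lt_of_lt_of_le h3 h4)]
  exact Real.log_le_log h3 h4

/-- One window. -/
theorem LWL_win {a : ℕ → ℤ} {k₀ : ℕ} {C₀ : ℝ} (h : Dat a k₀ C₀) (m w u : ℕ) (y : ℝ)
    (B : ℕ → ℝ) (hB0 : ∀ i, 0 ≤ B i) (_hB1 : ∀ i, B i ≤ 1) (hB : ∀ i, Gm a m i ≤ y → B i = 1)
    (hm : 1 ≤ m) (hmw : m ≤ w) (hy : 0 ≤ y) (hu : k₀ ≤ u) :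
    y * (((w : ℝ) - m) ^ 2 / 2 - w * ∑ i ∈ Ico u (u + w + 1 - m), B i) ≤ EL a u w := by
  -- pairs
  have hpt : ∀ i j : ℕ, u ≤ i → i + m ≤ j → y * (1 - B i) ≤ ld (a j) (a i) := by
    intro i j hi hij
    by_cases hg : Gm a m i ≤ y
    · rw [hB i hg]
      have := Pool.Agent.Work.MP_b29d7f_half.ld_nonneg (a j) (a i)
      linarith
    · have h1 := LWL_ld h hm (by omega : k₀ ≤ i) hij
      have h2 : y ≤ ld (a j) (a i) := by linarith [not_le.1 hg]
      have h3 : y * (1 - B i) ≤ y * 1 := mul_le_mul_of_nonneg_left (by linarith [hB0 i]) hy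
      linarith
  have h1 : ∑ j ∈ Ico (u + m) (u + w + 1), ∑ i ∈ Ico u (j - m + 1), y * (1 - B i) ≤ EL a u w := by
    unfold EL
    calc ∑ j ∈ Ico (u + m) (u + w + 1), ∑ i ∈ Ico u (j - m + 1), y * (1 - B i)
        ≤ ∑ j ∈ Ico (u + m) (u + w + 1), ∑ i ∈ Ico u j, ld (a j) (a i) := by
          apply Finset.sum_le_sum
          intro j hj
          rw [Finset.mem_Ico] at hj
          calc ∑ i ∈ Ico u (j - m + 1), y * (1 - B i)
              ≤ ∑ i ∈ Ico u (j - m + 1), ld (a j) (a i) := by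
                apply Finset.sum_le_sum
                intro i hi
                rw [Finset.mem_Ico] at hi
                exact hpt i j hi.1 (by omega)
            _ ≤ ∑ i ∈ Ico u j, ld (a j) (a i) := by
                apply Finset.sum_le_sum_of_subset_of_nonneg
                · intro i hi
                  rw [Finset.mem_Ico] at hi ⊢
                  omega
                · intro i _ _
                  exact Pool.Agent.Work.MP_b29d7f_half.ld_nonneg _ _
      _ ≤ ∑ j ∈ Ico u (u + w + 1), ∑ i ∈ Ico u j, ld (a j) (a i) := by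
          apply Finset.sum_le_sum_of_subset_of_nonneg
          · intro j hj
            rw [Finset.mem_Ico] at hj ⊢
            omega
          · intro j _ _
            exact Finset.sum_nonneg (fun i _ => Pool.Agent.Work.MP_b29d7f_half.ld_nonneg _ _)
  refine le_trans ?_ h1
  set Sg : ℝ := ∑ i ∈ Ico u (u + w + 1 - m), B i with hSg
  have hSg0 : 0 ≤ Sg := Finset.sum_nonneg (fun i _ => hB0 i)
  have h2 : ∀ j ∈ Ico (u + m) (u + w + 1),
      y * ((((j - m + 1 - u : ℕ) : ℝ)) - Sg) ≤ ∑ i ∈ Ico u (j - m + 1), y * (1 - B i) := by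
    intro j hj
    rw [Finset.mem_Ico] at hj
    rw [← Finset.mul_sum]
    apply mul_le_mul_of_nonneg_left _ hy
    rw [Finset.sum_sub_distrib, Finset.sum_const, Nat.card_Ico, nsmul_eq_mul, mul_one]
    have : ∑ i ∈ Ico u (j - m + 1), B i ≤ Sg := by
      apply Finset.sum_le_sum_of_subset_of_nonneg
      · intro i hi
        rw [Finset.mem_Ico] at hi ⊢
        omega
      · intro i _ _
        exact hB0 i
    linarith
  refine le_trans ?_ (Finset.sum_le_sum h2)
  rw [← Finset.mul_sum]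
  apply mul_le_mul_of_nonneg_left _ hy
  rw [Finset.sum_sub_distrib, Finset.sum_const, Nat.card_Ico, nsmul_eq_mul]
  have h3 : ∑ j ∈ Ico (u + m) (u + w + 1), (((j - m + 1 - u : ℕ) : ℝ)) =
      ∑ t ∈ range (w + 1 - m), ((t : ℝ) + 1) := by
    rw [Finset.sum_Ico_eq_sum_range]
    have e1 : u + w + 1 - (u + m) = w + 1 - m := by omega
    rw [e1]
    apply Finset.sum_congr rfl
    intro t _
    have e2 : u + m + t - m + 1 - u = t + 1 := by omega
    rw [e2]
    push_cast
    ring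
  have h4 : ∀ n : ℕ, ∑ t ∈ range n, ((t : ℝ) + 1) = (n : ℝ) * (n + 1) / 2 := by
    intro n
    induction n with
    | zero => simp
    | succ n ih =>
      rw [Finset.sum_range_succ, ih]
      push_cast
      ring
  rw [h3, h4]
  have e3 : ((w + 1 - m : ℕ) : ℝ) = (w : ℝ) + 1 - m := by
    rw [Nat.cast_sub (by omega)]
    push_cast
    ring
  have e4 : u + w + 1 - (u + m) = w + 1 - m := by omega
  rw [e4, e3]
  have hmR : (1 : ℝ) ≤ m := by exact_mod_cast hm
  have hmwR : (m : ℝ) ≤ w := by exact_mod_cast hmw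
  have h5 : ((w : ℝ) + 1 - m) * Sg ≤ w * Sg := mul_le_mul_of_nonneg_right (by linarith) hSg0
  nlinarith

/-- The bad indices of the windows of one block. -/
theorem LWL_blk (m w Q s : ℕ) (B : ℕ → ℝ) (hB0 : ∀ i, 0 ≤ B i) (hm : 1 ≤ m) (hmw : m ≤ w)
    (hwQ : w ≤ Q) :
    ∑ u ∈ Ico s (s + Q - w + 1), ∑ i ∈ Ico u (u + w + 1 - m), B i ≤
      ((w : ℝ) + 1) * ∑ i ∈ Ico s (s + Q), B i := by
  have h1 : ∀ u : ℕ, ∑ i ∈ Ico u (u + w + 1 - m), B i = ∑ t ∈ range (w + 1 - m), B (u + t) := by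
    intro u
    rw [Finset.sum_Ico_eq_sum_range]
    have : u + w + 1 - m - u = w + 1 - m := by omega
    rw [this]
  rw [Finset.sum_congr rfl (fun u _ => h1 u), Finset.sum_comm]
  have h2 : ∀ t ∈ range (w + 1 - m), ∑ u ∈ Ico s (s + Q - w + 1), B (u + t) ≤
      ∑ i ∈ Ico s (s + Q), B i := by
    intro t ht
    rw [Finset.mem_range] at ht
    have e1 : ∑ u ∈ Ico s (s + Q - w + 1), B (u + t) =
        ∑ i ∈ (Ico s (s + Q - w + 1)).image (fun u => u + t), B i := by
      rw [Finset.sum_image]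
      intro x _ y _ hxy
      simpa using hxy
    rw [e1]
    apply Finset.sum_le_sum_of_subset_of_nonneg
    · intro i hi
      rw [Finset.mem_image] at hi
      obtain ⟨u, hu, rfl⟩ := hi
      rw [Finset.mem_Ico] at hu ⊢
      omega
    · intro i _ _
      exact hB0 i
  calc ∑ t ∈ range (w + 1 - m), ∑ u ∈ Ico s (s + Q - w + 1), B (u + t)
      ≤ ∑ t ∈ range (w + 1 - m), ∑ i ∈ Ico s (s + Q), B i := Finset.sum_le_sum h2
    _ = ((w + 1 - m : ℕ) : ℝ) * ∑ i ∈ Ico s (s + Q), B i := by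
        rw [Finset.sum_const, card_range, nsmul_eq_mul]
    _ ≤ ((w : ℝ) + 1) * ∑ i ∈ Ico s (s + Q), B i := by
        apply mul_le_mul_of_nonneg_right _ (Finset.sum_nonneg (fun i _ => hB0 i))
        have : ((w + 1 - m : ℕ) : ℝ) ≤ ((w + 1 : ℕ) : ℝ) := by
          exact_mod_cast (by omega : w + 1 - m ≤ w + 1)
        push_cast at this
        linarith

theorem stmt_LWL : Stmt_LWL := by
  classical
  intro a k₀ C₀ h N m w Q D y hm hmw hwQ hy hD
  set B : ℕ → ℝ := fun i => if Gm a m i ≤ y then 1 else 0 with hBdef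
  have hB0 : ∀ i, 0 ≤ B i := by
    intro i
    simp only [hBdef]
    split_ifs <;> norm_num
  have hB1 : ∀ i, B i ≤ 1 := by
    intro i
    simp only [hBdef]
    split_ifs <;> norm_num
  have hB : ∀ i, Gm a m i ≤ y → B i = 1 := by
    intro i hi
    simp only [hBdef, if_pos hi]
  have hQ : 1 ≤ Q := by omega
  have hcnt : (cnt a k₀ N m y : ℝ) = ∑ i ∈ Ico k₀ N, B i := by
    unfold cnt
    rw [Finset.card_filter]
    push_cast
    apply Finset.sum_congr rfl
    intro i _
    simp only [hBdef]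
  -- the blocks are disjoint
  have hdis : ∑ j ∈ D, ∑ i ∈ Ico (j * Q) (j * Q + Q), B i ≤ ∑ i ∈ Ico k₀ N, B i := by
    rw [← Finset.sum_biUnion]
    · apply Finset.sum_le_sum_of_subset_of_nonneg
      · intro i hi
        rw [Finset.mem_biUnion] at hi
        obtain ⟨j, hj, hi⟩ := hi
        rw [Finset.mem_Ico] at hi ⊢
        have := hD j hj
        omega
      · intro i _ _
        exact hB0 i
    · intro j _ j' _ hne
      rw [Function.onFun, Finset.disjoint_left]
      intro i hi hi'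
      rw [Finset.mem_Ico] at hi hi'
      apply hne
      have e1 : i / Q = j := by
        apply Nat.div_eq_of_lt_le
        · exact hi.1
        · rw [Nat.succ_mul]; exact hi.2
      have e2 : i / Q = j' := by
        apply Nat.div_eq_of_lt_le
        · exact hi'.1
        · rw [Nat.succ_mul]; exact hi'.2
      rw [← e1, e2]
  have hmR : (1 : ℝ) ≤ m := by exact_mod_cast hm
  have hw0 : (0 : ℝ) ≤ w := Nat.cast_nonneg w
  calc y * ((D.card : ℝ) * ((Q : ℝ) - w) * ((w : ℝ) - m) ^ 2 / 2 -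
        (w : ℝ) * (w + 1) * cnt a k₀ N m y)
      ≤ y * (∑ j ∈ D, (((Q : ℝ) - w) * (((w : ℝ) - m) ^ 2 / 2) -
          w * ((w + 1) * ∑ i ∈ Ico (j * Q) (j * Q + Q), B i))) := by
        apply mul_le_mul_of_nonneg_left _ hy
        rw [Finset.sum_sub_distrib, Finset.sum_const, nsmul_eq_mul, ← Finset.mul_sum,
          ← Finset.mul_sum, hcnt]
        have : (w : ℝ) * ((w + 1) * ∑ j ∈ D, ∑ i ∈ Ico (j * Q) (j * Q + Q), B i) ≤
            (w : ℝ) * ((w + 1) * ∑ i ∈ Ico k₀ N, B i) := by gcongr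
        nlinarith
    _ = ∑ j ∈ D, y * (((Q : ℝ) - w) * (((w : ℝ) - m) ^ 2 / 2) -
          w * ((w + 1) * ∑ i ∈ Ico (j * Q) (j * Q + Q), B i)) := by rw [Finset.mul_sum]
    _ ≤ ∑ j ∈ D, ∑ u ∈ Ico (j * Q) (j * Q + Q - w + 1), EL a u w := by
        apply Finset.sum_le_sum
        intro j hj
        have hjD := hD j hj
        calc y * (((Q : ℝ) - w) * (((w : ℝ) - m) ^ 2 / 2) -
              w * ((w + 1) * ∑ i ∈ Ico (j * Q) (j * Q + Q), B i))
            ≤ y * (∑ u ∈ Ico (j * Q) (j * Q + Q - w + 1), (((w : ℝ) - m) ^ 2 / 2 -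
                w * ∑ i ∈ Ico u (u + w + 1 - m), B i)) := by
              apply mul_le_mul_of_nonneg_left _ hy
              rw [Finset.sum_sub_distrib, Finset.sum_const, nsmul_eq_mul, ← Finset.mul_sum,
                Nat.card_Ico]
              have e1 : ((j * Q + Q - w + 1 - j * Q : ℕ) : ℝ) = (Q : ℝ) - w + 1 := by
                have : j * Q + Q - w + 1 - j * Q = Q - w + 1 := by omega
                rw [this]
                push_cast [Nat.cast_sub hwQ]
                ring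
              rw [e1]
              have e2 := LWL_blk m w Q (j * Q) B hB0 hm hmw hwQ
              have e3 : (w : ℝ) * ∑ u ∈ Ico (j * Q) (j * Q + Q - w + 1),
                  ∑ i ∈ Ico u (u + w + 1 - m), B i ≤
                  w * (((w : ℝ) + 1) * ∑ i ∈ Ico (j * Q) (j * Q + Q), B i) := by gcongr
              have e4 : (0 : ℝ) ≤ ((w : ℝ) - m) ^ 2 / 2 := by positivity
              nlinarith
          _ = ∑ u ∈ Ico (j * Q) (j * Q + Q - w + 1), y * (((w : ℝ) - m) ^ 2 / 2 -
                w * ∑ i ∈ Ico u (u + w + 1 - m), B i) := by rw [Finset.mul_sum]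
          _ ≤ ∑ u ∈ Ico (j * Q) (j * Q + Q - w + 1), EL a u w := by
              apply Finset.sum_le_sum
              intro u hu
              rw [Finset.mem_Ico] at hu
              exact LWL_win h m w u y B hB0 hB1 hB hm hmw hy (by omega)

end Pool.Agent.Work.MP_b29d7f_low
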