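import Pool.Agent.Work.MP_b29d7f_low.Interface2

/-!
# Block LWU: upper bound for the logarithmic energy of the windows in the blocks of `D`
-/

namespace Pool.Agent.Work.MP_b29d7f_low

open Finset
open Pool.Agent.Work.MP_b29d7f_nt (ld)
open Pool.Agent.Work.MP_b29d7f_half (Ord lD)
open Pool.Agent.Work.MP_b29d7f_sep (nv EW EL)

theorem LWU_evt (J K : ℕ) (β : ℝ) (hβ : 0 < β) : ∃ N₀ : ℕ, ∀ N : ℕ, N₀ ≤ N →
    2 ≤ N ∧ K ≤ el N ∧ 1 ≤ el N ∧ 1 + J * Real.log (el N) ≤ β / 2 * Real.log N := by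
  have ht : Filter.Tendsto (fun N : ℕ => Real.log (N : ℝ)) Filter.atTop Filter.atTop :=
    Real.tendsto_log_atTop.comp tendsto_natCast_atTop_atTop
  have hc : (0 : ℝ) < β / (4 * (J + 1)) := by positivity
  have e1 : ∀ᶠ x : ℝ in Filter.atTop, Real.log (x + 1) ≤ β / (4 * (J + 1)) * (x + 1) := by
    have h := Real.isLittleO_log_id_atTop.def hc
    have h2 := (Filter.tendsto_atTop_add_const_right Filter.atTop (1 : ℝ)
      Filter.tendsto_id).eventually h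
    filter_upwards [h2, Filter.eventually_ge_atTop (0 : ℝ)] with x hx h0
    simp only [id] at hx
    rw [Real.norm_of_nonneg (Real.log_nonneg (by linarith)),
      Real.norm_of_nonneg (by linarith)] at hx
    exact hx
  have e2 := ht.eventually e1
  have e3 := ht.eventually (Filter.eventually_ge_atTop (K + 1 + (1 + β / 4) / (β / 4) : ℝ))
  obtain ⟨N₀, hN₀⟩ := Filter.eventually_atTop.1
    ((e2.and e3).and (Filter.eventually_ge_atTop (2 : ℕ)))
  refine ⟨N₀, fun N hN => ?_⟩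
  obtain ⟨⟨h1, h2⟩, h3⟩ := hN₀ N hN
  have hq : 0 < (1 + β / 4) / (β / 4) := by positivity
  have hl : Real.log N ≤ el N := Nat.le_ceil _
  have hK0 : (0 : ℝ) ≤ K := Nat.cast_nonneg K
  have hel1 : (1 : ℝ) ≤ el N := by linarith
  have hel : (el N : ℝ) ≤ Real.log N + 1 := (Nat.ceil_lt_add_one (by linarith)).le
  refine ⟨h3, ?_, by exact_mod_cast hel1, ?_⟩
  · have : (K : ℝ) ≤ el N := by linarith
    exact_mod_cast this
  · have h4 : Real.log (el N) ≤ Real.log (Real.log N + 1) :=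
      Real.log_le_log (by linarith) hel
    have h5 : Real.log (el N) ≤ β / (4 * (J + 1)) * (Real.log N + 1) := le_trans h4 h1
    have h6 : (J : ℝ) * Real.log (el N) ≤ J * (β / (4 * (J + 1)) * (Real.log N + 1)) :=
      mul_le_mul_of_nonneg_left h5 (Nat.cast_nonneg J)
    have h7 : (J : ℝ) * (β / (4 * (J + 1)) * (Real.log N + 1)) ≤ β / 4 * (Real.log N + 1) := by
      have h8 : (J : ℝ) * (β / (4 * (J + 1))) ≤ β / 4 := by
        have hJ : (0 : ℝ) < J + 1 := by positivity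
        rw [mul_div_assoc', div_le_div_iff₀ (by positivity) (by norm_num)]
        nlinarith
      rw [← mul_assoc]
      exact mul_le_mul_of_nonneg_right h8 (by linarith)
    have h9 : (1 + β / 4) ≤ β / 4 * Real.log N := by
      have : (1 + β / 4) / (β / 4) ≤ Real.log N := by linarith
      rw [div_le_iff₀ (by positivity)] at this
      linarith
    linarith

theorem LWU_blocks (w : ℕ → ℕ) (hw : Monotone w) (N Q : ℕ) (hQ : 1 ≤ Q) (D : Finset ℕ)
    (hD : ∀ j ∈ D, j * Q + Q ≤ N) :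
    ∑ j ∈ D, ((w (j * Q + Q) : ℝ) - w (j * Q)) ≤ w N := by
  have hsub : D ⊆ range (N / Q) := by
    intro j hj
    have h := hD j hj
    rw [mem_range]
    have h2 : (j + 1) * Q ≤ N := by
      rw [add_mul, one_mul]
      exact h
    exact (Nat.le_div_iff_mul_le (by omega)).2 h2
  have hnn : ∀ j : ℕ, 0 ≤ (w (j * Q + Q) : ℝ) - w (j * Q) := by
    intro j
    have : (w (j * Q) : ℝ) ≤ w (j * Q + Q) := by exact_mod_cast hw (by omega)
    linarith
  refine le_trans (Finset.sum_le_sum_of_subset_of_nonneg hsub (fun j _ _ => hnn j)) ?_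
  have e1 : ∀ j ∈ range (N / Q), (w (j * Q + Q) : ℝ) - w (j * Q) =
      (fun j : ℕ => (w (j * Q) : ℝ)) (j + 1) - (fun j : ℕ => (w (j * Q) : ℝ)) j := by
    intro j _
    simp only
    rw [add_mul, one_mul]
  rw [Finset.sum_congr rfl e1, Finset.sum_range_sub (fun j : ℕ => (w (j * Q) : ℝ))]
  have h3 : (w (N / Q * Q) : ℝ) ≤ w N := by exact_mod_cast hw (Nat.div_mul_le_self N Q)
  have h4 : (0 : ℝ) ≤ w (0 * Q) := Nat.cast_nonneg _
  linarith

/-- the facts on the scales which are used -/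
theorem LWU_scale {a : ℕ → ℤ} {k₀ : ℕ} {κ b β₁ β₂ e₃ e₇ e₈ : ℝ} {K J n N R m : ℕ}
    (hF : Fr a k₀ κ b β₁ β₂ e₃ e₇ e₈ K J n N R m) (hβ₂ : β₂ ≤ 1 / 4) (hN : 2 ≤ N) (hK1 : 1 ≤ K)
    (hK : K ≤ el N) (hel : 1 ≤ el N) (hev : 1 + J * Real.log (el N) ≤ β₁ / 2 * Real.log N) :
    1 ≤ m ∧ K * m ≤ N ∧ β₁ / 2 * Real.log N ≤ Real.log ((K * m : ℕ) : ℝ) := by
  have hlogN : 0 < Real.log N := Real.log_pos (by exact_mod_cast (by omega : 1 < N))
  have hm : 1 ≤ m := le_trans (Nat.one_le_pow _ _ hel) hF.m_big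
  have hR1 : 1 ≤ R := hF.rrec.1
  have hRN : (R : ℝ) ≤ N := by
    have h1 : Real.log R ≤ Real.log N := by
      have := hF.R_hi
      nlinarith
    exact (Real.log_le_log_iff (by exact_mod_cast hR1) (by exact_mod_cast (by omega : 0 < N))).1 h1
  have hRN' : R ≤ N := by exact_mod_cast hRN
  refine ⟨hm, ?_, ?_⟩
  · have h2 : K ≤ el N ^ 20 := le_trans hK (Nat.le_self_pow (by norm_num) _)
    calc K * m ≤ el N ^ 20 * m := Nat.mul_le_mul_right _ h2
      _ = m * el N ^ 20 := Nat.mul_comm _ _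
      _ ≤ R := hF.m_hi
      _ ≤ N := hRN'
  · have hm0 : (0 : ℝ) < m := by exact_mod_cast hm
    have hel0 : (0 : ℝ) < el N := by exact_mod_cast hel
    have h3 : (R : ℝ) ≤ m * (el N : ℝ) ^ J := by exact_mod_cast hF.m_lo
    have h4 : Real.log R ≤ Real.log m + J * Real.log (el N) := by
      calc Real.log R ≤ Real.log (m * (el N : ℝ) ^ J) :=
            Real.log_le_log (by exact_mod_cast hR1) h3
        _ = Real.log m + J * Real.log (el N) := by
            rw [Real.log_mul hm0.ne' (by positivity), Real.log_pow]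
    have h5 : Real.log m ≤ Real.log ((K * m : ℕ) : ℝ) := by
      apply Real.log_le_log hm0
      exact_mod_cast Nat.le_mul_of_pos_left m (by omega)
    have := hF.R_lo
    nlinarith

theorem stmt_LWU (h1 : Stmt_WU1) (h2 : Stmt_LOCA) (h3 : Stmt_CATCHB) (h4 : Stmt_PIGB)
    (h5 : Stmt_PRF) (h6 : Stmt_PAD) (_h7 : Stmt_GGB) (h8 : Stmt_TSU) : Stmt_LWU := by
  intro a k₀ C₀ κ b β₁ β₂ e₃ e₇ e₈ K₁ E₂ J hd hκ hβ₁ hβ₂ hK₁ hE₂
  classical
  have hK1 : 1 ≤ 2 * E₂ * K₁ := by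
    have : 0 < 2 * E₂ * K₁ := by positivity
    omega
  obtain ⟨C₁, N₁, hC₁, hL⟩ :=
    h2 a k₀ C₀ κ b β₁ β₂ e₃ e₇ e₈ (2 * E₂ * K₁) J hd hκ hβ₁ hβ₂ hK1
  obtain ⟨C₂, N₂, hC₂, hCB⟩ := h3 a k₀ C₀ κ hd hκ
  obtain ⟨N₃, hN₃⟩ := LWU_evt J (2 * E₂ * K₁) β₁ hβ₁
  refine ⟨C₁ + C₂, max N₁ (max N₂ N₃), by linarith, ?_⟩
  intro n N R m hN hF D hD
  obtain ⟨hN2, hKel, hel, hev⟩ := hN₃ N (le_trans (le_trans (le_max_right _ _) (le_max_right _ _)) hN)
  obtain ⟨hm, hPN, hlogP⟩ := LWU_scale hF hβ₂ hN2 hK1 hKel hel hev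
  have hlogN : 0 < Real.log N := Real.log_pos (by exact_mod_cast (by omega : 1 < N))
  have hC₀ : 1 ≤ C₀ := hd.one_le
  have hLA := hL n N R m (le_trans (le_max_left _ _) hN) hF D hD
  have hKM : 2 * E₂ * K₁ * m = 2 * (E₂ * K₁ * m) := by ring
  have hCA := hCB n N (le_trans (le_trans (le_max_left _ _) (le_max_right _ _)) hN) hF.n_lo hF.n_hi
    hF.lrec (E₂ * K₁ * m) (2 * E₂ * K₁ * m) hPN (by omega)
  have hKm1 : 1 ≤ K₁ * m := Nat.mul_pos (by omega) (by omega)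
  have hEKm : E₂ * K₁ * m = E₂ * (K₁ * m) := by ring
  have hMM : K₁ * m < E₂ * K₁ * m := by
    rw [hEKm]
    nlinarith
  have hMP : E₂ * K₁ * m ≤ 2 * E₂ * K₁ * m := by omega
  have hMQ : E₂ * K₁ * m ≤ Qb (2 * E₂ * K₁) m N := by
    unfold Qb
    exact le_trans hMP (Nat.le_mul_of_pos_right _ (pow_pos (by omega) 4))
  have hQ1 : 1 ≤ Qb (2 * E₂ * K₁) m N := by omega
  obtain ⟨w, hw1, hw2, hPT⟩ := h4 a k₀ C₀ hd N (2 * E₂ * K₁ * m) (K₁ * m) (E₂ * K₁ * m)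
    (Qb (2 * E₂ * K₁) m N) D hN2 hKm1 hMM hMQ (by omega) hPN hD
  refine ⟨w, hw1, hw2, ?_⟩
  have hw0 : 1 ≤ w := le_trans hKm1 hw1
  have hwQ : w ≤ Qb (2 * E₂ * K₁) m N := le_trans hw2 hMQ
  set P : ℕ := 2 * E₂ * K₁ * m with hP
  set M : ℕ := E₂ * K₁ * m with hM
  set Q : ℕ := Qb (2 * E₂ * K₁) m N with hQ
  obtain ⟨hPR, -, hlD, hEL, -⟩ := h5 a hd.ord (2 * N)
  obtain ⟨-, -, hlDm, -, -⟩ := h8 a hd.ord
  have hlogp : ∀ p : ℕ, 0 ≤ Real.log p := fun p => Real.log_natCast_nonneg p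
  -- the decomposition of the set of primes
  have hdec : ∀ f : ℕ → ℝ, ∑ p ∈ PR a (2 * N), f p =
      (∑ p ∈ PA a N P, f p + ∑ p ∈ PC a N M P, f p) + ∑ p ∈ PG a N M P, f p := by
    intro f
    have e1 : PR a (2 * N) = (PA a N P ∪ PC a N M P) ∪ PG a N M P := by
      ext p
      rw [mem_union, mem_union, mem_PA, mem_PC, mem_PG]
      constructor
      · intro hp
        by_cases h4 : nv p a P = 0
        · by_cases h5 : Catch p a N M
          · exact Or.inl (Or.inr ⟨hp, h4, h5⟩)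
          · exact Or.inr ⟨hp, h4, h5⟩
        · exact Or.inl (Or.inl ⟨hp, by omega⟩)
      · rintro ((h | h) | h) <;> exact h.1
    rw [e1, Finset.sum_union, Finset.sum_union]
    · rw [Finset.disjoint_left]
      intro p hp hp'
      have := (mem_PA.1 hp).2
      have := (mem_PC.1 hp').2.1
      omega
    · rw [Finset.disjoint_left]
      intro p hp hp'
      have h5 := (mem_PG.1 hp').2
      rcases mem_union.1 hp with h | h
      · have := (mem_PA.1 h).2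
        omega
      · exact h5.2 (mem_PC.1 h).2.2
  -- the energy
  have e2 : ∑ j ∈ D, ∑ u ∈ Ico (j * Q) (j * Q + Q - w + 1), EL a u w =
      ∑ p ∈ PR a (2 * N), Real.log p *
        ∑ j ∈ D, ∑ u ∈ Ico (j * Q) (j * Q + Q - w + 1), EW p a u w := by
    have e3 : ∀ j ∈ D, ∑ u ∈ Ico (j * Q) (j * Q + Q - w + 1), EL a u w =
        ∑ p ∈ PR a (2 * N), Real.log p *
          ∑ u ∈ Ico (j * Q) (j * Q + Q - w + 1), EW p a u w := by
      intro j hj
      have hjD := hD j hj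
      have e4 : ∀ u ∈ Ico (j * Q) (j * Q + Q - w + 1), EL a u w =
          ∑ p ∈ PR a (2 * N), Real.log p * EW p a u w := by
        intro u hu
        have := mem_Ico.1 hu
        exact hEL u w (by omega)
      rw [Finset.sum_congr rfl e4, Finset.sum_comm]
      apply Finset.sum_congr rfl
      intro p _
      rw [Finset.mul_sum]
    rw [Finset.sum_congr rfl e3, Finset.sum_comm]
    apply Finset.sum_congr rfl
    intro p _
    rw [Finset.mul_sum]
  -- the growth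
  have e5 : Rs a Q D = ∑ p ∈ PR a (2 * N), Real.log p *
      ∑ j ∈ D, ((nv p a (j * Q + Q) : ℝ) - nv p a (j * Q)) := by
    unfold Rs
    have e6 : ∀ j ∈ D, lD a (j * Q + Q) - lD a (j * Q) =
        ∑ p ∈ PR a (2 * N), Real.log p * ((nv p a (j * Q + Q) : ℝ) - nv p a (j * Q)) := by
      intro j hj
      have hjD := hD j hj
      rw [hlD (j * Q + Q) (by omega), hlD (j * Q) (by omega), ← Finset.sum_sub_distrib]
      apply Finset.sum_congr rfl
      intro p _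
      ring
    rw [Finset.sum_congr rfl e6, Finset.sum_comm]
    apply Finset.sum_congr rfl
    intro p _
    rw [Finset.mul_sum]
  have hRs0 : 0 ≤ Rs a Q D := by
    unfold Rs
    apply Finset.sum_nonneg
    intro j _
    have := hlDm (Nat.le_add_right (j * Q) Q)
    linarith
  -- bounds for one prime
  have hW1 : ∀ p : ℕ, p.Prime →
      ∑ j ∈ D, ∑ u ∈ Ico (j * Q) (j * Q + Q - w + 1), EW p a u w ≤
        ((w : ℝ) * (w + 1) / 2) *
          ∑ j ∈ D, ((nv p a (j * Q + Q) : ℝ) - nv p a (j * Q)) := by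
    intro p hp
    rw [Finset.mul_sum]
    apply Finset.sum_le_sum
    intro j _
    exact (h1 a hd.ord p hp (j * Q) Q w hw0 hwQ).1
  have hW2 : ∀ p : ℕ, p.Prime →
      ∑ j ∈ D, ∑ u ∈ Ico (j * Q) (j * Q + Q - w + 1), EW p a u w ≤
        (((w : ℝ) + 1) ^ 2 / 4) *
          ∑ j ∈ D, ((nv p a (j * Q + Q) : ℝ) - nv p a (j * Q)) +
        ∑ j ∈ D, ∑ u ∈ Ico (j * Q) (j * Q + Q - w + 1), PT p a u w := by
    intro p hp
    rw [Finset.mul_sum, ← Finset.sum_add_distrib]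
    apply Finset.sum_le_sum
    intro j _
    exact (h1 a hd.ord p hp (j * Q) Q w hw0 hwQ).2
  have hgr0 : ∀ p : ℕ, p.Prime →
      0 ≤ ∑ j ∈ D, ((nv p a (j * Q + Q) : ℝ) - nv p a (j * Q)) := by
    intro p hp
    apply Finset.sum_nonneg
    intro j _
    have : (nv p a (j * Q) : ℝ) ≤ nv p a (j * Q + Q) := by
      exact_mod_cast (h6 a hd.ord p hp).1 (Nat.le_add_right (j * Q) Q)
    linarith
  have hw0' : (0 : ℝ) ≤ w := Nat.cast_nonneg w
  -- the three classes of primes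
  have hS1 : ∑ p ∈ PA a N P, Real.log p *
        ∑ j ∈ D, ∑ u ∈ Ico (j * Q) (j * Q + Q - w + 1), EW p a u w ≤
      (((w : ℝ) + 1) ^ 2 / 2) * ∑ p ∈ PA a N P, Real.log p *
        ∑ j ∈ D, ((nv p a (j * Q + Q) : ℝ) - nv p a (j * Q)) := by
    rw [Finset.mul_sum]
    apply Finset.sum_le_sum
    intro p hp
    have hpp := hPR p (mem_PA.1 hp).1
    have h9 : ((w : ℝ) * (w + 1) / 2) * ∑ j ∈ D, ((nv p a (j * Q + Q) : ℝ) - nv p a (j * Q)) ≤
        (((w : ℝ) + 1) ^ 2 / 2) * ∑ j ∈ D, ((nv p a (j * Q + Q) : ℝ) - nv p a (j * Q)) := by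
      apply mul_le_mul_of_nonneg_right _ (hgr0 p hpp)
      nlinarith
    calc Real.log p * ∑ j ∈ D, ∑ u ∈ Ico (j * Q) (j * Q + Q - w + 1), EW p a u w
        ≤ Real.log p * ((((w : ℝ) + 1) ^ 2 / 2) *
            ∑ j ∈ D, ((nv p a (j * Q + Q) : ℝ) - nv p a (j * Q))) :=
          mul_le_mul_of_nonneg_left (le_trans (hW1 p hpp) h9) (hlogp p)
      _ = _ := by ring
  have hS2 : ∑ p ∈ PC a N M P, Real.log p *
        ∑ j ∈ D, ∑ u ∈ Ico (j * Q) (j * Q + Q - w + 1), EW p a u w ≤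
      (((w : ℝ) + 1) ^ 2 / 2) * ∑ p ∈ PC a N M P, Real.log p *
        ∑ j ∈ D, ((nv p a (j * Q + Q) : ℝ) - nv p a (j * Q)) := by
    rw [Finset.mul_sum]
    apply Finset.sum_le_sum
    intro p hp
    have hpp := hPR p (mem_PC.1 hp).1
    have h9 : ((w : ℝ) * (w + 1) / 2) * ∑ j ∈ D, ((nv p a (j * Q + Q) : ℝ) - nv p a (j * Q)) ≤
        (((w : ℝ) + 1) ^ 2 / 2) * ∑ j ∈ D, ((nv p a (j * Q + Q) : ℝ) - nv p a (j * Q)) := by
      apply mul_le_mul_of_nonneg_right _ (hgr0 p hpp)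
      nlinarith
    calc Real.log p * ∑ j ∈ D, ∑ u ∈ Ico (j * Q) (j * Q + Q - w + 1), EW p a u w
        ≤ Real.log p * ((((w : ℝ) + 1) ^ 2 / 2) *
            ∑ j ∈ D, ((nv p a (j * Q + Q) : ℝ) - nv p a (j * Q))) :=
          mul_le_mul_of_nonneg_left (le_trans (hW1 p hpp) h9) (hlogp p)
      _ = _ := by ring
  have hS3 : ∑ p ∈ PG a N M P, Real.log p *
        ∑ j ∈ D, ∑ u ∈ Ico (j * Q) (j * Q + Q - w + 1), EW p a u w ≤
      (((w : ℝ) + 1) ^ 2 / 4) * ∑ p ∈ PG a N M P, Real.log p *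
        ∑ j ∈ D, ((nv p a (j * Q + Q) : ℝ) - nv p a (j * Q)) +
      ∑ p ∈ PG a N M P, Real.log p * ∑ j ∈ D, ∑ u ∈ Ico (j * Q) (j * Q + Q - w + 1),
        PT p a u w := by
    rw [Finset.mul_sum, ← Finset.sum_add_distrib]
    apply Finset.sum_le_sum
    intro p hp
    have hpp := hPR p (mem_PG.1 hp).1
    calc Real.log p * ∑ j ∈ D, ∑ u ∈ Ico (j * Q) (j * Q + Q - w + 1), EW p a u w
        ≤ Real.log p * ((((w : ℝ) + 1) ^ 2 / 4) *
            ∑ j ∈ D, ((nv p a (j * Q + Q) : ℝ) - nv p a (j * Q)) +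
            ∑ j ∈ D, ∑ u ∈ Ico (j * Q) (j * Q + Q - w + 1), PT p a u w) :=
          mul_le_mul_of_nonneg_left (hW2 p hpp) (hlogp p)
      _ = _ := by ring
  -- the caught primes
  have hNC : ∑ p ∈ PC a N M P, Real.log p *
      ∑ j ∈ D, ((nv p a (j * Q + Q) : ℝ) - nv p a (j * Q)) ≤ C₂ * N := by
    refine le_trans (Finset.sum_le_sum (fun p hp => ?_)) hCA
    have hpp := hPR p (mem_PC.1 hp).1
    exact mul_le_mul_of_nonneg_left
      (LWU_blocks (nv p a) (h6 a hd.ord p hpp).1 N Q hQ1 D hD) (hlogp p)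
  -- the pairs of places
  have hlogE : 0 < Real.log E₂ := Real.log_pos (by exact_mod_cast (by omega : 1 < E₂))
  have hX : ∑ p ∈ PG a N M P, Real.log p * ∑ j ∈ D, ∑ u ∈ Ico (j * Q) (j * Q + Q - w + 1),
        PT p a u w ≤ (w : ℝ) ^ 2 * (4 * C₀ / β₁ / Real.log E₂) * Rs a Q D := by
    have hdiv : ((M : ℕ) : ℝ) / ((K₁ * m : ℕ) : ℝ) = E₂ := by
      have h10 : ((K₁ * m : ℕ) : ℝ) ≠ 0 := by
        exact_mod_cast (by omega : K₁ * m ≠ 0)
      rw [hEKm, Nat.cast_mul, mul_div_assoc, div_self h10, mul_one]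
    rw [hdiv] at hPT
    have hlP : 0 < Real.log ((P : ℕ) : ℝ) := by
      have : 0 < β₁ / 2 * Real.log N := by positivity
      exact lt_of_lt_of_le this hlogP
    have h11 : 2 * C₀ * Real.log N / Real.log ((P : ℕ) : ℝ) ≤ 4 * C₀ / β₁ := by
      rw [div_le_div_iff₀ hlP hβ₁]
      nlinarith
    have h12 : (w : ℝ) ^ 2 * (2 * C₀ * Real.log N / Real.log ((P : ℕ) : ℝ)) * Rs a Q D ≤
        (w : ℝ) ^ 2 * (4 * C₀ / β₁) * Rs a Q D := by
      apply mul_le_mul_of_nonneg_right _ hRs0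
      exact mul_le_mul_of_nonneg_left h11 (by positivity)
    have h13 := le_trans hPT h12
    have h14 : (w : ℝ) ^ 2 * (4 * C₀ / β₁ / Real.log E₂) * Rs a Q D =
        ((w : ℝ) ^ 2 * (4 * C₀ / β₁) * Rs a Q D) / Real.log E₂ := by ring
    rw [h14, le_div_iff₀ hlogE]
    exact h13
  -- conclusion
  rw [e2, hdec]
  have hR2 : Rs a Q D = (∑ p ∈ PA a N P, Real.log p *
        ∑ j ∈ D, ((nv p a (j * Q + Q) : ℝ) - nv p a (j * Q)) +
      ∑ p ∈ PC a N M P, Real.log p *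
        ∑ j ∈ D, ((nv p a (j * Q + Q) : ℝ) - nv p a (j * Q))) +
      ∑ p ∈ PG a N M P, Real.log p *
        ∑ j ∈ D, ((nv p a (j * Q + Q) : ℝ) - nv p a (j * Q)) := by
    rw [e5, hdec]
  set NA := ∑ p ∈ PA a N P, Real.log p *
        ∑ j ∈ D, ((nv p a (j * Q + Q) : ℝ) - nv p a (j * Q)) with hNA
  set NC := ∑ p ∈ PC a N M P, Real.log p *
        ∑ j ∈ D, ((nv p a (j * Q + Q) : ℝ) - nv p a (j * Q)) with hNCd
  set NG := ∑ p ∈ PG a N M P, Real.log p *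
        ∑ j ∈ D, ((nv p a (j * Q + Q) : ℝ) - nv p a (j * Q)) with hNG
  have h15 : (((w : ℝ) + 1) ^ 2 / 4) * (Rs a Q D + NA + NC) ≤
      (((w : ℝ) + 1) ^ 2 / 4) * (Rs a Q D +
        (D.card : ℝ) * Q * gg a (P1 (2 * E₂ * K₁) m N) + (C₁ + C₂) * N) := by
    apply mul_le_mul_of_nonneg_left _ (by positivity)
    linarith
  have h16 : (((w : ℝ) + 1) ^ 2 / 4) * (Rs a Q D + NA + NC) =
      (((w : ℝ) + 1) ^ 2 / 2) * NA + (((w : ℝ) + 1) ^ 2 / 2) * NC +
        (((w : ℝ) + 1) ^ 2 / 4) * NG := by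
    rw [hR2]
    ring
  linarith

end Pool.Agent.Work.MP_b29d7f_low
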