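import Pool.Agent.Work.MP_b29d7f_low.Interface3

/-!
# Block MAIN: the theorem for sets bounded below
-/

namespace Pool.Agent.Work.MP_b29d7f_low

open Finset
open Pool.Agent.Work.MP_b29d7f_nt (IsPOrdering HasSimultaneousOrdering PS vd ld tv)

theorem stmt_MAIN (hS : Stmt_START) (hL : Stmt_LIM) (hG : Stmt_GGB) (hF : Stmt_FREX)
    (h1 : Stmt_PART1) (h2 : Stmt_PART2) : Stmt_MAIN := by
  intro S hb hlow hord
  obtain ⟨a, k₀, C₀, ε', hD, hε', hslo⟩ := hS S hb hlow hord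
  obtain ⟨η₁, hη₁, hη₁1, hP2⟩ := h2
  have hC := hD.one_le
  have hC0 : 0 < C₀ := by linarith
  obtain ⟨hg, -, -, -, -, -, -⟩ := hG a k₀ C₀ hD
  obtain ⟨B, hB, hBC, hBε⟩ := hL (gg a) (2 + ε') C₀ hslo ⟨2, fun k hk => hg k hk⟩
  set ε : ℝ := min (ε' / 2) (η₁ / 64) with hε
  have hεpos : 0 < ε := lt_min (by linarith) (by linarith)
  have hε1 : ε ≤ ε' / 2 := min_le_left _ _
  have hε2 : ε ≤ η₁ / 64 := min_le_right _ _
  set b : ℝ := B - ε with hb'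
  set κ : ℝ := B + ε with hκ
  set β₂ : ℝ := 1 / (8 * C₀) with hβ₂
  have hβ₂pos : 0 < β₂ := by positivity
  have hCβ : C₀ * β₂ ≤ 1 / 8 := by
    rw [hβ₂]
    field_simp
    norm_num
  have hβ₂4 : β₂ ≤ 1 / 8 := by nlinarith
  set β₁ : ℝ := ε * β₂ / (4 * C₀) with hβ₁
  have hβ₁pos : 0 < β₁ := by positivity
  have hβ₁1 : β₁ ≤ 1 := by
    rw [hβ₁, div_le_one (by linarith)]
    nlinarith
  have hb2 : 2 < b := by rw [hb']; linarith
  have hκ0 : 0 ≤ κ := by rw [hκ]; linarith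
  set e : ℝ := η₁ * β₁ / 128 with he
  have hepos : 0 < e := by positivity
  have he1 : e ≤ 1 := by
    rw [he]
    nlinarith
  have hslob : Slo a (b + ε / 2) := by
    obtain ⟨k₁, hk₁⟩ := (hBε (ε / 2) (by linarith)).1
    refine ⟨k₁, fun k hk => ?_⟩
    have := hk₁ k hk
    have e1 : b + ε / 2 = B - ε / 2 := by rw [hb']; ring
    rw [e1]
    exact this
  have hslo2 : Slo a 2 := by
    obtain ⟨k₁, hk₁⟩ := hslo
    refine ⟨k₁, fun k hk => le_trans ?_ (hk₁ k hk)⟩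
    have : 0 ≤ Real.log (k : ℝ) := Real.log_natCast_nonneg k
    nlinarith
  have hshi : Shi a (κ - ε / 2) := by
    intro k₁
    obtain ⟨k, hk, hk'⟩ := (hBε (ε / 2) (by linarith)).2 k₁
    refine ⟨k, hk, ?_⟩
    have e1 : κ - ε / 2 = B + ε / 2 := by rw [hκ]; ring
    rw [e1]
    exact hk'
  obtain ⟨K, η, e₇, e₈, hK, hη, he₇, he₈, hP1⟩ :=
    h1 a k₀ C₀ κ b β₁ β₂ e hD hb2 hκ0 hβ₁pos hβ₂pos hCβ hepos he1
  obtain ⟨J, hfr⟩ := hF a k₀ C₀ κ b ε β₂ hD (by linarith) hεpos hβ₂pos (by linarith) hslob hshi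
    K e e₇ e₈ hK hepos he₇ he₈
  obtain ⟨N₁, hN₁⟩ := hP1 e J
  obtain ⟨N₂, hN₂⟩ := hP2 a k₀ C₀ κ b β₁ β₂ e e e₇ e₈ η K J hD hb2 (by rw [hκ, hb']; linarith)
    (by rw [hκ, hb']; linarith) hslo2 hβ₁pos hβ₁1 hCβ hepos hepos (by rw [he]; linarith) hK hη
  obtain ⟨n, N, R, m, hN, hFr⟩ := hfr (max N₁ N₂)
  exact hN₂ n N R m (le_trans (le_max_right _ _) hN) hFr
    (hN₁ n N R m (le_trans (le_max_left _ _) hN) hFr)

end Pool.Agent.Work.MP_b29d7f_low
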