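import Pool.Agent.Work.MP_b29d7f_low.Interface2

/-!
# Block NUM1: the final inequality of section 2
-/

namespace Pool.Agent.Work.MP_b29d7f_low

open Finset
open Pool.Agent.Work.MP_b29d7f_half (Ord A wv lD)
open Pool.Agent.Work.MP_b29d7f_sep (nv EW EL)

theorem stmt_NUM1 : Stmt_NUM1 := by
  intro C₀ b e₅ hC hb he5 he51
  have hb1 : 0 < b - 1 := by linarith
  set γ : ℝ := (b - 2) * e₅ / (b - 1) with hγ
  have hγ0 : 0 < γ := div_pos (mul_pos (by linarith) he5) hb1
  have hγe : γ ≤ e₅ := by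
    rw [hγ, div_le_iff₀ hb1]
    nlinarith
  set d : ℝ := γ / (1208 * C₀) with hd
  have hC0 : 0 < C₀ := by linarith
  have hd0 : 0 < d := by positivity
  have hdC : d * C₀ = γ / 1208 := by
    rw [hd]
    field_simp
  have hd1 : d ≤ γ / 1208 := by
    rw [← hdC]
    nlinarith
  have hd8 : d < 1 / 8 := by linarith
  refine ⟨γ / 16, d, γ / 8, by positivity, by linarith, hd0, hd8, by positivity, ?_⟩
  intro η hη
  set q₀ : ℝ := min 1 (γ * η / (8 * (24 * C₀ + 12))) with hq₀
  have hq₀0 : 0 < q₀ := lt_min one_pos (by positivity)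
  refine ⟨q₀, hq₀0, ?_⟩
  intro x t z F B S q ht0 htC htx hxC hz hηF hF1 hq0 hqq hS0 hA1 hA2 hS hcon
  have hF0 : 0 < F := lt_of_lt_of_le hη hηF
  have hq1 : q ≤ 1 := le_trans hqq (min_le_left _ _)
  have hq2 : q * (24 * C₀ + 12) ≤ γ * η / 8 := by
    have h1 : q ≤ γ * η / (8 * (24 * C₀ + 12)) := le_trans hqq (min_le_right _ _)
    rw [le_div_iff₀ (by positivity)] at h1
    linarith
  -- the margin
  have hm : γ ≤ 2 * x - (b * x - t) / (b - 1) - t := by
    have e1 : 2 * x - (b * x - t) / (b - 1) - t = (b - 2) * (x - t) / (b - 1) := by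
      field_simp
      ring
    rw [e1, hγ]
    apply div_le_div_of_nonneg_right _ hb1.le
    exact mul_le_mul_of_nonneg_left (by linarith) (by linarith)
  have hm2 : 7 / 8 * γ ≤ 2 * x - z - t := by
    rw [hz]
    linarith
  have hzZ : z ≤ 12 * C₀ + 1 := by
    have : z ≤ 2 * x - t - 7 / 8 * γ := by linarith
    linarith
  have hz0 : 0 ≤ z := by
    rw [hz]
    have : 0 ≤ (b * x - t) / (b - 1) := div_nonneg (by nlinarith) hb1.le
    linarith
  have hx0 : 0 < x := by linarith
  -- lower bound of the left side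
  have hxω : 0 < x - γ / 16 := by linarith
  have h3 : (1 - 8 * d) * F ≤ B * (1 - d) ^ 3 - 4 * d * F := by
    have h4 : (1 - d) ^ 3 * ((1 - d) * F) ≤ (1 - d) ^ 3 * B :=
      mul_le_mul_of_nonneg_left hA1 (pow_nonneg (by linarith) 3)
    have h5 : (1 - 4 * d) ≤ (1 - d) ^ 3 * (1 - d) := by
      have : (1 - d) ^ 3 * (1 - d) - (1 - 4 * d) = d ^ 2 * (6 - 4 * d + d ^ 2) := by ring
      have h6 : 0 ≤ d ^ 2 * (6 - 4 * d + d ^ 2) := by
        apply mul_nonneg (sq_nonneg d)
        nlinarith [sq_nonneg d]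
      linarith
    have h7 := mul_le_mul_of_nonneg_right h5 hF0.le
    linarith
  have h8 : 2 * x * F - γ / 8 * F - 96 * C₀ * d * F ≤
      2 * (x - γ / 16) * (B * (1 - d) ^ 3 - 4 * d * F) := by
    have h9 := mul_le_mul_of_nonneg_left h3 (show 0 ≤ 2 * (x - γ / 16) by linarith)
    refine le_trans ?_ h9
    have h10 : 2 * (x - γ / 16) * ((1 - 8 * d) * F) =
        2 * x * F - γ / 8 * F - 16 * d * (x - γ / 16) * F := by ring
    rw [h10]
    have h11 : 16 * d * (x - γ / 16) * F ≤ 96 * C₀ * d * F := by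
      apply mul_le_mul_of_nonneg_right _ hF0.le
      have : d * (x - γ / 16) ≤ d * (6 * C₀) := mul_le_mul_of_nonneg_left (by linarith) hd0.le
      linarith
    linarith
  -- upper bound of the right side
  have h12 : S ≤ (1 + d) * F * z + q * (12 * C₀ + 5) := by
    have e1 : ((1 + d) * F + q) * (z + q) + q = (1 + d) * F * z + q * ((1 + d) * F + z + q + 1) := by
      ring
    rw [e1] at hS
    have h13 : (1 + d) * F + z + q + 1 ≤ 12 * C₀ + 5 := by
      have : (1 + d) * F ≤ 2 * 1 := mul_le_mul (by linarith) hF1 hF0.le (by norm_num)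
      linarith
    have := mul_le_mul_of_nonneg_left h13 hq0
    linarith
  have h14 : (1 + d) * (S + B * t + q) + d * S ≤
      (1 + 4 * d) * F * z + (1 + 3 * d) * F * t + q * (24 * C₀ + 12) := by
    have e2 : (1 + d) * (S + B * t + q) + d * S = (1 + 2 * d) * S + (1 + d) * (B * t) + (1 + d) * q := by
      ring
    rw [e2]
    have h15 : (1 + 2 * d) * S ≤ (1 + 4 * d) * F * z + q * (24 * C₀ + 10) := by
      have h16 := mul_le_mul_of_nonneg_left h12 (show 0 ≤ 1 + 2 * d by linarith)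
      have h17 : (1 + 2 * d) * ((1 + d) * F * z) ≤ (1 + 4 * d) * F * z := by
        have h18 : (1 + 2 * d) * (1 + d) ≤ 1 + 4 * d := by nlinarith
        have := mul_le_mul_of_nonneg_right h18 (mul_nonneg hF0.le hz0)
        linarith
      have h19 : (1 + 2 * d) * (q * (12 * C₀ + 5)) ≤ 2 * (q * (12 * C₀ + 5)) :=
        mul_le_mul_of_nonneg_right (by linarith) (by positivity)
      linarith
    have h20 : (1 + d) * (B * t) ≤ (1 + 3 * d) * F * t := by
      have h21 : B * t ≤ (1 + d) * F * t := mul_le_mul_of_nonneg_right hA2 ht0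
      have h22 := mul_le_mul_of_nonneg_left h21 (show 0 ≤ 1 + d by linarith)
      have h23 : (1 + d) * (1 + d) ≤ 1 + 3 * d := by nlinarith
      have := mul_le_mul_of_nonneg_right h23 (mul_nonneg hF0.le ht0)
      linarith
    have h24 : (1 + d) * q ≤ 2 * q := mul_le_mul_of_nonneg_right (by linarith) hq0
    linarith
  have h25 : 4 * d * F * z ≤ 4 * d * F * (13 * C₀) := by
    apply mul_le_mul_of_nonneg_left (by linarith) (by positivity)
  have h26 : 3 * d * F * t ≤ 3 * d * F * C₀ := mul_le_mul_of_nonneg_left htC (by positivity)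
  have h27 : d * C₀ * F = γ / 1208 * F := by rw [hdC]
  have h28 : 7 / 8 * γ * F ≤ (2 * x - z - t) * F := mul_le_mul_of_nonneg_right hm2 hF0.le
  have h29 : γ * η ≤ γ * F := mul_le_mul_of_nonneg_left hηF hγ0.le
  have h30 : 0 < γ * F := mul_pos hγ0 hF0
  linarith

end Pool.Agent.Work.MP_b29d7f_low
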