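import Pool.Agent.Work.MP_b29d7f_low.Interface2

/-!
# Block PART1: minimal windows, assembly of section 2 (helper74)
-/

set_option autoImplicit false

namespace Pool.Agent.Work.MP_b29d7f_low

open Finset
open Pool.Agent.Work.MP_b29d7f_nt (IsPOrdering HasSimultaneousOrdering PS vd ld tv)
open Pool.Agent.Work.MP_b29d7f_half (Ord A wv lD)
open Pool.Agent.Work.MP_b29d7f_sep (nv EW EL)

theorem PART1_cnt_mono (a : ℕ → ℤ) (k₀ N m : ℕ) {y y' : ℝ} (h : y ≤ y') :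
    cnt a k₀ N m y ≤ cnt a k₀ N m y' := by
  classical
  unfold cnt
  refine Finset.card_le_card ?_
  intro u hu
  simp only [mem_filter] at hu ⊢
  exact ⟨hu.1, hu.2.trans h⟩

theorem PART1_cnt_le (a : ℕ → ℤ) (k₀ N m : ℕ) (y : ℝ) : cnt a k₀ N m y ≤ N := by
  classical
  unfold cnt
  refine (Finset.card_filter_le _ _).trans ?_
  rw [Nat.card_Ico]
  omega

/-- The final chain of inequalities. -/
theorem PART1_final (x ω L d F A S τ C q W m Q Dc N g Rs cn T δ : ℝ)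
    (hL : 0 < L) (hN : 0 < N) (hW : 1 ≤ W) (hd0 : 0 ≤ d) (hd1 : d ≤ 1) (hxω : 0 ≤ x - ω)
    (hDc : 0 ≤ Dc) (hQ : 0 ≤ Q) (hRs : 0 ≤ Rs) (hF : 0 ≤ F) (hC : 0 ≤ C)
    (hA : A * N = Dc * Q) (hS : S * (N * L) = Rs) (hg : g = τ * L) (hg0 : 0 ≤ g)
    (hQW : W ≤ d * Q) (hWm : m ≤ d * W) (hm : 0 ≤ m) (hcn : cn ≤ d * F * N)
    (hW2 : (W + 1) ^ 2 ≤ (1 + d) * W ^ 2) (hδ : 4 * δ ≤ d) (hCq : C ≤ q * L)
    (hlow : (x - ω) * L * (Dc * (Q - W) * (W - m) ^ 2 / 2 - W * (W + 1) * cn) ≤ T)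
    (hup : T ≤ ((W + 1) ^ 2 / 4) * (Rs + Dc * Q * g + C * N) + W ^ 2 * δ * Rs) :
    2 * (x - ω) * (A * (1 - d) ^ 3 - 4 * d * F) ≤ (1 + d) * (S + A * τ + q) + d * S := by
  have hpos : 0 < N * L * W ^ 2 / 4 := by positivity
  refine le_of_mul_le_mul_right ?_ hpos
  have h1d : 0 ≤ 1 - d := by linarith
  -- the left-hand side
  have hl1 : (1 - d) * Q ≤ Q - W := by linarith
  have hl2 : ((1 - d) * W) ^ 2 ≤ (W - m) ^ 2 := pow_le_pow_left₀ (by positivity) (by linarith) 2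
  have hl3 : Dc * ((1 - d) * Q) * ((1 - d) * W) ^ 2 / 2 ≤ Dc * (Q - W) * (W - m) ^ 2 / 2 := by
    have h3 : Dc * ((1 - d) * Q) ≤ Dc * (Q - W) := mul_le_mul_of_nonneg_left hl1 hDc
    have h4 : 0 ≤ Dc * (Q - W) := mul_nonneg hDc (by nlinarith)
    have h5 : Dc * ((1 - d) * Q) * ((1 - d) * W) ^ 2 ≤ Dc * (Q - W) * (W - m) ^ 2 :=
      mul_le_mul h3 hl2 (by positivity) h4
    linarith
  have hl4 : W * (W + 1) * cn ≤ 2 * d * F * N * W ^ 2 := by
    have h3 : W * (W + 1) ≤ 2 * W ^ 2 := by nlinarith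
    have h4 : 0 ≤ d * F * N := by positivity
    calc W * (W + 1) * cn ≤ W * (W + 1) * (d * F * N) :=
          mul_le_mul_of_nonneg_left hcn (by positivity)
      _ ≤ 2 * W ^ 2 * (d * F * N) := mul_le_mul_of_nonneg_right h3 h4
      _ = 2 * d * F * N * W ^ 2 := by ring
  have hleft : 2 * (x - ω) * (A * (1 - d) ^ 3 - 4 * d * F) * (N * L * W ^ 2 / 4) ≤ T := by
    refine le_trans (le_of_eq ?_) ((mul_le_mul_of_nonneg_left
      (sub_le_sub hl3 hl4) (mul_nonneg hxω hL.le)).trans hlow)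
    have : 2 * (x - ω) * (A * (1 - d) ^ 3 - 4 * d * F) * (N * L * W ^ 2 / 4) =
        (x - ω) * L * ((A * N) * (1 - d) ^ 3 * W ^ 2 / 2 - 2 * d * F * N * W ^ 2) := by ring
    rw [this, hA]
    ring
  -- the right-hand side
  have hr1 : ((W + 1) ^ 2 / 4) * (Rs + Dc * Q * g + C * N) ≤
      ((1 + d) * W ^ 2 / 4) * (Rs + Dc * Q * g + C * N) := by
    refine mul_le_mul_of_nonneg_right (by linarith) ?_
    have : 0 ≤ Dc * Q * g := by positivity
    have : 0 ≤ C * N := by positivity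
    linarith
  have hr2 : W ^ 2 * δ * Rs ≤ W ^ 2 / 4 * d * Rs := by
    have h3 : W ^ 2 * δ ≤ W ^ 2 / 4 * d := by
      have : 0 ≤ W ^ 2 := sq_nonneg W
      nlinarith
    exact mul_le_mul_of_nonneg_right h3 hRs
  have hr3 : C * N ≤ q * L * N := mul_le_mul_of_nonneg_right hCq hN.le
  have hr4 : ((1 + d) * W ^ 2 / 4) * (Rs + Dc * Q * g + C * N) ≤
      ((1 + d) * W ^ 2 / 4) * (Rs + Dc * Q * g + q * L * N) :=
    mul_le_mul_of_nonneg_left (by linarith) (by positivity)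
  have hright : ((1 + d) * W ^ 2 / 4) * (Rs + Dc * Q * g + q * L * N) + W ^ 2 / 4 * d * Rs =
      ((1 + d) * (S + A * τ + q) + d * S) * (N * L * W ^ 2 / 4) := by
    rw [← hS, ← hA, hg]
    ring
  linarith

/-- Bound for the normalised growth. -/
theorem PART1_growth (N L q F d z cn₂ k₀ E₁ E₂ Rs S : ℝ) (hN : 0 < N) (hL : 0 < L)
    (hq : 0 ≤ q) (hF : 0 ≤ F) (hd : 0 ≤ d) (hz : 0 ≤ z) (hk₀ : k₀ ≤ q * N) (h1 : 1 ≤ q * L)
    (hcn : cn₂ ≤ (1 + d) * F * N) (hS : S * (N * L) = Rs)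
    (hE₁ : E₁ ≤ N * (q / 2 * L)) (hE₂ : E₂ ≤ N * (q / 2 * L))
    (hRs : Rs ≤ (cn₂ + k₀) * (z * L + 1) + (E₁ + E₂)) :
    S ≤ ((1 + d) * F + q) * (z + q) + q := by
  have hNL : 0 < N * L := by positivity
  refine le_of_mul_le_mul_right ?_ hNL
  rw [hS]
  have h2 : (cn₂ + k₀) * (z * L + 1) ≤ ((1 + d) * F * N + q * N) * (z * L + q * L) := by
    refine mul_le_mul (by linarith) (by linarith) (by positivity) ?_
    positivity
  have h3 : (((1 + d) * F + q) * (z + q) + q) * (N * L) =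
      ((1 + d) * F * N + q * N) * (z * L + q * L) + (N * (q / 2 * L) + N * (q / 2 * L)) := by ring
  rw [h3]
  linarith

/-- All the requirements on the size of `L = log N`. -/
theorem PART1_large (d η q C C' e e₉ : ℝ) (k₀ K : ℕ) (hd : 0 < d) (hη : 0 < η) (hq : 0 < q)
    (he : 0 < e) (he₉ : 0 < e₉) :
    ∀ᶠ L : ℝ in Filter.atTop, 1 ≤ L ∧ 3 / d ≤ L ∧ 1 ≤ q * L ∧ C ≤ q * L ∧
      (k₀ : ℝ) + 10 * (K * Real.exp (L / 8)) ≤ d * η / 4 * Real.exp L ∧
      2 * (k₀ : ℝ) ≤ Real.exp L ∧ (k₀ : ℝ) ≤ q * Real.exp L ∧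
      K * Real.exp (L / 8) ≤ Real.exp L ∧
      (1 + L) * Real.exp (-(e / 2 * L)) ≤ q / 2 * L ∧
      (2 * L) ^ C' * Real.exp (-(e₉ / 4 * L)) ≤ q / 2 * L := by
  have h1 := Filter.eventually_ge_atTop (1 : ℝ)
  have h2 := Filter.eventually_ge_atTop (3 / d)
  have h3 := Filter.eventually_ge_atTop (1 / q)
  have h4 := Filter.eventually_ge_atTop (C / q)
  have hexp : Filter.Tendsto (fun L : ℝ => Real.exp (7 / 8 * L)) Filter.atTop Filter.atTop :=
    Real.tendsto_exp_atTop.comp (Filter.tendsto_id.const_mul_atTop (by norm_num))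
  have h5 := hexp.eventually_ge_atTop (((k₀ : ℝ) + 10 * K) / (d * η / 4))
  have h6 := Real.tendsto_exp_atTop.eventually_ge_atTop (2 * (k₀ : ℝ))
  have h7 := Real.tendsto_exp_atTop.eventually_ge_atTop ((k₀ : ℝ) / q)
  have h8 := hexp.eventually_ge_atTop (K : ℝ)
  have hexp0 : Filter.Tendsto (fun L : ℝ => Real.exp (-(e / 2 * L))) Filter.atTop (nhds 0) :=
    Real.tendsto_exp_neg_atTop_nhds_zero.comp
      (Filter.tendsto_id.const_mul_atTop (by positivity))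
  have h9 := hexp0.eventually_le_const (by positivity : (0 : ℝ) < q / 4)
  have hr := (tendsto_rpow_mul_exp_neg_mul_atTop_nhds_zero C' (e₉ / 4) (by positivity)).const_mul
    ((2 : ℝ) ^ C')
  rw [mul_zero] at hr
  have h10 := hr.eventually_le_const (by positivity : (0 : ℝ) < q / 2)
  filter_upwards [h1, h2, h3, h4, h5, h6, h7, h8, h9, h10] with L h1 h2 h3 h4 h5 h6 h7 h8 h9 h10
  have hsplit : Real.exp L = Real.exp (L / 8) * Real.exp (7 / 8 * L) := by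
    rw [← Real.exp_add]
    congr 1
    ring
  have he8 : 1 ≤ Real.exp (L / 8) := Real.one_le_exp (by linarith)
  refine ⟨h1, h2, ?_, ?_, ?_, h6, ?_, ?_, ?_, ?_⟩
  · rw [div_le_iff₀ hq] at h3
    linarith
  · rw [div_le_iff₀ hq] at h4
    linarith
  · rw [div_le_iff₀ (by positivity)] at h5
    rw [hsplit]
    have hk : (0 : ℝ) ≤ k₀ := by positivity
    calc (k₀ : ℝ) + 10 * (K * Real.exp (L / 8)) ≤ ((k₀ : ℝ) + 10 * K) * Real.exp (L / 8) := by
          nlinarith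
      _ ≤ (Real.exp (7 / 8 * L) * (d * η / 4)) * Real.exp (L / 8) :=
          mul_le_mul_of_nonneg_right h5 (by positivity)
      _ = d * η / 4 * (Real.exp (L / 8) * Real.exp (7 / 8 * L)) := by ring
  · rw [div_le_iff₀ hq] at h7
    linarith
  · rw [hsplit, mul_comm]
    exact mul_le_mul_of_nonneg_left h8 (by positivity)
  · calc (1 + L) * Real.exp (-(e / 2 * L)) ≤ (2 * L) * (q / 4) :=
          mul_le_mul (by linarith) h9 (by positivity) (by linarith)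
      _ = q / 2 * L := by ring
  · rw [Real.mul_rpow (by norm_num) (by linarith)]
    have h11 : (2 : ℝ) ^ C' * L ^ C' * Real.exp (-(e₉ / 4 * L)) =
        2 ^ C' * (L ^ C' * Real.exp (-(e₉ / 4) * L)) := by
      rw [mul_assoc]
      congr 3
      ring
    rw [h11]
    refine h10.trans ?_
    exact le_mul_of_one_le_right (by positivity) h1

theorem PART1_nat1 (E₂ K₁ m l K : ℕ) (hK : K = 2 * E₂ * K₁) (hl : 1 ≤ l) :
    E₂ * K₁ * m * l ^ 4 ≤ K * m * l ^ 4 ∧ E₂ * K₁ * m ≤ K * m * l ^ 4 := by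
  have h1 : E₂ * K₁ * m ≤ K * m := by
    rw [hK]
    nlinarith [Nat.zero_le (E₂ * K₁ * m)]
  have h2 : 1 ≤ l ^ 4 := Nat.one_le_pow _ _ hl
  exact ⟨Nat.mul_le_mul_right _ h1, h1.trans (Nat.le_mul_of_pos_right _ h2)⟩

theorem PART1_E1 (Dc m N L x e e₇ q : ℝ) (hDm : Dc * m ≤ N) (hL : 1 ≤ L)
    (hN : 0 < N) (he₇ : e₇ ≤ e / 2)
    (hE : (1 + L) * Real.exp (-(e / 2 * L)) ≤ q / 2 * L) :
    Dc * (Real.exp ((x + e₇) * L) * m * (1 + L) * Real.exp (-((x + e) * L))) ≤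
      N * (q / 2 * L) := by
  have h3 : Dc * (Real.exp ((x + e₇) * L) * m * (1 + L) * Real.exp (-((x + e) * L))) =
      (Dc * m) * ((1 + L) * (Real.exp ((x + e₇) * L) * Real.exp (-((x + e) * L)))) := by
    ring
  rw [h3, ← Real.exp_add]
  have h5 : Real.exp ((x + e₇) * L + -((x + e) * L)) ≤ Real.exp (-(e / 2 * L)) := by
    refine Real.exp_le_exp.mpr ?_
    nlinarith
  have h6 : (1 + L) * Real.exp ((x + e₇) * L + -((x + e) * L)) ≤ q / 2 * L :=
    (mul_le_mul_of_nonneg_left h5 (by linarith)).trans hE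
  exact mul_le_mul hDm h6 (mul_nonneg (by linarith) (Real.exp_pos _).le) hN.le

theorem PART1_E2 (Dc P N L l x τ z g b e₉ e₇ q C : ℝ) (hDP : Dc * P ≤ N) (hL : 1 ≤ L)
    (hN : 0 < N) (he₇ : e₇ ≤ e₉ / 4) (he₉ : 0 < e₉) (hb : 2 < b) (hC : 0 ≤ C)
    (hl0 : 0 ≤ l) (hl : l ≤ 2 * L) (hg : g = τ * L) (hz : z = (b * x - τ) / (b - 1) + e₉)
    (hE : (2 * L) ^ C * Real.exp (-(e₉ / 4 * L)) ≤ q / 2 * L) :
    Dc * (Real.exp ((x + e₇) * L) * (l ^ C * P * Real.exp ((z * L - g) / b - z * L))) ≤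
      N * (q / 2 * L) := by
  have h3 : Dc * (Real.exp ((x + e₇) * L) * (l ^ C * P * Real.exp ((z * L - g) / b - z * L))) =
      (Dc * P) * (l ^ C * (Real.exp ((x + e₇) * L) * Real.exp ((z * L - g) / b - z * L))) := by
    ring
  rw [h3, ← Real.exp_add]
  have hb0 : 0 < b := by linarith
  have hb1 : b - 1 ≠ 0 := by linarith
  have h5 : (x + e₇) * L + ((z * L - g) / b - z * L) ≤ -(e₉ / 4 * L) := by
    have h7 : (z * L - g) / b - z * L = -(x * L) - (e₉ * (b - 1) / b) * L := by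
      rw [hg, hz]
      field_simp
      ring
    rw [h7]
    have h8 : e₉ / 2 ≤ e₉ * (b - 1) / b := by
      rw [le_div_iff₀ hb0]
      nlinarith
    nlinarith
  have h9 : 0 ≤ l ^ C := Real.rpow_nonneg hl0 C
  have h10 : 0 ≤ (2 * L) ^ C := Real.rpow_nonneg (by linarith) C
  have h6 : l ^ C * Real.exp ((x + e₇) * L + ((z * L - g) / b - z * L)) ≤ q / 2 * L := by
    refine le_trans ?_ hE
    refine mul_le_mul ?_ (Real.exp_le_exp.mpr h5) (Real.exp_pos _).le h10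
    exact Real.rpow_le_rpow hl0 hl hC
  exact mul_le_mul hDP h6 (mul_nonneg h9 (Real.exp_pos _).le) hN.le

theorem stmt_PART1 (hLWU : Stmt_LWU) (hLWL : Stmt_LWL) (hPIGF : Stmt_PIGF) (hBLK : Stmt_BLK)
    (hGRO : Stmt_GRO) (hNUM1 : Stmt_NUM1) (hGGB : Stmt_GGB) : Stmt_PART1 := by
  intro a k₀ C₀ κ b β₁ β₂ e₅ hdat hb hκ hβ₁ hβ₂ hCβ he₅ he₅1
  have hC₀ := hdat.one_le
  have hβ₂8 : β₂ ≤ 1 / 8 := by nlinarith
  obtain ⟨ω, d, e₉, hω, hωe, hd, hd8, he₉, hnum⟩ := hNUM1 C₀ b e₅ hC₀ hb he₅ he₅1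
  obtain ⟨η, e, hη, hη2, he, heω, hpig⟩ := hPIGF ω d (2 * C₀) hω hd (by linarith) (by linarith)
  obtain ⟨q₀, hq₀, hnum⟩ := hnum η hη
  -- the constants
  obtain ⟨K₁, hK₁⟩ := exists_nat_ge (1 / d)
  have hK₁1 : 1 ≤ K₁ := by
    have h1 : (0 : ℝ) < 1 / d := by positivity
    have h2 : (0 : ℝ) < K₁ := lt_of_lt_of_le h1 hK₁
    exact_mod_cast h2
  obtain ⟨E₂', hE₂'⟩ := exists_nat_ge (Real.exp (16 * C₀ / (β₁ * d)))
  obtain ⟨E₂, hE₂⟩ : ∃ v_ : ℕ, v_ = max 2 E₂' := ⟨_, rfl⟩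
  have hE₂2 : 2 ≤ E₂ := by rw [hE₂]; exact le_max_left _ _
  have hlogE : 16 * C₀ / (β₁ * d) ≤ Real.log E₂ := by
    rw [← Real.log_exp (16 * C₀ / (β₁ * d))]
    refine Real.log_le_log (Real.exp_pos _) (hE₂'.trans ?_)
    rw [hE₂]
    exact_mod_cast le_max_right 2 E₂'
  have hlogE0 : 0 < Real.log E₂ := lt_of_lt_of_le (by positivity) hlogE
  have hδ : 4 * (4 * C₀ / β₁ / Real.log E₂) ≤ d := by
    rw [div_div, mul_div_assoc', div_le_iff₀ (by positivity)]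
    rw [div_le_iff₀ (by positivity)] at hlogE
    nlinarith
  obtain ⟨K, hK⟩ : ∃ v_ : ℕ, v_ = 2 * E₂ * K₁ := ⟨_, rfl⟩
  have hK1 : 1 ≤ K := by
    rw [hK]
    have : 0 < E₂ := by omega
    exact Nat.one_le_iff_ne_zero.mpr (by positivity)
  obtain ⟨e₇, he₇⟩ : ∃ v_ : ℝ, v_ = min (e / 2) (e₉ / 4) := ⟨_, rfl⟩
  have he₇0 : 0 < e₇ := by rw [he₇]; exact lt_min (by positivity) (by positivity)
  have he₇e : e₇ ≤ e / 2 := by rw [he₇]; exact min_le_left _ _
  have he₇9 : e₇ ≤ e₉ / 4 := by rw [he₇]; exact min_le_right _ _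
  refine ⟨K, η, e₇, d * η / 4, hK1, hη, he₇0, by positivity, ?_⟩
  intro e₃ J
  obtain ⟨C, N₁, hC, hLWU⟩ := hLWU a k₀ C₀ κ b β₁ β₂ e₃ e₇ (d * η / 4) K₁ E₂ J hdat hκ hβ₁
    (by linarith) hK₁1 hE₂2
  obtain ⟨C', N₂, hC', hGRO⟩ := hGRO a k₀ C₀ κ b β₁ β₂ e₃ e₇ (d * η / 4) K J hdat (by linarith)
    hβ₁ (by linarith) hK1
  have hev := (Real.tendsto_log_atTop.comp tendsto_natCast_atTop_atTop).eventually
    (PART1_large d η q₀ C C' e e₉ k₀ K hd hη hq₀ he he₉)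
  rw [Filter.eventually_atTop] at hev
  obtain ⟨N₃, hN₃⟩ := hev
  refine ⟨max (max N₁ N₂) (max N₃ 2), ?_⟩
  intro n N R m hN hfr
  have hNN₁ : N₁ ≤ N := ((le_max_left _ _).trans (le_max_left _ _)).trans hN
  have hNN₂ : N₂ ≤ N := ((le_max_right _ _).trans (le_max_left _ _)).trans hN
  have hNN₃ : N₃ ≤ N := ((le_max_left _ _).trans (le_max_right _ _)).trans hN
  have hN2 : 2 ≤ N := ((le_max_right _ _).trans (le_max_right _ _)).trans hN
  obtain ⟨L, hLdef⟩ : ∃ v_ : ℝ, v_ = Real.log N := ⟨_, rfl⟩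
  obtain ⟨hL1, hLd, hqL, hCq, hk10, hk2, hkq, hKexp, hE1, hE2⟩ := hN₃ N hNN₃
  simp only [Function.comp_apply, ← hLdef] at hL1 hLd hqL hCq hk10 hk2 hkq hKexp hE1 hE2
  have hNr : (0 : ℝ) < N := by
    have : 0 < N := by omega
    exact_mod_cast this
  have hexpL : Real.exp L = N := by rw [hLdef]; exact Real.exp_log hNr
  rw [hexpL] at hk10 hk2 hkq hKexp
  have hL0 : 0 < L := by linarith
  -- sizes
  have hl1 : 1 ≤ el N := by
    unfold el
    exact Nat.one_le_ceil_iff.mpr (by rw [← hLdef]; exact hL0)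
  have hlL : L ≤ (el N : ℝ) := by
    unfold el
    rw [← hLdef]
    exact Nat.le_ceil _
  have hl2L : (el N : ℝ) ≤ 2 * L := by
    unfold el
    have := Nat.ceil_lt_add_one hL0.le
    rw [← hLdef]
    linarith
  have hm_big := hfr.m_big
  have hml : el N ≤ m := by
    refine le_trans ?_ hm_big
    calc el N = el N ^ 1 := (pow_one _).symm
      _ ≤ el N ^ 30 := Nat.pow_le_pow_right hl1 (by norm_num)
  have hm1 : 1 ≤ m := hl1.trans hml
  obtain ⟨Q, hQ⟩ : ∃ v_ : ℕ, v_ = Qb K m N := ⟨_, rfl⟩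
  obtain ⟨P', hP'⟩ : ∃ v_ : ℕ, v_ = P1 K m N := ⟨_, rfl⟩
  have hQR : Q ≤ K * R := by
    rw [hQ]
    unfold Qb
    calc K * m * el N ^ 4 ≤ K * m * el N ^ 20 :=
          Nat.mul_le_mul_left _ (Nat.pow_le_pow_right hl1 (by norm_num))
      _ = K * (m * el N ^ 20) := by ring
      _ ≤ K * R := Nat.mul_le_mul_left _ hfr.m_hi
  have hRr : (R : ℝ) ≤ Real.exp (L / 8) := by
    have hR1 : (0 : ℝ) < R := by exact_mod_cast hfr.rrec.1
    rw [← Real.exp_log hR1]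
    refine Real.exp_le_exp.mpr (hfr.R_hi.trans ?_)
    rw [← hLdef]
    nlinarith
  have hQexp : (Q : ℝ) ≤ K * Real.exp (L / 8) := by
    have h1 : (Q : ℝ) ≤ (K : ℝ) * R := by exact_mod_cast hQR
    exact h1.trans (mul_le_mul_of_nonneg_left hRr (by positivity))
  have hQN : Q ≤ N := by
    have := hQexp.trans hKexp
    exact_mod_cast this
  have hmQ : m ≤ Q := by
    rw [hQ]
    unfold Qb
    calc m = 1 * m * 1 := by ring
      _ ≤ K * m * el N ^ 4 := Nat.mul_le_mul (Nat.mul_le_mul_right _ hK1)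
          (Nat.one_le_pow _ _ hl1)
  have hPQ : P' ≤ Q := by
    rw [hQ, hP']
    unfold Qb P1
    exact Nat.mul_le_mul_left _ (Nat.pow_le_pow_right hl1 (by norm_num))
  have hmP : m ≤ P' := by
    rw [hP']
    unfold P1
    calc m = 1 * m * 1 := by ring
      _ ≤ K * m * el N ^ 3 := Nat.mul_le_mul (Nat.mul_le_mul_right _ hK1)
          (Nat.one_le_pow _ _ hl1)
  -- the slope at the scale `P'`
  obtain ⟨hg1, hg2, -, -, -, hg6, -⟩ := hGGB a k₀ C₀ hdat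
  have hgP0 : 0 ≤ gg a P' := hg2 P'
  have hgP1 : gg a P' ≤ C₀ * L := by
    rcases Nat.lt_or_ge P' 2 with h | h
    · have hP'1 : P' = 1 := by omega
      have h3 := hg6 1 0 N hN2 (by omega) (by omega)
      have h4 : gg a 1 = ld (a 1) (a 0) := by
        unfold gg lD
        simp
      -- use the bound of the difference by `C₀ log 2`
      have h5 : ld (a 1) (a 0) ≤ C₀ * Real.log 2 := by
        have h6 := hdat.size 1 0 2 le_rfl (by norm_num) (by norm_num)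
        unfold ld
        have h7 : (0 : ℝ) < |((a 1 - a 0 : ℤ) : ℝ)| ∨ |((a 1 - a 0 : ℤ) : ℝ)| = 0 := by
          rcases (abs_nonneg ((a 1 - a 0 : ℤ) : ℝ)).lt_or_eq with h | h
          · exact Or.inl h
          · exact Or.inr h.symm
        rcases h7 with h7 | h7
        · have h8 := Real.log_le_log h7 (by push_cast at h6 ⊢; exact h6)
          rw [Real.log_rpow (by norm_num)] at h8
          push_cast at h8 ⊢
          exact h8
        · rw [h7, Real.log_zero]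
          have : 0 < Real.log 2 := Real.log_pos (by norm_num)
          positivity
      rw [hP'1, h4]
      refine h5.trans (mul_le_mul_of_nonneg_left ?_ (by linarith))
      rw [hLdef]
      exact Real.log_le_log (by norm_num) (by exact_mod_cast hN2)
    · refine (hg1 P' h).trans (mul_le_mul_of_nonneg_left ?_ (by linarith))
      rw [hLdef]
      refine Real.log_le_log (by exact_mod_cast (by omega : 0 < P')) ?_
      exact_mod_cast hPQ.trans hQN
  obtain ⟨τ, hτ⟩ : ∃ v_ : ℝ, v_ = gg a P' / L := ⟨_, rfl⟩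
  have hτL : gg a P' = τ * L := by rw [hτ, div_mul_cancel₀ _ hL0.ne']
  have hτ0 : 0 ≤ τ := by rw [hτ]; exact div_nonneg hgP0 hL0.le
  have hτC : τ ≤ C₀ := by
    rw [hτ, div_le_iff₀ hL0]
    exact hgP1
  by_contra hcon
  push Not at hcon
  rw [← hP', ← hLdef] at hcon
  -- the distribution function
  obtain ⟨F, hF⟩ : ∃ F : ℝ → ℝ, F = fun s => (cnt a k₀ N m (s * L) : ℝ) / N := ⟨_, rfl⟩
  have hFN : ∀ s, F s * N = cnt a k₀ N m (s * L) := fun s => by
    simp only [hF]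
    rw [div_mul_cancel₀ _ hNr.ne']
  have hFmono : Monotone F := by
    intro s s' h
    simp only [hF]
    refine div_le_div_of_nonneg_right ?_ hNr.le
    exact_mod_cast PART1_cnt_mono a k₀ N m (mul_le_mul_of_nonneg_right h hL0.le)
  have hF0 : ∀ s, 0 ≤ F s := fun s => by
    simp only [hF]
    positivity
  have hF1 : ∀ s, F s ≤ 1 := fun s => by
    simp only [hF]
    rw [div_le_one hNr]
    exact_mod_cast PART1_cnt_le a k₀ N m (s * L)
  have hFx₀ : F (τ + e₅) < η := by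
    simp only [hF]
    rw [div_lt_iff₀ hNr, add_mul, ← hτL]
    exact hcon
  have hFX : 1 / 2 ≤ F (τ + e₅ + 2 * C₀) := by
    simp only [hF]
    rw [le_div_iff₀ hNr]
    have hall : cnt a k₀ N m ((τ + e₅ + 2 * C₀) * L) = N - k₀ := by
      classical
      unfold cnt
      rw [Finset.filter_true_of_mem, Nat.card_Ico]
      intro u hu
      rw [mem_Ico] at hu
      have h3 := hg6 (u + m) u N hN2 (by omega) (by omega)
      have h4 : Gm a m u = ld (a (u + m)) (a u) := by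
        unfold Gm ld
        rw [Real.log_abs]
      rw [h4]
      refine h3.trans ?_
      have : 0 ≤ (τ + e₅) * L := by positivity
      nlinarith
    rw [hall]
    have hk₀N : k₀ ≤ N := by
      have : (k₀ : ℝ) ≤ N := by
        have : (0 : ℝ) ≤ k₀ := by positivity
        linarith
      exact_mod_cast this
    rw [Nat.cast_sub hk₀N]
    linarith
  obtain ⟨x, hx1, hx2, hx3, hx4, hx5⟩ := hpig F (τ + e₅) hFmono hF0 hF1 hFx₀ hFX
  -- the blocks
  obtain ⟨D, hD⟩ : ∃ D : Finset ℕ, D = DD a k₀ N Q ((x + e₇) * L) := ⟨_, rfl⟩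
  obtain ⟨hB1, -, hB3, hB4⟩ := hBLK a k₀ C₀ hdat N m Q ((x + e₇) * L) (e₇ * L) hm1 hmQ
    (by positivity)
  rw [← hD] at hB1 hB3 hB4
  have hyx : (x + e₇) * L - e₇ * L = x * L := by ring
  rw [hyx, ← hFN] at hB1
  rw [← hFN] at hB3
  have hFx0 : 0 ≤ F x := hF0 x
  have hxpos : 0 < x := by linarith
  obtain ⟨A₀, hA₀⟩ : ∃ v_ : ℝ, v_ = (D.card : ℝ) * Q / N := ⟨_, rfl⟩
  have hAN : A₀ * N = D.card * Q := by rw [hA₀, div_mul_cancel₀ _ hNr.ne']
  have hAlo : (1 - d) * F x ≤ A₀ := by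
    refine le_of_mul_le_mul_right ?_ hNr
    rw [hAN]
    have h3 := hfr.sel2
    rw [← hQ, ← hLdef] at h3
    have h4 : (k₀ : ℝ) + 10 * Q ≤ d * η / 4 * N := by linarith
    have h5 : d * η * N ≤ d * F x * N :=
      mul_le_mul_of_nonneg_right (mul_le_mul_of_nonneg_left hx3 hd.le) hNr.le
    have h6 : 0 ≤ d * F x * N := by positivity
    nlinarith
  have hAhi : A₀ ≤ (1 + d) * F x := by
    refine le_of_mul_le_mul_right ?_ hNr
    rw [hAN]
    refine hB3.trans (mul_le_mul_of_nonneg_right ?_ hNr.le)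
    exact (hFmono (by linarith)).trans hx5
  have hDQN : (D.card : ℝ) * Q ≤ N := by
    refine hB3.trans ?_
    have := mul_le_mul_of_nonneg_right (hF1 (x + e₇)) hNr.le
    linarith
  -- the growth
  have hmonoT : Monotone (lD a) :=
    (Pool.Agent.Work.MP_b29d7f_sep.stmt_ARCHO (Set.range a) a hdat.ord).2.1
  have hRs0 : 0 ≤ Rs a Q D := by
    unfold Rs
    exact Finset.sum_nonneg (fun j _ => sub_nonneg.mpr (hmonoT (Nat.le_add_right _ _)))
  obtain ⟨S, hS⟩ : ∃ v_ : ℝ, v_ = Rs a Q D / (N * L) := ⟨_, rfl⟩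
  have hNL : 0 < (N : ℝ) * L := by positivity
  have hSN : S * (N * L) = Rs a Q D := by rw [hS, div_mul_cancel₀ _ hNL.ne']
  have hS0 : 0 ≤ S := by rw [hS]; exact div_nonneg hRs0 hNL.le
  obtain ⟨z, hz⟩ : ∃ v_ : ℝ, v_ = (b * x - τ) / (b - 1) + e₉ := ⟨_, rfl⟩
  have hb1 : 0 < b - 1 := by linarith
  have hxz : x + e₉ ≤ z := by
    have : x ≤ (b * x - τ) / (b - 1) := by
      rw [le_div_iff₀ hb1]
      nlinarith
    rw [hz]
    linarith
  have hz0 : 0 ≤ z := by linarith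
  have hgro := hGRO n N R m hNN₂ hfr ((x + e₇) * L) ((x + e) * L) (z * L) (by positivity)
    (mul_le_mul_of_nonneg_right (by linarith) hL0.le)
    (mul_le_mul_of_nonneg_right (by linarith) hL0.le)
    (by rw [← hP', hτL]; exact mul_le_mul_of_nonneg_right (by linarith) hL0.le)
  rw [← hQ, ← hP', ← hD, ← hLdef] at hgro
  have hSup : S ≤ ((1 + d) * F x + q₀) * (z + q₀) + q₀ := by
    refine PART1_growth N L q₀ (F x) d z (cnt a k₀ N m ((x + e) * L)) k₀
      (D.card * (Real.exp ((x + e₇) * L) * m * (1 + L) * Real.exp (-((x + e) * L))))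
      (D.card * (Real.exp ((x + e₇) * L) * ((el N : ℝ) ^ C' * P' *
        Real.exp ((z * L - gg a P') / b - z * L)))) (Rs a Q D) S hNr hL0 hq₀.le hFx0 hd.le hz0
      hkq hqL ?_ hSN ?_ ?_ ?_
    · rw [← hFN]
      exact mul_le_mul_of_nonneg_right hx5 hNr.le
    · refine PART1_E1 D.card m N L x e e₇ q₀ ?_ hL1 hNr he₇e hE1
      refine le_trans ?_ hDQN
      refine mul_le_mul_of_nonneg_left ?_ (Nat.cast_nonneg _)
      exact_mod_cast hmQ
    · refine PART1_E2 D.card P' N L (el N) x τ z (gg a P') b e₉ e₇ q₀ C' ?_ hL1 hNr he₇9 he₉ hb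
        hC' (Nat.cast_nonneg _) hl2L hτL hz hE2
      refine le_trans ?_ hDQN
      refine mul_le_mul_of_nonneg_left ?_ (Nat.cast_nonneg _)
      exact_mod_cast hPQ
    · rw [← mul_add]
      exact hgro
  -- the windows
  obtain ⟨w, hw1, hw2, hwE⟩ := hLWU n N R m hNN₁ (by rw [← hK]; exact hfr) D
    (fun j hj => by rw [← hK, ← hQ]; exact (hB4 j hj).2.1)
  rw [← hK, ← hQ, ← hP'] at hwE
  have hK₁m : m ≤ K₁ * m := Nat.le_mul_of_pos_left m hK₁1
  have hmw : m ≤ w := hK₁m.trans hw1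
  obtain ⟨hnat1, hnat2⟩ := PART1_nat1 E₂ K₁ m (el N) K hK hl1
  have hQdef : Q = K * m * el N ^ 4 := by rw [hQ]; rfl
  have hwQ : w ≤ Q := by
    rw [hQdef]
    exact hw2.trans hnat2
  have hlow := hLWL a k₀ C₀ hdat N m w Q D ((x - ω) * L) hm1 hmw hwQ
    (mul_nonneg (by linarith) hL0.le) (fun j hj => ⟨(hB4 j hj).1, (hB4 j hj).2.1⟩)
  have hwr : (0 : ℝ) < w := by
    have : 0 < w := by omega
    exact_mod_cast this
  have hwL : 3 / d ≤ (w : ℝ) := by
    refine hLd.trans (hlL.trans ?_)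
    exact_mod_cast hml.trans hmw
  refine hnum x τ z (F x) A₀ S q₀ hτ0 hτC hx1 (by linarith) hz hx3 (hF1 x) hq₀.le le_rfl hS0
    hAlo hAhi hSup ?_
  refine PART1_final x ω L d (F x) A₀ S τ C q₀ w m Q D.card N (gg a P') (Rs a Q D)
    (cnt a k₀ N m ((x - ω) * L)) _ (4 * C₀ / β₁ / Real.log E₂) hL0 hNr ?_ hd.le (by linarith)
    (by linarith) (Nat.cast_nonneg _) (Nat.cast_nonneg _) hRs0 hFx0 hC hAN hSN hτL hgP0 ?_ ?_
    (Nat.cast_nonneg _) ?_ ?_ hδ hCq hlow hwE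
  · have : 1 ≤ w := by omega
    exact_mod_cast this
  · -- `w ≤ d Q`
    have h3 : (w : ℝ) * el N ^ 4 ≤ Q := by
      have h4 : w * el N ^ 4 ≤ Q := by
        rw [hQdef]
        exact (Nat.mul_le_mul_right _ hw2).trans hnat1
      exact_mod_cast h4
    have h5 : (1 : ℝ) / d ≤ (el N : ℝ) ^ 4 := by
      have h6 : (1 : ℝ) ≤ el N := by exact_mod_cast hl1
      calc (1 : ℝ) / d ≤ 3 / d := div_le_div_of_nonneg_right (by norm_num) hd.le
        _ ≤ el N := hLd.trans hlL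
        _ = (el N : ℝ) ^ 1 := (pow_one _).symm
        _ ≤ (el N : ℝ) ^ 4 := pow_le_pow_right₀ h6 (by norm_num)
    rw [div_le_iff₀ hd] at h5
    calc (w : ℝ) = w * 1 := (mul_one _).symm
      _ ≤ w * ((el N : ℝ) ^ 4 * d) := mul_le_mul_of_nonneg_left h5 hwr.le
      _ = d * (w * (el N : ℝ) ^ 4) := by ring
      _ ≤ d * Q := mul_le_mul_of_nonneg_left h3 hd.le
  · -- `m ≤ d w`
    have h3 : (K₁ : ℝ) * m ≤ w := by exact_mod_cast hw1
    rw [div_le_iff₀ hd] at hK₁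
    calc (m : ℝ) = 1 * m := (one_mul _).symm
      _ ≤ (K₁ * d) * m := mul_le_mul_of_nonneg_right hK₁ (by positivity)
      _ = d * (K₁ * m) := by ring
      _ ≤ d * w := mul_le_mul_of_nonneg_left h3 hd.le
  · rw [← hFN]
    exact mul_le_mul_of_nonneg_right hx4 hNr.le
  · -- `(w + 1) ^ 2 ≤ (1 + d) w ^ 2`
    rw [div_le_iff₀ hd] at hwL
    have h3 : (1 : ℝ) ≤ w := by
      have : 1 ≤ w := by omega
      exact_mod_cast this
    nlinarith

end Pool.Agent.Work.MP_b29d7f_low
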