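import Pool.Agent.Work.MP_b29d7f_low.Interface3

/-!
# PART2: many minimal windows are impossible (helper78)
-/

namespace Pool.Agent.Work.MP_b29d7f_low

open Finset Filter
open Pool.Agent.Work.MP_b29d7f_nt (IsPOrdering HasSimultaneousOrdering PS vd ld tv)
open Pool.Agent.Work.MP_b29d7f_half (Ord A wv lD)
open Pool.Agent.Work.MP_b29d7f_sep (nv EW EL)

/-- `log l` is small against `log N` -/
private theorem p2_logel (C e : ℝ) (hC : 0 ≤ C) (he : 0 < e) : ∃ N₀ : ℕ, ∀ N : ℕ, N₀ ≤ N →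
    1 ≤ el N ∧ C * Real.log (el N) + 1 ≤ e * Real.log N := by
  have hlog : Tendsto (fun N : ℕ => Real.log (N : ℝ)) atTop atTop :=
    Real.tendsto_log_atTop.comp tendsto_natCast_atTop_atTop
  have hel : Tendsto (fun N : ℕ => ((el N : ℕ) : ℝ)) atTop atTop := by
    refine tendsto_atTop_mono ?_ hlog
    intro N
    exact Nat.le_ceil _
  have h1 : ∀ᶠ x : ℝ in atTop, ‖Real.log x‖ ≤ e / (4 * (C + 1)) * ‖x‖ := by
    have := Real.isLittleO_log_id_atTop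
    exact this.bound (by positivity)
  have h2 := hel.eventually h1
  have h3 : ∀ᶠ N : ℕ in atTop, 4 / e + 1 ≤ Real.log (N : ℝ) := hlog.eventually_ge_atTop _
  obtain ⟨N₀, hN₀⟩ := (h2.and h3).exists_forall_of_atTop
  refine ⟨N₀, fun N hN => ?_⟩
  obtain ⟨h4, h5⟩ := hN₀ N hN
  have hpos : 0 < 4 / e := by positivity
  have hL1 : 1 ≤ Real.log (N : ℝ) := by linarith
  have hel1 : 1 ≤ el N := by
    have : 0 < el N := by
      unfold el
      exact Nat.ceil_pos.2 (by linarith)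
    exact this
  refine ⟨hel1, ?_⟩
  have hel2 : ((el N : ℕ) : ℝ) ≤ Real.log N + 1 := by
    unfold el
    exact (Nat.ceil_lt_add_one (by linarith)).le
  have hel3 : (1 : ℝ) ≤ ((el N : ℕ) : ℝ) := by exact_mod_cast hel1
  rw [Real.norm_of_nonneg (Real.log_nonneg hel3), Real.norm_of_nonneg (by linarith)] at h4
  have h6 : C * Real.log (el N) ≤ (C + 1) * (e / (4 * (C + 1)) * (Real.log N + 1)) := by
    have h7 : Real.log (el N) ≤ e / (4 * (C + 1)) * (Real.log N + 1) :=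
      h4.trans (mul_le_mul_of_nonneg_left hel2 (by positivity))
    have h8 : 0 ≤ Real.log (el N) := Real.log_nonneg hel3
    calc C * Real.log (el N) ≤ (C + 1) * Real.log (el N) := by nlinarith
      _ ≤ (C + 1) * (e / (4 * (C + 1)) * (Real.log N + 1)) :=
        mul_le_mul_of_nonneg_left h7 (by linarith)
  have h9 : (C + 1) * (e / (4 * (C + 1)) * (Real.log N + 1)) = e / 4 * (Real.log N + 1) := by
    field_simp
  rw [h9] at h6
  have h10 : 1 ≤ e / 4 * Real.log N := by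
    have : e / 4 * (4 / e + 1) ≤ e / 4 * Real.log N := mul_le_mul_of_nonneg_left h5 (by positivity)
    have h11 : e / 4 * (4 / e + 1) = 1 + e / 4 := by field_simp
    linarith
  have h12 : 0 ≤ e * (Real.log (N : ℝ) - 1) := mul_nonneg he.le (by linarith)
  nlinarith

/-- the final inequality -/
private theorem p2_final {Θ Θg s g' g₂ LN ll κ b e₃ e₅ η₁ β₁ C₁ C₂ X Y Hh lP : ℝ}
    (hη : 0 < η₁) (hη1 : η₁ ≤ 1) (hβ : 0 < β₁) (hLN : 0 < LN) (hll : 0 ≤ ll)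
    (hC₂ : 0 ≤ C₂) (hb : 2 < b) (hκ : b ≤ κ) (hκ2 : κ - b ≤ η₁ / 32)
    (hs : 0 ≤ s) (he : 0 < e₃) (he5 : 0 < e₅) (hee : e₃ + e₅ ≤ η₁ * β₁ / 64)
    (h1 : 2 * Θ + η₁ * Θg ≤ X + Y) (h2 : X ≤ Θ + κ * s + C₁ * ll) (h3 : Y ≤ Hh + 1)
    (h4 : Hh ≤ g' + e₅ * LN) (h5 : g' + b * s - e₃ * LN - C₂ * ll ≤ g₂) (h6 : g₂ ≤ Θ)
    (h7 : s ≤ g' + e₅ * LN + C₂ * ll) (h8 : Θ / 8 ≤ Θg) (h9 : 2 * lP ≤ g₂)
    (h10 : β₁ / 2 * LN ≤ lP) (h11 : (C₁ + 2 * C₂) * ll + 1 ≤ η₁ * β₁ / 64 * LN) : False := by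
  have hbs : 0 ≤ b * s := mul_nonneg (by linarith) hs
  -- s ≤ Θ + (e₃ + e₅) LN + 2 C₂ ll
  have a1 : s ≤ Θ + (e₃ + e₅) * LN + 2 * (C₂ * ll) := by nlinarith
  have a2 : (κ - b) * s ≤ η₁ / 32 * (Θ + (e₃ + e₅) * LN + 2 * (C₂ * ll)) :=
    (mul_le_mul_of_nonneg_right hκ2 hs).trans (mul_le_mul_of_nonneg_left a1 (by positivity))
  have a3 : η₁ * (Θ / 8) ≤ η₁ * Θg := mul_le_mul_of_nonneg_left h8 hη.le
  have a4 : η₁ * (Θ / 8) ≤ (κ - b) * s + (e₃ + e₅) * LN + (C₁ + C₂) * ll + 1 := by nlinarith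
  have a5 : η₁ * (C₂ * ll) ≤ 1 * (C₂ * ll) := mul_le_mul_of_nonneg_right hη1 (mul_nonneg hC₂ hll)
  have a6 : η₁ * ((e₃ + e₅) * LN) ≤ 1 * ((e₃ + e₅) * LN) :=
    mul_le_mul_of_nonneg_right hη1 (by positivity)
  have a7 : 3 * η₁ / 32 * Θ ≤ 33 / 32 * ((e₃ + e₅) * LN) + (C₁ + 2 * C₂) * ll + 1 := by
    have := mul_nonneg hC₂ hll
    nlinarith
  have a8 : (e₃ + e₅) * LN ≤ η₁ * β₁ / 64 * LN := mul_le_mul_of_nonneg_right hee hLN.le
  have a9 : β₁ * LN ≤ Θ := by linarith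
  have a10 : 3 * η₁ / 32 * (β₁ * LN) ≤ 3 * η₁ / 32 * Θ :=
    mul_le_mul_of_nonneg_left a9 (by positivity)
  have a11 : 0 < η₁ * β₁ * LN := by positivity
  nlinarith

theorem stmt_PART2 (hSCL : Stmt_SCL) (hEQM : Stmt_EQM) (hXUP : Stmt_XUP) (hYUP : Stmt_YUP)
    (hTHG : Stmt_THG) (hGPR : Stmt_GPR) (hLLP : Stmt_LLP) (hWTG : Stmt_WTG) : Stmt_PART2 := by
  classical
  obtain ⟨η₁, hη, hη1, hL⟩ := hLLP
  refine ⟨η₁, hη, hη1, ?_⟩
  intro a k₀ C₀ κ b β₁ β₂ e₃ e₅ e₇ e₈ η K J hD hb hbκ hκ2 hSlo hβ₁ hβ₁1 hβ₂ he₃ he₅ hee hK hηp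
  have hκ0 : 0 ≤ κ := by linarith
  have he5' : e₅ ≤ 1 / 16 := by
    have : η₁ * β₁ ≤ 1 := mul_le_one₀ hη1 hβ₁.le hβ₁1
    linarith
  obtain ⟨C₂, N₁, hC₂, hS⟩ := hSCL a k₀ C₀ κ b β₁ β₂ e₃ e₅ e₇ e₈ η K J hD (by linarith) hβ₁ hβ₂
    he₃ he₅ he5' hK hηp
  obtain ⟨C₁, N₂, hC₁, hX⟩ := hXUP a k₀ C₀ κ hD hκ0
  obtain ⟨N₃, hY⟩ := hYUP a k₀ C₀ hD
  obtain ⟨N₄, hT⟩ := hTHG a k₀ C₀ hD
  obtain ⟨N₅, hW⟩ := hWTG a k₀ C₀ κ (β₁ / 2) hD hκ0 (by linarith) (by linarith) hSlo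
  obtain ⟨k₁, hk₁⟩ := hSlo
  obtain ⟨N₆, hE⟩ := p2_logel (C₁ + 2 * C₂) (η₁ * β₁ / 64) (by linarith) (by positivity)
  -- large `N` gives large `P₂`
  have hlog : Tendsto (fun N : ℕ => Real.log (N : ℝ)) atTop atTop :=
    Real.tendsto_log_atTop.comp tendsto_natCast_atTop_atTop
  have hev : ∀ᶠ N : ℕ in atTop, (Real.log k₁ + 1) / (β₁ / 2) ≤ Real.log (N : ℝ) :=
    hlog.eventually_ge_atTop _
  obtain ⟨N₇, hN₇⟩ := hev.exists_forall_of_atTop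
  refine ⟨max (max (max N₁ N₂) (max N₃ N₄)) (max (max N₅ N₆) (max N₇ 3)), ?_⟩
  intro n N R m hN hFr hcnt
  have hN1 : N₁ ≤ N := le_trans (by simp) hN
  have hN2 : N₂ ≤ N := le_trans (by simp) hN
  have hN3 : N₃ ≤ N := le_trans (by simp) hN
  have hN4 : N₄ ≤ N := le_trans (by simp) hN
  have hN5 : N₅ ≤ N := le_trans (by simp) hN
  have hN6 : N₆ ≤ N := le_trans (by simp) hN
  have hN7 : N₇ ≤ N := le_trans (by simp) hN
  have hN8 : 3 ≤ N := le_trans (by simp) hN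
  obtain ⟨k, P₂, H, D, hP₂, hk1, hkN, hH, hDH, hDne, hDk, hPD, hPk, hPN, hlH, hlP, hg, hs⟩ :=
    hS n N R m hN1 hFr hcnt
  obtain ⟨hel1, hEl⟩ := hE N hN6
  have hAne : (A a N).Nonempty := by
    unfold A
    exact Finset.Nonempty.image ⟨0, Finset.mem_range.2 (by omega)⟩ _
  have hEq : ∀ p : ℕ, ∃ (μ : ℤ → ℝ) (θ : ℝ),
      IsEq (A a N) p (Lv C₀ a N (P₂ * el N ^ 3) p) μ θ := by
    intro p
    refine hEQM (A a N) p _ hAne ?_
    unfold Lv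
    exact le_max_of_le_right (by omega)
  choose μ θ hμ using hEq
  have hpow : ∀ i : ℕ, i ≤ 6 → P₂ * el N ^ i ≤ P₂ * el N ^ 6 := by
    intro i hi
    exact Nat.mul_le_mul_left _ (Nat.pow_le_pow_right hel1 hi)
  have hprime : ∀ p ∈ PA a N P₂, p.Prime := by
    intro p hp
    have := (mem_PA.1 hp).1
    unfold PR at this
    exact Nat.prime_of_mem_primeFactors this
  have hlogp : ∀ p ∈ PA a N P₂, 0 ≤ Real.log (p : ℝ) := by
    intro p hp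
    exact Real.log_natCast_nonneg p
  have hKd : ∀ δ ∈ D, (Kd a N δ).Nonempty ∧ ∀ x ∈ Kd a N δ, x ∈ A a N ∧ x + δ ∈ A a N := by
    intro δ hδ
    refine ⟨?_, fun x hx => mem_Kd.1 hx⟩
    rw [← Finset.card_pos]
    have := hDk δ hδ
    omega
  have hDc : (0 : ℝ) < D.card := by exact_mod_cast Finset.card_pos.2 hDne
  -- (I)
  have hI : ∑ p ∈ PA a N P₂, Real.log p * Xav p (Lv C₀ a N (P₂ * el N ^ 3) p) D (Kd a N) ≤
      ∑ p ∈ PA a N P₂, Real.log p * θ p + κ * (Real.log N - Real.log k) +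
        C₁ * Real.log (el N) := by
    have h1 : ∑ p ∈ PA a N P₂, Real.log p * Xav p (Lv C₀ a N (P₂ * el N ^ 3) p) D (Kd a N) =
        (∑ δ ∈ D, ∑ p ∈ PA a N P₂, Real.log p *
          Xe p (Lv C₀ a N (P₂ * el N ^ 3) p) (Kd a N δ)) / D.card := by
      rw [Finset.sum_comm, Finset.sum_div]
      refine Finset.sum_congr rfl fun p _ => ?_
      unfold Xav
      rw [← Finset.mul_sum]
      ring
    rw [h1, div_le_iff₀ hDc]
    calc ∑ δ ∈ D, ∑ p ∈ PA a N P₂, Real.log p *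
          Xe p (Lv C₀ a N (P₂ * el N ^ 3) p) (Kd a N δ) ≤
        ∑ δ ∈ D, (∑ p ∈ PA a N P₂, Real.log p * θ p + κ * (Real.log N - Real.log k) +
          C₁ * Real.log (el N)) := by
          refine Finset.sum_le_sum fun δ hδ => ?_
          refine hX n N hN2 hFr.n_lo hFr.n_hi hFr.lrec P₂ k (Kd a N δ) μ θ hP₂ hPk
            ((hpow 4 (by norm_num)).trans hPN) hkN ?_ (hDk δ hδ) fun p _ => hμ p
          intro x hx
          exact (mem_Kd.1 hx).1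
      _ = _ := by
          rw [Finset.sum_const, nsmul_eq_mul]
          ring
  -- (II)
  have hII : ∑ p ∈ PA a N P₂, Real.log p * Xe p (Lv C₀ a N (P₂ * el N ^ 3) p) D ≤
      Real.log H + 1 :=
    hY N P₂ H D hN3 hP₂ ((hpow 3 (by norm_num)).trans hPN) hH hDH hPD
  -- (III)
  have hIII : gg a P₂ ≤ ∑ p ∈ PA a N P₂, Real.log p * θ p :=
    hT N P₂ μ θ hN4 hP₂ ((hpow 3 (by norm_num)).trans hPN) fun p _ => hμ p
  -- the good primes
  have hIV := hW n N hN5 hFr.n_lo hFr.n_hi hFr.lrec P₂ μ θ hPN hlP fun p _ => hμ p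
  -- the two propositions
  have hV : 2 * ∑ p ∈ PA a N P₂, Real.log p * θ p + η₁ *
      ∑ p ∈ (PA a N P₂).filter (fun p : ℕ => 3 / 2 / ((p : ℝ) - 1) ≤ θ p ∧ θ p < 1 / 5),
          Real.log p * θ p ≤
      ∑ p ∈ PA a N P₂, Real.log p * Xav p (Lv C₀ a N (P₂ * el N ^ 3) p) D (Kd a N) +
      ∑ p ∈ PA a N P₂, Real.log p * Xe p (Lv C₀ a N (P₂ * el N ^ 3) p) D := by
    rw [Finset.sum_filter, Finset.mul_sum, Finset.mul_sum, ← Finset.sum_add_distrib,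
      ← Finset.sum_add_distrib]
    refine Finset.sum_le_sum fun p hp => ?_
    have hp1 := hprime p hp
    have hlp := hlogp p hp
    by_cases hgood : 3 / 2 / ((p : ℝ) - 1) ≤ θ p ∧ θ p < 1 / 5
    · rw [if_pos hgood]
      have h1 := hL (A a N) D (Kd a N) p (Lv C₀ a N (P₂ * el N ^ 3) p) (μ p) (θ p) hp1 (hμ p)
        hDne hKd hgood.1 hgood.2
      have h2 := mul_le_mul_of_nonneg_left h1 hlp
      linarith
    · rw [if_neg hgood]
      have h1 := hGPR (A a N) D (Kd a N) p (Lv C₀ a N (P₂ * el N ^ 3) p) (μ p) (θ p) hp1.two_le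
        (hμ p) hDne hKd 1 one_pos
      have h2 := mul_le_mul_of_nonneg_left h1 hlp
      linarith
  -- the lower bound for `g(P₂)`
  have hLN : 0 < Real.log (N : ℝ) := Real.log_pos (by exact_mod_cast (by omega : 1 < N))
  have hP₂k₁ : k₁ ≤ P₂ := by
    by_contra hcon
    push Not at hcon
    have h1 := hN₇ N hN7
    rw [div_le_iff₀ (by positivity)] at h1
    have h2 : Real.log (P₂ : ℝ) ≤ Real.log (k₁ : ℝ) :=
      Real.log_le_log (by exact_mod_cast hP₂) (by exact_mod_cast hcon.le)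
    linarith
  have hVI := hk₁ P₂ hP₂k₁
  have hs0 : 0 ≤ Real.log (N : ℝ) - Real.log (k : ℝ) := by
    have := Real.log_le_log (x := (k : ℝ)) (y := (N : ℝ)) (by exact_mod_cast hk1)
      (by exact_mod_cast hkN)
    linarith
  have hll : 0 ≤ Real.log ((el N : ℕ) : ℝ) := Real.log_natCast_nonneg _
  exact p2_final hη hη1 hβ₁ hLN hll hC₂ hb hbκ hκ2 hs0 he₃ he₅ hee hV hI hII hlH hg hIII hs hIV
    hVI hlP hEl

end Pool.Agent.Work.MP_b29d7f_low
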