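import Pool.Agent.Work.MP_b29d7f_low.Interface1

/-!
# Block RREX: right records
-/

namespace Pool.Agent.Work.MP_b29d7f_low

open Finset

theorem stmt_RREX (hGGB : Stmt_GGB) : Stmt_RREX := by
  classical
  intro a k₀ C₀ b ε hD hb hε hS
  obtain ⟨g1, -, -, -, -, -, -⟩ := hGGB a k₀ C₀ hD
  obtain ⟨k₁, hk₁⟩ := hS
  have hC₀ := hD.one_le
  have hf : ∃ f : ℕ → ℝ, f = fun k : ℕ => gg a k - b * Real.log k := ⟨_, rfl⟩
  obtain ⟨f, hfdef⟩ := hf
  have hfv : ∀ k : ℕ, f k = gg a k - b * Real.log k := fun k => by rw [hfdef]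
  -- lower bound of `f` for large `k`
  have hlow : ∀ k : ℕ, k₁ ≤ k → ε / 2 * Real.log k ≤ f k := by
    intro k hk
    rw [hfv]
    have := hk₁ k hk
    linarith
  refine ⟨max (f 1) (ε / 2 * Real.log (max k₁ 1 : ℕ)), fun v hv => ?_⟩
  have hv1 : f 1 ≤ v := le_trans (le_max_left _ _) hv
  have hv2 : ε / 2 * Real.log (max k₁ 1 : ℕ) ≤ v := le_trans (le_max_right _ _) hv
  -- the indices with `f k ≤ v` are bounded
  have hbd : ∃ B : ℕ, ∀ k : ℕ, B ≤ k → v < f k := by
    have ht : Filter.Tendsto (fun k : ℕ => Real.log (k : ℝ)) Filter.atTop Filter.atTop :=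
      Real.tendsto_log_atTop.comp tendsto_natCast_atTop_atTop
    obtain ⟨k₂, hk₂⟩ := Filter.eventually_atTop.mp (ht.eventually_gt_atTop (v / (ε / 2)))
    refine ⟨max k₁ k₂, fun k hk => ?_⟩
    have h1 := hk₂ k (le_trans (le_max_right _ _) hk)
    rw [div_lt_iff₀ (by positivity)] at h1
    have h2 := hlow k (le_trans (le_max_left _ _) hk)
    linarith
  obtain ⟨B, hB⟩ := hbd
  set F : Finset ℕ := (Icc 1 B).filter (fun k => f k ≤ v) with hF
  have hB1 : 1 ≤ B := by
    by_contra h
    push Not at h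
    have := hB 1 (by omega)
    linarith
  have hne : F.Nonempty := ⟨1, by rw [hF]; simp [hB1, hv1]⟩
  obtain ⟨R, hRF, hRmax⟩ := Finset.exists_max_image F (fun k => k) hne
  rw [hF, mem_filter, mem_Icc] at hRF
  obtain ⟨⟨hR1, hRB⟩, hRv⟩ := hRF
  have hgt : ∀ k : ℕ, R < k → v < f k := by
    intro k hk
    by_contra hle
    push Not at hle
    have hkB : k ≤ B := by
      by_contra hh
      push Not at hh
      have := hB k hh.le
      linarith
    have := hRmax k (by rw [hF, mem_filter, mem_Icc]; exact ⟨⟨by omega, hkB⟩, hle⟩)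
    omega
  have hR0 : (0 : ℝ) < R := by exact_mod_cast hR1
  refine ⟨R, ⟨hR1, fun k hk => ?_⟩, ?_, ?_⟩
  · rcases Nat.eq_or_lt_of_le hk with h | h
    · subst h
      linarith
    · have h1 := hgt k h
      rw [hfv] at h1
      rw [hfv] at hRv
      linarith
  · have h1 := hgt (R + 1) (Nat.lt_succ_self R)
    rw [hfv] at h1
    have h2 := g1 (R + 1) (by omega)
    have h3 : (0 : ℝ) ≤ Real.log ((R + 1 : ℕ) : ℝ) := Real.log_natCast_nonneg _
    have h4 : v ≤ C₀ * Real.log ((R + 1 : ℕ) : ℝ) := by nlinarith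
    have h5 : Real.log ((R + 1 : ℕ) : ℝ) ≤ Real.log (2 * R) := by
      apply Real.log_le_log
      · exact_mod_cast Nat.succ_pos R
      · have : (1 : ℝ) ≤ R := by exact_mod_cast hR1
        push_cast
        linarith
    rw [Real.log_mul (by norm_num) hR0.ne'] at h5
    have h6 : Real.log 2 < 1 := lt_trans Real.log_two_lt_d9 (by norm_num)
    have h7 : v / C₀ ≤ Real.log ((R + 1 : ℕ) : ℝ) := by
      rw [div_le_iff₀ (by linarith)]
      linarith
    linarith
  · have key : ε / 2 * Real.log R ≤ v := by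
      rcases le_total k₁ R with h | h
      · exact le_trans (hlow R h) hRv
      · refine le_trans ?_ hv2
        have : Real.log (R : ℝ) ≤ Real.log ((max k₁ 1 : ℕ) : ℝ) := by
          apply Real.log_le_log hR0
          exact_mod_cast le_trans h (le_max_left _ _)
        exact mul_le_mul_of_nonneg_left this (by positivity)
    rw [le_div_iff₀ hε]
    linarith

end Pool.Agent.Work.MP_b29d7f_low
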