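import Pool.Agent.Work.MP_b29d7f_low.Interface3

/-! # Block SCL (helper4): the scales of section 3 -/

namespace Pool.Agent.Work.MP_b29d7f_low

open Finset
open Pool.Agent.Work.MP_b29d7f_nt (IsPOrdering HasSimultaneousOrdering PS vd ld tv)
open Pool.Agent.Work.MP_b29d7f_half (Ord A wv lD)
open Pool.Agent.Work.MP_b29d7f_sep (nv EW EL)

/-- The elementary inequalities for large `L`. -/
theorem SCL_large (η β₁ l₀ : ℝ) (J : ℕ) (hη : 0 < η) (hβ : 0 < β₁) :
    ∀ᶠ L : ℝ in Filter.atTop,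
      2 * Real.exp (L / 8) ≤ η * Real.exp L ∧ 12 * (L + 1) * Real.exp (3 * L / 8) ≤ η * Real.exp L ∧
      1 + ((J : ℝ) + 8) * Real.log (L + 1) ≤ β₁ / 2 * L ∧ l₀ ≤ L ∧ 3 ≤ L := by
  have h1 := (Real.isLittleO_log_id_atTop).bound (c := β₁ / (8 * ((J : ℝ) + 8))) (by positivity)
  have h2 := (Filter.tendsto_atTop_add_const_right Filter.atTop (1 : ℝ)
    Filter.tendsto_id).eventually h1
  filter_upwards [h2, Filter.eventually_ge_atTop l₀, Filter.eventually_ge_atTop (3 : ℝ),
    Filter.eventually_ge_atTop ((1 + β₁ / 8) / (3 * β₁ / 8)),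
    Filter.eventually_ge_atTop (16 / (7 * η)),
    Filter.eventually_ge_atTop (12 * 256 / (25 * η))] with L a1 a2 a3 a4 a5 a6
  simp only [id] at a1
  have hL0 : 0 < L := by linarith
  refine ⟨?_, ?_, ?_, a2, a3⟩
  · have e1 : Real.exp L = Real.exp (L / 8) * Real.exp (7 * L / 8) := by
      rw [← Real.exp_add]; congr 1; ring
    have e2 := Real.add_one_le_exp (7 * L / 8)
    have e3 : 16 ≤ L * (7 * η) := (div_le_iff₀ (by positivity)).1 a5
    have e4 : 2 ≤ η * Real.exp (7 * L / 8) := by nlinarith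
    rw [e1]
    have := Real.exp_pos (L / 8)
    nlinarith
  · have e1 : Real.exp L = Real.exp (3 * L / 8) * (Real.exp (5 * L / 16) * Real.exp (5 * L / 16)) := by
      rw [← Real.exp_add, ← Real.exp_add]; congr 1; ring
    have e2 := Real.add_one_le_exp (5 * L / 16)
    have e3 : 12 * 256 ≤ L * (25 * η) := (div_le_iff₀ (by positivity)).1 a6
    have e4 : (5 / 16 * (L + 1)) * (5 / 16 * (L + 1)) ≤
        Real.exp (5 * L / 16) * Real.exp (5 * L / 16) := by
      apply mul_le_mul <;> first | positivity | linarith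
    have e5 : 12 * (L + 1) ≤ η * (Real.exp (5 * L / 16) * Real.exp (5 * L / 16)) := by
      have e6 : 12 * (L + 1) ≤ η * ((5 / 16 * (L + 1)) * (5 / 16 * (L + 1))) := by
        have : 12 ≤ η * (25 / 256 * (L + 1)) := by nlinarith
        nlinarith
      have e7 := mul_le_mul_of_nonneg_left e4 hη.le
      linarith
    rw [e1]
    have := Real.exp_pos (3 * L / 8)
    nlinarith
  · rw [Real.norm_eq_abs, Real.norm_eq_abs, abs_of_nonneg (Real.log_nonneg (by linarith)),
      abs_of_pos (by linarith)] at a1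
    have hJ8 : (0 : ℝ) < (J : ℝ) + 8 := by positivity
    have e1 : ((J : ℝ) + 8) * Real.log (L + 1) ≤ β₁ / 8 * (L + 1) := by
      calc ((J : ℝ) + 8) * Real.log (L + 1) ≤
          ((J : ℝ) + 8) * (β₁ / (8 * ((J : ℝ) + 8)) * (L + 1)) := by gcongr
        _ = β₁ / 8 * (L + 1) := by field_simp
    have e2 : 1 + β₁ / 8 ≤ L * (3 * β₁ / 8) := (div_le_iff₀ (by positivity)).1 a4
    linarith

theorem stmt_SCL (hDYA : Stmt_DYA) (hGGB : Stmt_GGB) (hGLOW : Stmt_GLOW) : Stmt_SCL := by
  classical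
  intro a k₀ C₀ κ b β₁ β₂ e₃ e₅ e₇ e₈ η K J hd hb hβ₁ hβ₂ he₃ he₅ he₅' hK hη
  have hC₀ := hd.one_le
  have hβ₂4 : β₂ ≤ 1 / 4 := by
    by_contra hc
    push Not at hc
    nlinarith
  obtain ⟨C₁, N₁, hC₁, hG⟩ := hGLOW a k₀ C₀ κ b β₁ β₂ e₃ e₇ e₈ K J hd hb hβ₁ hβ₂4 hK
  obtain ⟨g1, g2, g3, g4, g5, g6, g7⟩ := hGGB a k₀ C₀ hd
  have hKR : (1 : ℝ) ≤ K := by exact_mod_cast hK
  have hev2 := (Real.tendsto_log_atTop.comp tendsto_natCast_atTop_atTop).eventually
    (SCL_large η β₁ (max ((K : ℝ) * (24 / η)) K) J hη hβ₁)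
  obtain ⟨N₂, hN₂⟩ := Filter.eventually_atTop.1 hev2
  refine ⟨C₁ + 12 * b + C₀ + 2, max N₁ (max N₂ 2), by positivity, ?_⟩
  intro n N R m hN hF hcnt
  have hNN₁ : N₁ ≤ N := le_trans (le_max_left _ _) hN
  have hN2 : 2 ≤ N := le_trans (le_trans (le_max_right _ _) (le_max_right _ _)) hN
  obtain ⟨c1, c2, c3, c4, c5⟩ :=
    hN₂ N (le_trans (le_trans (le_max_left _ _) (le_max_right _ _)) hN)
  simp only [Function.comp] at c1 c2 c3 c4 c5
  obtain ⟨L, hL⟩ : ∃ L : ℝ, L = Real.log N := ⟨_, rfl⟩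
  obtain ⟨l, hl⟩ : ∃ l : ℕ, l = el N := ⟨_, rfl⟩
  rw [← hL] at c1 c2 c3 c4 c5
  have hN0 : (0 : ℝ) < N := by
    have : 0 < N := by omega
    exact_mod_cast this
  have hexpL : Real.exp L = N := by rw [hL, Real.exp_log hN0]
  have hL0 : 0 < L := by linarith
  have hlL : L ≤ l := by rw [hl, hL]; exact Nat.le_ceil _
  have hlL' : (l : ℝ) ≤ L + 1 := by
    rw [hl, hL]
    exact (Nat.ceil_lt_add_one (by rw [← hL]; exact hL0.le)).le
  have hl3 : (3 : ℝ) ≤ l := by linarith
  have hl3' : 3 ≤ l := by exact_mod_cast hl3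
  have hl0 : (0 : ℝ) < l := by linarith
  have hlogl : 1 ≤ Real.log l := by
    rw [Real.le_log_iff_exp_le hl0]
    have := Real.exp_one_lt_d9
    linarith
  have hKl : (K : ℝ) ≤ l := le_trans (le_trans (le_max_right _ _) c4) hlL
  have hKl' : K ≤ l := by exact_mod_cast hKl
  have hKη : (K : ℝ) * 24 ≤ η * l := by
    have e1 : (K : ℝ) * (24 / η) ≤ l := le_trans (le_trans (le_max_left _ _) c4) hlL
    have e2 : (K : ℝ) * 24 = η * ((K : ℝ) * (24 / η)) := by field_simp
    rw [e2]
    exact mul_le_mul_of_nonneg_left e1 hη.le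
  have h24 : 24 ≤ η * l := by linarith
  have hm30 : l ^ 30 ≤ m := by rw [hl]; exact hF.m_big
  have hm1 : 1 ≤ m := le_trans (Nat.one_le_pow _ _ (by omega)) hm30
  have hm1R : (1 : ℝ) ≤ m := by exact_mod_cast hm1
  have hmhi : m * l ^ 20 ≤ R := by rw [hl]; exact hF.m_hi
  have hmlo : R ≤ m * l ^ J := by rw [hl]; exact hF.m_lo
  have hR1 : 1 ≤ R := hF.rrec.1
  have hR1R : (1 : ℝ) ≤ R := by exact_mod_cast hR1
  have hlogR0 : 0 ≤ Real.log R := Real.log_nonneg hR1R
  have hC₀R : C₀ * Real.log R ≤ L / 8 := by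
    have e1 := hF.R_hi
    rw [← hL] at e1
    have e2 : C₀ * Real.log R ≤ C₀ * (β₂ * L) := mul_le_mul_of_nonneg_left e1 (by linarith)
    have e3 : C₀ * β₂ * L ≤ 1 / 8 * L := mul_le_mul_of_nonneg_right hβ₂ hL0.le
    linarith
  have hlogR : Real.log R ≤ L / 8 :=
    le_trans (le_mul_of_one_le_left hlogR0 hC₀) hC₀R
  obtain ⟨P', hP'⟩ : ∃ P' : ℕ, P' = P1 K m N := ⟨_, rfl⟩
  have hP'e : P' = K * m * l ^ 3 := by rw [hP', hl]; rfl
  have hP'R : P' ≤ R := by
    rw [hP'e]
    calc K * m * l ^ 3 ≤ l ^ 17 * m * l ^ 3 := by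
          have : K ≤ l ^ 17 := le_trans hKl' (Nat.le_self_pow (by norm_num) l)
          gcongr
      _ = m * l ^ 20 := by ring
      _ ≤ R := hmhi
  have hP'2 : 2 ≤ P' := by
    rw [hP'e]
    calc 2 ≤ 1 * 1 * 3 ^ 3 := by norm_num
      _ ≤ K * m * l ^ 3 := by gcongr
  have hP'0 : (0 : ℝ) < P' := by
    have : 0 < P' := by omega
    exact_mod_cast this
  have hgP : gg a P' ≤ L / 8 := by
    calc gg a P' ≤ C₀ * Real.log P' := g1 P' hP'2
      _ ≤ C₀ * Real.log R := by
          apply mul_le_mul_of_nonneg_left _ (by linarith)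
          apply Real.log_le_log hP'0
          exact_mod_cast hP'R
      _ ≤ L / 8 := hC₀R
  obtain ⟨y, hy⟩ : ∃ y : ℝ, y = gg a P' + e₅ * L := ⟨_, rfl⟩
  have hy0 : 0 ≤ y := by
    have := g2 P'
    rw [hy]; positivity
  have hy3 : y ≤ 3 * L / 16 := by
    rw [hy]
    have e1 : e₅ * L ≤ 1 / 16 * L := mul_le_mul_of_nonneg_right he₅' hL0.le
    linarith
  obtain ⟨H, hH⟩ : ∃ H : ℕ, H = ⌊Real.exp y⌋₊ := ⟨_, rfl⟩
  have hH1 : 1 ≤ H := by
    rw [hH]
    apply Nat.le_floor
    rw [Nat.cast_one]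
    exact Real.one_le_exp hy0
  have hHy : (H : ℝ) ≤ Real.exp y := by rw [hH]; exact Nat.floor_le (Real.exp_pos _).le
  obtain ⟨c, hc⟩ : ∃ c : ℕ, c = cnt a k₀ N m y := ⟨_, rfl⟩
  have hcη : η * N ≤ c := by
    rw [hc, hy, hP', hL]
    exact hcnt
  have hcsub : c ≤ ((Ico k₀ N).filter fun u => a (u + m) - a u ≤ (H : ℤ)).card := by
    rw [hc]
    unfold cnt
    apply Finset.card_le_card
    intro u hu
    rw [Finset.mem_filter, Finset.mem_Ico] at hu
    rw [Finset.mem_filter, Finset.mem_Ico]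
    refine ⟨hu.1, ?_⟩
    have h1 : a u < a (u + m) := hd.top u (u + m) (by omega) (by omega)
    have h2 := hu.2
    unfold Gm at h2
    obtain ⟨dd, hdd⟩ : ∃ dd : ℕ, (dd : ℤ) = a (u + m) - a u :=
      ⟨(a (u + m) - a u).toNat, Int.toNat_of_nonneg (by omega)⟩
    rw [← hdd] at h2 ⊢
    rw [Int.cast_natCast] at h2
    have hdd0 : (0 : ℝ) < dd := by
      have : 0 < dd := by omega
      exact_mod_cast this
    have h3 : (dd : ℝ) ≤ Real.exp y := (Real.log_le_iff_le_exp hdd0).1 h2
    have h4 : dd ≤ H := by rw [hH]; exact Nat.le_floor h3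
    exact_mod_cast h4
  have hmexp : (m : ℝ) ≤ Real.exp (L / 8) := by
    have e1 : m ≤ R := le_trans (Nat.le_mul_of_pos_right m (by positivity)) hmhi
    have e2 : (m : ℝ) ≤ R := by exact_mod_cast e1
    have e3 : (R : ℝ) ≤ Real.exp (L / 8) := (Real.log_le_iff_le_exp (by linarith)).1 hlogR
    linarith
  have hmhalf : (m : ℝ) ≤ η * N / 2 := by
    rw [hexpL] at c1
    linarith
  have hmc : m < c := by
    have : (m : ℝ) < c := by
      have : 0 < η * N := by positivity
      linarith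
    exact_mod_cast this
  obtain ⟨k, D, hk1, hkN, hDsub, hDne, hDk, hcount⟩ :=
    hDYA a k₀ C₀ hd N m H c (by omega) hm1 hmc hcsub
  have hk0 : (0 : ℝ) < k := by
    have : 0 < k := by omega
    exact_mod_cast this
  have hkNR : (k : ℝ) ≤ N := by exact_mod_cast hkN
  have hD1 : 1 ≤ D.card := Finset.card_pos.2 hDne
  have hD1R : (1 : ℝ) ≤ D.card := by exact_mod_cast hD1
  have hlog2 : ((Nat.log 2 N : ℕ) : ℝ) + 1 ≤ 3 * l := by
    have e1 : 2 ^ Nat.log 2 N ≤ N := Nat.pow_log_le_self 2 (by omega)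
    have e2 : ((2 : ℝ)) ^ Nat.log 2 N ≤ N := by exact_mod_cast e1
    have e3 : Real.log ((2 : ℝ) ^ Nat.log 2 N) ≤ Real.log N := Real.log_le_log (by positivity) e2
    rw [Real.log_pow, ← hL] at e3
    have e4 := Real.log_two_gt_d9
    have e5 : ((Nat.log 2 N : ℕ) : ℝ) * (1 / 2) ≤ L := by
      refine le_trans ?_ e3
      apply mul_le_mul_of_nonneg_left (by linarith) (Nat.cast_nonneg _)
    linarith
  have hDkk : η * N * m ≤ 12 * l * (D.card * k) := by
    have e1 : ((c : ℝ) - m) * m ≤ D.card * (2 * k) * (((Nat.log 2 N : ℕ) : ℝ) + 1) := by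
      have : (((c - m) * m : ℕ) : ℝ) ≤ ((D.card * (2 * k) * (Nat.log 2 N + 1) : ℕ) : ℝ) := by
        exact_mod_cast hcount
      push_cast [Nat.cast_sub hmc.le] at this
      exact this
    have e2 : (η * N / 2) * m ≤ ((c : ℝ) - m) * m := by
      apply mul_le_mul_of_nonneg_right _ (by linarith)
      linarith
    have e3 : (D.card : ℝ) * (2 * k) * (((Nat.log 2 N : ℕ) : ℝ) + 1) ≤
        D.card * (2 * k) * (3 * l) := by gcongr
    linarith
  have hDH : D.card ≤ H := by
    have e1 := Finset.card_le_card hDsub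
    rw [Int.card_Icc] at e1
    have e2 : ((H : ℤ) + 1 - 1).toNat = H := by simp
    rwa [e2] at e1
  have hDexp : (D.card : ℝ) ≤ Real.exp (3 * L / 16) := by
    have e1 : (D.card : ℝ) ≤ H := by exact_mod_cast hDH
    exact le_trans e1 (le_trans hHy (Real.exp_le_exp.2 hy3))
  have hDk' : (D.card : ℝ) ≤ k := by
    have e1 : (D.card : ℝ) * D.card ≤ Real.exp (3 * L / 8) := by
      have : Real.exp (3 * L / 8) = Real.exp (3 * L / 16) * Real.exp (3 * L / 16) := by
        rw [← Real.exp_add]; congr 1; ring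
      rw [this]
      exact mul_le_mul hDexp hDexp (by linarith) (Real.exp_pos _).le
    have e2 : 12 * l * ((D.card : ℝ) * D.card) ≤ 12 * l * (D.card * k) := by
      calc 12 * l * ((D.card : ℝ) * D.card) ≤ 12 * (L + 1) * Real.exp (3 * L / 8) := by gcongr
        _ ≤ η * Real.exp L := c2
        _ = η * N * 1 := by rw [hexpL, mul_one]
        _ ≤ η * N * m := by gcongr
        _ ≤ 12 * l * (D.card * k) := hDkk
    have e3 : (0 : ℝ) < 12 * l * D.card := by positivity
    have e4 : 12 * l * D.card * (D.card : ℝ) ≤ 12 * l * D.card * k := by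
      linarith
    exact le_of_mul_le_mul_left e4 e3
  have hDlow : η * m ≤ 12 * l * D.card := by
    have e1 : N * (η * m) ≤ N * (12 * l * D.card) := by
      calc N * (η * m) = η * N * m := by ring
        _ ≤ 12 * l * (D.card * k) := hDkk
        _ ≤ 12 * l * (D.card * N) := by gcongr
        _ = N * (12 * l * D.card) := by ring
    exact le_of_mul_le_mul_left e1 hN0
  obtain ⟨P₂, hP₂⟩ : ∃ P₂ : ℕ, P₂ = D.card / l ^ 6 := ⟨_, rfl⟩
  have hP2a : P₂ * l ^ 6 ≤ D.card := by rw [hP₂]; exact Nat.div_mul_le_self _ _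
  have hP2b : D.card ≤ P₂ * l ^ 6 + l ^ 6 := by
    rw [hP₂]
    have e1 := Nat.div_add_mod D.card (l ^ 6)
    have e2 := Nat.mod_lt D.card (show 0 < l ^ 6 by positivity)
    calc D.card = l ^ 6 * (D.card / l ^ 6) + D.card % l ^ 6 := e1.symm
      _ ≤ D.card / l ^ 6 * l ^ 6 + l ^ 6 := by
          rw [mul_comm]
          exact Nat.add_le_add_left e2.le _
  have hl1 : (1 : ℝ) ≤ l := by linarith
  have hm30R : (l : ℝ) ^ 30 ≤ m := by exact_mod_cast hm30
  have hl6 : 2 * (l : ℝ) ^ 6 ≤ D.card := by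
    have e1 : η * (l : ℝ) ^ 30 ≤ 12 * l * D.card := by
      calc η * (l : ℝ) ^ 30 ≤ η * m := by gcongr
        _ ≤ 12 * l * D.card := hDlow
    have e2 : 12 * l * (2 * (l : ℝ) ^ 6) ≤ η * (l : ℝ) ^ 30 := by
      calc 12 * l * (2 * (l : ℝ) ^ 6) = 24 * (l : ℝ) ^ 7 := by ring
        _ ≤ (η * l) * (l : ℝ) ^ 7 := by gcongr
        _ = η * (l : ℝ) ^ 8 := by ring
        _ ≤ η * (l : ℝ) ^ 30 := by
            have : (l : ℝ) ^ 8 ≤ (l : ℝ) ^ 30 := pow_le_pow_right₀ hl1 (by norm_num)
            gcongr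
    exact le_of_mul_le_mul_left (le_trans e2 e1) (by positivity)
  have hP2c : (D.card : ℝ) ≤ 2 * l ^ 6 * P₂ := by
    have e1 : (D.card : ℝ) ≤ P₂ * l ^ 6 + l ^ 6 := by exact_mod_cast hP2b
    linarith
  have hP2e : (m : ℝ) ≤ l ^ 8 * P₂ := by
    have e1 : η * m ≤ η * (l ^ 8 * P₂) := by
      calc η * m ≤ 12 * l * D.card := hDlow
        _ ≤ 12 * l * (2 * l ^ 6 * P₂) := by gcongr
        _ = 24 * (l ^ 7 * P₂) := by ring
        _ ≤ (η * l) * (l ^ 7 * P₂) := by gcongr
        _ = η * (l ^ 8 * P₂) := by ring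
    exact le_of_mul_le_mul_left e1 hη
  have hP2e' : m ≤ l ^ 8 * P₂ := by exact_mod_cast hP2e
  have hP21 : 1 ≤ P₂ := by
    by_contra hcon
    have : P₂ = 0 := by omega
    rw [this, mul_zero] at hP2e'
    omega
  have hP20 : (0 : ℝ) < P₂ := by
    have : 0 < P₂ := by omega
    exact_mod_cast this
  have hm0 : (0 : ℝ) < m := by linarith
  have hK0 : (0 : ℝ) < K := by linarith
  have hD0 : (0 : ℝ) < D.card := by linarith
  have hNmK : (N : ℝ) * m * K ≤ l ^ 8 * (P₂ * k) := by
    have e1 : η * ((N : ℝ) * m * K) ≤ η * (l ^ 8 * (P₂ * k)) := by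
      calc η * ((N : ℝ) * m * K) = (η * N * m) * K := by ring
        _ ≤ (12 * l * (D.card * k)) * K := by gcongr
        _ ≤ (12 * l * ((2 * l ^ 6 * P₂) * k)) * K := by gcongr
        _ = (K * 24) * (l ^ 7 * (P₂ * k)) := by ring
        _ ≤ (η * l) * (l ^ 7 * (P₂ * k)) := by gcongr
        _ = η * (l ^ 8 * (P₂ * k)) := by ring
    exact le_of_mul_le_mul_left e1 hη
  have hlog1 : L + Real.log m + Real.log K ≤ 8 * Real.log l + (Real.log P₂ + Real.log k) := by
    have e1 := Real.log_le_log (by positivity) hNmK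
    rw [Real.log_mul (by positivity) (by positivity), Real.log_mul (by positivity) (by positivity),
      Real.log_mul (by positivity) (by positivity), Real.log_mul (by positivity) (by positivity),
      Real.log_pow, ← hL] at e1
    push_cast at e1
    exact e1
  have hlogP' : Real.log P' = Real.log K + Real.log m + 3 * Real.log l := by
    rw [hP'e]
    push_cast
    rw [Real.log_mul (by positivity) (by positivity), Real.log_mul (by positivity) (by positivity),
      Real.log_pow]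
    push_cast
    ring
  have hlogll : Real.log l ≤ Real.log (L + 1) := Real.log_le_log hl0 hlL'
  refine ⟨k, P₂, H, D, hP21, hk1, hkN, hH1, hDsub, hDne, fun δ hδ => (hDk δ hδ).1, ?_, ?_, ?_,
    ?_, ?_, ?_, ?_⟩
  · rw [← hl]; exact hP2a
  · rw [← hl]
    have : D.card ≤ k := by exact_mod_cast hDk'
    exact le_trans hP2a this
  · rw [← hl]
    have : D.card ≤ k := by exact_mod_cast hDk'
    exact le_trans hP2a (le_trans this hkN)
  · rw [← hP', ← hL, ← hy]
    exact (Real.log_le_iff_le_exp (by exact_mod_cast hH1)).2 hHy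
  · rw [← hL]
    have e1 : Real.log m ≤ 8 * Real.log l + Real.log P₂ := by
      have := Real.log_le_log hm0 hP2e
      rw [Real.log_mul (by positivity) (by positivity), Real.log_pow] at this
      push_cast at this
      exact this
    have e2 : Real.log R ≤ Real.log m + J * Real.log l := by
      have h1 : (R : ℝ) ≤ m * l ^ J := by exact_mod_cast hmlo
      have := Real.log_le_log (by linarith) h1
      rw [Real.log_mul (by positivity) (by positivity), Real.log_pow] at this
      exact this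
    have e3 := hF.R_lo
    rw [← hL] at e3
    have e4 : ((J : ℝ) + 8) * Real.log l ≤ ((J : ℝ) + 8) * Real.log (L + 1) := by gcongr
    linarith
  · rw [← hP', ← hL, ← hl]
    have hblog : 0 ≤ b * Real.log l := mul_nonneg hb (by linarith)
    by_cases hcase : l * P' ≤ P₂
    · have e1 := hG n N R m hNN₁ hF P₂ (by rw [← hl, ← hP']; exact hcase)
      rw [← hP', ← hl] at e1
      have e2 : L - Real.log k - 11 * Real.log l ≤ Real.log P₂ - Real.log P' := by
        rw [hlogP']; linarith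
      have e3 := mul_le_mul_of_nonneg_left e2 hb
      have e4 : 0 ≤ C₀ * Real.log l := mul_nonneg (by linarith) (by linarith)
      have e5 : 0 ≤ e₃ * L := by positivity
      linarith
    · push Not at hcase
      have e1 : Real.log P₂ ≤ Real.log l + Real.log P' := by
        have h1 : (P₂ : ℝ) ≤ l * P' := by exact_mod_cast hcase.le
        have := Real.log_le_log hP20 h1
        rwa [Real.log_mul (by positivity) (by positivity)] at this
      have e2 : L - Real.log k ≤ 12 * Real.log l := by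
        rw [hlogP'] at e1
        linarith
      have hr1 : 1 ≤ m / l ^ 9 := by
        rw [Nat.one_le_div_iff (by positivity)]
        exact le_trans (Nat.pow_le_pow_right (by omega) (by norm_num)) hm30
      have hrN : m / l ^ 9 ≤ N := by
        refine le_trans (Nat.div_le_self _ _) ?_
        have h1 : (m : ℝ) ≤ N := by
          rw [← hexpL]
          exact le_trans hmexp (Real.exp_le_exp.2 (by linarith))
        exact_mod_cast h1
      have hrP : l * (m / l ^ 9) ≤ P₂ := by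
        have h1 : m / l ^ 9 * l ^ 9 ≤ m := Nat.div_mul_le_self _ _
        have h2 : l ^ 8 * (l * (m / l ^ 9)) ≤ l ^ 8 * P₂ := by
          calc l ^ 8 * (l * (m / l ^ 9)) = m / l ^ 9 * l ^ 9 := by ring
            _ ≤ m := h1
            _ ≤ l ^ 8 * P₂ := hP2e'
        exact Nat.le_of_mul_le_mul_left h2 (by positivity)
      have e3 := g5 N (m / l ^ 9) P₂ hN2 hr1 hrN (by rw [← hl]; exact hrP)
      have e4 := hF.sel1
      rw [← hP', ← hl, ← hL] at e4
      have e5 := mul_le_mul_of_nonneg_left e2 hb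
      have e6 : C₀ ≤ C₀ * Real.log l := le_mul_of_one_le_right (by linarith) hlogl
      have e7 : 0 ≤ C₁ * Real.log l := mul_nonneg hC₁ (by linarith)
      linarith
  · rw [← hP', ← hL, ← hl, ← hy]
    have e1 : (N : ℝ) ≤ l ^ 2 * (D.card * k) := by
      have h1 : η * N ≤ η * (l ^ 2 * (D.card * k)) := by
        calc η * N = η * N * 1 := by ring
          _ ≤ η * N * m := by gcongr
          _ ≤ 12 * l * (D.card * k) := hDkk
          _ ≤ (η * l) * l * (D.card * k) := by
              have : (12 : ℝ) ≤ η * l := by linarith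
              gcongr
          _ = η * (l ^ 2 * (D.card * k)) := by ring
      exact le_of_mul_le_mul_left h1 hη
    have e2 := Real.log_le_log hN0 e1
    rw [Real.log_mul (by positivity) (by positivity), Real.log_mul (by positivity) (by positivity),
      Real.log_pow, ← hL] at e2
    push_cast at e2
    have e3 : Real.log D.card ≤ y := by
      apply (Real.log_le_iff_le_exp hD0).2
      have h1 : (D.card : ℝ) ≤ H := by exact_mod_cast hDH
      linarith
    have e4 : 0 ≤ (C₁ + 12 * b + C₀) * Real.log l := by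
      apply mul_nonneg (by positivity) (by linarith)
    linarith

end Pool.Agent.Work.MP_b29d7f_low
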