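import Pool.Agent.Work.MP_b29d7f_low.Interface1

/-!
# Block SELA: the number of atypical indices at one scale
-/

namespace Pool.Agent.Work.MP_b29d7f_low

open Finset
open Pool.Agent.Work.MP_b29d7f_nt (ld)
open Pool.Agent.Work.MP_b29d7f_half (Ord lD)

theorem SELA_one {a : ℕ → ℤ} {k₀ : ℕ} {C₀ : ℝ} (hd : Dat a k₀ C₀) {i k : ℕ} (hk : k₀ ≤ k)
    (hik : i < k) : (1 : ℝ) ≤ ((a k - a i : ℤ) : ℝ) := by
  have := hd.top i k hk hik
  exact_mod_cast (by omega : (1 : ℤ) ≤ a k - a i)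

theorem SELA_le {a : ℕ → ℤ} {k₀ : ℕ} {C₀ : ℝ} (hd : Dat a k₀ C₀) {i k : ℕ} (hk : k₀ ≤ k)
    (hik : i ≤ k) : a i ≤ a k := by
  rcases Nat.lt_or_ge i k with h | h
  · exact (hd.top i k hk h).le
  · rw [Nat.le_antisymm hik h]

theorem stmt_SELA (h1 : Stmt_GGB) (_h2 : Stmt_PAE) : Stmt_SELA := by
  intro a k₀ C₀ hd N m m' Q e hN hm hQm hmQ hmN he
  classical
  obtain ⟨-, -, -, -, -, hld, -⟩ := h1 a k₀ C₀ hd
  have hlogN : 0 ≤ Real.log N := Real.log_natCast_nonneg N
  have hC : 0 ≤ C₀ := le_trans zero_le_one hd.one_le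
  have hB0 : 0 ≤ 2 * C₀ * Real.log N := by positivity
  have hG0 : ∀ t u : ℕ, k₀ ≤ u → 1 ≤ t → 0 ≤ Gm a t u := by
    intro t u hu ht
    unfold Gm
    exact Real.log_nonneg (SELA_one hd (by omega) (by omega))
  have hGB : ∀ t u : ℕ, k₀ ≤ u → 1 ≤ t → u + t ≤ 2 * N → Gm a t u ≤ 2 * C₀ * Real.log N := by
    intro t u hu ht hle
    have h3 := hld (u + t) u N hN hle (by omega)
    unfold ld at h3
    rw [Real.log_abs] at h3
    exact h3
  have hGm : ∀ s t u : ℕ, k₀ ≤ u → 1 ≤ s → s ≤ t → Gm a s u ≤ Gm a t u := by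
    intro s t u hu hs hst
    unfold Gm
    apply Real.log_le_log
    · exact lt_of_lt_of_le one_pos (SELA_one hd (by omega) (by omega))
    · have := SELA_le hd (i := u + s) (k := u + t) (by omega) (by omega)
      exact_mod_cast (by omega : a (u + s) - a u ≤ a (u + t) - a u)
  refine ⟨?_, ?_, ?_⟩
  · -- the atypical indices
    have hpos : ∀ u ∈ Ico (k₀ + 2 * Q) N, 0 ≤ Gm a (4 * Q) (u - 2 * Q) - Gm a m u := by
      intro u hu
      have hu' := mem_Ico.1 hu
      have h4 : Gm a m u ≤ Gm a (4 * Q) (u - 2 * Q) := by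
        unfold Gm
        apply Real.log_le_log
        · exact lt_of_lt_of_le one_pos (SELA_one hd (by omega) (by omega))
        · rw [show u - 2 * Q + 4 * Q = u + 2 * Q from by omega]
          have h5 := SELA_le hd (i := u + m) (k := u + 2 * Q) (by omega) (by omega)
          have h6 := SELA_le hd (i := u - 2 * Q) (k := u) (by omega) (by omega)
          exact_mod_cast (by omega : a (u + m) - a u ≤ a (u + 2 * Q) - a (u - 2 * Q))
      linarith
    have hA : (atyp a k₀ N m Q e : ℝ) * e ≤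
        ∑ u ∈ Ico (k₀ + 2 * Q) N, (Gm a (4 * Q) (u - 2 * Q) - Gm a m u) := by
      unfold atyp
      rw [← nsmul_eq_mul, ← Finset.sum_const]
      refine le_trans (Finset.sum_le_sum (fun u hu => ?_))
        (Finset.sum_le_sum_of_subset_of_nonneg (Finset.filter_subset _ _)
          (fun u hu _ => hpos u hu))
      obtain ⟨hu1, hu2⟩ := mem_filter.1 hu
      have hu' := mem_Ico.1 hu1
      have h5 : Gm a (4 * Q) (u - 2 * Q) =
          Real.log ((a (u + 2 * Q) - a (u - 2 * Q) : ℤ) : ℝ) := by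
        unfold Gm
        rw [show u - 2 * Q + 4 * Q = u + 2 * Q from by omega]
      rw [h5]
      linarith
    have hBb : ∑ u ∈ Ico (k₀ + 2 * Q) N, Gm a (4 * Q) (u - 2 * Q) ≤
        ∑ u ∈ Ico k₀ N, Gm a m' u := by
      have e1 : ∑ u ∈ Ico (k₀ + 2 * Q) N, Gm a (4 * Q) (u - 2 * Q) =
          ∑ u ∈ Ico k₀ (N - 2 * Q), Gm a (4 * Q) u := by
        have h6 := Finset.sum_Ico_add' (fun u => Gm a (4 * Q) (u - 2 * Q)) k₀ (N - 2 * Q) (2 * Q)
        rw [Nat.sub_add_cancel (by omega)] at h6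
        rw [← h6]
        apply Finset.sum_congr rfl
        intro u _
        rw [Nat.add_sub_cancel]
      rw [e1]
      refine le_trans (Finset.sum_le_sum (fun u hu => ?_))
        (Finset.sum_le_sum_of_subset_of_nonneg (?_ : Ico k₀ (N - 2 * Q) ⊆ Ico k₀ N)
          (fun u hu _ => ?_))
      · exact hGm (4 * Q) m' u (mem_Ico.1 hu).1 (by omega) hQm
      · exact Finset.Ico_subset_Ico le_rfl (by omega)
      · exact hG0 m' u (mem_Ico.1 hu).1 (by omega)
    have hCc : ∑ u ∈ Ico k₀ N, Gm a m u ≤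
        ∑ u ∈ Ico (k₀ + 2 * Q) N, Gm a m u + 2 * Q * (2 * C₀ * Real.log N) := by
      have hsub : Ico (k₀ + 2 * Q) N ⊆ Ico k₀ N := Finset.Ico_subset_Ico (by omega) le_rfl
      rw [← Finset.sum_sdiff hsub, add_comm]
      have h7 : ∑ u ∈ Ico k₀ N \ Ico (k₀ + 2 * Q) N, Gm a m u ≤
          2 * Q * (2 * C₀ * Real.log N) := by
        have h8 : Ico k₀ N \ Ico (k₀ + 2 * Q) N ⊆ Ico k₀ (k₀ + 2 * Q) := by
          intro u hu
          rw [mem_sdiff, mem_Ico, mem_Ico] at hu
          rw [mem_Ico]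
          omega
        have h9 : ((Ico k₀ N \ Ico (k₀ + 2 * Q) N).card : ℝ) ≤ 2 * Q := by
          have := Finset.card_le_card h8
          rw [Nat.card_Ico] at this
          exact_mod_cast (by omega : (Ico k₀ N \ Ico (k₀ + 2 * Q) N).card ≤ 2 * Q)
        calc ∑ u ∈ Ico k₀ N \ Ico (k₀ + 2 * Q) N, Gm a m u
            ≤ ∑ u ∈ Ico k₀ N \ Ico (k₀ + 2 * Q) N, (2 * C₀ * Real.log N) := by
              apply Finset.sum_le_sum
              intro u hu
              have hu' := mem_Ico.1 (mem_sdiff.1 hu).1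
              exact hGB m u hu'.1 hm (by omega)
          _ = ((Ico k₀ N \ Ico (k₀ + 2 * Q) N).card : ℝ) * (2 * C₀ * Real.log N) := by
              rw [Finset.sum_const, nsmul_eq_mul]
          _ ≤ 2 * Q * (2 * C₀ * Real.log N) := mul_le_mul_of_nonneg_right h9 hB0
      linarith
    rw [Finset.sum_sub_distrib] at hA
    linarith
  · exact Finset.sum_nonneg (fun u hu => hG0 m u (mem_Ico.1 hu).1 hm)
  · calc ∑ u ∈ Ico k₀ N, Gm a m' u
        ≤ ∑ u ∈ Ico k₀ N, (2 * C₀ * Real.log N) := by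
          apply Finset.sum_le_sum
          intro u hu
          have hu' := mem_Ico.1 hu
          exact hGB m' u hu'.1 (by omega) (by omega)
      _ = ((Ico k₀ N).card : ℝ) * (2 * C₀ * Real.log N) := by
          rw [Finset.sum_const, nsmul_eq_mul]
      _ ≤ N * (2 * C₀ * Real.log N) := by
          apply mul_le_mul_of_nonneg_right _ hB0
          rw [Nat.card_Ico]
          exact_mod_cast Nat.sub_le N k₀

end Pool.Agent.Work.MP_b29d7f_low
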