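import Pool.Agent.Work.MP_b29d7f_low.Interface1
import Pool.Agent.Work.MP_b29d7f_sep.B_SIZE

/-!
# Block START: from the set to the sequence (helper74)
-/

set_option autoImplicit false

namespace Pool.Agent.Work.MP_b29d7f_low

open Finset
open Pool.Agent.Work.MP_b29d7f_nt (IsPOrdering HasSimultaneousOrdering PS vd ld tv)
open Pool.Agent.Work.MP_b29d7f_half (Ord A wv lD)
open Pool.Agent.Work.MP_b29d7f_sep (nv EW EL Nn St mem_St)

theorem START_ncard (S : Set ℤ) (x : ℕ) :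
    (S ∩ Set.Icc (-(x : ℤ)) x).ncard = Nn S x := by
  unfold Nn
  rw [← Set.ncard_coe_finset]
  congr 1
  ext s
  simp only [Set.mem_inter_iff, Set.mem_Icc, Finset.mem_coe, mem_St]
  tauto

theorem START_inf (S : Set ℤ) (h : LowExponent S) : S.Infinite := by
  obtain ⟨c, ε, hc, -, x₀, hx⟩ := h
  intro hfin
  have hM : ∀ x : ℕ, x₀ ≤ x → (x : ℝ) ^ c ≤ (S.ncard : ℝ) := fun x hx' =>
    (hx x hx').1.trans (by exact_mod_cast Set.ncard_le_ncard Set.inter_subset_left hfin)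
  have ht := (tendsto_rpow_atTop hc).comp tendsto_natCast_atTop_atTop
  obtain ⟨x, hx1, hx2⟩ := ((ht.eventually_gt_atTop (S.ncard : ℝ)).and
    (Filter.eventually_ge_atTop x₀)).exists
  exact absurd (hM x hx2) (not_le.mpr hx1)

/-- The elements of the sequence grow fast. -/
theorem START_growth (S : Set ℤ) (a : ℕ → ℤ) (hinj : Function.Injective a) (hmem : ∀ k, a k ∈ S)
    (i₀ k₀ x₀ : ℕ) (ε : ℝ) (hε0 : 0 < ε) (hε1 : ε ≤ 1 / 4) (hmin : ∀ i, a i₀ ≤ a i)
    (htop : ∀ i k : ℕ, k₀ ≤ k → i < k → a i < a k)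
    (hup : ∀ x : ℕ, x₀ ≤ x → (Nn S x : ℝ) ≤ (x : ℝ) ^ (1 / 2 - ε)) :
    ∃ l₁ : ℕ, 1 ≤ l₁ ∧ ∀ l : ℕ, l₁ ≤ l → (l : ℝ) ^ (2 + 4 * ε) ≤ (a l : ℝ) := by
  refine ⟨k₀ + x₀ + (a i₀).natAbs + 1, by omega, ?_⟩
  intro l hl
  have hl1 : (1 : ℝ) ≤ l := by
    have : 1 ≤ l := by omega
    exact_mod_cast this
  set x : ℕ := max (a l).natAbs (max (a i₀).natAbs x₀) with hx
  have hxx₀ : x₀ ≤ x := (le_max_right _ _).trans (le_max_right _ _)
  have hx1 : (a l).natAbs ≤ x := le_max_left _ _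
  have hx2 : (a i₀).natAbs ≤ x := (le_max_left _ _).trans (le_max_right _ _)
  have hcard : l + 1 ≤ Nn S x := by
    unfold Nn
    have h1 : ((range (l + 1)).image a).card = l + 1 := by
      rw [Finset.card_image_of_injective _ hinj, Finset.card_range]
    rw [← h1]
    refine Finset.card_le_card ?_
    intro s hs
    rw [Finset.mem_image] at hs
    obtain ⟨i, hi, rfl⟩ := hs
    rw [Finset.mem_range] at hi
    rw [mem_St]
    refine ⟨?_, hmem i⟩
    have h2 := hmin i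
    have h3 : a i ≤ a l := by
      rcases Nat.lt_or_ge i l with h | h
      · exact (htop i l (by omega) h).le
      · have : i = l := by omega
        rw [this]
    omega
  have h4 := hup x hxx₀
  have h5 : ((l + 1 : ℕ) : ℝ) ≤ (x : ℝ) ^ (1 / 2 - ε) := by
    refine le_trans ?_ h4
    exact_mod_cast hcard
  have hxr : (0 : ℝ) ≤ x := by positivity
  have h6 : (l : ℝ) ^ (2 + 4 * ε) ≤ x := by
    by_contra hcon
    push Not at hcon
    have h7 : (x : ℝ) ^ (1 / 2 - ε) ≤ ((l : ℝ) ^ (2 + 4 * ε)) ^ (1 / 2 - ε) :=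
      Real.rpow_le_rpow hxr hcon.le (by linarith)
    rw [← Real.rpow_mul (by linarith)] at h7
    have h8 : (l : ℝ) ^ ((2 + 4 * ε) * (1 / 2 - ε)) ≤ (l : ℝ) ^ (1 : ℝ) :=
      Real.rpow_le_rpow_of_exponent_le hl1 (by nlinarith)
    rw [Real.rpow_one] at h8
    push_cast at h5
    linarith
  have h9 : (l : ℝ) ≤ (l : ℝ) ^ (2 + 4 * ε) := by
    calc (l : ℝ) = (l : ℝ) ^ (1 : ℝ) := (Real.rpow_one _).symm
      _ ≤ (l : ℝ) ^ (2 + 4 * ε) := Real.rpow_le_rpow_of_exponent_le hl1 (by linarith)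
  have h10 : l ≤ x := by exact_mod_cast h9.trans h6
  have h11 : x = (a l).natAbs := by
    rcases max_choice (a l).natAbs (max (a i₀).natAbs x₀) with h | h
    · rw [hx]; exact h
    · exfalso
      have : x = max (a i₀).natAbs x₀ := by rw [hx]; exact h
      rcases max_choice (a i₀).natAbs x₀ with h' | h' <;> omega
  have h12 : 0 ≤ a l := by
    by_contra hneg
    have := hmin l
    omega
  have h13 : ((x : ℤ) : ℝ) = ((a l : ℤ) : ℝ) := by
    congr 1
    rw [h11]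
    omega
  have h14 : ((x : ℤ) : ℝ) = (x : ℝ) := by norm_num
  rw [← h13, h14]
  exact h6

theorem START_fact (k : ℕ) (hk : 1 ≤ k) :
    (k : ℝ) * Real.log k - k ≤ ∑ l ∈ Icc 1 k, Real.log (l : ℝ) := by
  have hk' : (0 : ℝ) < k := by exact_mod_cast hk
  have h1 := Real.pow_div_factorial_le_exp (k : ℝ) hk'.le k
  have hf : (0 : ℝ) < (k.factorial : ℝ) := by exact_mod_cast Nat.factorial_pos k
  rw [div_le_iff₀ hf] at h1
  have h2 := Real.log_le_log (by positivity) h1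
  rw [Real.log_pow, Real.log_mul (Real.exp_pos _).ne' hf.ne', Real.log_exp] at h2
  have h3 : Real.log (k.factorial : ℝ) = ∑ l ∈ Icc 1 k, Real.log (l : ℝ) := by
    have h4 : Icc 1 k = Ico 1 (k + 1) := by ext; simp
    rw [← Finset.prod_Ico_id_eq_factorial, h4]
    push_cast
    rw [Real.log_prod]
    intro l hl
    rw [mem_Ico] at hl
    have : (0 : ℝ) < l := by exact_mod_cast hl.1
    exact this.ne'
  rw [h3] at h2
  linarith

theorem stmt_START (h1 : Stmt_TSU) (_h2 : Stmt_GGB) : Stmt_START := by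
  intro S hbdd hlow hsim
  obtain ⟨a, ha⟩ := hsim
  have hSinf := START_inf S hlow
  have hO : Ord S a := ⟨hSinf, ha⟩
  obtain ⟨hinj, hmem, -, -, -, -⟩ := Pool.Agent.Work.MP_b29d7f_half.stmt_ORD
    Pool.Agent.Work.MP_b29d7f_half.stmt_VDM S a hO
  have hOr : Ord (Set.range a) a := by
    refine ⟨Set.infinite_range_of_injective hinj, fun p hp => ?_⟩
    refine ⟨fun k => ⟨k, rfl⟩, ?_⟩
    rintro k _ ⟨m, rfl⟩
    exact (ha p hp).2 k (a m) (hmem m)
  -- the minimum
  obtain ⟨i₀, hmin⟩ : ∃ i₀, ∀ i, a i₀ ≤ a i := by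
    obtain ⟨b, hb⟩ := hbdd
    obtain ⟨m, ⟨i₀, hi₀⟩, hm⟩ := Int.exists_least_of_bdd (P := fun z => ∃ i, a i = z)
      ⟨b, fun z hz => by obtain ⟨i, hi⟩ := hz; rw [← hi]; exact hb (hmem i)⟩ ⟨a 0, 0, rfl⟩
    exact ⟨i₀, fun i => by rw [hi₀]; exact hm _ ⟨i, rfl⟩⟩
  have htop : ∀ i k : ℕ, i₀ + 1 ≤ k → i < k → a i < a k := by
    intro i k hk hik
    by_contra hcon
    push Not at hcon
    have h3 := Pool.Agent.Work.MP_b29d7f_sep.stmt_HULL (Set.range a) a hOr k (a k) ⟨k, rfl⟩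
      ⟨i₀, by omega, hmin k⟩ ⟨i, hik, hcon⟩
    unfold A at h3
    rw [Finset.mem_image] at h3
    obtain ⟨j, hj, hjk⟩ := h3
    rw [Finset.mem_range] at hj
    have := hinj hjk
    omega
  -- the size
  obtain ⟨c, ε₀, hc, hε₀, x₀, hx⟩ := hlow
  have hpoly : Pool.Agent.Work.MP_b29d7f_sep.PolyGrowth S :=
    ⟨c, hc, x₀, fun x hx' => by rw [← START_ncard]; exact (hx x hx').1⟩
  obtain ⟨c', B, C₂, hdat⟩ := Pool.Agent.Work.MP_b29d7f_sep.stmt_SIZE
    Pool.Agent.Work.MP_b29d7f_sep.stmt_ARCHO S a hO hpoly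
  have hB1 := hdat.B_one
  have hsize := hdat.size
  have hl2 : 0 < Real.log 2 := Real.log_pos (by norm_num)
  set C₀ : ℝ := max 1 (Real.log (2 * B) / Real.log 2 + 2 * C₂) with hC₀
  -- the exponent
  set ε : ℝ := min ε₀ (1 / 4) with hε
  have hε0 : 0 < ε := lt_min hε₀ (by norm_num)
  have hε1 : ε ≤ 1 / 4 := min_le_right _ _
  have hup : ∀ x : ℕ, max x₀ 1 ≤ x → (Nn S x : ℝ) ≤ (x : ℝ) ^ (1 / 2 - ε) := by
    intro x hx'
    rw [← START_ncard]
    refine (hx x ((le_max_left _ _).trans hx')).2.trans ?_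
    refine Real.rpow_le_rpow_of_exponent_le ?_ ?_
    · exact_mod_cast (le_max_right _ _).trans hx'
    · have := min_le_left ε₀ (1 / 4)
      linarith
  obtain ⟨l₁, hl₁, hgrow⟩ := START_growth S a hinj hmem i₀ (i₀ + 1) (max x₀ 1) ε hε0 hε1 hmin htop
    hup
  refine ⟨a, i₀ + 1, C₀, 2 * ε, ⟨hOr, le_max_left _ _, htop, ?_⟩, by positivity, ?_⟩
  · intro i j k hk hi hj
    have hk2 : (2 : ℝ) ≤ k := by exact_mod_cast hk
    have hkpos : (0 : ℝ) < k := by linarith
    have hb : ∀ j : ℕ, j ≤ k → (|a j| : ℝ) ≤ B * (k : ℝ) ^ (2 * C₂) := by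
      intro j hj
      refine (hsize j).trans (mul_le_mul_of_nonneg_left ?_ (by linarith))
      rw [pow_mul]
      refine pow_le_pow_left₀ (by positivity) ?_ _
      have : (j : ℝ) ≤ k := by exact_mod_cast hj
      nlinarith
    have h3 : (|a i - a j| : ℝ) ≤ 2 * B * (k : ℝ) ^ (2 * C₂) := by
      have := abs_sub (a i : ℝ) (a j : ℝ)
      have a1 := hb i hi
      have a2 := hb j hj
      linarith
    refine h3.trans ?_
    have h4 : 2 * B ≤ (k : ℝ) ^ (Real.log (2 * B) / Real.log 2) := by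
      have h5 : 2 * B = (2 : ℝ) ^ (Real.log (2 * B) / Real.log 2) := by
        rw [Real.rpow_def_of_pos (by norm_num), mul_div_cancel₀ _ hl2.ne',
          Real.exp_log (by linarith)]
      calc 2 * B = (2 : ℝ) ^ (Real.log (2 * B) / Real.log 2) := h5
        _ ≤ (k : ℝ) ^ (Real.log (2 * B) / Real.log 2) :=
          Real.rpow_le_rpow (by norm_num) hk2
            (div_nonneg (Real.log_nonneg (by linarith)) hl2.le)
    calc 2 * B * (k : ℝ) ^ (2 * C₂)
        ≤ (k : ℝ) ^ (Real.log (2 * B) / Real.log 2) * (k : ℝ) ^ (2 * C₂) :=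
          mul_le_mul_of_nonneg_right h4 (by positivity)
      _ = (k : ℝ) ^ (Real.log (2 * B) / Real.log 2 + 2 * C₂) := by
          rw [Real.rpow_add hkpos]
          congr 1
          rw [← Real.rpow_natCast]
          push_cast
          rfl
      _ ≤ (k : ℝ) ^ C₀ :=
          Real.rpow_le_rpow_of_exponent_le (by linarith) (le_max_right _ _)
  · -- the slope
    obtain ⟨-, -, -, hF2, -⟩ := h1 a hOr
    set l₂ : ℕ := l₁ + 2 * (a 0).natAbs with hl₂
    set C₁ : ℝ := ∑ l ∈ Ico 1 l₂, Real.log (l : ℝ) with hC₁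
    have hC₁0 : 0 ≤ C₁ := Finset.sum_nonneg (fun l _ => Real.log_natCast_nonneg l)
    set C₃ : ℝ := (2 + 4 * ε) * (1 + C₁) + Real.log 2 with hC₃
    obtain ⟨k₁, hk₁⟩ := exists_nat_ge (Real.exp (C₃ / (2 * ε)))
    refine ⟨max (max k₁ l₂) 1, ?_⟩
    intro k hk
    have hk1 : k₁ ≤ k := ((le_max_left _ _).trans (le_max_left _ _)).trans hk
    have hkl : l₂ ≤ k := ((le_max_right _ _).trans (le_max_left _ _)).trans hk
    have hk0 : 1 ≤ k := (le_max_right _ _).trans hk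
    have hkr : (1 : ℝ) ≤ k := by exact_mod_cast hk0
    have hlogk : C₃ ≤ 2 * ε * Real.log k := by
      have h3 : Real.exp (C₃ / (2 * ε)) ≤ k := hk₁.trans (by exact_mod_cast hk1)
      have h4 := Real.log_le_log (Real.exp_pos _) h3
      rw [Real.log_exp, div_le_iff₀ (by positivity)] at h4
      linarith
    have hterm : ∀ l ∈ Icc l₂ k, (2 + 4 * ε) * Real.log l - Real.log 2 ≤ ld (a 0) (a l) := by
      intro l hl
      rw [mem_Icc] at hl
      have hl0 : 1 ≤ l := by omega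
      have hlr : (1 : ℝ) ≤ l := by exact_mod_cast hl0
      have h3 := hgrow l (by omega)
      have h4 : 2 * (|a 0| : ℝ) ≤ (l : ℝ) ^ (2 + 4 * ε) := by
        have h5 : 2 * (a 0).natAbs ≤ l := by omega
        have h6 : 2 * (((a 0).natAbs : ℕ) : ℝ) ≤ l := by exact_mod_cast h5
        rw [Nat.cast_natAbs] at h6
        push_cast at h6
        refine h6.trans ?_
        calc (l : ℝ) = (l : ℝ) ^ (1 : ℝ) := (Real.rpow_one _).symm
          _ ≤ (l : ℝ) ^ (2 + 4 * ε) := Real.rpow_le_rpow_of_exponent_le hlr (by linarith)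
      have h7 : (l : ℝ) ^ (2 + 4 * ε) / 2 ≤ |((a 0 - a l : ℤ) : ℝ)| := by
        push_cast
        have h8 := neg_abs_le ((a 0 : ℝ) - a l)
        have h9 := le_abs_self (a 0 : ℝ)
        linarith
      have h10 : 0 < (l : ℝ) ^ (2 + 4 * ε) := by positivity
      have h11 := Real.log_le_log (by positivity) h7
      rw [Real.log_div h10.ne' (by norm_num), Real.log_rpow (by linarith)] at h11
      exact h11
    have hT : ∑ l ∈ Icc l₂ k, ((2 + 4 * ε) * Real.log (l : ℝ) - Real.log 2) ≤ lD a k := by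
      calc ∑ l ∈ Icc l₂ k, ((2 + 4 * ε) * Real.log (l : ℝ) - Real.log 2)
          ≤ ∑ l ∈ Icc l₂ k, ld (a 0) (a l) := Finset.sum_le_sum hterm
        _ ≤ ∑ l ∈ (range (k + 1)).erase 0, ld (a 0) (a l) := by
            refine Finset.sum_le_sum_of_subset_of_nonneg ?_ fun l _ _ =>
              Pool.Agent.Work.MP_b29d7f_half.ld_nonneg _ _
            intro l hl
            rw [mem_Icc] at hl
            rw [mem_erase, mem_range]
            omega
        _ ≤ lD a k := hF2 0 k (Nat.zero_le _)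
    have hsum : ∑ l ∈ Icc l₂ k, ((2 + 4 * ε) * Real.log (l : ℝ) - Real.log 2) =
        (2 + 4 * ε) * ∑ l ∈ Icc l₂ k, Real.log (l : ℝ) - ((Icc l₂ k).card : ℝ) * Real.log 2 := by
      rw [Finset.sum_sub_distrib, ← Finset.mul_sum, Finset.sum_const, nsmul_eq_mul]
    have hsplit : ∑ l ∈ Icc 1 k, Real.log (l : ℝ) = C₁ + ∑ l ∈ Icc l₂ k, Real.log (l : ℝ) := by
      have h3 : Icc 1 k = Ico 1 (k + 1) := by ext; simp
      have h4 : Icc l₂ k = Ico l₂ (k + 1) := by ext; simp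
      rw [h3, h4, hC₁, Finset.sum_Ico_consecutive _ (by omega) (by omega)]
    have hfact := START_fact k hk0
    have hcard : ((Icc l₂ k).card : ℝ) ≤ k := by
      rw [Nat.card_Icc]
      have : k + 1 - l₂ ≤ k := by omega
      exact_mod_cast this
    have hmain : (2 + 4 * ε) * (k * Real.log k - k - C₁) - k * Real.log 2 ≤ lD a k := by
      refine le_trans ?_ hT
      rw [hsum]
      have h5 : (2 + 4 * ε) * (k * Real.log k - k - C₁) ≤
          (2 + 4 * ε) * ∑ l ∈ Icc l₂ k, Real.log (l : ℝ) :=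
        mul_le_mul_of_nonneg_left (by linarith) (by linarith)
      have h6 : ((Icc l₂ k).card : ℝ) * Real.log 2 ≤ k * Real.log 2 :=
        mul_le_mul_of_nonneg_right hcard hl2.le
      linarith
    unfold gg
    rw [le_div_iff₀ (by linarith)]
    refine le_trans ?_ hmain
    have h7 : (2 + 4 * ε) * C₁ ≤ (2 + 4 * ε) * C₁ * k :=
      le_mul_of_one_le_right (by positivity) hkr
    have h8 := mul_le_mul_of_nonneg_right hlogk (by linarith : (0 : ℝ) ≤ k)
    rw [hC₃] at h8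
    nlinarith

end Pool.Agent.Work.MP_b29d7f_low
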