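import Pool.Agent.Work.MP_b29d7f_low.Interface3

set_option autoImplicit false

namespace Pool.Agent.Work.MP_b29d7f_low

open Finset

theorem SUMS_closed {G : Type*} [AddCommGroup G] [DecidableEq G] (B : Finset G)
    (h0 : 0 ∈ B) (hneg : ∀ x ∈ B, -x ∈ B)
    (hcard : 2 * ((B ×ˢ B).image (fun z => z.1 + z.2)).card < 3 * B.card) (x y : G)
    (hx : x ∈ (B ×ˢ B).image (fun z => z.1 + z.2)) (hy : y ∈ (B ×ˢ B).image (fun z => z.1 + z.2)) :
    x + y ∈ (B ×ˢ B).image (fun z => z.1 + z.2) := by
  set C := (B ×ˢ B).image (fun z => z.1 + z.2) with hC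
  have key : ∀ w ∈ C, B.card < 2 * ((B.image (fun b => w + b)) ∩ B).card := by
    intro w hw
    obtain ⟨⟨a, c⟩, hac, rfl⟩ := Finset.mem_image.1 hw
    rw [Finset.mem_product] at hac
    obtain ⟨ha, hc⟩ := hac
    simp only at ha hc
    have hc' := hneg c hc
    -- `a + B` and `-c + B` are subsets of `C`
    have h1 : (B.image (fun b => a + b)) ∪ (B.image (fun b => -c + b)) ⊆ C := by
      intro z hz
      rcases Finset.mem_union.1 hz with hz | hz
      · obtain ⟨b, hb, rfl⟩ := Finset.mem_image.1 hz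
        exact Finset.mem_image.2 ⟨(a, b), Finset.mem_product.2 ⟨ha, hb⟩, rfl⟩
      · obtain ⟨b, hb, rfl⟩ := Finset.mem_image.1 hz
        exact Finset.mem_image.2 ⟨(-c, b), Finset.mem_product.2 ⟨hc', hb⟩, rfl⟩
    have h2 := Finset.card_le_card h1
    have h3 := Finset.card_union_add_card_inter (B.image (fun b => a + b)) (B.image (fun b => -c + b))
    have h4 : (B.image (fun b => a + b)).card = B.card :=
      Finset.card_image_of_injective _ (add_right_injective a)
    have h5 : (B.image (fun b => -c + b)).card = B.card :=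
      Finset.card_image_of_injective _ (add_right_injective (-c))
    have h6 : ((B.image (fun b => a + b)) ∩ (B.image (fun b => -c + b))).card ≤
        ((B.image (fun b => (a + c) + b)) ∩ B).card := by
      rw [← Finset.card_image_of_injective
        ((B.image (fun b => a + b)) ∩ (B.image (fun b => -c + b))) (add_right_injective c)]
      apply Finset.card_le_card
      intro z hz
      obtain ⟨z', hz', rfl⟩ := Finset.mem_image.1 hz
      rw [Finset.mem_inter] at hz'
      obtain ⟨hz1, hz2⟩ := hz'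
      obtain ⟨b, hb, hbe⟩ := Finset.mem_image.1 hz1
      obtain ⟨b', hb', hbe'⟩ := Finset.mem_image.1 hz2
      rw [Finset.mem_inter]
      constructor
      · refine Finset.mem_image.2 ⟨b, hb, ?_⟩
        rw [← hbe]
        abel
      · have : c + z' = b' := by
          rw [← hbe']
          abel
        show c + z' ∈ B
        rw [this]
        exact hb'
    have h7 : (a, c).1 + (a, c).2 = a + c := rfl
    rw [h7]
    omega
  have hny : -y ∈ C := by
    obtain ⟨⟨a, c⟩, hac, rfl⟩ := Finset.mem_image.1 hy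
    rw [Finset.mem_product] at hac
    refine Finset.mem_image.2 ⟨(-a, -c), Finset.mem_product.2 ⟨hneg _ hac.1, hneg _ hac.2⟩, ?_⟩
    simp only
    abel
  have k1 := key x hx
  have k2 := key (-y) hny
  have h8 := Finset.card_union_add_card_inter ((B.image (fun b => x + b)) ∩ B)
    ((B.image (fun b => -y + b)) ∩ B)
  have h9 : (((B.image (fun b => x + b)) ∩ B) ∪ ((B.image (fun b => -y + b)) ∩ B)).card ≤ B.card := by
    apply Finset.card_le_card
    exact Finset.union_subset Finset.inter_subset_right Finset.inter_subset_right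
  have h10 : (((B.image (fun b => x + b)) ∩ B) ∩ ((B.image (fun b => -y + b)) ∩ B)).Nonempty := by
    rw [← Finset.card_pos]
    omega
  obtain ⟨z, hz⟩ := h10
  rw [Finset.mem_inter, Finset.mem_inter, Finset.mem_inter] at hz
  obtain ⟨⟨hz1, -⟩, ⟨hz2, -⟩⟩ := hz
  obtain ⟨b, hb, hbe⟩ := Finset.mem_image.1 hz1
  obtain ⟨b', hb', hbe'⟩ := Finset.mem_image.1 hz2
  refine Finset.mem_image.2 ⟨(b', -b), Finset.mem_product.2 ⟨hb', hneg _ hb⟩, ?_⟩
  simp only
  have : x + b = -y + b' := by rw [hbe, hbe']
  have h11 : b' = x + b + y := by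
    rw [this]
    abel
  rw [h11]
  abel

theorem p_SUMS : Stmt_SUMS := by
  intro p i _ hp hi B B' h0 hneg hx hB'
  obtain ⟨x, hxB, hx0⟩ := hx
  classical
  by_cases hc : 2 * ((B ×ˢ B).image (fun z => z.1 + z.2)).card < 3 * B.card
  · right
    set C := (B ×ˢ B).image (fun z => z.1 + z.2) with hC
    have hclosed := SUMS_closed B h0 hneg hc
    have hCB : C ⊆ B' := by
      intro z hz
      obtain ⟨w, hw, rfl⟩ := Finset.mem_image.1 hz
      rw [Finset.mem_product] at hw
      exact hB' _ hw.1 _ hw.2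
    have h0C : (0 : ZMod (p ^ i)) ∈ C :=
      Finset.mem_image.2 ⟨(0, 0), Finset.mem_product.2 ⟨h0, h0⟩, by simp⟩
    have hxC : x ∈ C := Finset.mem_image.2 ⟨(x, 0), Finset.mem_product.2 ⟨hxB, h0⟩, by simp⟩
    have hmul : ∀ N : ℕ, (N : ZMod (p ^ i)) * x ∈ C := by
      intro N
      induction N with
      | zero => simpa using h0C
      | succ N ih =>
        have : ((N + 1 : ℕ) : ZMod (p ^ i)) * x = (N : ZMod (p ^ i)) * x + x := by
          push_cast
          ring
        rw [this]
        exact hclosed _ _ ih hxC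
    intro b
    apply hCB
    -- x = unit * p ^ j
    haveI : NeZero (p ^ i) := ⟨(pow_pos hp.pos i).ne'⟩
    have hxval : (x.val : ZMod (p ^ i)) = x := ZMod.natCast_zmod_val x
    have hxpos : x.val ≠ 0 := by
      intro h
      rw [h] at hxval
      exact hx0 (by simpa using hxval.symm)
    obtain ⟨j, m', hm', hjm⟩ := Nat.exists_eq_pow_mul_and_not_dvd hxpos p hp.ne_one
    have hj : j < i := by
      have h1 : x.val < p ^ i := ZMod.val_lt x
      by_contra h2
      push_neg at h2
      have h3 : p ^ i ≤ p ^ j := Nat.pow_le_pow_right hp.pos h2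
      have h4 : 0 < m' := by
        rcases Nat.eq_zero_or_pos m' with h | h
        · rw [h] at hm'
          simp at hm'
        · exact h
      have h5 : p ^ j ≤ p ^ j * m' := Nat.le_mul_of_pos_right _ h4
      omega
    have hcop : Nat.Coprime m' (p ^ i) := by
      apply Nat.Coprime.pow_right
      exact ((Nat.Prime.coprime_iff_not_dvd hp).2 hm').symm
    let u := ZMod.unitOfCoprime m' hcop
    have hu : (u : ZMod (p ^ i)) = m' := ZMod.coe_unitOfCoprime m' hcop
    let v : ZMod (p ^ i) := b * (↑(u⁻¹) : ZMod (p ^ i)) * (p : ZMod (p ^ i)) ^ (i - 1 - j)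
    have hv : (v.val : ZMod (p ^ i)) = v := ZMod.natCast_zmod_val v
    have h6 := hmul v.val
    rw [hv] at h6
    have h7 : v * x = b * (p : ZMod (p ^ i)) ^ (i - 1) := by
      rw [← hxval, hjm]
      push_cast
      rw [← hu]
      have h8 : (p : ZMod (p ^ i)) ^ (i - 1) =
          (p : ZMod (p ^ i)) ^ (i - 1 - j) * (p : ZMod (p ^ i)) ^ j := by
        rw [← pow_add]
        congr 1
        omega
      rw [h8]
      have h9 : (↑(u⁻¹) : ZMod (p ^ i)) * (u : ZMod (p ^ i)) = 1 := by
        rw [← Units.val_mul]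
        simp
      calc b * (↑(u⁻¹) : ZMod (p ^ i)) * (p : ZMod (p ^ i)) ^ (i - 1 - j) *
            ((p : ZMod (p ^ i)) ^ j * (u : ZMod (p ^ i)))
          = b * ((p : ZMod (p ^ i)) ^ (i - 1 - j) * (p : ZMod (p ^ i)) ^ j) *
            ((↑(u⁻¹) : ZMod (p ^ i)) * (u : ZMod (p ^ i))) := by ring
        _ = b * ((p : ZMod (p ^ i)) ^ (i - 1 - j) * (p : ZMod (p ^ i)) ^ j) := by
            rw [h9, mul_one]
    rw [h7] at h6
    exact h6
  · left
    have hCB : (B ×ˢ B).image (fun z => z.1 + z.2) ⊆ B' := by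
      intro z hz
      obtain ⟨w, hw, rfl⟩ := Finset.mem_image.1 hz
      rw [Finset.mem_product] at hw
      exact hB' _ hw.1 _ hw.2
    have h1 := Finset.card_le_card hCB
    push_neg at hc
    have h2 : 3 * B.card ≤ 2 * B'.card := by omega
    have h3 : (3 : ℝ) * B.card ≤ 2 * B'.card := by exact_mod_cast h2
    linarith

end Pool.Agent.Work.MP_b29d7f_low
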