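import Pool.Agent.Work.MP_b29d7f_low.Interface3

/-!
# Block THG: the total weight is at least `g(P₂)`
-/

namespace Pool.Agent.Work.MP_b29d7f_low

open Finset
open Pool.Agent.Work.MP_b29d7f_half (Ord A wv lD)
open Pool.Agent.Work.MP_b29d7f_sep (nv EW EL)

theorem stmt_THG (hTHL : Stmt_THL) (hSUPER : Stmt_SUPER) (hCPA : Stmt_CPA) (hLVL : Stmt_LVL) :
    Stmt_THG := by
  classical
  intro a k₀ C₀ hD
  obtain ⟨N₀, hN₀⟩ := hLVL a k₀ C₀ hD
  refine ⟨max N₀ 2, ?_⟩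
  intro N P₂ μ θ hN hP₂ hP₃N hEq
  have hNN₀ : N₀ ≤ N := le_trans (le_max_left _ _) hN
  have hN2 : 2 ≤ N := le_trans (le_max_right _ _) hN
  obtain ⟨hLv, -⟩ := hN₀ N P₂ hNN₀ hP₂ hP₃N
  have hl1 : 1 ≤ el N := by
    unfold el
    rw [Nat.one_le_iff_ne_zero, Ne, Nat.ceil_eq_zero]
    push Not
    apply Real.log_pos
    exact_mod_cast (by omega : 1 < N)
  have hl3 : 1 ≤ el N ^ 3 := Nat.one_le_pow _ _ hl1
  have hP₃1 : 1 ≤ P₂ * el N ^ 3 := Nat.mul_pos hP₂ hl3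
  have hP₂N : P₂ ≤ 2 * N := by
    have : P₂ * 1 ≤ P₂ * el N ^ 3 := Nat.mul_le_mul_left _ hl3
    omega
  have hsup : ∀ p : ℕ, p.Prime → ∀ t : ℕ, t * nv p a P₂ ≤ nv p a (P₂ * t) := by
    intro p hp t
    induction t with
    | zero => simp
    | succ t ih =>
      have h1 := hSUPER a hD.ord p hp (P₂ * t) P₂
      have h2 : P₂ * (t + 1) = P₂ * t + P₂ := by ring
      rw [h2]
      have h3 : (t + 1) * nv p a P₂ = t * nv p a P₂ + nv p a P₂ := by ring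
      omega
  have hP₂0 : (0 : ℝ) < P₂ := by exact_mod_cast hP₂
  have hl30 : (0 : ℝ) < (el N : ℝ) ^ 3 := by exact_mod_cast hl3
  have hterm : ∀ p ∈ PA a N P₂, Real.log p * nv p a P₂ / P₂ ≤ Real.log p * θ p := by
    intro p hp
    have hpp : p.Prime := by
      have := (mem_PA.mp hp).1
      unfold PR at this
      exact Nat.prime_of_mem_primeFactors this
    obtain ⟨h1, -, h3⟩ := hLv p (P₂ * el N ^ 3) hpp
    have h4 := hTHL a hD.ord p N (Lv C₀ a N (P₂ * el N ^ 3) p) (P₂ * el N ^ 3) (μ p) (θ p) hpp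
      hP₃1 hP₃N h1 h3 (hEq p hp)
    have h5 := hsup p hpp (el N ^ 3)
    have h5' : ((el N : ℝ) ^ 3) * (nv p a P₂ : ℝ) ≤ (nv p a (P₂ * el N ^ 3) : ℝ) := by
      exact_mod_cast h5
    have h6 : (nv p a P₂ : ℝ) / P₂ ≤ θ p := by
      refine le_trans ?_ h4
      push_cast
      rw [div_le_div_iff₀ hP₂0 (by positivity)]
      nlinarith
    have h7 : 0 ≤ Real.log (p : ℝ) := Real.log_natCast_nonneg p
    rw [mul_div_assoc]
    exact mul_le_mul_of_nonneg_left h6 h7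
  have hsum := Finset.sum_le_sum hterm
  rw [← Finset.sum_div, (hCPA a hD.ord N P₂ hP₂N).2.2] at hsum
  exact hsum

end Pool.Agent.Work.MP_b29d7f_low
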