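import Pool.Agent.Work.MP_b29d7f_low.Interface3
import Pool.Agent.Work.MP_b29d7f_half.B_KSUM

/-!
# Block THL: lower bound for the equilibrium constant (helper96)
-/

namespace Pool.Agent.Work.MP_b29d7f_low

open Finset
open Pool.Agent.Work.MP_b29d7f_nt (IsPOrdering HasSimultaneousOrdering PS vd ld tv)
open Pool.Agent.Work.MP_b29d7f_half (Ord A wv lD)
open Pool.Agent.Work.MP_b29d7f_sep (nv EW EL)

theorem THL_tv_ge {p : ℕ} (hp : p.Prime) (L : ℕ) {x : ℤ} (hx : x ≠ 0)
    (hL : multiplicity (p : ℤ) x ≤ L) : multiplicity (p : ℤ) x ≤ tv p L x := by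
  have hfin : FiniteMultiplicity (p : ℤ) x := by
    rw [Int.finiteMultiplicity_iff]
    exact ⟨by simpa using hp.ne_one, hx⟩
  unfold tv
  have hsub : Finset.Icc 1 (multiplicity (p : ℤ) x) ⊆
      ((Finset.Icc 1 L).filter fun j => (p : ℤ) ^ j ∣ x) := by
    intro j hj
    rw [Finset.mem_Icc] at hj
    rw [Finset.mem_filter, Finset.mem_Icc]
    exact ⟨⟨hj.1, hj.2.trans hL⟩, hfin.pow_dvd_iff_le_multiplicity.mpr hj.2⟩
  refine le_trans ?_ (Finset.card_le_card hsub)
  rw [Nat.card_Icc]
  omega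

theorem THL_tv_sub_comm (p L : ℕ) (x y : ℤ) : tv p L (x - y) = tv p L (y - x) := by
  unfold tv
  congr 1
  ext j
  simp only [Finset.mem_filter]
  rw [dvd_sub_comm]

theorem stmt_THL (h3 : Stmt_PAD) (h4 : Stmt_PAE) : Stmt_THL := by
  classical
  intro a ha p N L h μ θ hp hh hhN hL hv hE
  have hinj : Function.Injective a := (h4 a ha).1
  have hh0 : (0 : ℝ) < h := by exact_mod_cast (by omega : 0 < h)
  have hpt : ∀ m, m < N → nv p a h ≤ ∑ i ∈ range h, tv p L (a m - a i) := by
    intro m hm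
    by_cases hmh : h ≤ m
    · refine ((h3 a ha p hp).2.2.1 h m hmh).trans (Finset.sum_le_sum fun i hi => ?_)
      have hi' := Finset.mem_range.1 hi
      have hne : m ≠ i := by omega
      exact THL_tv_ge hp L (sub_ne_zero.2 fun e => hne (hinj e)) (hv m i hm (by omega) hne)
    · have hmr : m ∈ range h := Finset.mem_range.2 (by omega)
      refine hL.trans (le_trans ?_ (Finset.single_le_sum
        (f := fun i => tv p L (a m - a i)) (fun _ _ => Nat.zero_le _) hmr))
      simp only [sub_self]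
      rw [Pool.Agent.Work.MP_b29d7f_half.KSUM94.tv_zero]
  have hA : ∀ i, i < N → a i ∈ A a N := fun i hi =>
    Finset.mem_image_of_mem a (Finset.mem_range.2 hi)
  have e1 : ∑ x ∈ A a N, μ x * ∑ i ∈ range h, (tv p L (x - a i) : ℝ) = h * θ := by
    calc ∑ x ∈ A a N, μ x * ∑ i ∈ range h, (tv p L (x - a i) : ℝ)
        = ∑ i ∈ range h, ∑ x ∈ A a N, (tv p L (a i - x) : ℝ) * μ x := by
          rw [Finset.sum_comm]
          refine Finset.sum_congr rfl fun x _ => ?_
          rw [Finset.mul_sum]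
          refine Finset.sum_congr rfl fun i _ => ?_
          rw [THL_tv_sub_comm p L x (a i), mul_comm]
      _ = ∑ i ∈ range h, θ := by
          refine Finset.sum_congr rfl fun i hi => ?_
          exact hE.pot (a i) (hA i ((Finset.mem_range.1 hi).trans_le hhN))
      _ = h * θ := by rw [Finset.sum_const, Finset.card_range, nsmul_eq_mul]
  have e2 : (nv p a h : ℝ) ≤ ∑ x ∈ A a N, μ x * ∑ i ∈ range h, (tv p L (x - a i) : ℝ) := by
    calc (nv p a h : ℝ) = ∑ x ∈ A a N, μ x * (nv p a h : ℝ) := by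
          rw [← Finset.sum_mul, hE.sum_one, one_mul]
      _ ≤ _ := by
          refine Finset.sum_le_sum fun x hx => mul_le_mul_of_nonneg_left ?_ (hE.nonneg x)
          obtain ⟨m, hm, rfl⟩ := Finset.mem_image.1 hx
          exact_mod_cast hpt m (Finset.mem_range.1 hm)
  rw [div_le_iff₀ hh0]
  linarith

end Pool.Agent.Work.MP_b29d7f_low
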