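import Pool.Agent.Work.MP_b29d7f_low.Interface1

/-!
# Block TRANS (helper16)
-/

namespace Pool.Agent.Work.MP_b29d7f_low

open Finset
open Pool.Agent.Work.MP_b29d7f_nt (vd ld vd_comm)
open Pool.Agent.Work.MP_b29d7f_half (lD)
open Pool.Agent.Work.MP_b29d7f_sep (nv)

namespace TRANSaux

/-- the defect -/
noncomputable def dft (p : ℕ) (s : ℕ → ℤ) (k i : ℕ) : ℝ :=
  (nv p s k : ℝ) - ∑ l ∈ (range k).erase i, (vl p s i l : ℝ)

theorem swap (p : ℕ) (s : ℕ → ℤ) (hsym : ∀ i j : ℕ, vl p s i j = vl p s j i) (N P' : ℕ) :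
    ∑ j ∈ range P', ∑ i ∈ (range N).erase j, (vl p s j i : ℝ) =
      ∑ i ∈ range N, ∑ j ∈ (range P').erase i, (vl p s i j : ℝ) := by
  refine sum_comm' (fun j i => ?_) |>.trans (sum_congr rfl fun i _ => sum_congr rfl fun j _ => ?_)
  · simp only [mem_erase, mem_range]
    constructor
    · rintro ⟨h1, h2, h3⟩
      exact ⟨⟨fun h => h2 h.symm, h1⟩, h3⟩
    · rintro ⟨⟨h1, h2⟩, h3⟩
      exact ⟨h2, fun h => h1 h.symm, h3⟩
  · rw [hsym]

end TRANSaux

open TRANSaux in
theorem stmt_TRANS (hPAD : Stmt_PAD) (hPAE : Stmt_PAE) (hVLM : Stmt_VLM)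
    (hLRD : Stmt_LRD) (hGGB : Stmt_GGB) : Stmt_TRANS := by
  intro a k₀ C₀ κ hD hκ
  obtain ⟨C1, hC1, hL⟩ := hLRD a k₀ C₀ κ hD hκ
  refine ⟨2 * κ + C1, 2, by linarith, fun n N hN2 hn1 hn2 hrec Q k hQ hk1 hkN => ?_⟩
  obtain ⟨-, hsy⟩ := hPAE a hD.ord
  have hlog : ∀ p : ℕ, 0 ≤ Real.log p := fun p => Real.log_natCast_nonneg p
  have hgld := (hGGB a k₀ C₀ hD).2.2.2.2.2.1
  have hC₀ := hD.one_le
  have hLN : 0 ≤ 2 * C₀ * Real.log N := mul_nonneg (by linarith) (hlog N)
  -- pointwise inequality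
  have key : ∀ p ∈ Q, (k : ℝ) * (Real.log p * nv p a N) ≤
      N * (Real.log p * nv p a k) + N * (2 * C₀ * Real.log N) +
        ∑ j ∈ range k, Real.log p * dft p a N j := by
    intro p hp
    have hpp := hQ p hp
    obtain ⟨hmono, h0, hF1, hF2, hF3⟩ := hPAD a hD.ord p hpp
    obtain ⟨hsym, -, -, -, hvld, -⟩ := hsy p hpp
    -- inner sums
    have hin : ∀ i ∈ range N, Real.log p * ∑ j ∈ (range k).erase i, (vl p a i j : ℝ) ≤
        Real.log p * nv p a k + 2 * C₀ * Real.log N := by
      intro i hi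
      rw [mem_range] at hi
      rcases lt_or_ge i k with h | h
      · have h3 : ∑ j ∈ (range k).erase i, (vl p a i j : ℝ) ≤ nv p a k := by
          exact_mod_cast hF3 i k h
        have := mul_le_mul_of_nonneg_left h3 (hlog p)
        linarith
      · obtain ⟨l, hl1, hl2⟩ := hVLM a hD.ord p hpp k i hk1 h
        have h1 : (range k).erase i = range k := erase_eq_of_notMem (by simp; omega)
        rw [h1]
        have h3 : ∑ j ∈ range k, (vl p a i j : ℝ) ≤ nv p a k + vl p a i l := by
          exact_mod_cast hl2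
        have h4 : Real.log p * vl p a i l ≤ 2 * C₀ * Real.log N :=
          (hvld i l (by omega)).trans (hgld i l N hN2 (by omega) (by omega))
        have := mul_le_mul_of_nonneg_left h3 (hlog p)
        linarith
    have hX : Real.log p * ∑ j ∈ range k, ∑ i ∈ (range N).erase j, (vl p a j i : ℝ) ≤
        N * (Real.log p * nv p a k) + N * (2 * C₀ * Real.log N) := by
      rw [swap p a hsym N k, mul_sum]
      refine (sum_le_sum hin).trans (le_of_eq ?_)
      rw [sum_const, card_range, nsmul_eq_mul]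
      ring
    have hY : (k : ℝ) * (Real.log p * nv p a N) =
        Real.log p * ∑ j ∈ range k, ∑ i ∈ (range N).erase j, (vl p a j i : ℝ) +
          ∑ j ∈ range k, Real.log p * dft p a N j := by
      unfold dft
      rw [← mul_sum, ← mul_add, ← sum_add_distrib]
      simp only [add_sub_cancel]
      rw [sum_const, card_range, nsmul_eq_mul]
      ring
    linarith
  have hsum := sum_le_sum key
  rw [← mul_sum, sum_add_distrib, sum_add_distrib, ← mul_sum, sum_const, nsmul_eq_mul,
    sum_comm] at hsum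
  have hN0 : (0 : ℝ) < N := by exact_mod_cast (by omega : 0 < N)
  have hk0 : (0 : ℝ) < k := by exact_mod_cast hk1
  have hlogn : Real.log n - Real.log N ≤ 2 := by
    have h1 : (n : ℝ) ≤ 3 * N := by
      have : n ≤ 3 * N := by omega
      exact_mod_cast this
    have h2 : (0 : ℝ) < n := by
      have : 0 < n := by omega
      exact_mod_cast this
    have h3 := Real.log_le_log h2 h1
    rw [Real.log_mul (by norm_num) hN0.ne'] at h3
    have h4 : Real.log 3 ≤ 2 := by
      have := Real.log_le_sub_one_of_pos (show (0 : ℝ) < 3 by norm_num)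
      linarith
    linarith
  -- the defects
  have t3 : ∑ j ∈ range k, ∑ p ∈ Q, Real.log p * dft p a N j ≤ k * (N * (2 * κ + C1)) := by
    have h1 : ∀ j ∈ range k, ∑ p ∈ Q, Real.log p * dft p a N j ≤ N * (2 * κ + C1) := by
      intro j hj
      rw [mem_range] at hj
      have h2 := (hL n hrec j N (by omega) (by omega)).2 Q hQ
      refine h2.trans ?_
      apply mul_le_mul_of_nonneg_left _ hN0.le
      have := mul_le_mul_of_nonneg_left hlogn hκ
      linarith
    refine (sum_le_sum h1).trans (le_of_eq ?_)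
    rw [sum_const, card_range, nsmul_eq_mul]
  have hfin : (k : ℝ) * ∑ p ∈ Q, Real.log p * (nv p a N : ℝ) ≤
      k * (((N : ℝ) / k) * (∑ p ∈ Q, Real.log p * nv p a k + Q.card * (2 * C₀ * Real.log N)) +
          (2 * κ + C1) * N) := by
    have h1 : (k : ℝ) * (((N : ℝ) / k) *
        (∑ p ∈ Q, Real.log p * nv p a k + Q.card * (2 * C₀ * Real.log N)) +
          (2 * κ + C1) * N) = N * ∑ p ∈ Q, Real.log p * nv p a k +
            Q.card * (N * (2 * C₀ * Real.log N)) + k * (N * (2 * κ + C1)) := by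
      field_simp
    rw [h1]
    linarith
  exact le_of_mul_le_mul_left hfin hk0

end Pool.Agent.Work.MP_b29d7f_low
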