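import Pool.Agent.Work.MP_b29d7f_low.Interface3

/-!
# Block WT2: the small primes
-/

namespace Pool.Agent.Work.MP_b29d7f_low

open Finset
open Pool.Agent.Work.MP_b29d7f_nt (IsPOrdering HasSimultaneousOrdering PS vd ld tv)
open Pool.Agent.Work.MP_b29d7f_half (Ord A wv lD)
open Pool.Agent.Work.MP_b29d7f_sep (nv EW EL)

theorem WT2_large (C₀ C c : ℝ) (hC₀ : 1 ≤ C₀) (hc : 0 < c) (hc4 : c ≤ 1 / 4) :
    ∃ N₃ : ℕ, ∀ N : ℕ, N₃ ≤ N → 3 ≤ N ∧ 2 * (⌊(N : ℝ) ^ c⌋₊ * el N ^ 2) ≤ N ∧ 2 ≤ el N ∧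
      C₀ * (2 * Real.log (el N)) + 2 * C₀ + C + 1 ≤ C₀ * c * Real.log N := by
  have h1 : ∀ᶠ L : ℝ in Filter.atTop,
      114 ≤ L ∧ C₀ * (2 * Real.log (2 * L)) + 2 * C₀ + C + 1 ≤ C₀ * c * L := by
    have h2 : (0 : ℝ) < c / 8 := by positivity
    have h3 := Real.isLittleO_log_id_atTop.bound h2
    have h4 : Filter.Tendsto (fun L : ℝ => 2 * L) Filter.atTop Filter.atTop :=
      Filter.tendsto_id.const_mul_atTop (by norm_num)
    have h5 := h4.eventually h3
    filter_upwards [h5, Filter.eventually_ge_atTop (114 : ℝ),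
      Filter.eventually_ge_atTop ((2 * C₀ + |C| + 1) * (2 / (C₀ * c)))] with L hL1 hL2 hL3
    refine ⟨hL2, ?_⟩
    have h6 : ‖Real.log (2 * L)‖ = Real.log (2 * L) := by
      rw [Real.norm_eq_abs, abs_of_nonneg (Real.log_nonneg (by linarith))]
    have h7 : ‖(id (2 * L) : ℝ)‖ = 2 * L := by
      rw [id, Real.norm_eq_abs, abs_of_nonneg (by linarith)]
    rw [h6, h7] at hL1
    have h8 : C₀ * (2 * Real.log (2 * L)) ≤ C₀ * c * L / 2 := by
      calc C₀ * (2 * Real.log (2 * L)) ≤ C₀ * (2 * (c / 8 * (2 * L))) := by gcongr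
        _ = C₀ * c * L / 2 := by ring
    have h9 : 2 * C₀ + |C| + 1 ≤ C₀ * c * L / 2 := by
      have h10 : 0 < C₀ * c := by positivity
      have h11 : (2 * C₀ + |C| + 1) * (2 / (C₀ * c)) * (C₀ * c / 2) ≤ L * (C₀ * c / 2) :=
        mul_le_mul_of_nonneg_right hL3 (by positivity)
      have h12 : (2 * C₀ + |C| + 1) * (2 / (C₀ * c)) * (C₀ * c / 2) = 2 * C₀ + |C| + 1 := by
        field_simp
      rw [h12] at h11
      linarith
    have h13 := le_abs_self C
    linarith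
  have h14 : Filter.Tendsto (fun N : ℕ => Real.log (N : ℝ)) Filter.atTop Filter.atTop :=
    Real.tendsto_log_atTop.comp tendsto_natCast_atTop_atTop
  obtain ⟨N₃, hN₃⟩ := Filter.eventually_atTop.1 (h14.eventually h1)
  refine ⟨max N₃ 3, fun N hN => ?_⟩
  have hN3 : 3 ≤ N := (le_max_right _ _).trans hN
  obtain ⟨hL, hL2⟩ := hN₃ N ((le_max_left _ _).trans hN)
  set L := Real.log (N : ℝ) with hLd
  have hN0 : (0 : ℝ) < N := by
    have : (3 : ℝ) ≤ N := by exact_mod_cast hN3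
    linarith
  have hel : (el N : ℝ) ≤ 2 * L := by
    have h15 : (el N : ℝ) < L + 1 := by
      unfold el
      exact Nat.ceil_lt_add_one (by linarith)
    linarith
  have hel2 : L ≤ (el N : ℝ) := Nat.le_ceil _
  have hel3 : 2 ≤ el N := by
    have : (2 : ℝ) ≤ (el N : ℝ) := by linarith
    exact_mod_cast this
  refine ⟨hN3, ?_, hel3, ?_⟩
  · have h16 : ((2 * (⌊(N : ℝ) ^ c⌋₊ * el N ^ 2) : ℕ) : ℝ) ≤ (N : ℝ) := by
      push_cast
      have h17 : (⌊(N : ℝ) ^ c⌋₊ : ℝ) ≤ Real.exp (L / 4) := by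
        refine (Nat.floor_le (by positivity)).trans ?_
        rw [Real.rpow_def_of_pos hN0, ← hLd]
        apply Real.exp_le_exp.2
        nlinarith
      have h18 : (el N : ℝ) ^ 2 ≤ 4 * L ^ 2 := by nlinarith
      have h19 : 8 * L ^ 2 ≤ Real.exp (3 * L / 4) := by
        have h20 := Real.pow_div_factorial_le_exp (3 * L / 4) (by linarith) 3
        have h21 : (3 * L / 4) ^ 3 / ((3 : ℕ).factorial : ℝ) = 27 / 384 * L ^ 3 := by
          norm_num [Nat.factorial]
          ring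
        rw [h21] at h20
        nlinarith [sq_nonneg L]
      have h22 : Real.exp (L / 4) * Real.exp (3 * L / 4) = N := by
        rw [← Real.exp_add]
        have h23 : L / 4 + 3 * L / 4 = L := by ring
        rw [h23, hLd, Real.exp_log hN0]
      calc 2 * ((⌊(N : ℝ) ^ c⌋₊ : ℝ) * (el N : ℝ) ^ 2)
          ≤ 2 * (Real.exp (L / 4) * (4 * L ^ 2)) := by gcongr
        _ = Real.exp (L / 4) * (8 * L ^ 2) := by ring
        _ ≤ Real.exp (L / 4) * Real.exp (3 * L / 4) := by gcongr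
        _ = N := h22
    exact_mod_cast h16
  · have h24 : Real.log (el N) ≤ Real.log (2 * L) :=
      Real.log_le_log (by linarith) hel
    have h25 : C₀ * (2 * Real.log (el N)) ≤ C₀ * (2 * Real.log (2 * L)) := by gcongr
    linarith

theorem stmt_WT2 (h1 : Stmt_THU) (h2 : Stmt_TRANS) (h3 : Stmt_GGB) (h4 : Stmt_LVL)
    (h5 : Stmt_CPA) : Stmt_WT2 := by
  classical
  intro a k₀ C₀ κ c hD hκ hc hc4
  obtain ⟨C, N₁, hC, hT⟩ := h2 a k₀ C₀ κ hD hκ
  obtain ⟨N₂, hL⟩ := h4 a k₀ C₀ hD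
  have hC₀ : 1 ≤ C₀ := hD.one_le
  obtain ⟨N₃, hN₃⟩ := WT2_large C₀ C c hC₀ hc hc4
  obtain ⟨hG1, -, hG3, -⟩ := h3 a k₀ C₀ hD
  refine ⟨max (max N₁ N₂) N₃, ?_⟩
  intro n N hN hn1 hn2 hrec P₂ μ θ hP1 hP2 hEq
  have hNN1 : N₁ ≤ N := (le_max_left _ _).trans ((le_max_left _ _).trans hN)
  have hNN2 : N₂ ≤ N := (le_max_right _ _).trans ((le_max_left _ _).trans hN)
  obtain ⟨hN3, hk2, hl2, hfin⟩ := hN₃ N ((le_max_right _ _).trans hN)
  set l := el N with hl
  set M := ⌊(N : ℝ) ^ c⌋₊ with hM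
  set k := M * l ^ 2 with hk
  set Q := (PA a N P₂).filter (fun p : ℕ => (p : ℝ) ≤ (N : ℝ) ^ c) with hQ
  have hN0 : (0 : ℝ) < N := by
    have : (3 : ℝ) ≤ N := by exact_mod_cast hN3
    linarith
  have hNge1 : (1 : ℝ) ≤ N := by
    have : (3 : ℝ) ≤ N := by exact_mod_cast hN3
    linarith
  have hprime : ∀ p ∈ PA a N P₂, p.Prime := by
    intro p hp
    have := (mem_PA.1 hp).1
    exact Nat.prime_of_mem_primeFactors this
  have hQprime : ∀ p ∈ Q, p.Prime := fun p hp => hprime p (mem_filter.1 hp).1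
  have hlog : ∀ p ∈ PA a N P₂, 0 ≤ Real.log p := fun p hp =>
    Real.log_nonneg (by exact_mod_cast (hprime p hp).one_lt.le)
  have hM1 : 1 ≤ M := by
    apply Nat.le_floor
    rw [Nat.cast_one]
    exact Real.one_le_rpow hNge1 hc.le
  have hMle : (M : ℝ) ≤ (N : ℝ) ^ c := Nat.floor_le (by positivity)
  have hk1 : 2 ≤ k := by
    rw [hk]
    nlinarith
  have hk0 : (0 : ℝ) < k := by
    have : (2 : ℝ) ≤ k := by exact_mod_cast hk1
    linarith
  have hcardQ : (Q.card : ℝ) ≤ M := by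
    have h6 : Q ⊆ Icc 1 M := by
      intro p hp
      rw [mem_Icc]
      exact ⟨(hQprime p hp).one_lt.le, Nat.le_floor (mem_filter.1 hp).2⟩
    have h7 := Finset.card_le_card h6
    rw [Nat.card_Icc] at h7
    have h8 : Q.card ≤ M := by omega
    exact_mod_cast h8
  have hlL : Real.log N ≤ (l : ℝ) := Nat.le_ceil _
  have hl0 : (2 : ℝ) ≤ l := by exact_mod_cast hl2
  have hlogN : 0 ≤ Real.log N := Real.log_nonneg hNge1
  -- the levels
  have hP3 : P₂ * l ^ 3 ≤ N := by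
    refine le_trans ?_ hP2
    exact Nat.mul_le_mul_left _ (Nat.pow_le_pow_right (by omega) (by norm_num))
  have hLv := (hL N P₂ hNN2 hP1 hP3).2
  have hLvQ : ∑ p ∈ Q, Real.log p * (Lv C₀ a N (P₂ * l ^ 3) p : ℝ) ≤ N := by
    calc ∑ p ∈ Q, Real.log p * (Lv C₀ a N (P₂ * l ^ 3) p : ℝ)
        ≤ ∑ p ∈ PA a N P₂, Real.log p * (Lv C₀ a N (P₂ * l ^ 3) p : ℝ) := by
          apply Finset.sum_le_sum_of_subset_of_nonneg (Finset.filter_subset _ _)
          intro p hp _
          exact mul_nonneg (hlog p hp) (Nat.cast_nonneg _)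
      _ ≤ P₂ * (l : ℝ) ^ 5 := hLv
      _ ≤ N := by
          have h9 : P₂ * l ^ 5 ≤ N := by
            refine le_trans ?_ hP2
            exact Nat.mul_le_mul_left _ (Nat.pow_le_pow_right (by omega) (by norm_num))
          exact_mod_cast h9
  -- the transport
  have hTr := hT n N hNN1 hn1 hn2 hrec Q k hQprime (by omega) hk2
  have hlD : ∑ p ∈ Q, Real.log p * (nv p a k : ℝ) ≤ lD a k := by
    have h10 := (h5 a hD.ord N k (by omega)).2.2
    rw [← h10]
    have h11 : ∑ p ∈ Q, Real.log p * (nv p a k : ℝ) =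
        ∑ p ∈ Q.filter (fun p => 1 ≤ nv p a k), Real.log p * (nv p a k : ℝ) := by
      symm
      apply Finset.sum_subset (Finset.filter_subset _ _)
      intro p hp hnp
      have h12 : nv p a k = 0 := by
        by_contra h13
        exact hnp (mem_filter.2 ⟨hp, by omega⟩)
      rw [h12]
      simp
    rw [h11]
    apply Finset.sum_le_sum_of_subset_of_nonneg
    · intro p hp
      have h14 := mem_filter.1 hp
      rw [mem_PA]
      exact ⟨(mem_PA.1 (mem_filter.1 h14.1).1).1, h14.2⟩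
    · intro p hp _
      have h15 : p.Prime := Nat.prime_of_mem_primeFactors (mem_PA.1 hp).1
      exact mul_nonneg (Real.log_nonneg (by exact_mod_cast h15.one_lt.le)) (Nat.cast_nonneg _)
  have hg : lD a k ≤ k * (C₀ * (c * Real.log N + 2 * Real.log l)) := by
    rw [← hG3 k]
    apply mul_le_mul_of_nonneg_left _ hk0.le
    refine (hG1 k hk1).trans ?_
    apply mul_le_mul_of_nonneg_left _ (by linarith)
    have hM0 : (0 : ℝ) < M := by exact_mod_cast hM1
    have h16 : Real.log k = Real.log M + 2 * Real.log l := by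
      rw [hk]
      push_cast
      rw [Real.log_mul hM0.ne' (by positivity), Real.log_pow]
      norm_num
    have h17 : Real.log M ≤ c * Real.log N := by
      rw [← Real.log_rpow hN0]
      exact Real.log_le_log hM0 hMle
    linarith
  have hmid : (Q.card : ℝ) * (2 * C₀ * Real.log N) ≤ k * (2 * C₀) := by
    calc (Q.card : ℝ) * (2 * C₀ * Real.log N) ≤ M * (2 * C₀ * Real.log N) := by gcongr
      _ ≤ M * (2 * C₀ * (l : ℝ) ^ 2) := by
          have h18 : Real.log N ≤ (l : ℝ) ^ 2 := by nlinarith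
          gcongr
      _ = k * (2 * C₀) := by
          rw [hk]
          push_cast
          ring
  -- conclusion
  have hθ : ∀ p ∈ Q, Real.log p * θ p ≤
      (Real.log p * (nv p a N : ℝ) + Real.log p * (Lv C₀ a N (P₂ * l ^ 3) p : ℝ)) / N := by
    intro p hp
    have hpA : p ∈ PA a N P₂ := (mem_filter.1 hp).1
    have h19 := h1 a hD.ord p N _ (μ p) (θ p) (hQprime p hp) (by omega) (hEq p hpA)
    calc Real.log p * θ p
        ≤ Real.log p * ((nv p a N : ℝ) / N + (Lv C₀ a N (P₂ * l ^ 3) p : ℝ) / N) :=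
          mul_le_mul_of_nonneg_left h19 (hlog p hpA)
      _ = _ := by ring
  have hsum : ∑ p ∈ Q, Real.log p * θ p ≤
      (∑ p ∈ Q, Real.log p * (nv p a N : ℝ) +
        ∑ p ∈ Q, Real.log p * (Lv C₀ a N (P₂ * l ^ 3) p : ℝ)) / N := by
    rw [← Finset.sum_add_distrib, Finset.sum_div]
    exact Finset.sum_le_sum hθ
  refine hsum.trans ?_
  rw [div_le_iff₀ hN0]
  have h20 : ((N : ℝ) / k) * (∑ p ∈ Q, Real.log p * (nv p a k : ℝ) +
      Q.card * (2 * C₀ * Real.log N)) ≤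
      N * (C₀ * (c * Real.log N + 2 * Real.log l) + 2 * C₀) := by
    rw [div_mul_eq_mul_div, div_le_iff₀ hk0]
    calc (N : ℝ) * (∑ p ∈ Q, Real.log p * (nv p a k : ℝ) + Q.card * (2 * C₀ * Real.log N))
        ≤ N * (k * (C₀ * (c * Real.log N + 2 * Real.log l)) + k * (2 * C₀)) := by
          apply mul_le_mul_of_nonneg_left _ hN0.le
          exact add_le_add (hlD.trans hg) hmid
      _ = _ := by ring
  nlinarith [hTr, h20, hLvQ, hfin]

end Pool.Agent.Work.MP_b29d7f_low
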