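import Pool.Agent.Work.MP_b29d7f_low.Interface2

/-!
# Block WU1: the energy of the windows of one block
-/

namespace Pool.Agent.Work.MP_b29d7f_low

open Finset
open Pool.Agent.Work.MP_b29d7f_half (Ord)
open Pool.Agent.Work.MP_b29d7f_sep (nv EW stmt_WINDOW stmt_PADIC stmt_MINP)

theorem WU1_tri (m : ℕ) :
    ∑ t ∈ range m, min ((t : ℝ) + 1) ((m : ℝ) - t) ≤ ((m : ℝ) + 1) ^ 2 / 4 := by
  induction m using Nat.twoStepInduction with
  | zero => norm_num
  | one =>
    rw [Finset.sum_range_one]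
    have : min (((0 : ℕ) : ℝ) + 1) (((1 : ℕ) : ℝ) - ((0 : ℕ) : ℝ)) ≤ 1 := by
      apply le_trans (min_le_left _ _)
      norm_num
    refine le_trans this ?_
    norm_num
  | more m ih _ =>
    rw [Finset.sum_range_succ, Finset.sum_range_succ']
    have e1 : ∀ t ∈ range m, min (((t + 1 : ℕ) : ℝ) + 1) (((m + 2 : ℕ) : ℝ) - ((t + 1 : ℕ) : ℝ)) =
        min ((t : ℝ) + 1) ((m : ℝ) - t) + 1 := by
      intro t _
      push_cast
      rw [show (m : ℝ) + 2 - (t + 1) = ((m : ℝ) - t) + 1 from by ring, min_add_add_right]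
    rw [Finset.sum_congr rfl e1, Finset.sum_add_distrib]
    have h2 : min (((m + 1 : ℕ) : ℝ) + 1) (((m + 2 : ℕ) : ℝ) - ((m + 1 : ℕ) : ℝ)) ≤ 1 := by
      apply le_trans (min_le_right _ _)
      push_cast
      linarith
    have h3 : min (((0 : ℕ) : ℝ) + 1) (((m + 2 : ℕ) : ℝ) - ((0 : ℕ) : ℝ)) ≤ 1 := by
      apply le_trans (min_le_left _ _)
      push_cast
      linarith
    have h4 : ∑ t ∈ range m, (1 : ℝ) = m := by simp
    rw [h4]
    calc _ ≤ (((m : ℝ) + 1) ^ 2 / 4 + m) + 1 + 1 := add_le_add (add_le_add (add_le_add ih le_rfl) h3) h2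
      _ = (((m + 2 : ℕ) : ℝ) + 1) ^ 2 / 4 := by push_cast; ring

/-- the sum over the windows of the distances -/
theorem WU1_min (o : ℕ → ℝ) (ho : ∀ g, 0 ≤ o g) (N m : ℕ) (hmN : m ≤ N) :
    ∑ u ∈ range (N - m + 1), ∑ g ∈ Ico u (u + m),
      o g * min ((u : ℝ) + m - g) ((g : ℝ) + 1 - u) ≤
    ((m : ℝ) + 1) ^ 2 / 4 * ∑ g ∈ range N, o g := by
  have h1 : ∀ u ∈ range (N - m + 1), ∑ g ∈ Ico u (u + m),
      o g * min ((u : ℝ) + m - g) ((g : ℝ) + 1 - u) =
      ∑ g ∈ range N, (if u ≤ g ∧ g < u + m then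
        o g * min ((u : ℝ) + m - g) ((g : ℝ) + 1 - u) else 0) := by
    intro u hu
    have hu' := mem_range.1 hu
    rw [← Finset.sum_filter]
    apply Finset.sum_congr _ (fun _ _ => rfl)
    ext g
    simp only [mem_Ico, mem_filter, mem_range]
    constructor
    · intro h
      exact ⟨by omega, h⟩
    · intro h
      exact h.2
  rw [Finset.sum_congr rfl h1, Finset.sum_comm, Finset.mul_sum]
  apply Finset.sum_le_sum
  intro g hg
  have h2 : ∑ u ∈ range (N - m + 1), (if u ≤ g ∧ g < u + m then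
        o g * min ((u : ℝ) + m - g) ((g : ℝ) + 1 - u) else 0) ≤
      ∑ u ∈ Ico (g + 1 - m) (g + 1), o g * |min ((u : ℝ) + m - g) ((g : ℝ) + 1 - u)| := by
    rw [← Finset.sum_filter]
    have hsub : ((range (N - m + 1)).filter fun u => u ≤ g ∧ g < u + m) ⊆
        Ico (g + 1 - m) (g + 1) := by
      intro u hu
      have := (mem_filter.1 hu).2
      exact mem_Ico.2 (by omega)
    refine le_trans (Finset.sum_le_sum (fun u _ => ?_))
      (Finset.sum_le_sum_of_subset_of_nonneg hsub (fun u _ _ =>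
        mul_nonneg (ho g) (abs_nonneg _)))
    exact mul_le_mul_of_nonneg_left (le_abs_self _) (ho g)
  refine le_trans h2 ?_
  have h3 : ∑ u ∈ Ico (g + 1 - m) (g + 1), |min ((u : ℝ) + m - g) ((g : ℝ) + 1 - u)| ≤
      ∑ t ∈ range m, min ((t : ℝ) + 1) ((m : ℝ) - t) := by
    have e : ∑ u ∈ Ico (g + 1 - m) (g + 1), |min ((u : ℝ) + m - g) ((g : ℝ) + 1 - u)| =
        ∑ u ∈ Ico (g + 1 - m) (g + 1), min (((g - u : ℕ) : ℝ) + 1) ((m : ℝ) - ((g - u : ℕ) : ℝ)) := by
      apply Finset.sum_congr rfl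
      intro u hu
      have hu' := mem_Ico.1 hu
      have hc : ((g - u : ℕ) : ℝ) = (g : ℝ) - u := by rw [Nat.cast_sub (by omega)]
      have hug : (u : ℝ) ≤ g := by exact_mod_cast (by omega : u ≤ g)
      have hgm : (g : ℝ) + 1 ≤ u + m := by exact_mod_cast (by omega : g + 1 ≤ u + m)
      rw [hc, abs_of_nonneg, min_comm]
      · congr 1 <;> ring
      · apply le_min <;> linarith
    rw [e]
    have hinj : Set.InjOn (fun u => g - u) (Ico (g + 1 - m) (g + 1) : Finset ℕ) := by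
      intro a ha b hb hab
      have ha' := mem_Ico.1 (Finset.mem_coe.1 ha)
      have hb' := mem_Ico.1 (Finset.mem_coe.1 hb)
      simp only at hab
      omega
    rw [← Finset.sum_image (f := fun t : ℕ => min ((t : ℝ) + 1) ((m : ℝ) - t)) hinj]
    apply Finset.sum_le_sum_of_subset_of_nonneg
    · intro t ht
      obtain ⟨u, hu, rfl⟩ := mem_image.1 ht
      have := mem_Ico.1 hu
      exact mem_range.2 (by omega)
    · intro t ht _
      have : (t : ℝ) < m := by exact_mod_cast mem_range.1 ht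
      apply le_min
      · positivity
      · linarith
  rw [← Finset.mul_sum]
  calc o g * ∑ u ∈ Ico (g + 1 - m) (g + 1), |min ((u : ℝ) + m - g) ((g : ℝ) + 1 - u)|
      ≤ o g * (((m : ℝ) + 1) ^ 2 / 4) := by
        apply mul_le_mul_of_nonneg_left _ (ho g)
        exact le_trans h3 (WU1_tri m)
    _ = ((m : ℝ) + 1) ^ 2 / 4 * o g := by ring

/-- the sum over the windows of the growth -/
theorem WU1_growth (w : ℕ → ℕ) (hw : Monotone w) (N m : ℕ) (hmN : m ≤ N) :
    ∑ u ∈ range (N - m + 1), ((w (u + m) : ℝ) - w u) ≤ m * ((w N : ℝ) - w 0) := by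
  have h1 : ∀ u ∈ range (N - m + 1), ((w (u + m) : ℝ) - w u) =
      ∑ t ∈ range m, ((w (u + (t + 1)) : ℝ) - w (u + t)) := by
    intro u _
    rw [Finset.sum_range_sub (fun t => (w (u + t) : ℝ))]
    simp
  rw [Finset.sum_congr rfl h1, Finset.sum_comm]
  have h2 : ∀ t ∈ range m, ∑ u ∈ range (N - m + 1), ((w (u + (t + 1)) : ℝ) - w (u + t)) ≤
      (w N : ℝ) - w 0 := by
    intro t ht
    have ht' := mem_range.1 ht
    have e : ∀ u ∈ range (N - m + 1), ((w (u + (t + 1)) : ℝ) - w (u + t)) =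
        ((fun u => (w (u + t) : ℝ)) (u + 1) - (fun u => (w (u + t) : ℝ)) u) := by
      intro u _
      simp only
      rw [show u + 1 + t = u + (t + 1) from by ring]
    rw [Finset.sum_congr rfl e, Finset.sum_range_sub (fun u => (w (u + t) : ℝ))]
    have h3 : (w (N - m + 1 + t) : ℝ) ≤ w N := by exact_mod_cast hw (by omega)
    have h4 : (w 0 : ℝ) ≤ w (0 + t) := by exact_mod_cast hw (Nat.zero_le _)
    linarith
  refine le_trans (Finset.sum_le_sum h2) ?_
  rw [Finset.sum_const, Finset.card_range, nsmul_eq_mul]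

theorem WU1_win (p : ℕ) (hp : p.Prime) (a : ℕ → ℤ) (ho : Ord (Set.range a) a)
    (hmono : Monotone (nv p a)) (u w : ℕ) :
    EW p a u w ≤ ∑ g ∈ Ico u (u + w), (om p a g : ℝ) *
      min ((u : ℝ) + w - g) ((g : ℝ) + 1 - u) + PT p a u w := by
  obtain ⟨h1, h2⟩ := stmt_WINDOW stmt_PADIC (Set.range a) a ho p hp u w
  have e : ∀ g : ℕ, ((nv p a (g + 1) : ℝ) - nv p a g) = (om p a g : ℝ) := by
    intro g
    unfold om
    rw [Nat.cast_sub (hmono (Nat.le_succ g))]
  simp only [e] at h1 h2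
  exact stmt_MINP (om p a) u w (EW p a u w) h1 h2

theorem stmt_WU1 (hPAD : Stmt_PAD) (hPAE : Stmt_PAE) : Stmt_WU1 := by
  intro a ho p hp s Q w hw hwQ
  obtain ⟨hmono, -, -, -, -⟩ := hPAD a ho p hp
  obtain ⟨-, -, -, -, -, -, -, hE, -⟩ := (hPAE a ho).2 p hp
  have hlen : s + Q - w + 1 - s = Q - w + 1 := by omega
  refine ⟨?_, ?_⟩
  · rw [Finset.sum_Ico_eq_sum_range, hlen]
    have hg := WU1_growth (fun k => nv p a (s + k)) (fun i j hij => hmono (by omega)) Q w hwQ
    calc ∑ u ∈ range (Q - w + 1), EW p a (s + u) w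
        ≤ ∑ u ∈ range (Q - w + 1), ((w : ℝ) + 1) / 2 *
            ((nv p a (s + (u + w)) : ℝ) - nv p a (s + u)) := by
          apply Finset.sum_le_sum
          intro u _
          have h1 := hE (s + u) w
          rw [show s + u + w = s + (u + w) from by ring] at h1
          linarith
      _ = ((w : ℝ) + 1) / 2 * ∑ u ∈ range (Q - w + 1),
            ((nv p a (s + (u + w)) : ℝ) - nv p a (s + u)) := by
          rw [Finset.mul_sum]
      _ ≤ ((w : ℝ) + 1) / 2 * (w * ((nv p a (s + Q) : ℝ) - nv p a (s + 0))) :=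
          mul_le_mul_of_nonneg_left hg (by positivity)
      _ = ((w : ℝ) * (w + 1) / 2) * ((nv p a (s + Q) : ℝ) - nv p a s) := by
          rw [add_zero]
          ring
  · have h1 : ∑ u ∈ Ico s (s + Q - w + 1), EW p a u w ≤
        ∑ u ∈ Ico s (s + Q - w + 1), (∑ g ∈ Ico u (u + w), (om p a g : ℝ) *
          min ((u : ℝ) + w - g) ((g : ℝ) + 1 - u)) +
        ∑ u ∈ Ico s (s + Q - w + 1), PT p a u w := by
      rw [← Finset.sum_add_distrib]
      exact Finset.sum_le_sum fun u _ => WU1_win p hp a ho hmono u w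
    refine h1.trans ?_
    apply add_le_add _ le_rfl
    rw [Finset.sum_Ico_eq_sum_range, hlen]
    have h2 : ∀ u ∈ range (Q - w + 1), ∑ g ∈ Ico (s + u) (s + u + w), (om p a g : ℝ) *
        min (((s + u : ℕ) : ℝ) + w - g) ((g : ℝ) + 1 - ((s + u : ℕ) : ℝ)) =
        ∑ g ∈ Ico u (u + w), (om p a (s + g) : ℝ) * min ((u : ℝ) + w - g) ((g : ℝ) + 1 - u) := by
      intro u _
      have e1 : s + u = u + s := by ring
      have e2 : s + u + w = (u + w) + s := by ring
      rw [e2]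
      conv_lhs => rw [show Ico (s + u) (u + w + s) = Ico (u + s) (u + w + s) from by rw [e1]]
      rw [← Finset.sum_Ico_add (fun g => (om p a g : ℝ) *
        min (((s + u : ℕ) : ℝ) + w - g) ((g : ℝ) + 1 - ((s + u : ℕ) : ℝ))) u (u + w) s]
      apply Finset.sum_congr rfl
      intro g _
      push_cast
      congr 1
      congr 1 <;> ring
    rw [Finset.sum_congr rfl h2]
    refine (WU1_min (fun g => (om p a (s + g) : ℝ)) (fun g => Nat.cast_nonneg _) Q w hwQ).trans ?_
    apply le_of_eq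
    congr 1
    have h3 : ∀ g ∈ range Q, (om p a (s + g) : ℝ) =
        (fun k => (nv p a (s + k) : ℝ)) (g + 1) - (fun k => (nv p a (s + k) : ℝ)) g := by
      intro g _
      unfold om
      rw [Nat.cast_sub (hmono (Nat.le_succ _))]
      rfl
    rw [Finset.sum_congr rfl h3, Finset.sum_range_sub (fun k => (nv p a (s + k) : ℝ))]
    simp

end Pool.Agent.Work.MP_b29d7f_low
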