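import Pool.Agent.Work.MP_b29d7f_low.Interface3

/-!
# Block XPR: the energies as averages of probabilities
-/

namespace Pool.Agent.Work.MP_b29d7f_low

open Finset
open Pool.Agent.Work.MP_b29d7f_nt (IsPOrdering HasSimultaneousOrdering PS vd ld tv)

open scoped Classical in
private theorem xpr_tv (p L : ℕ) (x y : ℤ) :
    (tv p L (x - y) : ℝ) = ∑ i ∈ Icc 1 L, if ((p ^ i : ℕ) : ℤ) ∣ y - x then (1 : ℝ) else 0 := by
  unfold Pool.Agent.Work.MP_b29d7f_nt.tv
  rw [Finset.card_filter]
  push_cast
  refine Finset.sum_congr rfl fun i _ => ?_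
  have h : (p : ℤ) ^ i ∣ x - y ↔ (p : ℤ) ^ i ∣ y - x := dvd_sub_comm
  by_cases hd : (p : ℤ) ^ i ∣ x - y
  · rw [if_pos hd, if_pos (h.1 hd)]
  · rw [if_neg hd, if_neg (fun h' => hd (h.2 h'))]

theorem stmt_XPR : Stmt_XPR := by
  classical
  intro p L hp
  refine ⟨?_, ?_, ?_, ?_⟩
  · intro K hK
    have hc : (0 : ℝ) < K.card := by exact_mod_cast hK.card_pos
    unfold Xe Pr
    have e1 : ∀ x ∈ K, ∑ y ∈ K, (tv p L (x - y) : ℝ) =
        (∑ i ∈ Icc 1 L, ((K.filter fun y => ((p ^ i : ℕ) : ℤ) ∣ y - x).card : ℝ) / K.card) *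
          K.card := by
      intro x _
      rw [Finset.sum_mul]
      have : ∀ y ∈ K, (tv p L (x - y) : ℝ) =
          ∑ i ∈ Icc 1 L, if ((p ^ i : ℕ) : ℤ) ∣ y - x then (1 : ℝ) else 0 :=
        fun y _ => xpr_tv p L x y
      rw [Finset.sum_congr rfl this, Finset.sum_comm]
      refine Finset.sum_congr rfl fun i _ => ?_
      rw [Finset.card_filter]
      push_cast
      field_simp
    rw [Finset.sum_congr rfl e1, ← Finset.sum_mul]
    rw [sq]
    rw [mul_div_mul_right _ _ hc.ne']
  · intro X μ x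
    have e1 : ∀ y ∈ X, (tv p L (x - y) : ℝ) * μ y =
        ∑ i ∈ Icc 1 L, if ((p ^ i : ℕ) : ℤ) ∣ y - x then μ y else 0 := by
      intro y _
      rw [xpr_tv, Finset.sum_mul]
      refine Finset.sum_congr rfl fun i _ => ?_
      split_ifs <;> simp
    rw [Finset.sum_congr rfl e1, Finset.sum_comm]
    refine Finset.sum_congr rfl fun i _ => ?_
    unfold Ms
    rw [Finset.sum_filter]
  · intro K q x hx
    have hc : (0 : ℝ) < K.card := by exact_mod_cast Finset.card_pos.2 ⟨x, hx⟩
    unfold Pr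
    constructor
    · refine div_pos ?_ hc
      have : x ∈ K.filter fun y => (q : ℤ) ∣ y - x := by
        rw [Finset.mem_filter]
        exact ⟨hx, by simp⟩
      exact_mod_cast Finset.card_pos.2 ⟨x, this⟩
    · rw [div_le_one hc]
      exact_mod_cast Finset.card_filter_le _ _
  · intro X μ q x x' h
    unfold Ms
    refine Finset.sum_congr ?_ fun _ _ => rfl
    refine Finset.filter_congr fun y _ => ?_
    constructor
    · intro h1
      have : y - x' = (y - x) + (x - x') := by ring
      rw [this]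
      exact dvd_add h1 h
    · intro h1
      have : y - x = (y - x') - (x - x') := by ring
      rw [this]
      exact dvd_sub h1 h

end Pool.Agent.Work.MP_b29d7f_low
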