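import Pool.Agent.Work.MP_b29d7f_low.Interface3

/-!
# Block YUP: upper bound for the energy of a set of differences (helper67)
-/

namespace Pool.Agent.Work.MP_b29d7f_low

open Finset
open Pool.Agent.Work.MP_b29d7f_nt (IsPOrdering HasSimultaneousOrdering PS vd ld tv)
open Pool.Agent.Work.MP_b29d7f_half (Ord A wv lD)
open Pool.Agent.Work.MP_b29d7f_sep (nv EW EL)

theorem YUP_prime {a : ℕ → ℤ} {N P p : ℕ} (h : p ∈ PA a N P) : p.Prime :=
  Nat.prime_of_mem_primeFactors (mem_PA.1 h).1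

/-- the truncated valuations of a nonzero integer over a set of primes -/
theorem YUP_tv {s : Finset ℕ} (hs : ∀ p ∈ s, p.Prime) (L : ℕ → ℕ) {z : ℤ} (hz : z ≠ 0) :
    ∑ p ∈ s, Real.log p * (tv p (L p) z : ℝ) ≤ Real.log |(z : ℝ)| := by
  have hpr : ∀ p ∈ s ∪ z.natAbs.primeFactors, p.Prime := by
    intro p hp
    rw [Finset.mem_union] at hp
    rcases hp with hp | hp
    · exact hs p hp
    · exact Nat.prime_of_mem_primeFactors hp
  have e : Real.log |(z : ℝ)| =
      ∑ p ∈ s ∪ z.natAbs.primeFactors, (multiplicity (p : ℤ) z : ℝ) * Real.log p := by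
    refine Pool.Agent.Work.MP_b29d7f_nt.log_eq_sum z hz _ hpr ?_
    intro p hp hm
    rw [Finset.mem_union]
    right
    rw [Nat.mem_primeFactors]
    refine ⟨hp, ?_, Int.natAbs_ne_zero.mpr hz⟩
    have h1 : (p : ℤ) ∣ z := by
      by_contra hcon
      exact hm (multiplicity_eq_zero.mpr hcon)
    exact Int.natCast_dvd.mp h1
  rw [e]
  calc ∑ p ∈ s, Real.log p * (tv p (L p) z : ℝ)
      ≤ ∑ p ∈ s, (multiplicity (p : ℤ) z : ℝ) * Real.log p := by
        refine Finset.sum_le_sum fun p hp => ?_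
        rw [mul_comm]
        refine mul_le_mul_of_nonneg_right ?_ (Real.log_natCast_nonneg p)
        exact_mod_cast Pool.Agent.Work.MP_b29d7f_half.KSUM94.tv_le (hs p hp) (L p) hz
    _ ≤ _ := by
        refine Finset.sum_le_sum_of_subset_of_nonneg Finset.subset_union_left fun p _ _ =>
          mul_nonneg (Nat.cast_nonneg _) (Real.log_natCast_nonneg p)

/-- the energies of a finite set whose differences are at most `H` -/
theorem YUP_core {s : Finset ℕ} (hs : ∀ p ∈ s, p.Prime) (L : ℕ → ℕ) (D : Finset ℤ) (T U : ℝ)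
    (hD : 1 ≤ D.card) (hT0 : 0 ≤ T)
    (hT : ∀ x ∈ D, ∀ y ∈ D, x ≠ y → Real.log |((x - y : ℤ) : ℝ)| ≤ T)
    (hU : ∑ p ∈ s, Real.log p * (L p : ℝ) ≤ U * D.card) :
    ∑ p ∈ s, Real.log p * Xe p (L p) D ≤ T + U := by
  have hc : (0 : ℝ) < D.card := by exact_mod_cast hD
  have h1 : ∑ p ∈ s, Real.log p * Xe p (L p) D =
      (∑ x ∈ D, ∑ y ∈ D, ∑ p ∈ s, Real.log p * (tv p (L p) (x - y) : ℝ)) /
        (D.card : ℝ) ^ 2 := by
    unfold Xe
    have : ∀ x ∈ D, ∑ y ∈ D, ∑ p ∈ s, Real.log p * (tv p (L p) (x - y) : ℝ) =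
        ∑ p ∈ s, ∑ y ∈ D, Real.log p * (tv p (L p) (x - y) : ℝ) := fun x _ => Finset.sum_comm
    rw [Finset.sum_congr rfl this, Finset.sum_comm, Finset.sum_div]
    refine Finset.sum_congr rfl fun p _ => ?_
    rw [mul_div_assoc', Finset.mul_sum]
    congr 1
    refine Finset.sum_congr rfl fun x _ => ?_
    rw [Finset.mul_sum]
  have h2 : ∀ x ∈ D, ∑ y ∈ D, ∑ p ∈ s, Real.log p * (tv p (L p) (x - y) : ℝ) ≤
      U * D.card + D.card * T := by
    intro x hx
    rw [← Finset.add_sum_erase _ _ hx]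
    refine add_le_add ?_ ?_
    · simp only [sub_self, Pool.Agent.Work.MP_b29d7f_half.KSUM94.tv_zero]
      exact hU
    · calc ∑ y ∈ D.erase x, ∑ p ∈ s, Real.log p * (tv p (L p) (x - y) : ℝ)
          ≤ ∑ y ∈ D.erase x, T := by
            refine Finset.sum_le_sum fun y hy => ?_
            have hne : x ≠ y := (Finset.ne_of_mem_erase hy).symm
            exact (YUP_tv hs L (sub_ne_zero.mpr hne)).trans
              (hT x hx y (Finset.mem_of_mem_erase hy) hne)
        _ ≤ D.card * T := by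
            rw [Finset.sum_const, nsmul_eq_mul]
            refine mul_le_mul_of_nonneg_right ?_ hT0
            exact_mod_cast Finset.card_le_card (Finset.erase_subset _ _)
  rw [h1, div_le_iff₀ (by positivity)]
  calc ∑ x ∈ D, ∑ y ∈ D, ∑ p ∈ s, Real.log p * (tv p (L p) (x - y) : ℝ)
      ≤ ∑ x ∈ D, (U * D.card + D.card * T) := Finset.sum_le_sum h2
    _ = (T + U) * (D.card : ℝ) ^ 2 := by
        rw [Finset.sum_const, nsmul_eq_mul]
        ring

theorem stmt_YUP (hLVL : Stmt_LVL) : Stmt_YUP := by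
  intro a k₀ C₀ hDat
  obtain ⟨N₁, hN₁⟩ := hLVL a k₀ C₀ hDat
  refine ⟨max N₁ 3, ?_⟩
  intro N P₂ H D hN hP hPN hH hDH hDc
  obtain ⟨-, hlv⟩ := hN₁ N P₂ ((le_max_left _ _).trans hN) hP hPN
  have hN3 : 3 ≤ N := (le_max_right _ _).trans hN
  have hel : 1 ≤ el N := by
    unfold el
    rw [Nat.one_le_ceil_iff]
    exact Real.log_pos (by exact_mod_cast (by omega : 1 < N))
  have helr : (1 : ℝ) ≤ (el N : ℝ) := by exact_mod_cast hel
  have hPr : (1 : ℝ) ≤ (P₂ : ℝ) := by exact_mod_cast hP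
  have hcard : 1 ≤ D.card := by
    refine le_trans ?_ hDc
    exact Nat.one_le_iff_ne_zero.mpr (Nat.mul_ne_zero (by omega) (pow_ne_zero _ (by omega)))
  refine YUP_core (fun p hp => YUP_prime hp) _ D (Real.log H) 1 hcard
    (Real.log_natCast_nonneg H) ?_ ?_
  · intro x hx y hy hne
    have hx' := Finset.mem_Icc.1 (hDH hx)
    have hy' := Finset.mem_Icc.1 (hDH hy)
    refine Real.log_le_log (abs_pos.2 (by exact_mod_cast sub_ne_zero.mpr hne)) ?_
    have h1 : |x - y| ≤ (H : ℤ) := by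
      rw [abs_le]
      constructor <;> omega
    exact_mod_cast h1
  · rw [one_mul]
    refine hlv.trans ?_
    calc (P₂ : ℝ) * (el N : ℝ) ^ 5 ≤ (P₂ : ℝ) * (el N : ℝ) ^ 6 := by
          refine mul_le_mul_of_nonneg_left ?_ (by linarith)
          exact pow_le_pow_right₀ helr (by norm_num)
      _ ≤ (D.card : ℝ) := by exact_mod_cast hDc

end Pool.Agent.Work.MP_b29d7f_low
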