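import Pool.Agent.Work.MP_b29d7f_low.B_BLK
import Pool.Agent.Work.MP_b29d7f_low.B_COUP
import Pool.Agent.Work.MP_b29d7f_low.B_ENG
import Pool.Agent.Work.MP_b29d7f_low.B_ENT
import Pool.Agent.Work.MP_b29d7f_low.B_EQM
import Pool.Agent.Work.MP_b29d7f_low.B_FOUR
import Pool.Agent.Work.MP_b29d7f_low.B_GIJ
import Pool.Agent.Work.MP_b29d7f_low.B_GIJ2
import Pool.Agent.Work.MP_b29d7f_low.B_GR1
import Pool.Agent.Work.MP_b29d7f_low.B_GR2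
import Pool.Agent.Work.MP_b29d7f_low.B_GR3
import Pool.Agent.Work.MP_b29d7f_low.B_LIM
import Pool.Agent.Work.MP_b29d7f_low.B_LLD
import Pool.Agent.Work.MP_b29d7f_low.B_LREX
import Pool.Agent.Work.MP_b29d7f_low.B_LWL
import Pool.Agent.Work.MP_b29d7f_low.B_NUM1
import Pool.Agent.Work.MP_b29d7f_low.B_PAD
import Pool.Agent.Work.MP_b29d7f_low.B_EPU
import Pool.Agent.Work.MP_b29d7f_low.B_PAE
import Pool.Agent.Work.MP_b29d7f_low.B_BIG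
import Pool.Agent.Work.MP_b29d7f_low.B_DYA
import Pool.Agent.Work.MP_b29d7f_low.B_PIG1
import Pool.Agent.Work.MP_b29d7f_low.B_PIGF
import Pool.Agent.Work.MP_b29d7f_low.B_PRF
import Pool.Agent.Work.MP_b29d7f_low.B_CPA
import Pool.Agent.Work.MP_b29d7f_low.B_SUMS
import Pool.Agent.Work.MP_b29d7f_low.B_LL1
import Pool.Agent.Work.MP_b29d7f_low.B_SUPER
import Pool.Agent.Work.MP_b29d7f_low.B_THL
import Pool.Agent.Work.MP_b29d7f_low.B_THU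
import Pool.Agent.Work.MP_b29d7f_low.B_TSU
import Pool.Agent.Work.MP_b29d7f_low.B_CLU
import Pool.Agent.Work.MP_b29d7f_low.B_GGB
import Pool.Agent.Work.MP_b29d7f_low.B_GLOW
import Pool.Agent.Work.MP_b29d7f_low.B_FROST
import Pool.Agent.Work.MP_b29d7f_low.B_GR4
import Pool.Agent.Work.MP_b29d7f_low.B_GRO
import Pool.Agent.Work.MP_b29d7f_low.B_LRA
import Pool.Agent.Work.MP_b29d7f_low.B_LRC
import Pool.Agent.Work.MP_b29d7f_low.B_LRD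
import Pool.Agent.Work.MP_b29d7f_low.B_CATCHB
import Pool.Agent.Work.MP_b29d7f_low.B_LRE
import Pool.Agent.Work.MP_b29d7f_low.B_LVL
import Pool.Agent.Work.MP_b29d7f_low.B_RREX
import Pool.Agent.Work.MP_b29d7f_low.B_SCL
import Pool.Agent.Work.MP_b29d7f_low.B_SELA
import Pool.Agent.Work.MP_b29d7f_low.B_SEL
import Pool.Agent.Work.MP_b29d7f_low.B_FREX
import Pool.Agent.Work.MP_b29d7f_low.B_START
import Pool.Agent.Work.MP_b29d7f_low.B_THG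
import Pool.Agent.Work.MP_b29d7f_low.B_VLM
import Pool.Agent.Work.MP_b29d7f_low.B_JUMP
import Pool.Agent.Work.MP_b29d7f_low.B_PIGB
import Pool.Agent.Work.MP_b29d7f_low.B_TRANS
import Pool.Agent.Work.MP_b29d7f_low.B_LOCA
import Pool.Agent.Work.MP_b29d7f_low.B_WT1
import Pool.Agent.Work.MP_b29d7f_low.B_WT2
import Pool.Agent.Work.MP_b29d7f_low.B_WT3
import Pool.Agent.Work.MP_b29d7f_low.B_WTG
import Pool.Agent.Work.MP_b29d7f_low.B_WU1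
import Pool.Agent.Work.MP_b29d7f_low.B_LWU
import Pool.Agent.Work.MP_b29d7f_low.B_PART1
import Pool.Agent.Work.MP_b29d7f_low.B_XPR
import Pool.Agent.Work.MP_b29d7f_low.B_GPR
import Pool.Agent.Work.MP_b29d7f_low.B_LLP
import Pool.Agent.Work.MP_b29d7f_low.B_XUP
import Pool.Agent.Work.MP_b29d7f_low.B_YUP
import Pool.Agent.Work.MP_b29d7f_low.B_PART2
import Pool.Agent.Work.MP_b29d7f_low.B_MAIN
import Pool.Agent.Work.MP_b29d7f_low.Neg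

/-!
# One-sided sets of exponent smaller than one half: assembly of the blocks
-/

namespace Pool.Agent.Work.MP_b29d7f_low

theorem f_BLK : Stmt_BLK := stmt_BLK
theorem f_COUP : Stmt_COUP := p_COUP
theorem f_ENG : Stmt_ENG := stmt_ENG
theorem f_ENT : Stmt_ENT := stmt_ENT
theorem f_EQM : Stmt_EQM := stmt_EQM
theorem f_FOUR : Stmt_FOUR := p_FOUR
theorem f_GIJ : Stmt_GIJ := stmt_GIJ
theorem f_GIJ2 : Stmt_GIJ2 := stmt_GIJ2 f_GIJ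
theorem f_GR1 : Stmt_GR1 := stmt_GR1
theorem f_GR2 : Stmt_GR2 := stmt_GR2
theorem f_GR3 : Stmt_GR3 := stmt_GR3
theorem f_LIM : Stmt_LIM := stmt_LIM
theorem f_LLD : Stmt_LLD := stmt_LLD f_ENG
theorem f_LREX : Stmt_LREX := stmt_LREX
theorem f_LWL : Stmt_LWL := stmt_LWL
theorem f_NUM1 : Stmt_NUM1 := stmt_NUM1
theorem f_PAD : Stmt_PAD := stmt_PAD
theorem f_EPU : Stmt_EPU := stmt_EPU f_PAD
theorem f_PAE : Stmt_PAE := stmt_PAE f_PAD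
theorem f_BIG : Stmt_BIG := stmt_BIG f_PAD f_PAE
theorem f_DYA : Stmt_DYA := stmt_DYA f_PAE
theorem f_PIG1 : Stmt_PIG1 := stmt_PIG1
theorem f_PIGF : Stmt_PIGF := stmt_PIGF
theorem f_PRF : Stmt_PRF := stmt_PRF
theorem f_CPA : Stmt_CPA := stmt_CPA f_PRF
theorem f_SUMS : Stmt_SUMS := p_SUMS
theorem f_LL1 : Stmt_LL1 := stmt_LL1 f_SUMS f_FOUR
theorem f_SUPER : Stmt_SUPER := stmt_SUPER f_PAD
theorem f_THL : Stmt_THL := stmt_THL f_PAD f_PAE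
theorem f_THU : Stmt_THU := stmt_THU f_ENG f_EPU f_PAD f_PAE
theorem f_TSU : Stmt_TSU := stmt_TSU f_PRF f_SUPER
theorem f_CLU : Stmt_CLU := stmt_CLU f_TSU
theorem f_GGB : Stmt_GGB := stmt_GGB f_TSU
theorem f_GLOW : Stmt_GLOW := stmt_GLOW f_GGB
theorem f_FROST : Stmt_FROST := stmt_FROST f_GLOW f_CLU f_GGB
theorem f_GR4 : Stmt_GR4 := stmt_GR4 f_FROST f_GGB
theorem f_GRO : Stmt_GRO := stmt_GRO f_GR1 f_GR2 f_GR3 f_GR4 f_BLK
theorem f_LRA : Stmt_LRA := stmt_LRA f_TSU f_GGB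
theorem f_LRC : Stmt_LRC := stmt_LRC f_CLU f_LRA f_PAE f_GGB
theorem f_LRD : Stmt_LRD := stmt_LRD f_PAD f_PRF f_LRA f_LRC
theorem f_CATCHB : Stmt_CATCHB := stmt_CATCHB f_PAD f_PAE f_SUPER f_BIG f_LRD
theorem f_LRE : Stmt_LRE := stmt_LRE f_TSU f_LRA f_LRC f_PAE f_GGB
theorem f_LVL : Stmt_LVL := stmt_LVL f_GGB f_CPA f_PRF f_PAE
theorem f_RREX : Stmt_RREX := stmt_RREX f_GGB
theorem f_SCL : Stmt_SCL := stmt_SCL f_DYA f_GGB f_GLOW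
theorem f_SELA : Stmt_SELA := stmt_SELA f_GGB f_PAE
theorem f_SEL : Stmt_SEL := stmt_SEL f_SELA f_GGB
theorem f_FREX : Stmt_FREX := stmt_FREX f_LREX f_RREX f_SEL f_GGB
theorem f_START : Stmt_START := stmt_START f_TSU f_GGB
theorem f_THG : Stmt_THG := stmt_THG f_THL f_SUPER f_CPA f_LVL
theorem f_VLM : Stmt_VLM := stmt_VLM f_PAD f_PAE
theorem f_JUMP : Stmt_JUMP := stmt_JUMP f_PAD f_PAE f_VLM f_GGB
theorem f_PIGB : Stmt_PIGB := stmt_PIGB f_PIG1 f_JUMP f_BIG f_PRF f_PAD f_TSU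
theorem f_TRANS : Stmt_TRANS := stmt_TRANS f_PAD f_PAE f_VLM f_LRD f_GGB
theorem f_LOCA : Stmt_LOCA := stmt_LOCA f_TRANS f_CPA f_SUPER f_GGB f_PAD
theorem f_WT1 : Stmt_WT1 := stmt_WT1 f_GGB f_PRF f_CPA
theorem f_WT2 : Stmt_WT2 := stmt_WT2 f_THU f_TRANS f_GGB f_LVL f_CPA
theorem f_WT3 : Stmt_WT3 := stmt_WT3 f_THU f_LVL f_VLM f_PAD f_PAE f_LRD f_GGB f_PRF
theorem f_WTG : Stmt_WTG := stmt_WTG f_WT1 f_WT2 f_WT3 f_THG
theorem f_WU1 : Stmt_WU1 := stmt_WU1 f_PAD f_PAE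
theorem f_LWU : Stmt_LWU := stmt_LWU f_WU1 f_LOCA f_CATCHB f_PIGB f_PRF f_PAD f_GGB f_TSU
theorem f_PART1 : Stmt_PART1 := stmt_PART1 f_LWU f_LWL f_PIGF f_BLK f_GRO f_NUM1 f_GGB
theorem f_XPR : Stmt_XPR := stmt_XPR
theorem f_GPR : Stmt_GPR := stmt_GPR f_COUP f_ENT f_GIJ f_GIJ2 f_XPR
theorem f_LLP : Stmt_LLP := stmt_LLP f_GPR f_LLD f_LL1
theorem f_XUP : Stmt_XUP := stmt_XUP f_LRE f_LRA f_EPU f_SUPER f_TRANS f_THL f_THU f_LVL f_CPA f_PRF f_GGB f_PAD f_PAE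
theorem f_YUP : Stmt_YUP := stmt_YUP f_LVL
theorem f_PART2 : Stmt_PART2 := stmt_PART2 f_SCL f_EQM f_XUP f_YUP f_THG f_GPR f_LLP f_WTG
theorem f_MAIN : Stmt_MAIN := stmt_MAIN f_START f_LIM f_GGB f_FREX f_PART1 f_PART2

/-- a one-sided set of exponent smaller than one half has no simultaneous ordering -/
theorem one_sided (S : Set ℤ) (h1 : BddBelow S ∨ BddAbove S) (h2 : LowExponent S) :
    ¬ Pool.Agent.Work.MP_b29d7f_nt.HasSimultaneousOrdering S :=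
  of_main f_MAIN h1 h2

end Pool.Agent.Work.MP_b29d7f_low
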