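import Pool.Agent.Work.MP_b29d7f_low.Defs

/-!
# One-sided sets of exponent smaller than one half: statements of the blocks, part 1

Paper proof: note 2820, sections 0 and 1.  Every block is a closed proposition `Stmt_X`; a block is
done when a file `B_X.lean` proves `theorem stmt_X : Stmt_X` (possibly from other `Stmt_Y` as
hypotheses, exactly those listed in the table `low_blocks`).
-/

namespace Pool.Agent.Work.MP_b29d7f_low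

open Finset
open Pool.Agent.Work.MP_b29d7f_nt (IsPOrdering HasSimultaneousOrdering PS vd ld tv)
open Pool.Agent.Work.MP_b29d7f_half (Ord A wv lD)
open Pool.Agent.Work.MP_b29d7f_sep (nv EW EL)

/-! ### Section 0: basics -/

/-- PAD: the `p`-adic facts in index form: monotonicity, F1, the window form of F2.
Copy `cvx/B_PAD.lean` (it only uses that `a` is injective and `stmt_PADIC` of `sep`). -/
def Stmt_PAD : Prop := ∀ a : ℕ → ℤ, Ord (Set.range a) a → ∀ p : ℕ, p.Prime →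
  Monotone (nv p a) ∧ nv p a 0 = 0 ∧
  (∀ k j : ℕ, k ≤ j → nv p a k ≤ ∑ i ∈ range k, vl p a j i) ∧
  (∀ u v h : ℕ, u ≤ h → h ≤ v → nv p a u + ∑ l ∈ (Icc u v).erase h, vl p a h l ≤ nv p a v) ∧
  (∀ h k : ℕ, h < k → ∑ l ∈ (range k).erase h, vl p a h l ≤ nv p a k)

/-- PAE: consequences. Copy `cvx/B_PAE.lean`. -/
def Stmt_PAE : Prop := ∀ a : ℕ → ℤ, Ord (Set.range a) a → Function.Injective a ∧
  ∀ p : ℕ, p.Prime →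
  (∀ i j : ℕ, vl p a i j = vl p a j i) ∧
  (∀ i j l : ℕ, i ≠ j → j ≠ l → i ≠ l → min (vl p a i j) (vl p a j l) ≤ vl p a i l) ∧
  (∀ i j : ℕ, i ≠ j → (vl p a i j = 0 ↔ ¬ (p : ℤ) ∣ a i - a j)) ∧
  (∀ i j : ℕ, i ≠ j → (p : ℤ) ^ vl p a i j ≤ |a i - a j|) ∧
  (∀ i j : ℕ, i ≠ j → Real.log p * vl p a i j ≤ ld (a i) (a j)) ∧
  (∀ i j h : ℕ, i ≠ j → (h ≤ vl p a i j ↔ (p : ℤ) ^ h ∣ a i - a j)) ∧
  (∀ u m : ℕ, EW p a u m = ∑ j ∈ Ico u (u + m + 1), ∑ i ∈ Ico u j, (vl p a j i : ℝ)) ∧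
  (∀ u m : ℕ, 2 * EW p a u m ≤ ((m : ℝ) + 1) * ((nv p a (u + m) : ℝ) - nv p a u)) ∧
  (∀ u v i j : ℕ, u ≤ i → i < j → j ≤ v → nv p a v = nv p a u → ¬ (p : ℤ) ∣ a j - a i)

/-- SUPER: copy `cvx/B_SUPER.lean` -/
def Stmt_SUPER : Prop := ∀ a : ℕ → ℤ, Ord (Set.range a) a → ∀ p : ℕ, p.Prime →
  ∀ k l : ℕ, nv p a k + nv p a l ≤ nv p a (k + l)

/-- VLM: copy `cvx/B_VLM.lean` -/
def Stmt_VLM : Prop := ∀ a : ℕ → ℤ, Ord (Set.range a) a → ∀ p : ℕ, p.Prime →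
  ∀ k j : ℕ, 1 ≤ k → k ≤ j → ∃ l : ℕ, l < k ∧
    ∑ i ∈ range k, vl p a j i ≤ nv p a k + vl p a j l

/-- PRF: the product formula; copy `cvx/B_PRF.lean` (here with absolute values, `ld`) -/
def Stmt_PRF : Prop := ∀ a : ℕ → ℤ, Ord (Set.range a) a → ∀ n : ℕ,
  (∀ p ∈ PR a n, p.Prime) ∧
  (∀ i j : ℕ, i ≠ j → i ≤ n → j ≤ n →
    ld (a i) (a j) = ∑ p ∈ PR a n, Real.log p * vl p a i j) ∧
  (∀ k : ℕ, k ≤ n → lD a k = ∑ p ∈ PR a n, Real.log p * nv p a k) ∧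
  (∀ u m : ℕ, u + m ≤ n → EL a u m = ∑ p ∈ PR a n, Real.log p * EW p a u m) ∧
  (∀ k p : ℕ, k ≤ n → p.Prime → 1 ≤ nv p a k → p ∈ PR a n)

/-- EPU: the energies `E_p(n)`. First part: sum of F2 (`PAD`, last item) over `h < n`. Second part:
`stmt_AVG` of `half` and `PS_seq`; third part: `PS_seq`. -/
def Stmt_EPU : Prop := ∀ a : ℕ → ℤ, Ord (Set.range a) a → ∀ p : ℕ, p.Prime →
  (∀ n : ℕ, 2 * Ep p a n ≤ n * nv p a n) ∧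
  (∀ (n : ℕ) (W : Finset ℤ), 2 ≤ n → n ≤ W.card → (W : Set ℤ) ⊆ Set.range a →
    Ep p a n * (W.card : ℝ) ^ 2 ≤ (n : ℝ) ^ 2 * PS (vd p) W) ∧
  (∀ n : ℕ, PS (vd p) (A a n) = Ep p a n)

/-- TSU: the archimedean analogues (`PRF`, `SUPER`, `stmt_ARCHO` of `sep`) -/
def Stmt_TSU : Prop := ∀ a : ℕ → ℤ, Ord (Set.range a) a →
  (∀ k l : ℕ, lD a k + lD a l ≤ lD a (k + l)) ∧ (∀ k : ℕ, 0 ≤ lD a k) ∧ Monotone (lD a) ∧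
  (∀ h k : ℕ, h ≤ k → ∑ l ∈ (range (k + 1)).erase h, ld (a h) (a l) ≤ lD a k) ∧
  (∀ X : Finset ℤ, (X : Set ℤ) ⊆ Set.range a → Es a X.card ≤ PS ld X)

/-- GGB: bounds for `g`. `(SA)` of the note is the fourth and fifth item; `gg a 1 ≤ C₀ log 2`. -/
def Stmt_GGB : Prop := ∀ (a : ℕ → ℤ) (k₀ : ℕ) (C₀ : ℝ), Dat a k₀ C₀ →
  (∀ k : ℕ, 2 ≤ k → gg a k ≤ C₀ * Real.log k) ∧ (∀ k : ℕ, 0 ≤ gg a k) ∧
  (∀ k : ℕ, (k : ℝ) * gg a k = lD a k) ∧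
  (∀ r k : ℕ, 1 ≤ r → r ≤ k → gg a r * (1 - (r : ℝ) / k) ≤ gg a k) ∧
  (∀ N r k : ℕ, 2 ≤ N → 1 ≤ r → r ≤ N → el N * r ≤ k → gg a r - C₀ ≤ gg a k) ∧
  (∀ i j N : ℕ, 2 ≤ N → i ≤ 2 * N → j ≤ 2 * N → ld (a i) (a j) ≤ 2 * C₀ * Real.log N) ∧
  (∀ i j k : ℕ, 2 ≤ k → i ≤ k → j ≤ k → ld (a i) (a j) ≤ C₀ * Real.log k)

/-- BIG: a prime with `w_p(P) = 0` is larger than `P`; copy `cvx/B_BIG.lean` -/
def Stmt_BIG : Prop := ∀ a : ℕ → ℤ, Ord (Set.range a) a → ∀ P p : ℕ, p.Prime →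
  nv p a P = 0 → P < p ∧ ∀ i j : ℕ, i < j → j ≤ P → ¬ (p : ℤ) ∣ a j - a i

/-- CPA: the number of primes with `w_p(P) ≥ 1` -/
def Stmt_CPA : Prop := ∀ a : ℕ → ℤ, Ord (Set.range a) a → ∀ N P : ℕ, P ≤ 2 * N →
  ((PA a N P).card : ℝ) * Real.log 2 ≤ lD a P ∧ ∑ p ∈ PA a N P, Real.log p ≤ lD a P ∧
  ∑ p ∈ PA a N P, Real.log p * nv p a P = lD a P

/-! ### Section 1: scales -/

/-- CLU (1.1): `M` elements in an interval of length `Z` -/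
def Stmt_CLU : Prop := ∀ a : ℕ → ℤ, Ord (Set.range a) a → ∀ (X : Finset ℤ) (Z : ℝ),
  (X : Set ℤ) ⊆ Set.range a → 1 ≤ Z → (∀ x ∈ X, ∀ y ∈ X, (|x - y| : ℝ) ≤ Z) →
  2 * Es a X.card ≤ X.card * (X.card - 1) * Real.log Z

/-- LIM: the lower limit of `f(k) / log k` -/
def Stmt_LIM : Prop := ∀ (f : ℕ → ℝ) (c C : ℝ), (∃ k₁ : ℕ, ∀ k, k₁ ≤ k → c * Real.log k ≤ f k) →
  (∃ k₁ : ℕ, ∀ k, k₁ ≤ k → f k ≤ C * Real.log k) → ∃ B : ℝ, c ≤ B ∧ B ≤ C ∧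
    ∀ ε : ℝ, 0 < ε → (∃ k₁ : ℕ, ∀ k, k₁ ≤ k → (B - ε) * Real.log k ≤ f k) ∧
      (∀ k₁ : ℕ, ∃ k, k₁ ≤ k ∧ f k ≤ (B + ε) * Real.log k)

/-- LREX (1.2): there are arbitrarily large left records. Proof: choose `K` with
`g(K) - κ log K ≤ - ε log K` smaller than the minimum of `g(j) - κ log j` over `1 ≤ j ≤ n₀`; then
take the minimum over `1 ≤ k ≤ K`. -/
def Stmt_LREX : Prop := ∀ (a : ℕ → ℤ) (κ ε : ℝ), 0 < ε → Shi a (κ - ε) →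
  ∀ n₀ : ℕ, ∃ n : ℕ, n₀ ≤ n ∧ LRec a κ n

/-- LRA (1.3 a, b). With `Y = g(n) - κ log (n/k) ≤ g(1) + κ log k`; a): `T(n) ≥ T(k) + T(n-k)` and
`(n-k) log (n/(n-k)) ≤ k`; b): `T(j) ≥ j (Y - κ log (k/j))` for `1 ≤ j < k` and
`j log (k/j) ≤ k`; `C = 3 κ + 2 g(1) + 1` should do. -/
def Stmt_LRA : Prop := ∀ (a : ℕ → ℤ) (k₀ : ℕ) (C₀ κ : ℝ), Dat a k₀ C₀ → 0 ≤ κ →
  ∃ C : ℝ, 0 ≤ C ∧ ∀ n : ℕ, LRec a κ n → ∀ k : ℕ, 1 ≤ k → k ≤ n →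
    gg a k ≤ gg a n + κ ∧
    (k : ℝ) ^ 2 * (gg a n - κ * (Real.log n - Real.log k) - C) ≤ 2 * Es a k ∧
    gg a n - κ * (Real.log n - Real.log k) ≤ gg a 1 + κ * Real.log k

/-- LRC (1.3 c): the potential at an element. Proof by induction on the number `r` of points
of a finite set `X` of elements different from `z` (`r + 1 ≤ n`): remove a point at maximal distance
`d` from `z`; `X ∪ {z}` has `r + 1` elements with differences at most `2 d`, so (CLU, LRA b)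
`log (2 d) ≥ 2 E(r+1)/(r+1)^2 ≥ g(n) - κ log (n/(r+1)) - C`. Sum: `∑_{j ≤ k} log (k/j) ≤ k`. -/
def Stmt_LRC : Prop := ∀ (a : ℕ → ℤ) (k₀ : ℕ) (C₀ κ : ℝ), Dat a k₀ C₀ → 0 ≤ κ →
  ∃ C : ℝ, 0 ≤ C ∧ ∀ n : ℕ, LRec a κ n → ∀ i k : ℕ, 1 ≤ k → k ≤ n →
    (k : ℝ) * (gg a n - κ * (Real.log n - Real.log k) - C) ≤
      ∑ l ∈ (range k).erase i, ld (a i) (a l)

/-- LRD (1.3 d): the defects. Proof: the sum over `Q` is at most the sum over `Q ∪ PR a k`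
(all terms are `≥ 0`, PAD), which is `T(k) - ∑ ld`; `T(k) = k g(k) ≤ k (g(n) + κ)` (LRA), LRC. -/
def Stmt_LRD : Prop := ∀ (a : ℕ → ℤ) (k₀ : ℕ) (C₀ κ : ℝ), Dat a k₀ C₀ → 0 ≤ κ →
  ∃ C : ℝ, 0 ≤ C ∧ ∀ n : ℕ, LRec a κ n → ∀ i k : ℕ, i < k → k ≤ n →
    (∀ p : ℕ, p.Prime → ∑ l ∈ (range k).erase i, vl p a i l ≤ nv p a k) ∧
    ∀ Q : Finset ℕ, (∀ p ∈ Q, p.Prime) →
      ∑ p ∈ Q, Real.log p * ((nv p a k : ℝ) - ∑ l ∈ (range k).erase i, (vl p a i l : ℝ)) ≤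
        k * (κ * (Real.log n - Real.log k) + C)

/-- LRE (1.3 e): the diameter. Proof: `i₀` the index of the smallest of the `a_i`, `i < k₀ + 1`;
`T(2N) ≥ ∑_{l < 2N, l ≠ i₀} log |a_{i₀} - a_l|` (TSU) `≥ N (g(n) - C) + N log (a_N - a_{i₀})`
(LRC for `k = N`; `a_l ≥ a_N` for `l ≥ N`), `T(2N) ≤ 2N (g(n) + κ)`. -/
def Stmt_LRE : Prop := ∀ (a : ℕ → ℤ) (k₀ : ℕ) (C₀ κ : ℝ), Dat a k₀ C₀ → 0 ≤ κ →
  ∃ (C : ℝ) (N₀ : ℕ), 0 ≤ C ∧ ∀ n N : ℕ, N₀ ≤ N → 2 * N ≤ n → n ≤ 2 * N + 1 → LRec a κ n →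
    ∀ i j : ℕ, i ≤ N → j ≤ N → ld (a i) (a j) ≤ gg a n + C

/-- RREX (1.4): right records. `R` is the largest `k ≥ 1` with `g(k) - b log k ≤ v`. -/
def Stmt_RREX : Prop := ∀ (a : ℕ → ℤ) (k₀ : ℕ) (C₀ b ε : ℝ), Dat a k₀ C₀ → 0 < b → 0 < ε →
  Slo a (b + ε / 2) → ∃ v₀ : ℝ, ∀ v : ℝ, v₀ ≤ v →
    ∃ R : ℕ, RRec a b R ∧ v / C₀ - 1 ≤ Real.log R ∧ Real.log R ≤ 2 * v / ε

/-- SELA: telescoping over the scales, for one scale (used for SEL): if `4 Q ≤ m'` then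
`∑_{u ∈ [k₀+2Q, N)} log (a_{u+2Q} - a_{u-2Q}) ≤ ∑_{u ∈ [k₀, N)} G_{m'}(u)` (monotonicity, all terms
are logarithms of positive integers), and each `G` is between `0` and `2 C₀ log N` for
`u + m ≤ 2N`. The number of atypical `u` is bounded by Markov's inequality. -/
def Stmt_SELA : Prop := ∀ (a : ℕ → ℤ) (k₀ : ℕ) (C₀ : ℝ), Dat a k₀ C₀ → ∀ (N m m' Q : ℕ) (e : ℝ),
  2 ≤ N → 1 ≤ m → 4 * Q ≤ m' → m ≤ 2 * Q → m' ≤ N → 0 < e →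
    (atyp a k₀ N m Q e : ℝ) * e ≤
      ∑ u ∈ Ico k₀ N, Gm a m' u - ∑ u ∈ Ico k₀ N, Gm a m u + 2 * Q * (2 * C₀ * Real.log N) ∧
    0 ≤ ∑ u ∈ Ico k₀ N, Gm a m u ∧
    ∑ u ∈ Ico k₀ N, Gm a m' u ≤ N * (2 * C₀ * Real.log N)

/-- SEL (1.5): selection of the window length (from SELA, GGB). With a number `S` of scales,
`m_s = R / l^(20 (S + 1 - s))`, `s ≤ S`, `J = 20 S + 41`; `S > 3 C₀/(e₇ e₈) + 2 C₀/e₃ + 3`. -/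
def Stmt_SEL : Prop := ∀ (a : ℕ → ℤ) (k₀ : ℕ) (C₀ : ℝ), Dat a k₀ C₀ →
  ∀ (K : ℕ) (e₃ e₇ e₈ : ℝ), 1 ≤ K → 0 < e₃ → 0 < e₇ → 0 < e₈ → ∃ J N₀ : ℕ, ∀ N R : ℕ,
    N₀ ≤ N → el N ^ (J + 30) ≤ R → R ^ 2 ≤ N → ∃ m : ℕ, m * el N ^ 20 ≤ R ∧
      R ≤ m * el N ^ J ∧ gg a (P1 K m N) ≤ gg a (m / el N ^ 9) + e₃ * Real.log N ∧
      (atyp a k₀ N m (Qb K m N) (e₇ * Real.log N) : ℝ) ≤ e₈ * N

/-- FREX: there are arbitrarily large frames (LREX, RREX with `v = (ε/4) β₂ log N`, SEL);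
`β₁ = ε β₂ / (4 C₀)`; `β₂ ≤ 1/4` gives `R ^ 2 ≤ N`; `el N ^ 30 ≤ m` follows from
`el N ^ (J + 30) ≤ R ≤ m * el N ^ J` -/
def Stmt_FREX : Prop := ∀ (a : ℕ → ℤ) (k₀ : ℕ) (C₀ κ b ε β₂ : ℝ), Dat a k₀ C₀ → 0 < b → 0 < ε →
  0 < β₂ → β₂ ≤ 1 / 4 → Slo a (b + ε / 2) → Shi a (κ - ε / 2) → ∀ (K : ℕ) (e₃ e₇ e₈ : ℝ), 1 ≤ K →
    0 < e₃ → 0 < e₇ → 0 < e₈ → ∃ J : ℕ, ∀ N₀ : ℕ, ∃ n N R m : ℕ, N₀ ≤ N ∧
      Fr a k₀ κ b (ε * β₂ / (4 * C₀)) β₂ e₃ e₇ e₈ K J n N R m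

/-- GLOW (1.6): lower bound for `g` above the scale `P'` -/
def Stmt_GLOW : Prop := ∀ (a : ℕ → ℤ) (k₀ : ℕ) (C₀ κ b β₁ β₂ e₃ e₇ e₈ : ℝ) (K J : ℕ),
  Dat a k₀ C₀ → 0 ≤ b → 0 < β₁ → β₂ ≤ 1 / 4 → 1 ≤ K → ∃ (C : ℝ) (N₀ : ℕ), 0 ≤ C ∧
    ∀ n N R m : ℕ, N₀ ≤ N → Fr a k₀ κ b β₁ β₂ e₃ e₇ e₈ K J n N R m →
      ∀ k : ℕ, el N * P1 K m N ≤ k →
        gg a (P1 K m N) + b * (Real.log k - Real.log (P1 K m N)) - C * Real.log (el N) ≤ gg a k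

/-- FROST (1.7): the number of elements in an interval (from GLOW, CLU, GGB) -/
def Stmt_FROST : Prop := ∀ (a : ℕ → ℤ) (k₀ : ℕ) (C₀ κ b β₁ β₂ e₃ e₇ e₈ : ℝ) (K J : ℕ),
  Dat a k₀ C₀ → 1 ≤ b → 0 < β₁ → β₂ ≤ 1 / 4 → 1 ≤ K → ∃ (C : ℝ) (N₀ : ℕ), 0 ≤ C ∧
    ∀ n N R m : ℕ, N₀ ≤ N → Fr a k₀ κ b β₁ β₂ e₃ e₇ e₈ K J n N R m →
      ∀ (X : Finset ℤ) (Z : ℝ), (X : Set ℤ) ⊆ Set.range a → X.card ≤ 2 * N → 1 ≤ Z →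
        gg a (P1 K m N) ≤ Real.log Z → (∀ x ∈ X, ∀ y ∈ X, (|x - y| : ℝ) ≤ Z) →
        (X.card : ℝ) ≤ (el N : ℝ) ^ C * P1 K m N *
          Real.exp ((Real.log Z - gg a (P1 K m N)) / b)

/-- TRANS (1.8): transport from the scale `k` to the scale `N`. For each `p ∈ Q` count
`∑_{j < k} ∑_{i < N, i ≠ j} vl p a i j` in two ways: for fixed `j` the inner sum is `w_p(N)` minus
the defect of `j` at `N` (LRD); for fixed `i ≥ k` the sum over `j` is at most `w_p(k) + V`, with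
`log p * V ≤ 2 C₀ log N` (VLM, PAE, GGB); for fixed `i < k` it is at most `w_p(k)` (PAD). -/
def Stmt_TRANS : Prop := ∀ (a : ℕ → ℤ) (k₀ : ℕ) (C₀ κ : ℝ), Dat a k₀ C₀ → 0 ≤ κ →
  ∃ (C : ℝ) (N₀ : ℕ), 0 ≤ C ∧ ∀ n N : ℕ, N₀ ≤ N → 2 * N ≤ n → n ≤ 2 * N + 1 → LRec a κ n →
    ∀ (Q : Finset ℕ) (k : ℕ), (∀ p ∈ Q, p.Prime) → 1 ≤ k → 2 * k ≤ N →
      ∑ p ∈ Q, Real.log p * nv p a N ≤
        ((N : ℝ) / k) * (∑ p ∈ Q, Real.log p * nv p a k + Q.card * (2 * C₀ * Real.log N)) +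
          C * N

/-- CATCHB: the caught primes carry little. `a_0, .., a_P` are distinct mod `p` (BIG), so at least
`P + 1 - M` of them are in none of the classes of the window; these have defect at least
`w(2N) - w(v) ≥ w(2N) - w(N) ≥ w(N)` at `2N` (SUPER); sum the defects at `2N` over `i ≤ P` (LRD).
Compare `cvx/B_CATCHB.lean`. -/
def Stmt_CATCHB : Prop := ∀ (a : ℕ → ℤ) (k₀ : ℕ) (C₀ κ : ℝ), Dat a k₀ C₀ → 0 ≤ κ →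
  ∃ (C : ℝ) (N₀ : ℕ), 0 ≤ C ∧ ∀ n N : ℕ, N₀ ≤ N → 2 * N ≤ n → n ≤ 2 * N + 1 → LRec a κ n →
    ∀ M P : ℕ, P ≤ N → 2 * M ≤ P + 1 →
      ∑ p ∈ PC a N M P, Real.log p * nv p a N ≤ C * N

/-- JUMP: bounded growth in a window for the primes which are not caught; compare
`cvx/B_JUMP.lean` -/
def Stmt_JUMP : Prop := ∀ (a : ℕ → ℤ) (k₀ : ℕ) (C₀ : ℝ), Dat a k₀ C₀ → ∀ N M p : ℕ, 2 ≤ N →
  p.Prime → ¬ Catch p a N M → ∀ u v : ℕ, u ≤ v → v ≤ u + M → v ≤ N →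
    ((nv p a v : ℝ) - nv p a u) * Real.log p ≤ 2 * C₀ * Real.log N

/-- START: from the set to the sequence. `HULL` of `sep`: `a` enumerates a final segment of `S`,
increasing after the index of the minimum of the range; `ord` for the range follows from
`IsPOrdering S p a`. Growth: `|S ∩ [-x,x]| ≥ x^c` gives `size`, `|S ∩ [-x,x]| ≤ x^(1/2-ε)` gives
`a_l ≥ (l+1)^(2+4ε)` for large `l`, then `T(k) ≥ ∑_{1 ≤ l ≤ k} log |a_l - a_0|` (F2). -/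
def Stmt_START : Prop := ∀ S : Set ℤ, BddBelow S → LowExponent S → HasSimultaneousOrdering S →
  ∃ (a : ℕ → ℤ) (k₀ : ℕ) (C₀ ε : ℝ), Dat a k₀ C₀ ∧ 0 < ε ∧ Slo a (2 + ε)

end Pool.Agent.Work.MP_b29d7f_low
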