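import Pool.Agent.Work.MP_b29d7f_low.Interface1

/-!
# One-sided sets of exponent smaller than one half: statements of the blocks, part 2

Paper proof: note 2820, section 2 (minimal windows).  A block `[j Q, j Q + Q]` is an interval of
indices; a window is `[u, u + w]` (`w + 1` indices); `l = el N`, `P' = P1 K m N`, `Q = Qb K m N`.
-/

namespace Pool.Agent.Work.MP_b29d7f_low

open Finset
open Pool.Agent.Work.MP_b29d7f_nt (IsPOrdering HasSimultaneousOrdering PS vd ld tv)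
open Pool.Agent.Work.MP_b29d7f_half (Ord A wv lD)
open Pool.Agent.Work.MP_b29d7f_sep (nv EW EL)

/-- PIG1: pairs of places, one block, pure. For `g < g' = g + d` the number of windows
`[u, u + w)`, containing both is at most `w - d` (and `0` unless `d < w`), and
`∑_{w > d} d (w - d) / w^3 ≤ d ∑_{w > d} 1 / w^2 ≤ 1`. Compare `cvx/B_PIG.lean`. -/
def Stmt_PIG1 : Prop := ∀ (o : ℕ → ℕ) (s Q M₁ M : ℕ) (J : ℝ), 1 ≤ M₁ → M₁ ≤ M → M ≤ Q → 0 ≤ J →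
  (∀ g : ℕ, s ≤ g → g < s + Q → ∑ g' ∈ Ico (g + 1) (min (g + M) (s + Q)), (o g' : ℝ) ≤ J) →
  ∑ w ∈ Icc M₁ M, (1 / (w : ℝ) ^ 3) * ∑ u ∈ Ico s (s + Q - w + 1),
      ∑ g ∈ Ico u (u + w), ∑ g' ∈ Ico (g + 1) (u + w), (o g : ℝ) * o g' * ((g' : ℝ) - g) ≤
    J * ∑ g ∈ Ico s (s + Q), (o g : ℝ)

/-- PIGB: a window length with few pairs of places (PIG1 with `o = om p a` for `p ∈ PG` and each
block; the hypothesis of PIG1 holds with `J = 2 C₀ log N / log P` by JUMP and BIG; the sum over `p`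
of `log p * growth` over a block is at most the growth of `T`; pigeonhole with
`∑_{w=M₁}^{M} 1/w ≥ log (M / M₁)`) -/
def Stmt_PIGB : Prop := ∀ (a : ℕ → ℤ) (k₀ : ℕ) (C₀ : ℝ), Dat a k₀ C₀ →
  ∀ (N P M₁ M Q : ℕ) (D : Finset ℕ), 2 ≤ N → 1 ≤ M₁ → M₁ < M → M ≤ Q → 2 ≤ P → P ≤ N →
    (∀ j ∈ D, j * Q + Q ≤ N) →
    ∃ w : ℕ, M₁ ≤ w ∧ w ≤ M ∧
      (∑ p ∈ PG a N M P, Real.log p * ∑ j ∈ D, ∑ u ∈ Ico (j * Q) (j * Q + Q - w + 1),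
          PT p a u w) * Real.log ((M : ℝ) / M₁) ≤
        (w : ℝ) ^ 2 * (2 * C₀ * Real.log N / Real.log P) * Rs a Q D

/-- WU1: the `p`-adic energy of the windows of one block: (i) the trivial bound (PAE, telescoping:
each growth `w(u+w) - w(u)` is a sum of jumps, each place is in at most `w` windows);
(ii) `stmt_WINDOW` and `stmt_MINP` of `sep`, `∑_{t=1}^{w} min (t, w+1-t) ≤ (w+1)^2/4` -/
def Stmt_WU1 : Prop := ∀ a : ℕ → ℤ, Ord (Set.range a) a → ∀ p : ℕ, p.Prime → ∀ s Q w : ℕ,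
  1 ≤ w → w ≤ Q →
  ∑ u ∈ Ico s (s + Q - w + 1), EW p a u w ≤
    ((w : ℝ) * (w + 1) / 2) * ((nv p a (s + Q) : ℝ) - nv p a s) ∧
  ∑ u ∈ Ico s (s + Q - w + 1), EW p a u w ≤
    (((w : ℝ) + 1) ^ 2 / 4) * ((nv p a (s + Q) : ℝ) - nv p a s) +
      ∑ u ∈ Ico s (s + Q - w + 1), PT p a u w

/-- LOCA: the growth of the small primes over a set of blocks. TRANS for `Q = PA a N (K m)`,
`k = P1 K m N` bounds the total (CPA: the number of primes times `log N` is `O(P1 / l)`); each of the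
other blocks (there are at least `N / Q - 1 - |D|` of them) has growth at least `w_p(Q)`, and
`w_p(Q) ≥ l w_p(P')` (SUPER), `Q = l P'`; finally `∑_{PA} log p w_p(P') ≤ T(P') = P' g(P')` and
`Q g(P') ≤ N`. -/
def Stmt_LOCA : Prop := ∀ (a : ℕ → ℤ) (k₀ : ℕ) (C₀ κ b β₁ β₂ e₃ e₇ e₈ : ℝ) (K J : ℕ),
  Dat a k₀ C₀ → 0 ≤ κ → 0 < β₁ → β₂ ≤ 1 / 4 → 1 ≤ K → ∃ (C : ℝ) (N₀ : ℕ), 0 ≤ C ∧
    ∀ n N R m : ℕ, N₀ ≤ N → Fr a k₀ κ b β₁ β₂ e₃ e₇ e₈ K J n N R m →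
      ∀ D : Finset ℕ, (∀ j ∈ D, j * Qb K m N + Qb K m N ≤ N) →
        ∑ p ∈ PA a N (K * m), Real.log p * ∑ j ∈ D,
            ((nv p a (j * Qb K m N + Qb K m N) : ℝ) - nv p a (j * Qb K m N)) ≤
          (D.card : ℝ) * Qb K m N * gg a (P1 K m N) + C * N

/-- LWU: upper bound for the logarithmic energy of the windows in the blocks of `D`
(PRF, WU1, LOCA, CATCHB with `M = E₂ K₁ m`, `P = K m = 2 M`, PIGB with `M₁ = K₁ m`,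
`log P ≥ (β₁/2) log N`): with `NA` the part of the primes of `PA` and `PC` (`NA ≤ |D| Q g(P') + C N`,
`NA ≤ Rs`): `w (w+1)/2 NA + (w+1)^2/4 (Rs - NA) ≤ (w+1)^2/4 (Rs + NA)` -/
def Stmt_LWU : Prop := ∀ (a : ℕ → ℤ) (k₀ : ℕ) (C₀ κ b β₁ β₂ e₃ e₇ e₈ : ℝ) (K₁ E₂ J : ℕ),
  Dat a k₀ C₀ → 0 ≤ κ → 0 < β₁ → β₂ ≤ 1 / 4 → 1 ≤ K₁ → 2 ≤ E₂ → ∃ (C : ℝ) (N₀ : ℕ), 0 ≤ C ∧
    ∀ n N R m : ℕ, N₀ ≤ N → Fr a k₀ κ b β₁ β₂ e₃ e₇ e₈ (2 * E₂ * K₁) J n N R m →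
      ∀ D : Finset ℕ, (∀ j ∈ D, j * Qb (2 * E₂ * K₁) m N + Qb (2 * E₂ * K₁) m N ≤ N) →
      ∃ w : ℕ, K₁ * m ≤ w ∧ w ≤ E₂ * K₁ * m ∧
        ∑ j ∈ D, ∑ u ∈ Ico (j * Qb (2 * E₂ * K₁) m N)
            (j * Qb (2 * E₂ * K₁) m N + Qb (2 * E₂ * K₁) m N - w + 1), EL a u w ≤
          (((w : ℝ) + 1) ^ 2 / 4) * (Rs a (Qb (2 * E₂ * K₁) m N) D +
              (D.card : ℝ) * Qb (2 * E₂ * K₁) m N * gg a (P1 (2 * E₂ * K₁) m N) + C * N) +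
            (w : ℝ) ^ 2 * (4 * C₀ / β₁ / Real.log E₂) * Rs a (Qb (2 * E₂ * K₁) m N) D

/-- LWL: lower bound for the logarithmic energy of the windows in the blocks of `D`: only the pairs
`i < i'` with `i' ≥ i + m` and `G(i) > y` are used (there `log (a_{i'} - a_i) ≥ y`); there are at
least `(w - m)^2 / 2` pairs with `i' ≥ i + m` in a window, and each `i` with `G(i) ≤ y` spoils at
most `w` pairs in at most `w + 1` windows. The number of windows of a block is at least `Q - w`. -/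
def Stmt_LWL : Prop := ∀ (a : ℕ → ℤ) (k₀ : ℕ) (C₀ : ℝ), Dat a k₀ C₀ →
  ∀ (N m w Q : ℕ) (D : Finset ℕ) (y : ℝ), 1 ≤ m → m ≤ w → w ≤ Q → 0 ≤ y →
    (∀ j ∈ D, k₀ ≤ j * Q ∧ j * Q + Q ≤ N) →
    y * ((D.card : ℝ) * ((Q : ℝ) - w) * ((w : ℝ) - m) ^ 2 / 2 -
        (w : ℝ) * (w + 1) * cnt a k₀ N m y) ≤
      ∑ j ∈ D, ∑ u ∈ Ico (j * Q) (j * Q + Q - w + 1), EL a u w

/-- PIGF: pigeonhole for a distribution function. Coarse grid of step `w / 2`, then fine grid of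
step `e` on `[x, x + w/2]`. -/
def Stmt_PIGF : Prop := ∀ (w d X : ℝ), 0 < w → 0 < d → d < 1 → 0 < X →
  ∃ (η e : ℝ), 0 < η ∧ η ≤ 1 / 2 ∧ 0 < e ∧ e ≤ w ∧ ∀ (F : ℝ → ℝ) (x₀ : ℝ), Monotone F →
    (∀ x, 0 ≤ F x) → (∀ x, F x ≤ 1) → F x₀ < η → 1 / 2 ≤ F (x₀ + X) →
    ∃ x : ℝ, x₀ ≤ x ∧ x ≤ x₀ + X + w ∧ η ≤ F x ∧ F (x - w) ≤ d * F x ∧ F (x + e) ≤ (1 + d) * F x

/-- BLK: the blocks of small span. (1) a typical `u` with `G(u) ≤ y - e` is in the block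
`j = u / Q`, which is in `DD` (or near an end); (2) all indices of `[j Q - Q, j Q + Q]` have
`G ≤ y`; (3) hence `|DD| Q ≤ cnt y`; (4) the span of the block is at most `y`. -/
def Stmt_BLK : Prop := ∀ (a : ℕ → ℤ) (k₀ : ℕ) (C₀ : ℝ), Dat a k₀ C₀ →
  ∀ (N m Q : ℕ) (y e : ℝ), 1 ≤ m → m ≤ Q → 0 ≤ e →
    (cnt a k₀ N m (y - e) : ℝ) ≤
      ((DD a k₀ N Q y).card : ℝ) * Q + atyp a k₀ N m Q e + (k₀ + 10 * Q) ∧
    (∀ j ∈ DD a k₀ N Q y, ∀ i : ℕ, j * Q - Q ≤ i → i ≤ j * Q + Q → Gm a m i ≤ y) ∧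
    ((DD a k₀ N Q y).card : ℝ) * Q ≤ cnt a k₀ N m y ∧
    (∀ j ∈ DD a k₀ N Q y, k₀ ≤ j * Q ∧ j * Q + Q ≤ N ∧ k₀ + Q ≤ j * Q ∧
      ((a (j * Q + Q) - a (j * Q) : ℤ) : ℝ) ≤ Real.exp y)

/-- GR1: the growth over a block, exactly -/
def Stmt_GR1 : Prop := ∀ (a : ℕ → ℤ) (k₀ : ℕ) (C₀ : ℝ), Dat a k₀ C₀ → ∀ u v : ℕ, k₀ ≤ u → u < v →
  lD a v - lD a u =
    ∑ i ∈ range u, (Real.log ((a v - a i : ℤ) : ℝ) - Real.log ((a u - a i : ℤ) : ℝ)) +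
      ∑ i ∈ Ico u v, Real.log ((a v - a i : ℤ) : ℝ)

/-- GR2: the contribution of one index `i` to the near blocks telescopes -/
def Stmt_GR2 : Prop := ∀ (a : ℕ → ℤ) (k₀ : ℕ) (C₀ : ℝ), Dat a k₀ C₀ →
  ∀ (Q i : ℕ) (D : Finset ℕ) (Z S : ℝ), 1 ≤ Q → 1 ≤ Z → 1 ≤ S →
    (∀ j ∈ D, k₀ ≤ j * Q ∧ ((a (j * Q + Q) - a (j * Q) : ℤ) : ℝ) ≤ S) →
    ∑ j ∈ D.filter (fun j => i < j * Q ∧ ((a (j * Q) - a i : ℤ) : ℝ) ≤ Z),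
        (Real.log ((a (j * Q + Q) - a i : ℤ) : ℝ) - Real.log ((a (j * Q) - a i : ℤ) : ℝ)) +
      ∑ j ∈ D.filter (fun j => j * Q ≤ i ∧ i < j * Q + Q),
        Real.log ((a (j * Q + Q) - a i : ℤ) : ℝ) ≤ Real.log (Z + S)

/-- GR3: the indices `i` with `G(i) > y₂` (not dense), seen from `u`: if none of them is in
`[u - m, u)` then the sum of the inverse distances is at most `m (1 + log N) e^{-y₂}`. Proof: in a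
residue class mod `m` of indices the distances to `a_u` of the non dense indices, in decreasing
order of the index, are `> s e^{y₂}`, `s = 1, 2, ..`. -/
def Stmt_GR3 : Prop := ∀ (a : ℕ → ℤ) (k₀ : ℕ) (C₀ : ℝ), Dat a k₀ C₀ →
  ∀ (N m u : ℕ) (y₂ : ℝ), 1 ≤ m → 1 ≤ N → k₀ + m ≤ u → u ≤ N →
    (∀ i : ℕ, u - m ≤ i → i < u → Gm a m i ≤ y₂) →
    ∑ i ∈ (Ico k₀ u).filter (fun i => y₂ < Gm a m i), 1 / ((a u - a i : ℤ) : ℝ) ≤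
      m * (1 + Real.log N) * Real.exp (-y₂)

/-- GR4: far indices, seen from `u` (FROST, dyadic decomposition of the distances, the number of
dyadic ranges is at most `C log N`) -/
def Stmt_GR4 : Prop := ∀ (a : ℕ → ℤ) (k₀ : ℕ) (C₀ κ b β₁ β₂ e₃ e₇ e₈ : ℝ) (K J : ℕ),
  Dat a k₀ C₀ → 1 < b → 0 < β₁ → β₂ ≤ 1 / 4 → 1 ≤ K → ∃ (C : ℝ) (N₀ : ℕ), 0 ≤ C ∧
    ∀ n N R m : ℕ, N₀ ≤ N → Fr a k₀ κ b β₁ β₂ e₃ e₇ e₈ K J n N R m →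
      ∀ (u : ℕ) (z : ℝ), k₀ ≤ u → u ≤ N → gg a (P1 K m N) ≤ z → 0 ≤ z →
        ∑ i ∈ (range u).filter (fun i => Real.exp z < ((a u - a i : ℤ) : ℝ)),
            1 / ((a u - a i : ℤ) : ℝ) ≤
          (el N : ℝ) ^ C * P1 K m N * Real.exp ((z - gg a (P1 K m N)) / b - z)

/-- GRO: the growth over the blocks of small span (GR1 - GR4, BLK): the terms with `i` dense
(`i < k₀` or `G(i) ≤ y₂`) and `a_u - a_i ≤ e^z` by GR2; the other terms are at most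
`e^y / (a_u - a_i)` and are bounded by GR3 and GR4. -/
def Stmt_GRO : Prop := ∀ (a : ℕ → ℤ) (k₀ : ℕ) (C₀ κ b β₁ β₂ e₃ e₇ e₈ : ℝ) (K J : ℕ),
  Dat a k₀ C₀ → 1 < b → 0 < β₁ → β₂ ≤ 1 / 4 → 1 ≤ K → ∃ (C : ℝ) (N₀ : ℕ), 0 ≤ C ∧
    ∀ n N R m : ℕ, N₀ ≤ N → Fr a k₀ κ b β₁ β₂ e₃ e₇ e₈ K J n N R m →
      ∀ y y₂ z : ℝ, 0 ≤ y → y ≤ y₂ → y ≤ z → gg a (P1 K m N) ≤ z →
        Rs a (Qb K m N) (DD a k₀ N (Qb K m N) y) ≤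
          ((cnt a k₀ N m y₂ : ℝ) + k₀) * (z + 1) +
            (DD a k₀ N (Qb K m N) y).card * (Real.exp y * m * (1 + Real.log N) * Real.exp (-y₂) +
              Real.exp y * ((el N : ℝ) ^ C * P1 K m N *
                Real.exp ((z - gg a (P1 K m N)) / b - z)))

/-- NUM1: the final inequality of section 2 as an inequality between real numbers: it says that the
outputs of LWL, LWU, GRO, BLK, PIGF are contradictory. `x, t, z` are in units of `L = log N`;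
`F = cnt (x L) / N`, `A = |D| Q / N`, `S = Rs / (N L)`, `r = 1 / K₁`. -/
def Stmt_NUM1 : Prop := ∀ (C₀ b e₅ : ℝ), 1 ≤ C₀ → 2 < b → 0 < e₅ → e₅ ≤ 1 →
  ∃ ω d e₉ : ℝ, 0 < ω ∧ ω ≤ e₅ / 2 ∧ 0 < d ∧ d < 1 / 8 ∧ 0 < e₉ ∧ ∀ η : ℝ, 0 < η → ∃ q₀ : ℝ, 0 < q₀ ∧
    ∀ x t z F A S q : ℝ, 0 ≤ t → t ≤ C₀ → t + e₅ ≤ x → x ≤ 6 * C₀ →
      z = (b * x - t) / (b - 1) + e₉ → η ≤ F → F ≤ 1 → 0 ≤ q → q ≤ q₀ → 0 ≤ S →
      (1 - d) * F ≤ A → A ≤ (1 + d) * F →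
      S ≤ ((1 + d) * F + q) * (z + q) + q →
      ¬ (2 * (x - ω) * (A * (1 - d) ^ 3 - 4 * d * F) ≤ (1 + d) * (S + A * t + q) + d * S)

/-- PART1: minimal windows (section 2) -/
def Stmt_PART1 : Prop := ∀ (a : ℕ → ℤ) (k₀ : ℕ) (C₀ κ b β₁ β₂ e₅ : ℝ), Dat a k₀ C₀ → 2 < b →
  0 ≤ κ → 0 < β₁ → 0 < β₂ → C₀ * β₂ ≤ 1 / 8 → 0 < e₅ → e₅ ≤ 1 →
  ∃ (K : ℕ) (η e₇ e₈ : ℝ), 1 ≤ K ∧ 0 < η ∧ 0 < e₇ ∧ 0 < e₈ ∧ ∀ (e₃ : ℝ) (J : ℕ), ∃ N₀ : ℕ,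
    ∀ n N R m : ℕ, N₀ ≤ N → Fr a k₀ κ b β₁ β₂ e₃ e₇ e₈ K J n N R m →
      η * N ≤ cnt a k₀ N m (gg a (P1 K m N) + e₅ * Real.log N)

end Pool.Agent.Work.MP_b29d7f_low
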