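import Pool.Agent.Work.MP_b29d7f_low.Interface2

/-!
# One-sided sets of exponent smaller than one half: statements of the blocks, part 3

Paper proof: note 2820, section 3.
-/

namespace Pool.Agent.Work.MP_b29d7f_low

open Finset
open Pool.Agent.Work.MP_b29d7f_nt (IsPOrdering HasSimultaneousOrdering PS vd ld tv)
open Pool.Agent.Work.MP_b29d7f_half (Ord A wv lD)
open Pool.Agent.Work.MP_b29d7f_sep (nv EW EL)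

/-! ### 3.1: popular differences -/

/-- DYA: if `c` indices `u` of `[k₀, N)` have `a_{u+m} - a_u ≤ H`, then there are at least
`(c - m) m` pairs `(x, x + δ)` in `A_N` with `1 ≤ δ ≤ H`; dyadic pigeonhole on the size of
`Kd a N δ` (between `1` and `N`) -/
def Stmt_DYA : Prop := ∀ (a : ℕ → ℤ) (k₀ : ℕ) (C₀ : ℝ), Dat a k₀ C₀ → ∀ (N m H c : ℕ), 1 ≤ N →
  1 ≤ m → m < c → c ≤ ((Ico k₀ N).filter fun u => a (u + m) - a u ≤ (H : ℤ)).card →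
  ∃ (k : ℕ) (D : Finset ℤ), 1 ≤ k ∧ k ≤ N ∧ D ⊆ Finset.Icc 1 (H : ℤ) ∧ D.Nonempty ∧
    (∀ δ ∈ D, k ≤ (Kd a N δ).card ∧ (Kd a N δ).card < 2 * k) ∧
    (c - m) * m ≤ D.card * (2 * k) * (Nat.log 2 N + 1)

/-! ### 3.2: equilibrium measures -/

/-- EQM: existence of the equilibrium measure. Induction on the number `r` of levels for the kernel
`#{i ∈ Icc (s + 1) (s + r) : p ^ i ∣ x - y}` and all finite nonempty `X`: the classes `C` of `X` mod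
`p ^ (s + 1)` have equilibrium measures for the next `r - 1` levels, with constants `θ_C ≥ 0`; give
`C` the mass `θ / (1 + θ_C)`, `θ = 1 / ∑_C 1 / (1 + θ_C)`. (For `r = 0` any probability.) -/
def Stmt_EQM : Prop := ∀ (X : Finset ℤ) (p L : ℕ), X.Nonempty → 1 ≤ L →
  ∃ (μ : ℤ → ℝ) (θ : ℝ), IsEq X p L μ θ

/-- ENG: energies: for `ν` on `X` of total mass `1` the energy is `θ` plus the energy of `ν - μ`,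
and energies of signed weights are `≥ 0` (sum over the levels and the classes of the squares of the
masses) -/
def Stmt_ENG : Prop := ∀ (X : Finset ℤ) (p L : ℕ),
  (∀ f : ℤ → ℝ, 0 ≤ ∑ x ∈ X, ∑ y ∈ X, (tv p L (x - y) : ℝ) * f x * f y) ∧
  (∀ (μ : ℤ → ℝ) (θ : ℝ), IsEq X p L μ θ → ∀ ν : ℤ → ℝ, ∑ x ∈ X, ν x = 1 →
    ∑ x ∈ X, ∑ y ∈ X, (tv p L (x - y) : ℝ) * ν x * ν y =
      θ + ∑ x ∈ X, ∑ y ∈ X, (tv p L (x - y) : ℝ) * (ν x - μ x) * (ν y - μ y)) ∧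
  (∀ (μ : ℤ → ℝ) (θ : ℝ), IsEq X p L μ θ → ∀ K : Finset ℤ, K ⊆ X → K.Nonempty → θ ≤ Xe p L K)

/-- THL: lower bound for `θ` (`h ≤ N`, the valuations of the differences in `A_N` are at most `L`):
`∑_{i < h} tv p L (x - a_i) ≥ w_p(h)` for all `x ∈ A_N` (F1 if `x` is a later term, and `L ≥ w_p(h)`
if `x = a_i`), integrate against `μ` -/
def Stmt_THL : Prop := ∀ a : ℕ → ℤ, Ord (Set.range a) a → ∀ (p N L h : ℕ) (μ : ℤ → ℝ) (θ : ℝ),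
  p.Prime → 1 ≤ h → h ≤ N → nv p a h ≤ L → (∀ i j : ℕ, i < N → j < N → i ≠ j → vl p a i j ≤ L) →
  IsEq (A a N) p L μ θ → (nv p a h : ℝ) / h ≤ θ

/-- THU: upper bound for `θ`: ENG with the uniform measure on `A_N`, EPU -/
def Stmt_THU : Prop := ∀ a : ℕ → ℤ, Ord (Set.range a) a → ∀ (p N L : ℕ) (μ : ℤ → ℝ) (θ : ℝ),
  p.Prime → 1 ≤ N → IsEq (A a N) p L μ θ → θ ≤ (nv p a N : ℝ) / N + (L : ℝ) / N

/-- LVL: the truncation level: the differences in `A_N` have valuations at most `Lv - 1`; the total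
weight of the levels over the primes with `w_p(P₂) ≥ 1`, `P₃ = P₂ l^3` -/
def Stmt_LVL : Prop := ∀ (a : ℕ → ℤ) (k₀ : ℕ) (C₀ : ℝ), Dat a k₀ C₀ → ∃ N₀ : ℕ,
  ∀ N P₂ : ℕ, N₀ ≤ N → 1 ≤ P₂ → P₂ * el N ^ 3 ≤ N →
    (∀ p P₃ : ℕ, p.Prime → nv p a P₃ ≤ Lv C₀ a N P₃ p ∧ 1 ≤ Lv C₀ a N P₃ p ∧
      ∀ i j : ℕ, i < N → j < N → i ≠ j → vl p a i j ≤ Lv C₀ a N P₃ p) ∧
    ∑ p ∈ PA a N P₂, Real.log p * Lv C₀ a N (P₂ * el N ^ 3) p ≤ P₂ * (el N : ℝ) ^ 5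

/-! ### 3.3: the two energies -/

/-- XUP (I): upper bound for the energy of the uniform measure on a subset `W` of `A_N`.
Off the diagonal: sum over all primes of `log p * vl` is `ld ≤ g(n) + C` (LRE). The primes outside
`PA a N P₂` contribute at least `2 E_p(h)/h^2`, `h = k / l^2` (EPU); by LRA
`2 E(h)/h^2 ≥ g(n) - κ log (n/h) - C`; `2 E_p(h)/h^2 ≤ w_p(h)/h ≤ w_p(N)/(N - h)` (EPU, SUPER),
TRANS for `Q = PA a N P₂`, `k = P₃ = P₂ l^3`, then `w_p(P₃)/P₃ ≤ θ_p` (THL). Diagonal: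
`∑ log p * Lv / k ≤ 1` (LVL). -/
def Stmt_XUP : Prop := ∀ (a : ℕ → ℤ) (k₀ : ℕ) (C₀ κ : ℝ), Dat a k₀ C₀ → 0 ≤ κ →
  ∃ (C : ℝ) (N₀ : ℕ), 0 ≤ C ∧ ∀ n N : ℕ, N₀ ≤ N → 2 * N ≤ n → n ≤ 2 * N + 1 → LRec a κ n →
    ∀ (P₂ k : ℕ) (W : Finset ℤ) (μ : ℕ → ℤ → ℝ) (θ : ℕ → ℝ), 1 ≤ P₂ → P₂ * el N ^ 6 ≤ k →
      P₂ * el N ^ 4 ≤ N → k ≤ N → W ⊆ A a N → k ≤ W.card →
      (∀ p ∈ PA a N P₂, IsEq (A a N) p (Lv C₀ a N (P₂ * el N ^ 3) p) (μ p) (θ p)) →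
      ∑ p ∈ PA a N P₂, Real.log p * Xe p (Lv C₀ a N (P₂ * el N ^ 3) p) W ≤
        ∑ p ∈ PA a N P₂, Real.log p * θ p + κ * (Real.log N - Real.log k) +
          C * Real.log (el N)

/-- YUP (II): upper bound for the energy of the uniform measure on a set `D` of integers in `[1, H]`:
off the diagonal the sum over the primes of `log p * v_p(δ - δ')` is at most `log H`; the diagonal
is `∑ log p * Lv / |D| ≤ 1` (LVL) -/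
def Stmt_YUP : Prop := ∀ (a : ℕ → ℤ) (k₀ : ℕ) (C₀ : ℝ), Dat a k₀ C₀ → ∃ N₀ : ℕ,
  ∀ (N P₂ H : ℕ) (D : Finset ℤ), N₀ ≤ N → 1 ≤ P₂ → P₂ * el N ^ 3 ≤ N → 1 ≤ H →
    D ⊆ Finset.Icc 1 (H : ℤ) → P₂ * el N ^ 6 ≤ D.card →
    ∑ p ∈ PA a N P₂, Real.log p * Xe p (Lv C₀ a N (P₂ * el N ^ 3) p) D ≤ Real.log H + 1

/-- THG (III): `Θ ≥ g(P₂)` (THL with `h = P₃ = P₂ l^3`, SUPER: `w_p(P₃) ≥ l^3 w_p(P₂)`, CPA) and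
`Θ ≤ g(N) + 1` is not needed -/
def Stmt_THG : Prop := ∀ (a : ℕ → ℤ) (k₀ : ℕ) (C₀ : ℝ), Dat a k₀ C₀ → ∃ N₀ : ℕ,
  ∀ (N P₂ : ℕ) (μ : ℕ → ℤ → ℝ) (θ : ℕ → ℝ), N₀ ≤ N → 1 ≤ P₂ → P₂ * el N ^ 3 ≤ N →
    (∀ p ∈ PA a N P₂, IsEq (A a N) p (Lv C₀ a N (P₂ * el N ^ 3) p) (μ p) (θ p)) →
    gg a P₂ ≤ ∑ p ∈ PA a N P₂, Real.log p * θ p

/-! ### 3.4: Proposition G -/

/-- COUP: the coupling matrix, pure. `U`, `V` are the partial sums of `u`, `v ≥ 0`, with the same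
total. Since `U`, `V` are monotone, `Cm U V i j` is the length of the intersection of the intervals
`(U (i-1), U i]` and `(V (j-1), V j]`; `s_k = min(U_k, V_k) - min(U_{k-1}, V_{k-1})` is the sum of
`C i j` with `max i j = k`, and `t_k` the same with the maximum. -/
def Stmt_COUP : Prop := ∀ (u v : ℕ → ℝ) (L : ℕ), (∀ i, 0 ≤ u i) → (∀ i, 0 ≤ v i) →
  ∑ i ∈ Icc 1 L, u i = ∑ j ∈ Icc 1 L, v j →
  (∀ i j, 0 ≤ Cm (Ps u) (Ps v) i j) ∧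
  (∀ i ∈ Icc 1 L, ∑ j ∈ Icc 1 L, Cm (Ps u) (Ps v) i j = u i) ∧
  (∀ j ∈ Icc 1 L, ∑ i ∈ Icc 1 L, Cm (Ps u) (Ps v) i j = v j) ∧
  (∀ k ∈ Icc 1 L,
    ∑ i ∈ Icc 1 L, ∑ j ∈ Icc 1 L, (if max i j = k then Cm (Ps u) (Ps v) i j else 0) =
      min (Ps u k) (Ps v k) - min (Ps u (k - 1)) (Ps v (k - 1))) ∧
  (∀ k ∈ Icc 1 L,
    ∑ i ∈ Icc 1 L, ∑ j ∈ Icc 1 L, (if min i j = k then Cm (Ps u) (Ps v) i j else 0) =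
      max (Ps u k) (Ps v k) - max (Ps u (k - 1)) (Ps v (k - 1)))

/-- ENT: the entropy inequality, pure: `s + t = u + v`, both between the minimum and the maximum of
`u` and `v`: concavity of `Real.negMulLog` -/
def Stmt_ENT : Prop := ∀ (u v : ℕ → ℝ) (k : ℕ), (∀ i, 0 ≤ u i) → (∀ i, 0 ≤ v i) → 1 ≤ k →
  Real.negMulLog (u k) + Real.negMulLog (v k) ≤
    Real.negMulLog (min (Ps u k) (Ps v k) - min (Ps u (k - 1)) (Ps v (k - 1))) +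
    Real.negMulLog (max (Ps u k) (Ps v k) - max (Ps u (k - 1)) (Ps v (k - 1)))

/-- GIJ: cancellation of the conditional probabilities. `q ∣ r`, `f x y ≥ 0` depends only on `x` mod
`r` and on `y` mod `q`. For fixed `δ` the average over `x ∈ K δ` of `h(x) / Pr (K δ) r x`, `h`
depending on `x` mod `r`, is the sum of `h` over the classes mod `r` which meet `K δ`; then the
average over `δ ∈ D` of `F(δ) / Pr D q δ`, `F` depending on `δ` mod `q`, is the sum of `F` over the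
classes mod `q` which meet `D`. -/
def Stmt_GIJ : Prop := ∀ (X D : Finset ℤ) (K : ℤ → Finset ℤ) (μ : ℤ → ℝ) (q r : ℕ)
  (f : ℤ → ℤ → ℝ), 1 ≤ q → q ∣ r → 1 ≤ r → (∀ x, 0 ≤ μ x) → (∀ x y, 0 ≤ f x y) →
  (∀ x x' y y' : ℤ, (r : ℤ) ∣ x - x' → (q : ℤ) ∣ y - y' → f x y = f x' y') → D.Nonempty →
  (∀ δ ∈ D, (K δ).Nonempty ∧ ∀ x ∈ K δ, x ∈ X ∧ x + δ ∈ X) →
  (∑ δ ∈ D, (∑ x ∈ K δ, f x (x + δ) * (Ms X μ r x * Ms X μ q (x + δ)) /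
      (Pr (K δ) r x * Pr D q δ)) / (K δ).card) / D.card ≤
    ∑ x ∈ X, ∑ y ∈ X, μ x * μ y * f x y

/-- GIJ2: the same with the roles of `x` and `y = x + δ` exchanged (apply GIJ to `-D`,
`K' δ' = K (-δ') + (-δ')`): `f x y` depends only on `x` mod `q` and on `y` mod `r` -/
def Stmt_GIJ2 : Prop := ∀ (X D : Finset ℤ) (K : ℤ → Finset ℤ) (μ : ℤ → ℝ) (q r : ℕ)
  (f : ℤ → ℤ → ℝ), 1 ≤ q → q ∣ r → 1 ≤ r → (∀ x, 0 ≤ μ x) → (∀ x y, 0 ≤ f x y) →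
  (∀ x x' y y' : ℤ, (q : ℤ) ∣ x - x' → (r : ℤ) ∣ y - y' → f x y = f x' y') → D.Nonempty →
  (∀ δ ∈ D, (K δ).Nonempty ∧ ∀ x ∈ K δ, x ∈ X ∧ x + δ ∈ X) →
  (∑ δ ∈ D, (∑ x ∈ K δ, f x (x + δ) * (Ms X μ q x * Ms X μ r (x + δ)) /
      (Pr (K δ) r x * Pr D q δ)) / (K δ).card) / D.card ≤
    ∑ x ∈ X, ∑ y ∈ X, μ x * μ y * f x y

/-- XPR: the energies as averages of probabilities, and the potential as a sum of masses -/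
def Stmt_XPR : Prop := ∀ (p L : ℕ), 1 ≤ p →
  (∀ K : Finset ℤ, K.Nonempty →
    Xe p L K = (∑ x ∈ K, ∑ i ∈ Icc 1 L, Pr K (p ^ i) x) / K.card) ∧
  (∀ (X : Finset ℤ) (μ : ℤ → ℝ) (x : ℤ),
    ∑ y ∈ X, (tv p L (x - y) : ℝ) * μ y = ∑ i ∈ Icc 1 L, Ms X μ (p ^ i) x) ∧
  (∀ (K : Finset ℤ) (q : ℕ) (x : ℤ), x ∈ K → 0 < Pr K q x ∧ Pr K q x ≤ 1) ∧
  (∀ (X : Finset ℤ) (μ : ℤ → ℝ) (q : ℕ) (x x' : ℤ), (q : ℤ) ∣ x - x' → Ms X μ q x = Ms X μ q x')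

/-- GPR: Proposition G (3.4). For `δ ∈ D`, `x ∈ K δ`, `y = x + δ` let `u i = Ms X μ (p^i) x`,
`v j = Ms X μ (p^j) y` (both sum to `θ` over `Icc 1 L`), `C = Cm (Ps u) (Ps v)`. Use
`t ≥ s (1 + log (t / s))` for `t = lam * Pr (K δ) (p^k) x`, `s = s_k`, and for
`t = Pr D (p^k) δ / lam`, `s = t_k`; COUP, ENT; `log r ≤ r - 1`; GIJ for `i ≥ j`, GIJ2 for `i < j`
(`C i j` depends only on the class of `x` mod `p^i` and of `y` mod `p^j`). -/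
def Stmt_GPR : Prop := ∀ (X D : Finset ℤ) (K : ℤ → Finset ℤ) (p L : ℕ) (μ : ℤ → ℝ) (θ : ℝ),
  2 ≤ p → IsEq X p L μ θ → D.Nonempty →
  (∀ δ ∈ D, (K δ).Nonempty ∧ ∀ x ∈ K δ, x ∈ X ∧ x + δ ∈ X) →
  ∀ lam : ℝ, 0 < lam → 2 * θ ≤ lam * Xav p L D K + Xe p L D / lam

/-! ### 3.5: Proposition LL -/

/-- SUMS: growth of sets of characters: in `ZMod (p ^ i)` (`p` prime, `i ≥ 1`), if `0 ∈ B`, `-B = B`,
`B` is not `{0}` and `B + B ⊆ B'`, then `|B'| ≥ (3/2) |B|` or `B'` contains all `b p^(i-1)`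
(`Finset.invMulSubgroup` or its additive version in `Mathlib.Combinatorics.Additive.VerySmallDoubling`:
if `|B + B| < (3/2) |B|` then `B - B = B + B` is a subgroup; a subgroup `≠ 0` of `ZMod (p ^ i)`
contains the subgroup of order `p`). -/
def Stmt_SUMS : Prop := ∀ (p i : ℕ) [NeZero p], p.Prime → 1 ≤ i →
  ∀ B B' : Finset (ZMod (p ^ i)), 0 ∈ B → (∀ x ∈ B, -x ∈ B) → (∃ x ∈ B, x ≠ 0) →
    (∀ x ∈ B, ∀ y ∈ B, x + y ∈ B') →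
    (3 : ℝ) / 2 * B.card ≤ B'.card ∨ ∀ b : ZMod (p ^ i), b * (p : ZMod (p ^ i)) ^ (i - 1) ∈ B'

/-- FOUR: Fourier analysis on `ZMod n`: real weights `μ`, `π`; `c a = Re ∑ π δ e(a δ / n)`,
`M a = |∑ μ x e(a x / n)|^2`, `R a = |∑ π x e(a x / n)|^2`. Parseval (three times), the triangle
inequality (`|1 - z w|^2 ≤ 2 |1 - z|^2 + 2 |1 - w|^2`), orthogonality for the last item.
(`ZMod.dft`, or the characters `ZMod.stdAddChar`.) -/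
def Stmt_FOUR : Prop := ∀ (n : ℕ) [NeZero n] (μ π : ZMod n → ℝ), (∀ x, 0 ≤ μ x) → (∀ x, 0 ≤ π x) →
  ∑ x, μ x = 1 → ∑ x, π x = 1 → ∃ (c M R : ZMod n → ℝ),
    (∀ a, c a ≤ 1) ∧ c 0 = 1 ∧ (∀ a, c (-a) = c a) ∧ (∀ a, 0 ≤ M a ∧ M a ≤ 1) ∧ M 0 = 1 ∧
    (∀ a, (c a) ^ 2 ≤ R a) ∧
    (∀ a b, 1 - c (a + b) ≤ 2 * (1 - c a) + 2 * (1 - c b)) ∧
    ∑ a, M a = n * ∑ x, (μ x) ^ 2 ∧ ∑ a, R a = n * ∑ x, (π x) ^ 2 ∧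
    ∑ a, M a * (2 * (1 - c a)) = n * ∑ δ, π δ * ∑ x, (μ (x + δ) - μ x) ^ 2 ∧
    (∀ r : ZMod n, ∑ a, c (a * r) =
      n * ∑ δ ∈ (Finset.univ : Finset (ZMod n)).filter (fun δ => δ * r = 0), π δ)

/-- LL1: one level (3.5). `κ = ∑ μ^2 - 1/p^i > 0`. With `t = 48 η`: `{c ≥ 1 - t}` has at least
`n κ / 2` nonzero elements, `{c ≥ 1/2}` has at most `4 n ∑ π^2` elements; SUMS along
`t, 4 t, 16 t, ..`; in the second case of SUMS `c (b p^(i-1)) ≥ 1/2` for all `b`, and the sum over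
`b` mod `p` is `p` times the `π`-mass of the multiples of `p`. -/
def Stmt_LL1 : Prop := ∀ C₁ : ℝ, 0 < C₁ → ∃ e : ℝ, 0 < e ∧ ∀ (p i : ℕ) [NeZero p],
  p.Prime → 1 ≤ i → ∀ μ π : ZMod (p ^ i) → ℝ, (∀ x, 0 ≤ μ x) → (∀ x, 0 ≤ π x) →
    ∑ x, μ x = 1 → ∑ x, π x = 1 →
    0 < ∑ x, (μ x) ^ 2 - 1 / (p : ℝ) ^ i →
    ∑ δ, π δ * ∑ x, (μ (x + δ) - μ x) ^ 2 ≤ e * (∑ x, (μ x) ^ 2 - 1 / (p : ℝ) ^ i) →
    ∑ δ, (π δ) ^ 2 ≤ C₁ * (∑ x, (μ x) ^ 2 - 1 / (p : ℝ) ^ i) →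
    1 / 2 ≤ ∑ δ ∈ (Finset.univ : Finset (ZMod (p ^ i))).filter
      (fun δ => δ * (p : ZMod (p ^ i)) ^ (i - 1) = 0), π δ

/-- LLD: the quantities of the levels; `ν` is the uniform weight on `D`. The third and the fourth
items: `tv p L (x - y)` counts the levels at which `x` and `y` are in the same class. The fifth: for
`δ ∈ D` let `ν_δ` be uniform on `K δ`; by ENG the energies of `ν_δ - μ` and of (`ν_δ` translated by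
`δ`) `- μ` are both `Xe p L (K δ) - θ`, and `(s + t)^2 ≤ 2 s^2 + 2 t^2` for each class. The last:
the multiples of `p` in `D` have proportion at least `1/2`, so the level `1` contributes at least
`1/4` to `Xe p L D`. -/
def Stmt_LLD : Prop := ∀ (X D : Finset ℤ) (K : ℤ → Finset ℤ) (p L : ℕ) [NeZero p] (μ : ℤ → ℝ)
  (θ : ℝ), 2 ≤ p → IsEq X p L μ θ → D.Nonempty →
  (∀ δ ∈ D, (K δ).Nonempty ∧ ∀ x ∈ K δ, x ∈ X ∧ x + δ ∈ X) →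
  (∀ (i : ℕ) (c : ZMod (p ^ i)), 0 ≤ Mz X μ (p ^ i) c ∧
    0 ≤ Mz D (fun _ => 1 / (D.card : ℝ)) (p ^ i) c) ∧
  (∀ i : ℕ, ∑ c : ZMod (p ^ i), Mz X μ (p ^ i) c = 1 ∧
    ∑ c : ZMod (p ^ i), Mz D (fun _ => 1 / (D.card : ℝ)) (p ^ i) c = 1) ∧
  ∑ i ∈ Icc 1 L, ∑ c : ZMod (p ^ i), (Mz X μ (p ^ i) c) ^ 2 = θ ∧
  ∑ i ∈ Icc 1 L, ∑ c : ZMod (p ^ i), (Mz D (fun _ => 1 / (D.card : ℝ)) (p ^ i) c) ^ 2 =
    Xe p L D ∧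
  ∑ i ∈ Icc 1 L, ∑ δ : ZMod (p ^ i), Mz D (fun _ => 1 / (D.card : ℝ)) (p ^ i) δ *
    ∑ c : ZMod (p ^ i), (Mz X μ (p ^ i) (c + δ) - Mz X μ (p ^ i) c) ^ 2 ≤
      4 * (Xav p L D K - θ) ∧
  (∀ i ∈ Icc 1 L, 1 / 2 ≤ ∑ δ ∈ (Finset.univ : Finset (ZMod (p ^ i))).filter
      (fun δ => δ * (p : ZMod (p ^ i)) ^ (i - 1) = 0),
        Mz D (fun _ => 1 / (D.card : ℝ)) (p ^ i) δ → 1 / 4 ≤ Xe p L D)

/-- LLP: Proposition LL (3.5), from GPR, LLD, LL1 (with `C₁ = 24`, `η₁` small):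
if `X + Y < (2 + η₁) θ` then (GPR with `lam` chosen, or `X Y ≥ θ^2`) `X, Y ≤ (1 + η) θ`,
`η = 2 √η₁`; `∑ d ≤ 4 η θ`, `∑ y ≤ 2 θ`, `∑ (t i - p^{-i}) ≥ θ - 1/(p-1) ≥ θ/3`, so for some level
`i`, with `κ = t i - p^{-i} > 0`: `d i ≤ 48 η κ`, `y i ≤ 24 κ`; LL1 gives `Xe p L D ≥ 1/4`, but
`Xe p L D ≤ (1 + η) θ < 1/4`. -/
def Stmt_LLP : Prop := ∃ η₁ : ℝ, 0 < η₁ ∧ η₁ ≤ 1 ∧ ∀ (X D : Finset ℤ) (K : ℤ → Finset ℤ)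
  (p L : ℕ) (μ : ℤ → ℝ) (θ : ℝ), p.Prime → IsEq X p L μ θ → D.Nonempty →
  (∀ δ ∈ D, (K δ).Nonempty ∧ ∀ x ∈ K δ, x ∈ X ∧ x + δ ∈ X) →
  3 / 2 / ((p : ℝ) - 1) ≤ θ → θ < 1 / 5 → (2 + η₁) * θ ≤ Xav p L D K + Xe p L D

/-! ### 3.6: the weight of the good primes -/

/-- WT1: `∑_{p ∈ PA a N P₂} log p / (p - 1) ≤ log P₂ + C log l` (`stmt_MERD` of `cvx` with
`D = D_{P₂}`, `X = C₀ P₂ l + 1`) -/
def Stmt_WT1 : Prop := ∀ (a : ℕ → ℤ) (k₀ : ℕ) (C₀ : ℝ), Dat a k₀ C₀ → ∃ (C : ℝ) (N₀ : ℕ), 0 ≤ C ∧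
  ∀ N P₂ : ℕ, N₀ ≤ N → 2 ≤ P₂ → P₂ ≤ N →
    ∑ p ∈ PA a N P₂, Real.log p / ((p : ℝ) - 1) ≤ Real.log P₂ + C * Real.log (el N)

/-- WT2: the small primes (THU, TRANS with `Q` = the primes of `PA a N P₂` up to `N^c`,
`k = ⌊N^c⌋ l^2`, GGB; `∑ log p Lv ≤ N` by LVL) -/
def Stmt_WT2 : Prop := ∀ (a : ℕ → ℤ) (k₀ : ℕ) (C₀ κ c : ℝ), Dat a k₀ C₀ → 0 ≤ κ → 0 < c →
  c ≤ 1 / 4 → ∃ N₀ : ℕ, ∀ n N : ℕ, N₀ ≤ N → 2 * N ≤ n → n ≤ 2 * N + 1 → LRec a κ n →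
    ∀ (P₂ : ℕ) (μ : ℕ → ℤ → ℝ) (θ : ℕ → ℝ), 1 ≤ P₂ → P₂ * el N ^ 6 ≤ N →
      (∀ p ∈ PA a N P₂, IsEq (A a N) p (Lv C₀ a N (P₂ * el N ^ 3) p) (μ p) (θ p)) →
      ∑ p ∈ (PA a N P₂).filter (fun p : ℕ => (p : ℝ) ≤ (N : ℝ) ^ c), Real.log p * θ p ≤
        2 * C₀ * c * Real.log N

/-- WT3: the large primes with `θ ≥ 1/5` have bounded weight. `V = 2 C₀ / c`, `k = ⌈12 V⌉ + 1`
constant; `w_p(N) ≥ N/6` (THU, LVL); `w_p(k) = 0` for large `N` since the differences of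
`a_0, .., a_k` are fixed; `∑_{j < k} vl p a i j ≤ V` for every `i < N` (VLM, PAD, `p > N^c`), so the
sum of the defects at `N` of the `j < k` is at least `k w_p(N) - N V ≥ k w_p(N) / 2`; LRD;
`θ ≤ 2 w_p(N)/N`. -/
def Stmt_WT3 : Prop := ∀ (a : ℕ → ℤ) (k₀ : ℕ) (C₀ κ c : ℝ), Dat a k₀ C₀ → 0 ≤ κ → 0 < c →
  ∃ (C : ℝ) (N₀ : ℕ), 0 ≤ C ∧ ∀ n N : ℕ, N₀ ≤ N → 2 * N ≤ n → n ≤ 2 * N + 1 → LRec a κ n →
    ∀ (P₂ : ℕ) (μ : ℕ → ℤ → ℝ) (θ : ℕ → ℝ), 1 ≤ P₂ → P₂ * el N ^ 6 ≤ N →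
      (∀ p ∈ PA a N P₂, IsEq (A a N) p (Lv C₀ a N (P₂ * el N ^ 3) p) (μ p) (θ p)) →
      ∑ p ∈ (PA a N P₂).filter (fun p : ℕ => (N : ℝ) ^ c < (p : ℝ) ∧ 1 / 5 ≤ θ p), Real.log p * θ p ≤ C

/-- WTG: the weight of the good primes (WT1, WT2, WT3, THG): with `Θ` the total weight,
`Θ ≥ g(P₂) ≥ 2 log P₂`, the primes with `θ < (3/2)/(p-1)` carry at most
`(3/2)(log P₂ + C log l) ≤ (3/4) Θ + ..`, the others as in WT2, WT3 with `c = β/(32 C₀)` -/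
def Stmt_WTG : Prop := ∀ (a : ℕ → ℤ) (k₀ : ℕ) (C₀ κ β : ℝ), Dat a k₀ C₀ → 0 ≤ κ → 0 < β → β ≤ 1 →
  Slo a 2 → ∃ N₀ : ℕ, ∀ n N : ℕ, N₀ ≤ N → 2 * N ≤ n → n ≤ 2 * N + 1 → LRec a κ n →
    ∀ (P₂ : ℕ) (μ : ℕ → ℤ → ℝ) (θ : ℕ → ℝ), P₂ * el N ^ 6 ≤ N → β * Real.log N ≤ Real.log P₂ →
      (∀ p ∈ PA a N P₂, IsEq (A a N) p (Lv C₀ a N (P₂ * el N ^ 3) p) (μ p) (θ p)) →
      (∑ p ∈ PA a N P₂, Real.log p * θ p) / 8 ≤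
        ∑ p ∈ (PA a N P₂).filter (fun p : ℕ => 3 / 2 / ((p : ℝ) - 1) ≤ θ p ∧ θ p < 1 / 5),
          Real.log p * θ p

/-! ### 3.7: the end -/

/-- SCL: the scales of section 3 (DYA with `H = ⌊exp (g(P') + e₅ log N)⌋`, GGB, GLOW).
`k`, `D` from DYA, `P₂ = |D| / l^6`; `|D| ≥ η N m / (8 l k)`, `|D| ≤ H ≤ N^(1/4)`, so `k ≥ N^(1/2)`;
`P₂ ≥ m / l^8`; for the lower bound of `g(P₂)`: GLOW if `P₂ ≥ l P'`; otherwise `log N - log k` is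
`O(log l)` and `g(P₂) ≥ g(m / l^9) - C₀ ≥ g(P') - e₃ log N - C₀` (`sel1`, GGB). -/
def Stmt_SCL : Prop := ∀ (a : ℕ → ℤ) (k₀ : ℕ) (C₀ κ b β₁ β₂ e₃ e₅ e₇ e₈ η : ℝ) (K J : ℕ),
  Dat a k₀ C₀ → 0 ≤ b → 0 < β₁ → C₀ * β₂ ≤ 1 / 8 → 0 < e₃ → 0 < e₅ → e₅ ≤ 1 / 16 → 1 ≤ K → 0 < η →
  ∃ (C : ℝ) (N₀ : ℕ), 0 ≤ C ∧ ∀ n N R m : ℕ, N₀ ≤ N →
    Fr a k₀ κ b β₁ β₂ e₃ e₇ e₈ K J n N R m →
    η * N ≤ cnt a k₀ N m (gg a (P1 K m N) + e₅ * Real.log N) →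
    ∃ (k P₂ H : ℕ) (D : Finset ℤ), 1 ≤ P₂ ∧ 1 ≤ k ∧ k ≤ N ∧ 1 ≤ H ∧ D ⊆ Finset.Icc 1 (H : ℤ) ∧
      D.Nonempty ∧ (∀ δ ∈ D, k ≤ (Kd a N δ).card) ∧
      P₂ * el N ^ 6 ≤ D.card ∧ P₂ * el N ^ 6 ≤ k ∧ P₂ * el N ^ 6 ≤ N ∧
      Real.log H ≤ gg a (P1 K m N) + e₅ * Real.log N ∧
      β₁ / 2 * Real.log N ≤ Real.log P₂ ∧
      gg a (P1 K m N) + b * (Real.log N - Real.log k) - e₃ * Real.log N -
        C * Real.log (el N) ≤ gg a P₂ ∧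
      Real.log N - Real.log k ≤ gg a (P1 K m N) + e₅ * Real.log N + C * Real.log (el N)

/-- PART2: many minimal windows are impossible (3.1 - 3.7). -/
def Stmt_PART2 : Prop := ∃ η₁ : ℝ, 0 < η₁ ∧ η₁ ≤ 1 ∧
  ∀ (a : ℕ → ℤ) (k₀ : ℕ) (C₀ κ b β₁ β₂ e₃ e₅ e₇ e₈ η : ℝ) (K J : ℕ), Dat a k₀ C₀ → 2 < b →
  b ≤ κ → κ - b ≤ η₁ / 32 → Slo a 2 → 0 < β₁ → β₁ ≤ 1 → C₀ * β₂ ≤ 1 / 8 → 0 < e₃ → 0 < e₅ →
  e₃ + e₅ ≤ η₁ * β₁ / 64 → 1 ≤ K → 0 < η → ∃ N₀ : ℕ,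
    ∀ n N R m : ℕ, N₀ ≤ N → Fr a k₀ κ b β₁ β₂ e₃ e₇ e₈ K J n N R m →
      ¬ η * N ≤ cnt a k₀ N m (gg a (P1 K m N) + e₅ * Real.log N)

/-- MAIN: the theorem for sets bounded below -/
def Stmt_MAIN : Prop := ∀ S : Set ℤ, BddBelow S → LowExponent S → ¬ HasSimultaneousOrdering S

end Pool.Agent.Work.MP_b29d7f_low
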