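import Pool.Agent.Work.MP_b29d7f_low.Interface3

/-!
# Reflection: sets bounded above
-/

namespace Pool.Agent.Work.MP_b29d7f_low

open Finset
open Pool.Agent.Work.MP_b29d7f_nt (IsPOrdering HasSimultaneousOrdering)

/-- the reflected set -/
def Rf (S : Set ℤ) : Set ℤ := {x : ℤ | -x ∈ S}

theorem rf_ncard (S : Set ℤ) (x : ℕ) :
    (Rf S ∩ Set.Icc (-(x : ℤ)) x).ncard = (S ∩ Set.Icc (-(x : ℤ)) x).ncard := by
  have h : Rf S ∩ Set.Icc (-(x : ℤ)) x = (fun y : ℤ => -y) '' (S ∩ Set.Icc (-(x : ℤ)) x) := by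
    ext y
    simp only [Rf, Set.mem_inter_iff, Set.mem_setOf_eq, Set.mem_Icc, Set.mem_image]
    constructor
    · rintro ⟨h1, h2, h3⟩
      exact ⟨-y, ⟨h1, by omega, by omega⟩, by omega⟩
    · rintro ⟨z, ⟨h1, h2, h3⟩, rfl⟩
      refine ⟨by simpa using h1, by omega, by omega⟩
  rw [h]
  exact Set.ncard_image_of_injective _ neg_injective

theorem rf_low {S : Set ℤ} (h : LowExponent S) : LowExponent (Rf S) := by
  obtain ⟨c, ε, hc, hε, x₀, hx₀⟩ := h
  refine ⟨c, ε, hc, hε, x₀, fun x hx => ?_⟩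
  rw [rf_ncard]
  exact hx₀ x hx

theorem rf_prod (a : ℕ → ℤ) (k : ℕ) (s : ℤ) :
    ∏ i ∈ Finset.range k, (s - -a i) = (-1) ^ k * ∏ i ∈ Finset.range k, (-s - a i) := by
  have h : ∀ i ∈ Finset.range k, s - -a i = (-1) * (-s - a i) := fun i _ => by ring
  rw [Finset.prod_congr rfl h, Finset.prod_mul_distrib, Finset.prod_const, Finset.card_range]

theorem rf_emul (p : ℕ) (k : ℕ) (z : ℤ) :
    emultiplicity (p : ℤ) ((-1) ^ k * z) = emultiplicity (p : ℤ) z := by
  rcases neg_one_pow_eq_or ℤ k with h | h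
  · rw [h, one_mul]
  · rw [h, neg_one_mul, emultiplicity_neg]

theorem rf_ord {S : Set ℤ} (h : HasSimultaneousOrdering S) : HasSimultaneousOrdering (Rf S) := by
  obtain ⟨a, ha⟩ := h
  refine ⟨fun k => -a k, fun p hp => ⟨fun k => ?_, fun k s hs => ?_⟩⟩
  · have := (ha p hp).1 k
    simpa [Rf] using this
  · have h1 := (ha p hp).2 k (-s) hs
    rw [rf_prod, rf_prod, rf_emul, rf_emul]
    have e : -(-a k) = a k := by ring
    rw [e]
    exact h1

theorem rf_bdd {S : Set ℤ} (h : BddAbove S) : BddBelow (Rf S) := by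
  obtain ⟨M, hM⟩ := h
  refine ⟨-M, fun x hx => ?_⟩
  have := hM hx
  omega

/-- the theorem for sets bounded below or above -/
theorem of_main (h : Stmt_MAIN) {S : Set ℤ} (hb : BddBelow S ∨ BddAbove S)
    (hl : LowExponent S) : ¬ HasSimultaneousOrdering S := by
  rcases hb with hb | hb
  · exact h S hb hl
  · exact fun ho => h (Rf S) (rf_bdd hb) (rf_low hl) (rf_ord ho)

end Pool.Agent.Work.MP_b29d7f_low
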